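import Pool.Agent.X281.OB.Tw

/-!
# Adjoining two elements, and twists
-/

set_option autoImplicit false
set_option linter.all false

namespace Pool.Agent.X281.OB

open Polynomial FF Pool.Agent.Y157.PS Pool.Agent.X281.FL

section adj

variable {κ Ω : Type} [Field κ] [Field Ω] [Algebra κ Ω]

theorem adj_mem_c (U V : Ω) (c : κ) : algebraMap κ Ω c ∈
    IntermediateField.adjoin (IntermediateField.adjoin κ {U}) {V} :=
  IntermediateField.algebraMap_mem _ (algebraMap κ (IntermediateField.adjoin κ {U}) c)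

theorem adj_mem_U (U V : Ω) : U ∈
    IntermediateField.adjoin (IntermediateField.adjoin κ {U}) {V} :=
  IntermediateField.algebraMap_mem _
    (⟨U, IntermediateField.mem_adjoin_simple_self κ U⟩ : IntermediateField.adjoin κ {U})

theorem adj_mem_V (U V : Ω) : V ∈
    IntermediateField.adjoin (IntermediateField.adjoin κ {U}) {V} :=
  IntermediateField.mem_adjoin_simple_self _ _

theorem adj_le2 (U V : Ω) (T : Subfield Ω) (hκ : ∀ c : κ, algebraMap κ Ω c ∈ T) (hU : U ∈ T)
    (hV : V ∈ T) (z : Ω) (hz : z ∈ IntermediateField.adjoin (IntermediateField.adjoin κ {U}) {V}) :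
    z ∈ T := by
  refine adjoin_le_sub (T := T) (fun r => ?_) (fun s hs => ?_) z hz
  · refine adjoin_le_sub (T := T) hκ (fun s hs => ?_) (r : Ω) r.2
    rw [Set.mem_singleton_iff.1 hs]
    exact hU
  · rw [Set.mem_singleton_iff.1 hs]
    exact hV

theorem adj_tw (U V u v : Ω) (c' c : κ) (hU : U = algebraMap κ Ω c' * u) (hc' : c' ≠ 0)
    (hV : V = algebraMap κ Ω c * v) (z : Ω) :
    z ∈ IntermediateField.adjoin (IntermediateField.adjoin κ {u}) {algebraMap κ Ω c * v} ↔
      z ∈ IntermediateField.adjoin (IntermediateField.adjoin κ {U}) {V} := by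
  rw [← hV]
  have hc'' : algebraMap κ Ω c' ≠ 0 := (_root_.map_ne_zero _).2 hc'
  constructor
  · refine adj_le2 u V (IntermediateField.adjoin (IntermediateField.adjoin κ {U}) {V}).toSubfield
      (adj_mem_c U V) ?_ (adj_mem_V U V) z
    have h1 : u = (algebraMap κ Ω c')⁻¹ * U := by rw [hU, inv_mul_cancel_left₀ hc'']
    have h2 : (algebraMap κ Ω c')⁻¹ * U ∈
        (IntermediateField.adjoin (IntermediateField.adjoin κ {U}) {V}).toSubfield :=
      mul_mem (inv_mem (adj_mem_c U V c')) (adj_mem_U U V)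
    rw [← h1] at h2
    exact h2
  · refine adj_le2 U V (IntermediateField.adjoin (IntermediateField.adjoin κ {u}) {V}).toSubfield
      (adj_mem_c u V) ?_ (adj_mem_V u V) z
    have h2 : algebraMap κ Ω c' * u ∈
        (IntermediateField.adjoin (IntermediateField.adjoin κ {u}) {V}).toSubfield :=
      mul_mem (adj_mem_c u V c') (adj_mem_U u V)
    rw [← hU] at h2
    exact h2

theorem maxPro_set {ℓ : ℕ} {R₁ R₂ : Type} [Field R₁] [Field R₂] [Algebra R₁ Ω] [Algebra R₂ Ω]
    (K₁ : IntermediateField R₁ Ω) (K₂ : IntermediateField R₂ Ω) (h : ∀ z, z ∈ K₁ ↔ z ∈ K₂)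
    (z : Ω) : z ∈ maxPro ℓ κ K₁ Ω ↔ z ∈ maxPro ℓ κ K₂ Ω := by
  let e : K₁ ≃+* K₂ :=
    { toFun := fun w => ⟨w.1, (h _).1 w.2⟩
      invFun := fun w => ⟨w.1, (h _).2 w.2⟩
      left_inv := fun w => rfl
      right_inv := fun w => rfl
      map_mul' := fun w w' => rfl
      map_add' := fun w w' => rfl }
  exact maxPro_congr e (fun a => rfl) (fun W => Iff.rfl) z

end adj

section geo

variable {k F Ω : Type} [Field k] [CharZero k] [Field F] [Field Ω] [Algebra k F] [Algebra F Ω]
  [Algebra k Ω] [IsScalarTower k F Ω] [IsAlgClosed Ω]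

/-- the covering field in terms of twisted generators -/
theorem geomPro_gen {ℓ : ℕ} (u v : F)
    (hF : IntermediateField.adjoin k {u, v} = (⊤ : IntermediateField k F)) (U V : Ω)
    (c' c : algebraicClosure k Ω) (hc' : c' ≠ 0) (hc : c ≠ 0)
    (hU : U = (c' : Ω) * algebraMap F Ω u) (hV : V = (c : Ω) * algebraMap F Ω v) (z : Ω) :
    z ∈ geomPro ℓ k F Ω ↔ z ∈ maxPro ℓ (algebraicClosure k Ω)
      (IntermediateField.adjoin (IntermediateField.adjoin (algebraicClosure k Ω) {U}) {V}) Ω := by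
  rw [← maxPro_geom ℓ k hF c hc z]
  exact maxPro_set _ _ (adj_tw U V (algebraMap F Ω u) (algebraMap F Ω v) c' c hU hc' hV) z

end geo

end Pool.Agent.X281.OB
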