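import Pool.Agent.X281.OB.Ferm

/-!
# The set of `ℓ`-th roots of the elements of a finite set, and the covering fields of
`κ(x, Z)`, `Z ^ ℓ = x ^ a ∏ (x - b) ^ c(b)`, and `κ(U, Y)`, `U ^ ℓ = x`, `Y ^ ℓ = ∏ (x - b)`
-/

set_option autoImplicit false
set_option linter.all false

namespace Pool.Agent.X281.OB

open Polynomial FF Pool.Agent.Y157.PS Pool.Agent.Y948.PS

section bt

variable {κ : Type} [Field κ]

open Classical in
/-- the set of `ℓ`-th roots of the elements of a finite set -/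
noncomputable def bt (ℓ : ℕ) (B : Finset κ) : Finset κ := B.biUnion fun b => (nthRoots ℓ b).toFinset

theorem mem_bt {ℓ : ℕ} (hℓ : 0 < ℓ) (B : Finset κ) (e : κ) : e ∈ bt ℓ B ↔ e ^ ℓ ∈ B := by
  classical
  unfold bt
  rw [Finset.mem_biUnion]
  constructor
  · rintro ⟨b, hb, he⟩
    rw [Multiset.mem_toFinset, mem_nthRoots hℓ] at he
    rw [he]
    exact hb
  · intro h
    exact ⟨e ^ ℓ, h, by rw [Multiset.mem_toFinset, mem_nthRoots hℓ]⟩

variable [IsAlgClosed κ] [CharZero κ]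

open Classical in
theorem bt_fib {ℓ : ℕ} [hp : Fact ℓ.Prime] (B : Finset κ) {b e₀ : κ} (hb : b ∈ B) (he : e₀ ^ ℓ = b)
    (h0 : e₀ ≠ 0) :
    (bt ℓ B).filter (fun e => e ^ ℓ = b) = (nthRootsFinset ℓ (1 : κ)).image fun ζ => ζ * e₀ := by
  ext e
  rw [Finset.mem_filter, mem_bt hp.out.pos, Finset.mem_image]
  constructor
  · rintro ⟨-, h2⟩
    refine ⟨e / e₀, ?_, div_mul_cancel₀ _ h0⟩
    rw [mem_nthRootsFinset hp.out.pos, div_pow, h2, he, div_self]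
    rw [← he]
    exact pow_ne_zero _ h0
  · rintro ⟨ζ, hζ, rfl⟩
    rw [mem_nthRootsFinset hp.out.pos] at hζ
    rw [mul_pow, hζ, one_mul, he]
    exact ⟨hb, rfl⟩

open Classical in
theorem bt_prod_fib {ℓ : ℕ} [hp : Fact ℓ.Prime] {M : Type} [Field M] [Algebra κ M]
    (B : Finset κ) (h0 : (0 : κ) ∉ B) {b : κ} (hb : b ∈ B) (U : M) :
    ∏ e ∈ (bt ℓ B).filter (fun e => e ^ ℓ = b), (U - algebraMap κ M e) =
      U ^ ℓ - algebraMap κ M b := by
  obtain ⟨e₀, he⟩ := IsAlgClosed.exists_pow_nat_eq b hp.out.pos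
  have he0 : e₀ ≠ 0 := by
    rintro rfl
    rw [zero_pow hp.out.ne_zero] at he
    exact h0 (he ▸ hb)
  rw [bt_fib B hb he he0, Finset.prod_image fun a _ b _ h => mul_right_cancel₀ he0 h]
  haveI : NeZero ℓ := ⟨hp.out.ne_zero⟩
  obtain ⟨ζ, hζ⟩ := HasEnoughRootsOfUnity.exists_primitiveRoot κ ℓ
  have he0' : algebraMap κ M e₀ ≠ 0 := (_root_.map_ne_zero _).2 he0
  have h1 := Pool.Agent.Y158.FQ.prod_mu ℓ (κ := κ) (U / algebraMap κ M e₀)
  have h2 : ∀ z ∈ nthRootsFinset ℓ (1 : κ), U - algebraMap κ M (z * e₀) =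
      algebraMap κ M e₀ * (U / algebraMap κ M e₀ - algebraMap κ M z) := by
    intro z _
    rw [map_mul]
    field_simp
  rw [Finset.prod_congr rfl h2, Finset.prod_mul_distrib, Finset.prod_const,
    hζ.card_nthRootsFinset, h1, div_pow, ← he, map_pow]
  field_simp

theorem bt_prod {ℓ : ℕ} [hp : Fact ℓ.Prime] {M : Type} [Field M] [Algebra κ M]
    (B : Finset κ) (h0 : (0 : κ) ∉ B) (c : κ → ℕ) (U : M) :
    ∏ e ∈ bt ℓ B, (U - algebraMap κ M e) ^ c (e ^ ℓ) =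
      ∏ b ∈ B, (U ^ ℓ - algebraMap κ M b) ^ c b := by
  classical
  rw [← Finset.prod_fiberwise_of_maps_to (s := bt ℓ B) (t := B) (g := fun e => e ^ ℓ)
    (fun e he => (mem_bt hp.out.pos B e).1 he)]
  refine Finset.prod_congr rfl fun b hb => ?_
  rw [← bt_prod_fib B h0 hb U, ← Finset.prod_pow]
  refine Finset.prod_congr (by ext; simp) fun e he => ?_
  rw [(Finset.mem_filter.1 he).2]

theorem bt_sum {ℓ : ℕ} [hp : Fact ℓ.Prime] (B : Finset κ) (h0 : (0 : κ) ∉ B) (c : κ → ℕ) :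
    ∑ e ∈ bt ℓ B, c (e ^ ℓ) = ℓ * ∑ b ∈ B, c b := by
  classical
  haveI : NeZero ℓ := ⟨hp.out.ne_zero⟩
  obtain ⟨ζ, hζ⟩ := HasEnoughRootsOfUnity.exists_primitiveRoot κ ℓ
  rw [← Finset.sum_fiberwise_of_maps_to (s := bt ℓ B) (t := B) (g := fun e => e ^ ℓ)
    (fun e he => (mem_bt hp.out.pos B e).1 he), Finset.mul_sum]
  refine Finset.sum_congr rfl fun b hb => ?_
  obtain ⟨e₀, he⟩ := IsAlgClosed.exists_pow_nat_eq b hp.out.pos
  have he0 : e₀ ≠ 0 := by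
    rintro rfl
    rw [zero_pow hp.out.ne_zero] at he
    exact h0 (he ▸ hb)
  have h1 : ((bt ℓ B).filter (fun e => e ^ ℓ = b)).card = ℓ := by
    rw [bt_fib B hb he he0, Finset.card_image_of_injective _ fun a b h => mul_right_cancel₀ he0 h,
      hζ.card_nthRootsFinset]
  rw [Finset.sum_congr rfl fun e he => by rw [(Finset.mem_filter.1 he).2], Finset.sum_const,
    smul_eq_mul]
  congr 1

theorem bt_card {ℓ : ℕ} [hp : Fact ℓ.Prime] (B : Finset κ) (h0 : (0 : κ) ∉ B) :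
    (bt ℓ B).card = ℓ * B.card := by
  have := bt_sum (ℓ := ℓ) B h0 fun _ => 1
  simpa using this

end bt

section vals

variable {κ Ω : Type} [Field κ] [IsAlgClosed κ] [CharZero κ] [Field Ω] [Algebra κ Ω]

theorem val_pow_sub {ℓ : ℕ} [hp : Fact ℓ.Prime] (W : ValuationSubring Ω)
    (hκ : ∀ c : κ, algebraMap κ Ω c ∈ W) {U : Ω} {a : κ} (ha0 : a ≠ 0)
    (ha : W.valuation (U - algebraMap κ Ω a) < 1) :
    W.valuation (U ^ ℓ - algebraMap κ Ω (a ^ ℓ)) = W.valuation (U - algebraMap κ Ω a) := by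
  classical
  have haB : a ^ ℓ ∈ ({a ^ ℓ} : Finset κ) := Finset.mem_singleton_self _
  have h0 : (0 : κ) ∉ ({a ^ ℓ} : Finset κ) := by
    rw [Finset.mem_singleton]
    exact (pow_ne_zero _ ha0).symm
  rw [← bt_prod_fib (ℓ := ℓ) {a ^ ℓ} h0 haB U, map_prod]
  have hmem : a ∈ (bt ℓ ({a ^ ℓ} : Finset κ)).filter (fun e => e ^ ℓ = a ^ ℓ) := by
    rw [Finset.mem_filter, mem_bt hp.out.pos]
    exact ⟨haB, rfl⟩
  rw [← Finset.mul_prod_erase _ _ hmem, Finset.prod_eq_one, mul_one]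
  intro e he
  exact val_sub_ne W hκ ha (Finset.ne_of_mem_erase he)

theorem gen_vals {ℓ : ℕ} [hp : Fact ℓ.Prime] (B : Finset κ) (h0 : (0 : κ) ∉ B) (hne : B.Nonempty)
    (U Y : Ω) (hY : Y ^ ℓ = ∏ e ∈ bt ℓ B, (U - algebraMap κ Ω e))
    (hUt : Transcendental κ U) [hcl : IsAlgClosure (IntermediateField.adjoin κ {U}) Ω]
    (W : ValuationSubring Ω) (hκ : ∀ c : κ, algebraMap κ Ω c ∈ W) (hW : W ≠ ⊤) :
    ∃ π, Unf (IntermediateField.adjoin (IntermediateField.adjoin κ {U}) {Y}) W π ∧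
      ((∃ b ∈ B, W.valuation (U ^ ℓ - algebraMap κ Ω b) = W.valuation π ^ ℓ) ∨
       (W.valuation (U ^ ℓ) = W.valuation π ^ ℓ) ∨
       (∃ c : κ, c ≠ 0 ∧ c ∉ B ∧ W.valuation (U ^ ℓ - algebraMap κ Ω c) = W.valuation π) ∨
       (W.valuation (U ^ ℓ) = (W.valuation π ^ ℓ)⁻¹)) := by
  have hℓ0 : ℓ ≠ 0 := hp.out.ne_zero
  have hrat := ratF_adj hUt
  obtain ⟨b₀, hb₀⟩ := hne
  obtain ⟨e₁, he₁⟩ := IsAlgClosed.exists_pow_nat_eq b₀ hp.out.pos
  obtain ⟨π, hπ, hcase⟩ := unf_of_k0 (R := IntermediateField.adjoin κ {U}) (Y := Y) hrat (bt ℓ B)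
    (by rw [bt_card B h0]; exact dvd_mul_right _ _)
    ⟨e₁, (mem_bt hp.out.pos B e₁).2 (he₁ ▸ hb₀)⟩ hY W hκ hW
  refine ⟨π, hπ, ?_⟩
  have hlt := hπ.lt
  rcases hcase with ⟨e, he, h⟩ | ⟨a, ha, h⟩ | h
  · left
    rw [mem_bt hp.out.pos] at he
    have he0 : e ≠ 0 := by
      rintro rfl
      rw [zero_pow hℓ0] at he
      exact h0 he
    refine ⟨e ^ ℓ, he, ?_⟩
    have h1 : W.valuation (U - algebraMap κ Ω e) < 1 := by
      change W.valuation (algebraMap (IntermediateField.adjoin κ {U}) Ω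
        ⟨U, IntermediateField.mem_adjoin_simple_self κ U⟩ - algebraMap κ Ω e) < 1
      rw [h]
      exact pow_lt_one₀ zero_le hlt hℓ0
    rw [val_pow_sub W hκ he0 h1]
    exact h
  · right
    have h' : π = U - algebraMap κ Ω a := h
    rw [mem_bt hp.out.pos] at ha
    by_cases ha0 : a = 0
    · left
      rw [ha0, map_zero, sub_zero] at h'
      rw [h', map_pow]
    · right; left
      refine ⟨a ^ ℓ, pow_ne_zero _ ha0, ha, ?_⟩
      rw [val_pow_sub W hκ ha0 (by rw [← h']; exact hlt), h']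
  · right; right; right
    have h' : π = U⁻¹ := h
    rw [h', map_pow, map_inv₀, inv_pow, inv_inv]

end vals

end Pool.Agent.X281.OB
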