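import Pool.Agent.X281.OB.Sub

/-!
# The covering field of the Fermat curve inside the covering field
-/

set_option autoImplicit false
set_option linter.all false

namespace Pool.Agent.X281.OB

open Polynomial FF Pool.Agent.Y157.PS Pool.Agent.Y948.PS

section geo

variable {k F Ω : Type} [Field k] [CharZero k]
    [Field F] [Field Ω] [Algebra k F] [Algebra F Ω] [Algebra k Ω] [IsScalarTower k F Ω]
    [IsAlgClosed Ω] [Algebra.IsAlgebraic F Ω]

/-- `mob_glue` for odd `ℓ` and at least three branch points -/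
theorem mob_glue3 {ℓ : ℕ} [hℓ : Fact ℓ.Prime] (hodd : 3 ≤ ℓ) (B : Finset (algebraicClosure k Ω))
    (h3 : 3 ≤ B.card) (c : algebraicClosure k Ω → ℕ)
    (hc : ∀ e ∈ B, ¬ ℓ ∣ c e) (hsum : ℓ ∣ ∑ e ∈ B, c e)
    (δ : algebraicClosure k Ω) (hδ0 : δ ≠ 0) (x w : F) (hx : Transcendental k x)
    (hF : IntermediateField.adjoin k {x, w} = (⊤ : IntermediateField k F))
    (hZ : ((δ : Ω) * algebraMap F Ω w) ^ ℓ = ∏ e ∈ B, (algebraMap F Ω x - (e : Ω)) ^ c e)
    (υ b₁ b₂ : algebraicClosure k Ω) (hυ : υ ≠ 0) (h12 : b₁ ≠ b₂) (h1 : b₁ ∈ B) (h2 : b₂ ∈ B)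
    (T : Ω) (hT : T ^ ℓ * (algebraMap F Ω x - (b₂ : Ω)) =
      (υ : Ω) * (algebraMap F Ω x - (b₁ : Ω))) :
    ∃ (R M : Type) (_ : Field R) (_ : Field M) (_ : Algebra (algebraicClosure k Ω) R)
      (_ : Algebra R M) (_ : Algebra (algebraicClosure k Ω) M)
      (_ : IsScalarTower (algebraicClosure k Ω) R M) (x' : R) (Y : M)
      (eqv : M ≃+* geomPro ℓ k F Ω),
      Cov ℓ (algebraicClosure k Ω) R M x' (bt ℓ (mbB B υ b₁ b₂)) Y ∧
      (∀ c : algebraicClosure k Ω, ((eqv (algebraMap (algebraicClosure k Ω) M c) :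
        geomPro ℓ k F Ω) : Ω) = (c : Ω)) ∧
      ((eqv (algebraMap R M x') : geomPro ℓ k F Ω) : Ω) = T := by
  classical
  have hac : IsAlgClosure k (algebraicClosure k Ω) := inferInstance
  haveI hkb : IsAlgClosed (algebraicClosure k Ω) := hac.1
  haveI hch : CharZero (algebraicClosure k Ω) :=
    charZero_of_injective_algebraMap (algebraMap k (algebraicClosure k Ω)).injective
  obtain ⟨Y0, hY⟩ := IsAlgClosed.exists_pow_nat_eq
    (∏ e ∈ bt ℓ (mbB B υ b₁ b₂), (T - (e : Ω))) hℓ.out.pos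
  obtain ⟨hTκ, hclT, hgeo⟩ := mob_geo B (by omega) c hc hsum δ hδ0 x w hx hF hZ υ b₁ b₂ hυ h12 h1 h2
    T Y0 hT hY
  have hrat := ratF_adj hTκ
  have hcardB := mbB_card (B := B) hυ h12 h1 h2
  have hcard := bt_card (ℓ := ℓ) (mbB B υ b₁ b₂) (mbB_zero hυ)
  obtain ⟨M, hM⟩ : ∃ M : IntermediateField
      (IntermediateField.adjoin (algebraicClosure k Ω) {T}) Ω,
      ∀ z, z ∈ M ↔ z ∈ maxPro ℓ (algebraicClosure k Ω) (IntermediateField.adjoin
        (IntermediateField.adjoin (algebraicClosure k Ω) {T}) {Y0}) Ω :=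
    ⟨(maxPro ℓ (algebraicClosure k Ω) (IntermediateField.adjoin
        (IntermediateField.adjoin (algebraicClosure k Ω) {T}) {Y0})
        Ω).restrictScalars _, fun z => Iff.rfl⟩
  have hYM : Y0 ∈ M := by
    rw [hM]
    exact (maxPro ℓ (algebraicClosure k Ω) (IntermediateField.adjoin
      (IntermediateField.adjoin (algebraicClosure k Ω) {T}) {Y0})
      Ω).algebraMap_mem ⟨Y0, IntermediateField.mem_adjoin_simple_self _ _⟩
  have hCov : Cov ℓ (algebraicClosure k Ω)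
      (IntermediateField.adjoin (algebraicClosure k Ω) {T}) M
      ⟨T, IntermediateField.mem_adjoin_simple_self _ _⟩ (bt ℓ (mbB B υ b₁ b₂)) ⟨Y0, hYM⟩ :=
    a_cov ℓ (algebraicClosure k Ω)
      (IntermediateField.adjoin (algebraicClosure k Ω) {T}) Ω
      ⟨T, IntermediateField.mem_adjoin_simple_self _ _⟩ hrat (bt ℓ (mbB B υ b₁ b₂))
      (by rw [hcard]; exact dvd_mul_right _ _) (by
        rw [hcard]
        have h5 : 1 ≤ (mbB B υ b₁ b₂).card := by omega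
        calc 3 ≤ ℓ * 1 := by omega
          _ ≤ ℓ * (mbB B υ b₁ b₂).card := Nat.mul_le_mul_left _ h5) Y0 hY M hM
      ⟨Y0, hYM⟩ rfl
  have hMN : ∀ z, z ∈ M ↔ z ∈ geomPro ℓ k F Ω := fun z => by
    rw [hM z, hgeo z]
  let eqv : M ≃+* geomPro ℓ k F Ω :=
    { toFun := fun w => ⟨w.1, (hMN _).1 w.2⟩
      invFun := fun w => ⟨w.1, (hMN _).2 w.2⟩
      left_inv := fun w => rfl
      right_inv := fun w => rfl
      map_mul' := fun w w' => rfl
      map_add' := fun w w' => rfl }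
  exact ⟨_, M, inferInstance, inferInstance, inferInstance, inferInstance, inferInstance,
    inferInstance, _, _, eqv, hCov, fun c => rfl, rfl⟩

/-- the covering field of the Fermat curve with three of the branch points -/
theorem ferm_glue {ℓ : ℕ} [hℓ : Fact ℓ.Prime] (hodd : 3 ≤ ℓ) (B : Finset (algebraicClosure k Ω))
    (h3 : 3 ≤ B.card) (c : algebraicClosure k Ω → ℕ)
    (hc : ∀ e ∈ B, ¬ ℓ ∣ c e) (hsum : ℓ ∣ ∑ e ∈ B, c e)
    (δ : algebraicClosure k Ω) (hδ0 : δ ≠ 0) (x w : F) (hx : Transcendental k x)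
    (hF : IntermediateField.adjoin k {x, w} = (⊤ : IntermediateField k F))
    (hZ : ((δ : Ω) * algebraMap F Ω w) ^ ℓ = ∏ e ∈ B, (algebraMap F Ω x - (e : Ω)) ^ c e)
    (b₀ b₁ b₂ : algebraicClosure k Ω) (h0 : b₀ ∈ B) (h1 : b₁ ∈ B) (h2 : b₂ ∈ B) (h10 : b₁ ≠ b₀)
    (h20 : b₂ ≠ b₀) (h12 : b₁ ≠ b₂) (U Y : Ω)
    (hU : U ^ ℓ * (algebraMap F Ω x - (b₀ : Ω)) =
      (((b₂ - b₀) / (b₂ - b₁) : algebraicClosure k Ω) : Ω) * (algebraMap F Ω x - (b₁ : Ω)))
    (hY : Y ^ ℓ = U ^ ℓ - 1) :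
    ∃ (R M : Type) (_ : Field R) (_ : Field M) (_ : Algebra (algebraicClosure k Ω) R)
      (_ : Algebra R M) (_ : Algebra (algebraicClosure k Ω) M)
      (_ : IsScalarTower (algebraicClosure k Ω) R M) (x' : R) (Y' : M)
      (i : M →+* geomPro ℓ k F Ω),
      Cov ℓ (algebraicClosure k Ω) R M x' (nthRootsFinset ℓ (1 : algebraicClosure k Ω)) Y' ∧
      (∀ c : algebraicClosure k Ω, ((i (algebraMap (algebraicClosure k Ω) M c) :
        geomPro ℓ k F Ω) : Ω) = (c : Ω)) ∧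
      ((i (algebraMap R M x') : geomPro ℓ k F Ω) : Ω) = U ∧ ((i Y' : geomPro ℓ k F Ω) : Ω) = Y ∧
      ∀ (φ : geomPro ℓ k F Ω ≃ₐ[F] geomPro ℓ k F Ω) (d d' : algebraicClosure k Ω), d ≠ 0 →
        d' ≠ 0 → ((φ (i (algebraMap R M x')) : geomPro ℓ k F Ω) : Ω) = (d : Ω) * U →
        ((φ (i Y') : geomPro ℓ k F Ω) : Ω) = (d' : Ω) * Y → ∀ z, ∃ w, i w = φ (i z) := by
  classical
  have hℓ0 : ℓ ≠ 0 := hℓ.out.ne_zero
  haveI : NeZero ℓ := ⟨hℓ0⟩
  have hac : IsAlgClosure k (algebraicClosure k Ω) := inferInstance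
  haveI hkb : IsAlgClosed (algebraicClosure k Ω) := hac.1
  haveI hch : CharZero (algebraicClosure k Ω) :=
    charZero_of_injective_algebraMap (algebraMap k (algebraicClosure k Ω)).injective
  haveI : IsAlgClosure F Ω := ⟨inferInstance, inferInstance⟩
  haveI : Normal F Ω := IsAlgClosure.normal F Ω
  have h20' : b₂ - b₀ ≠ 0 := sub_ne_zero.2 h20
  have h21' : b₂ - b₁ ≠ 0 := sub_ne_zero.2 h12.symm
  obtain ⟨υ, hυ⟩ : ∃ υ : algebraicClosure k Ω, υ = (b₂ - b₀) / (b₂ - b₁) := ⟨_, rfl⟩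
  have hυ0 : υ ≠ 0 := by rw [hυ]; exact div_ne_zero h20' h21'
  rw [← hυ] at hU
  obtain ⟨Y0, hY0⟩ := IsAlgClosed.exists_pow_nat_eq
    (∏ e ∈ bt ℓ (mbB B υ b₁ b₀), (U - (e : Ω))) hℓ.out.pos
  obtain ⟨hUκ, hclU, hgeo⟩ := mob_geo B h3 c hc hsum δ hδ0 x w hx hF hZ υ b₁ b₀ hυ0 h10 h1 h0
    U Y0 hU hY0
  have hrat := ratF_adj hUκ
  obtain ⟨ζ, hζ⟩ := HasEnoughRootsOfUnity.exists_primitiveRoot (algebraicClosure k Ω) ℓ
  have hcard : (nthRootsFinset ℓ (1 : algebraicClosure k Ω)).card = ℓ := hζ.card_nthRootsFinset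
  have hone : (1 : algebraicClosure k Ω) ∈ nthRootsFinset ℓ (1 : algebraicClosure k Ω) := by
    rw [mem_nthRootsFinset hℓ.out.pos]
    exact one_pow _
  have hYp : Y ^ ℓ = ∏ e ∈ nthRootsFinset ℓ (1 : algebraicClosure k Ω), (U - (e : Ω)) := by
    rw [hY]
    exact (Pool.Agent.Y158.FQ.prod_mu ℓ (κ := algebraicClosure k Ω) U).symm
  have hsubB : nthRootsFinset ℓ (1 : algebraicClosure k Ω) ⊆ bt ℓ (mbB B υ b₁ b₀) := by
    intro e he
    rw [mem_nthRootsFinset hℓ.out.pos] at he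
    rw [mem_bt hℓ.out.pos, he, mem_mbB]
    refine ⟨b₂, h2, h12.symm, h20, ?_⟩
    unfold mob
    rw [hυ, div_mul_cancel₀ _ h21', div_self h20']
  have hcardB := mbB_card (B := B) hυ0 h10 h1 h0
  have hcardb := bt_card (ℓ := ℓ) (mbB B υ b₁ b₀) (mbB_zero hυ0)
  obtain ⟨M, hM⟩ : ∃ M : IntermediateField
      (IntermediateField.adjoin (algebraicClosure k Ω) {U}) Ω,
      ∀ z, z ∈ M ↔ z ∈ maxPro ℓ (algebraicClosure k Ω) (IntermediateField.adjoin
        (IntermediateField.adjoin (algebraicClosure k Ω) {U}) {Y}) Ω :=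
    ⟨(maxPro ℓ (algebraicClosure k Ω) (IntermediateField.adjoin
        (IntermediateField.adjoin (algebraicClosure k Ω) {U}) {Y})
        Ω).restrictScalars _, fun z => Iff.rfl⟩
  have hYM : Y ∈ M := by
    rw [hM]
    exact (maxPro ℓ (algebraicClosure k Ω) (IntermediateField.adjoin
      (IntermediateField.adjoin (algebraicClosure k Ω) {U}) {Y})
      Ω).algebraMap_mem ⟨Y, IntermediateField.mem_adjoin_simple_self _ _⟩
  have hCov : Cov ℓ (algebraicClosure k Ω)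
      (IntermediateField.adjoin (algebraicClosure k Ω) {U}) M
      ⟨U, IntermediateField.mem_adjoin_simple_self _ _⟩
      (nthRootsFinset ℓ (1 : algebraicClosure k Ω)) ⟨Y, hYM⟩ :=
    a_cov ℓ (algebraicClosure k Ω)
      (IntermediateField.adjoin (algebraicClosure k Ω) {U}) Ω
      ⟨U, IntermediateField.mem_adjoin_simple_self _ _⟩ hrat
      (nthRootsFinset ℓ (1 : algebraicClosure k Ω))
      (by rw [hcard]) (by rw [hcard]; exact hodd) Y hYp M hM
      ⟨Y, hYM⟩ rfl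
  have hMN : ∀ z, z ∈ M → z ∈ geomPro ℓ k F Ω := fun z hz => by
    rw [hM z] at hz
    rw [hgeo z]
    exact maxPro_sub hrat _ _ hsubB (by rw [hcard]) ⟨1, hone⟩
      (by rw [hcardb]; exact dvd_mul_right _ _) ⟨1, hsubB hone⟩ hYp hY0 hz
  let i : M →+* geomPro ℓ k F Ω :=
    { toFun := fun w => ⟨w.1, hMN _ w.2⟩
      map_one' := rfl
      map_zero' := rfl
      map_mul' := fun w w' => rfl
      map_add' := fun w w' => rfl }
  refine ⟨_, M, inferInstance, inferInstance, inferInstance, inferInstance, inferInstance,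
    inferInstance, _, _, i, hCov, fun c => rfl, rfl, rfl, ?_⟩
  intro φ d d' hd hd' hφU hφY z
  have hφ : ∀ w : geomPro ℓ k F Ω, φ.liftNormal Ω (w : Ω) = ((φ w : geomPro ℓ k F Ω) : Ω) :=
    fun w => φ.liftNormal_commutes Ω w
  have h5 : φ.liftNormal Ω U = (d : Ω) * U := by
    rw [← hφU]
    exact hφ ⟨U, _⟩
  have h6 : φ.liftNormal Ω Y = (d' : Ω) * Y := by
    rw [← hφY]
    exact hφ ⟨Y, _⟩
  have h7 := maxPro_stab (k := k) (ℓ := ℓ) U Y (φ.liftNormal Ω) d d' hd hd' h5 h6 (z : Ω)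
    ((hM _).1 z.2)
  refine ⟨⟨_, (hM _).2 h7⟩, Subtype.ext ?_⟩
  exact hφ (i z)

end geo

end Pool.Agent.X281.OB
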