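import Pool.Agent.X281.OB.Adj

/-!
# Sections of the quotients of the Fermat curve over complete fields
-/

set_option autoImplicit false
set_option linter.all false

namespace Pool.Agent.X281.OB

open Polynomial FF Pool.Agent.Y157.PS Pool.Agent.X281.FL

section main

variable {A k F Ω : Type} [CommRing A] [IsDomain A] [IsDiscreteValuationRing A]
    [IsAdicComplete (IsLocalRing.maximalIdeal A) A]
    [Finite (IsLocalRing.ResidueField A)] [Field k] [CharZero k] [Algebra A k] [IsFractionRing A k]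
    [Field F] [Field Ω] [Algebra k F] [Algebra F Ω] [Algebra k Ω] [IsScalarTower k F Ω]
    [IsAlgClosed Ω] [Algebra.IsAlgebraic F Ω]

/-- **one cusp**, for the curve `d w^ℓ = x^a (1 - x)^b` -/
theorem ferm_quot {ℓ : ℕ} [hp : Fact ℓ.Prime] (hodd : Odd ℓ) (hℓA : IsUnit (ℓ : A)) (ϖ : A)
    (hϖ : Irreducible ϖ) (a b : ℕ) (ha : ¬ ℓ ∣ a) (hb : ¬ ℓ ∣ b) (hab : ¬ ℓ ∣ a + b) (d : k)
    (m : ℤ) (hm : ¬ (ℓ : ℤ) ∣ m) (hd : Val ϖ d m) (x w : F) (hx : Transcendental k x)
    (hxw : algebraMap k F d * w ^ ℓ = x ^ a * (1 - x) ^ b)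
    (hF : IntermediateField.adjoin k {x, w} = (⊤ : IntermediateField k F))
    (N : IntermediateField F Ω) (hN : geomPro ℓ k F Ω ≤ N)
    (S : (algebraicClosure k Ω ≃ₐ[k] algebraicClosure k Ω) →* (N ≃ₐ[F] N)) (hcont : Continuous S)
    (hcompat : ∀ σ (c : algebraicClosure k Ω) (z : N), (z : Ω) = (c : Ω) →
      (S σ z : Ω) = (σ c : Ω)) :
    ∃ W : ValuationSubring N,
      (∀ c : k, algebraMap F N (algebraMap k F c) ∈ W) ∧
      (algebraMap F N x ∈ W.nonunits ∨ algebraMap F N (1 - x) ∈ W.nonunits ∨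
        algebraMap F N x⁻¹ ∈ W.nonunits) ∧
      (∀ z : F, algebraMap F N z ∈ W →
        ∃ c : k, algebraMap F N (z - algebraMap k F c) ∈ W.nonunits) ∧
      (∀ σ, ∀ z : N, (z : Ω) ∈ geomPro ℓ k F Ω → (S σ z ∈ W ↔ z ∈ W)) ∧
      ∀ W' : ValuationSubring N,
        (∀ c : k, algebraMap F N (algebraMap k F c) ∈ W') →
        (algebraMap F N x ∈ W'.nonunits ∨ algebraMap F N (1 - x) ∈ W'.nonunits ∨
          algebraMap F N x⁻¹ ∈ W'.nonunits) →
        (∀ σ, ∀ z : N, (z : Ω) ∈ geomPro ℓ k F Ω → (S σ z ∈ W' ↔ z ∈ W')) →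
        ∀ z : N, (z : Ω) ∈ geomPro ℓ k F Ω → (z ∈ W' ↔ z ∈ W) := by
  classical
  have hℓ0 : ℓ ≠ 0 := hp.out.ne_zero
  have hℓpos := hp.out.pos
  haveI : IsAlgClosure F Ω := ⟨inferInstance, inferInstance⟩
  haveI : IsAlgClosure k (algebraicClosure k Ω) := inferInstance
  haveI : IsAlgClosed (algebraicClosure k Ω) := IsAlgClosure.isAlgClosed k
  haveI : CharZero (algebraicClosure k Ω) :=
    charZero_of_injective_algebraMap (algebraMap k (algebraicClosure k Ω)).injective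
  have : Normal k (algebraicClosure k Ω) := IsAlgClosure.normal k _
  have hGal : IsGalois k (algebraicClosure k Ω) := ⟨⟩
  have hrat : ∀ c : algebraicClosure k Ω, (∀ σ : algebraicClosure k Ω ≃ₐ[k]
      algebraicClosure k Ω, σ c = c) → ∃ c' : k, algebraMap k (algebraicClosure k Ω) c' = c := by
    intro c hc
    have h5 := (InfiniteGalois.mem_bot_iff_fixed c).2 hc
    exact IntermediateField.mem_bot.1 h5
  have hd0 : d ≠ 0 := hd.ne_zero hϖ
  obtain ⟨X0, hX0def⟩ : ∃ X0 : Ω, X0 = algebraMap F Ω x := ⟨_, rfl⟩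
  have hXk : Transcendental k X0 := by
    rw [hX0def]
    exact (transcendental_algebraMap_iff (R := k) (algebraMap F Ω).injective (a := x)).2 hx
  have hXκ : Transcendental (algebraicClosure k Ω) X0 := trans_up hXk
  have hX00 : X0 ≠ 0 := by
    rintro rfl
    exact hXk isAlgebraic_zero
  have hX01 : X0 ≠ 1 := by
    rintro rfl
    exact hXk isAlgebraic_one
  have hx0 : x ≠ 0 := by
    rintro rfl
    exact hx isAlgebraic_zero
  have hx1 : 1 - x ≠ 0 := by
    intro h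
    have h1 : (1 : F) = x := sub_eq_zero.1 h
    rw [← h1] at hx
    exact hx isAlgebraic_one
  obtain ⟨U, hU⟩ := IsAlgClosed.exists_pow_nat_eq X0 hℓpos
  obtain ⟨V0, hV⟩ := IsAlgClosed.exists_pow_nat_eq (X0 - 1) hℓpos
  obtain ⟨δ, hδ⟩ := IsAlgClosed.exists_pow_nat_eq (algebraMap k (algebraicClosure k Ω) d) hℓpos
  have hδ0 : δ ≠ 0 := by
    rintro rfl
    rw [zero_pow hℓ0] at hδ
    exact hd0 ((_root_.map_eq_zero _).1 hδ.symm)
  have hU0 : U ≠ 0 := by
    rintro rfl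
    rw [zero_pow hℓ0] at hU
    exact hX00 hU.symm
  have hV0 : V0 ≠ 0 := by
    rintro rfl
    rw [zero_pow hℓ0] at hV
    exact hX01 (sub_eq_zero.1 hV.symm)
  have hZ : ((δ : Ω) * algebraMap F Ω w) ^ ℓ = X0 ^ a * (1 - X0) ^ b := by
    have h1 := congrArg (algebraMap F Ω) hxw
    rw [map_mul, map_pow, ← IsScalarTower.algebraMap_apply, map_mul, map_pow, map_pow, map_sub,
      map_one, ← hX0def] at h1
    rw [mul_pow, ← h1]
    congr 1
    exact congrArg Subtype.val hδ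
  have hUk : Transcendental (algebraicClosure k Ω) U := by
    intro h
    apply hXκ
    rw [← hU]
    exact h.pow ℓ
  haveI hcl0 : IsAlgClosure (IntermediateField.adjoin (algebraicClosure k Ω) {X0}) Ω := by
    rw [hX0def]
    refine closure_R hF δ hδ0 hℓpos ?_
    rw [hZ, hX0def]
    have h1 : algebraMap F Ω x ∈
        IntermediateField.adjoin (algebraicClosure k Ω) {algebraMap F Ω x} :=
      IntermediateField.mem_adjoin_simple_self _ _
    exact mul_mem (pow_mem h1 _) (pow_mem (sub_mem (one_mem _) h1) _)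
  haveI hcl1 : IsAlgClosure (IntermediateField.adjoin (algebraicClosure k Ω) {U}) Ω := by
    refine ⟨inferInstance, ⟨fun z => ?_⟩⟩
    have hle : IntermediateField.adjoin (algebraicClosure k Ω) {X0} ≤
        IntermediateField.adjoin (algebraicClosure k Ω) {U} := by
      refine adj_le ?_
      rw [← hU]
      exact pow_mem (IntermediateField.mem_adjoin_simple_self _ U) _
    letI : Algebra (IntermediateField.adjoin (algebraicClosure k Ω) {X0})
        (IntermediateField.adjoin (algebraicClosure k Ω) {U}) :=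
      (IntermediateField.inclusion hle).toRingHom.toAlgebra
    haveI : IsScalarTower (IntermediateField.adjoin (algebraicClosure k Ω) {X0})
        (IntermediateField.adjoin (algebraicClosure k Ω) {U}) Ω :=
      IsScalarTower.of_algebraMap_eq fun _ => rfl
    have h1 : IsAlgebraic (IntermediateField.adjoin (algebraicClosure k Ω) {X0}) z :=
      (IsAlgClosure.isAlgebraic (R := IntermediateField.adjoin (algebraicClosure k Ω) {X0})
        (K := Ω)).isAlgebraic z
    exact h1.extendScalars (algebraMap (IntermediateField.adjoin (algebraicClosure k Ω) {X0})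
        (IntermediateField.adjoin (algebraicClosure k Ω) {U})).injective
  -- the covering field
  have hgeo : ∀ z, z ∈ geomPro ℓ k F Ω ↔ z ∈ maxPro ℓ (algebraicClosure k Ω)
      (IntermediateField.adjoin (IntermediateField.adjoin (algebraicClosure k Ω) {U}) {V0}) Ω := by
    intro z
    rw [← ferm_maxPro hodd X0 U V0 ((δ : Ω) * algebraMap F Ω w) hXκ hU hV a b hZ ha hb hab z]
    have h1 := maxPro_geom ℓ k hF δ hδ0 z
    rw [← hX0def] at h1
    exact h1.symm
  have hUg : U ∈ geomPro ℓ k F Ω := by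
    rw [hgeo]
    refine IntermediateField.algebraMap_mem _ (⟨U, ?_⟩ : IntermediateField.adjoin
      (IntermediateField.adjoin (algebraicClosure k Ω) {U}) {V0})
    exact IntermediateField.algebraMap_mem _
      (⟨U, IntermediateField.mem_adjoin_simple_self _ U⟩ :
        IntermediateField.adjoin (algebraicClosure k Ω) {U})
  have hVg : V0 ∈ geomPro ℓ k F Ω := by
    rw [hgeo]
    exact IntermediateField.algebraMap_mem _ (⟨V0, IntermediateField.mem_adjoin_simple_self _ V0⟩ :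
      IntermediateField.adjoin (IntermediateField.adjoin (algebraicClosure k Ω) {U}) {V0})
  have hcN : ∀ c : algebraicClosure k Ω, (c : Ω) ∈ N := fun c => hN (const_geomPro ℓ k c)
  have hUN : U ∈ N := hN hUg
  have hVN : V0 ∈ N := hN hVg
  -- the twists
  obtain ⟨c', t', hc'0, ht', hfu⟩ := exists_twist N hcN S hcont hcompat ⟨U, hUN⟩
    (fun h => hU0 (congrArg Subtype.val h)) x (Subtype.ext (by
      change U ^ ℓ = algebraMap F Ω x
      rw [hU, hX0def]))
  obtain ⟨c, t, hc0, ht, hfv⟩ := exists_twist N hcN S hcont hcompat ⟨V0, hVN⟩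
    (fun h => hV0 (congrArg Subtype.val h)) (x - 1) (Subtype.ext (by
      change V0 ^ ℓ = algebraMap F Ω (x - 1)
      rw [hV, map_sub, map_one, hX0def]))
  have hc'Ω : (c' : Ω) ≠ 0 := fun h => hc'0 (Subtype.ext h)
  have hcΩ : (c : Ω) ≠ 0 := fun h => hc0 (Subtype.ext h)
  have ht'Ω : algebraMap k Ω t' = (c' : Ω) ^ ℓ := congrArg Subtype.val ht'
  have htΩ : algebraMap k Ω t = (c : Ω) ^ ℓ := congrArg Subtype.val ht
  have ht'0 : t' ≠ 0 := by
    rintro rfl
    rw [map_zero] at ht'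
    exact pow_ne_zero _ hc'0 ht'.symm
  have ht0 : t ≠ 0 := by
    rintro rfl
    rw [map_zero] at ht
    exact pow_ne_zero _ hc0 ht.symm
  obtain ⟨u, hu⟩ : ∃ u : Ω, u = (c' : Ω)⁻¹ * U := ⟨_, rfl⟩
  obtain ⟨v, hv⟩ : ∃ v : Ω, v = (c : Ω)⁻¹ * V0 := ⟨_, rfl⟩
  have huN : u ∈ N := by rw [hu]; exact mul_mem (inv_mem (hcN c')) hUN
  have hvN : v ∈ N := by rw [hv]; exact mul_mem (inv_mem (hcN c)) hVN
  have hUu : U = (c' : Ω) * u := by rw [hu, mul_inv_cancel_left₀ hc'Ω]
  have hVv : V0 = (c : Ω) * v := by rw [hv, mul_inv_cancel_left₀ hcΩ]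
  have hXu : X0 = algebraMap k Ω t' * u ^ ℓ := by rw [← hU, hUu, mul_pow, ht'Ω]
  have hXv : X0 - 1 = algebraMap k Ω t * v ^ ℓ := by rw [← hV, hVv, mul_pow, htΩ]
  have hu0 : u ≠ 0 := by
    rw [hu]; exact mul_ne_zero (inv_ne_zero hc'Ω) hU0
  have hv0 : v ≠ 0 := by
    rw [hv]; exact mul_ne_zero (inv_ne_zero hcΩ) hV0
  have hSu : ∀ σ, S σ ⟨u, huN⟩ = ⟨u, huN⟩ := fun σ => hfu σ _ hu
  have hSv : ∀ σ, S σ ⟨v, hvN⟩ = ⟨v, hvN⟩ := fun σ => hfv σ _ hv
  -- the constant `lam`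
  obtain ⟨ζ, hζ1, hζ⟩ := ferm_sub (κ := algebraicClosure k Ω) hodd X0 U V0
    ((δ : Ω) * algebraMap F Ω w) hX00 hX01 hU hV a b hZ
  obtain ⟨lam, hlam⟩ : ∃ lam : algebraicClosure k Ω, lam = ζ * c' ^ a * (-c) ^ b / δ := ⟨_, rfl⟩
  have hδΩ : (δ : Ω) ≠ 0 := fun h => hδ0 (Subtype.ext h)
  have hwlam : algebraMap F Ω w = (lam : Ω) * (u ^ a * v ^ b) := by
    have h1 : algebraMap F Ω w = (δ : Ω)⁻¹ * ((ζ : Ω) * (U ^ a * (-V0) ^ b)) := by
      rw [eq_inv_mul_iff_mul_eq₀ hδΩ]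
      exact hζ
    have h2 : (lam : Ω) = (ζ : Ω) * (c' : Ω) ^ a * (-(c : Ω)) ^ b / (δ : Ω) := by
      rw [hlam]
      push_cast
      rfl
    rw [h1, h2, hUu, hVv, mul_pow, ← neg_mul, mul_pow]
    field_simp
  have huv0 : u ^ a * v ^ b ≠ 0 := mul_ne_zero (pow_ne_zero _ hu0) (pow_ne_zero _ hv0)
  have hlamfix : ∀ σ : algebraicClosure k Ω ≃ₐ[k] algebraicClosure k Ω, σ lam = lam := by
    intro σ
    have h1 : algebraMap F N w = ⟨(lam : Ω), hcN lam⟩ * (⟨u, huN⟩ ^ a * ⟨v, hvN⟩ ^ b) :=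
      Subtype.ext hwlam
    have h2 := (S σ).commutes w
    rw [h1, map_mul, map_mul, map_pow, map_pow, hSu, hSv] at h2
    have h3 : ((⟨u, huN⟩ : N) ^ a * (⟨v, hvN⟩ : N) ^ b) ≠ 0 := by
      intro h
      exact huv0 (congrArg Subtype.val h)
    have h4 := mul_right_cancel₀ h3 h2
    have h5 := hcompat σ lam ⟨(lam : Ω), hcN lam⟩ rfl
    rw [h4] at h5
    exact (Subtype.ext h5).symm
  obtain ⟨l₀, hl₀⟩ := hrat lam hlamfix
  have hdl : d * l₀ ^ ℓ = t' ^ a * (-t) ^ b := by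
    apply (algebraMap k (algebraicClosure k Ω)).injective
    rw [map_mul, map_pow, hl₀, map_mul, map_pow, map_pow, map_neg, ht', ht, ← hδ, hlam, div_pow,
      mul_pow, mul_pow, hζ1, ← pow_mul, ← pow_mul, mul_comm a, mul_comm b, pow_mul, pow_mul,
      hodd.neg_pow, one_mul, mul_div_cancel₀]
    exact pow_ne_zero _ hδ0
  -- the valuations
  obtain ⟨i, hi⟩ := exists_val hϖ ht'0
  obtain ⟨j, hj⟩ := exists_val hϖ (neg_ne_zero.2 ht0)
  have hl0 : l₀ ≠ 0 := by
    rintro rfl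
    rw [zero_pow hℓ0, mul_zero] at hdl
    exact mul_ne_zero (pow_ne_zero _ ht'0) (pow_ne_zero _ (neg_ne_zero.2 ht0)) hdl.symm
  obtain ⟨n, hn⟩ := exists_val hϖ hl0
  have hval : m + (ℓ : ℤ) * n = (a : ℤ) * i + (b : ℤ) * j := by
    have h1 := hd.mul hϖ (hn.pow ℓ)
    rw [hdl] at h1
    exact h1.unique hϖ ((hi.pow a).mul hϖ (hj.pow b))
  have hval1 : Val ϖ (1 : k) 0 := ⟨1, isUnit_one, by rw [map_one, zpow_zero, mul_one]⟩
  have hne : ¬ ((ℓ : ℤ) ∣ i - j ∧ (ℓ : ℤ) ∣ j - 0) := by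
    rintro ⟨h1, h2⟩
    rw [sub_zero] at h2
    have h3 : (ℓ : ℤ) ∣ i := by
      have h4 : i = (i - j) + j := by ring
      rw [h4]
      exact dvd_add h1 h2
    apply hm
    have h5 : m = (a : ℤ) * i + (b : ℤ) * j - (ℓ : ℤ) * n := by linarith
    rw [h5]
    exact dvd_sub (dvd_add (dvd_mul_of_dvd_right h3 _) (dvd_mul_of_dvd_right h2 _))
      (dvd_mul_right _ _)
  -- the twisted Fermat curve
  obtain ⟨F₂, hF₂⟩ : ∃ F₂ : IntermediateField k Ω, F₂ = IntermediateField.adjoin k {u, v} :=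
    ⟨_, rfl⟩
  have huF : u ∈ F₂ := by rw [hF₂]; exact IntermediateField.subset_adjoin k _ (by simp)
  have hvF : v ∈ F₂ := by rw [hF₂]; exact IntermediateField.subset_adjoin k _ (by simp)
  have hF₂N : ∀ z ∈ F₂, z ∈ N := by
    intro z hz
    rw [hF₂] at hz
    exact adjoin_le_sub (K := k) (S := {u, v}) (T := N.toSubfield) (fun r => by
      have h1 : algebraMap k Ω r = algebraMap F Ω (algebraMap k F r) :=
        IsScalarTower.algebraMap_apply k F Ω r
      rw [h1]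
      exact N.algebraMap_mem _) (fun s hs => by
      rcases hs with hs | hs
      · rw [hs]; exact huN
      · rw [Set.mem_singleton_iff] at hs
        rw [hs]; exact hvN) z hz
  have hXF : X0 ∈ F₂ := by
    rw [hXu]
    exact mul_mem (F₂.algebraMap_mem _) (pow_mem huF _)
  have hwF : algebraMap F Ω w ∈ F₂ := by
    rw [hwlam]
    refine mul_mem ?_ (mul_mem (pow_mem huF _) (pow_mem hvF _))
    rw [← hl₀]
    exact F₂.algebraMap_mem l₀
  have hFF : ∀ z : F, algebraMap F Ω z ∈ F₂ := by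
    intro z
    have hz : z ∈ IntermediateField.adjoin k {x, w} := by rw [hF]; trivial
    exact adjoin_le_sub (K := k) (S := {x, w}) (T := F₂.toSubfield.comap (algebraMap F Ω))
      (fun r => by
        rw [Subfield.mem_comap, ← IsScalarTower.algebraMap_apply]
        exact F₂.algebraMap_mem r) (fun s hs => by
        rw [Subfield.mem_comap]
        rcases hs with hs | hs
        · rw [hs, ← hX0def]; exact hXF
        · rw [Set.mem_singleton_iff] at hs
          rw [hs]; exact hwF) z hz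
  let N₂ : IntermediateField F₂ Ω :=
    { N.toSubfield with
      algebraMap_mem' := fun r => hF₂N r r.2
      inv_mem' := fun a ha => N.inv_mem ha }
  have hNN : ∀ z, z ∈ N₂ ↔ z ∈ N := fun z => Iff.rfl
  obtain ⟨e, S₂, hS₂c, he, hS₂, hS₂compat⟩ := change_base N S hcont hcompat F₂ N₂ hNN
    (fun σ z hz => fix_adj (k := k) N (S σ) u v huN hvN (hSu σ) (hSv σ) z (by
      rw [← hF₂]; exact hz))
  haveI hΩ2 : Algebra.IsAlgebraic F₂ Ω := by
    refine ⟨fun z => ?_⟩
    let f : F →+* F₂ := (algebraMap F Ω).codRestrict F₂.toSubfield hFF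
    letI : Algebra F F₂ := f.toAlgebra
    haveI : IsScalarTower F F₂ Ω := IsScalarTower.of_algebraMap_eq fun _ => rfl
    have h1 : IsAlgebraic F z := Algebra.IsAlgebraic.isAlgebraic z
    exact h1.extendScalars f.injective
  have htop : IntermediateField.adjoin k {(⟨u, huF⟩ : F₂), ⟨v, hvF⟩} =
      (⊤ : IntermediateField k F₂) := by
    apply IntermediateField.map_injective F₂.val
    rw [IntermediateField.adjoin_map, Set.image_pair, ← AlgHom.fieldRange_eq_map,
      IntermediateField.fieldRange_val]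
    exact hF₂.symm
  have hut : Transcendental k (⟨u, huF⟩ : F₂) := by
    rw [← transcendental_algebraMap_iff (R := k) (A := Ω) (algebraMap F₂ Ω).injective]
    intro h
    apply hXk
    rw [hXu]
    exact (isAlgebraic_algebraMap _).mul (h.pow ℓ)
  have hrel : algebraMap k F₂ t' * (⟨u, huF⟩ : F₂) ^ ℓ + algebraMap k F₂ (-t) * (⟨v, hvF⟩ : F₂) ^ ℓ =
      algebraMap k F₂ 1 := by
    apply Subtype.ext
    change algebraMap k Ω t' * u ^ ℓ + algebraMap k Ω (-t) * v ^ ℓ = algebraMap k Ω 1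
    rw [map_neg, neg_mul, ← hXu, ← hXv, map_one]
    ring
  -- the maximal pro-`ℓ` extensions agree
  have hgeo2 : ∀ z, z ∈ geomPro ℓ k F₂ Ω ↔ z ∈ geomPro ℓ k F Ω := fun z =>
    (geomPro_gen (⟨u, huF⟩ : F₂) ⟨v, hvF⟩ htop U V0 c' c hc'0 hc0 hUu hVv z).trans (hgeo z).symm
  have hgeoN2 : geomPro ℓ k F₂ Ω ≤ N₂ := fun z hz => hN ((hgeo2 z).1 hz)
  obtain ⟨W₂, h1, h2, h3, h4, hun⟩ := one_cusp_abc hodd hℓA ϖ hϖ t' (-t) 1 i j 0 hi hj hval1 hne
    (⟨u, huF⟩ : F₂) ⟨v, hvF⟩ hut hrel htop N₂ hgeoN2 S₂ hS₂c hS₂compat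
  -- transport
  have hc1 : ∀ r : k, e (algebraMap F N (algebraMap k F r)) =
      algebraMap F₂ N₂ (algebraMap k F₂ r) := fun r => Subtype.ext (by
    rw [he]
    exact (IsScalarTower.algebraMap_apply k F Ω r).symm)
  have hunit : ∀ (L : Type) [Field L] (i : k →+* L) (W : ValuationSubring L), (∀ r, i r ∈ W) →
      ∀ r : k, r ≠ 0 → IsU W (i r) := by
    intro L _ i W hW r hr
    exact ⟨(_root_.map_ne_zero i).2 hr, hW r, by rw [← map_inv₀]; exact hW _⟩
  have hxN : algebraMap F N x = algebraMap F N (algebraMap k F t') * ⟨u, huN⟩ ^ ℓ :=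
    Subtype.ext (by
      change algebraMap F Ω x = algebraMap F Ω (algebraMap k F t') * u ^ ℓ
      rw [← IsScalarTower.algebraMap_apply, ← hX0def, ← hXu])
  have hxN' : algebraMap F N (1 - x) = algebraMap F N (algebraMap k F (-t)) * ⟨v, hvN⟩ ^ ℓ :=
    Subtype.ext (by
      change algebraMap F Ω (1 - x) = algebraMap F Ω (algebraMap k F (-t)) * v ^ ℓ
      rw [← IsScalarTower.algebraMap_apply, map_sub, map_one, ← hX0def, map_neg, neg_mul, ← hXv]
      ring)
  have key : ∀ W : ValuationSubring N, (∀ c : k, algebraMap F N (algebraMap k F c) ∈ W) →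
      (algebraMap F N x ∈ W.nonunits ↔ (⟨u, huN⟩ : N) ∈ W.nonunits) ∧
      (algebraMap F N (1 - x) ∈ W.nonunits ↔ (⟨v, hvN⟩ : N) ∈ W.nonunits) ∧
      (algebraMap F N x⁻¹ ∈ W.nonunits ↔ (⟨u, huN⟩ : N)⁻¹ ∈ W.nonunits) ∧
      ((⟨v, hvN⟩ : N)⁻¹ ∈ W.nonunits → algebraMap F N x⁻¹ ∈ W.nonunits) := by
    intro W hW
    have hWU : ∀ r : k, r ≠ 0 → IsU W (algebraMap F N (algebraMap k F r)) := fun r hr =>
      hunit N ((algebraMap F N).comp (algebraMap k F)) W hW r hr
    refine ⟨?_, ?_, ?_, ?_⟩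
    · rw [hxN, non_unit_mul (hWU t' ht'0), non_pow_iff hℓ0]
    · rw [hxN', non_unit_mul (hWU (-t) (neg_ne_zero.2 ht0)), non_pow_iff hℓ0]
    · rw [map_inv₀, hxN, mul_inv, ← map_inv₀, ← map_inv₀,
        non_unit_mul (hWU t'⁻¹ (inv_ne_zero ht'0)), ← inv_pow, non_pow_iff hℓ0]
    · intro h
      rw [map_inv₀]
      refine pole_one_sub ((_root_.map_ne_zero _).2 hx0) ?_ ?_
      · rw [← map_one (algebraMap F N), ← map_sub, hxN', mul_inv, ← map_inv₀, ← map_inv₀,
          non_unit_mul (hWU (-t)⁻¹ (inv_ne_zero (neg_ne_zero.2 ht0))), ← inv_pow,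
          non_pow_iff hℓ0]
        exact h
      · rw [← map_one (algebraMap F N), ← map_sub]
        exact (_root_.map_ne_zero _).2 hx1
  have hcm : ∀ z : N, z ∈ W₂.comap (e : N →+* N₂) ↔ e z ∈ W₂ := fun z => Iff.rfl
  have hcn : ∀ z : N, z ∈ (W₂.comap (e : N →+* N₂)).nonunits ↔ e z ∈ W₂.nonunits := fun z =>
    comap_non e W₂ z
  have heu : e ⟨u, huN⟩ = algebraMap F₂ N₂ ⟨u, huF⟩ := Subtype.ext (by rw [he]; rfl)
  have hev : e ⟨v, hvN⟩ = algebraMap F₂ N₂ ⟨v, hvF⟩ := Subtype.ext (by rw [he]; rfl)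
  have hWk : ∀ c : k, algebraMap F N (algebraMap k F c) ∈ W₂.comap (e : N →+* N₂) := fun c => by
    rw [hcm, hc1]
    exact h1 c
  obtain ⟨k1, k2, k3, k4⟩ := key _ hWk
  refine ⟨W₂.comap (e : N →+* N₂), hWk, ?_, ?_, ?_, ?_⟩
  · rcases h2 with h | h | h | h
    · left
      rw [k1, hcn, heu]
      exact h
    · right; left
      rw [k2, hcn, hev]
      exact h
    · right; right
      rw [k3, hcn, map_inv₀, heu, ← map_inv₀]
      exact h
    · right; right
      apply k4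
      rw [hcn, map_inv₀, hev, ← map_inv₀]
      exact h
  · intro z hz
    have hez : ∀ z : F, e (algebraMap F N z) = algebraMap F₂ N₂ ⟨algebraMap F Ω z, hFF z⟩ :=
      fun z => Subtype.ext (by rw [he]; rfl)
    rw [hcm, hez] at hz
    obtain ⟨r, hr⟩ := h3 _ hz
    refine ⟨r, ?_⟩
    rw [hcn, hez]
    have h5 : (⟨algebraMap F Ω (z - algebraMap k F r), hFF _⟩ : F₂) =
        ⟨algebraMap F Ω z, hFF z⟩ - algebraMap k F₂ r := by
      apply Subtype.ext
      change algebraMap F Ω (z - algebraMap k F r) = algebraMap F Ω z - algebraMap k Ω r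
      rw [map_sub, ← IsScalarTower.algebraMap_apply]
    rw [h5]
    exact hr
  · intro σ z hz
    rw [hcm, hcm, ← hS₂]
    exact h4 σ (e z) (by rw [he]; exact (hgeo2 _).2 hz)
  · intro W' hW'1 hW'2 hW'3 z hz
    obtain ⟨l1, l2, l3, l4⟩ := key W' hW'1
    have hm' : ∀ z : N₂, z ∈ W'.comap (e.symm : N₂ →+* N) ↔ e.symm z ∈ W' := fun z => Iff.rfl
    have hn' : ∀ z : N₂, z ∈ (W'.comap (e.symm : N₂ →+* N)).nonunits ↔ e.symm z ∈ W'.nonunits :=
      fun z => comap_non e.symm W' z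
    have heu' : e.symm (algebraMap F₂ N₂ ⟨u, huF⟩) = ⟨u, huN⟩ := by
      rw [← heu, e.symm_apply_apply]
    have hev' : e.symm (algebraMap F₂ N₂ ⟨v, hvF⟩) = ⟨v, hvN⟩ := by
      rw [← hev, e.symm_apply_apply]
    have h5 := hun (W'.comap (e.symm : N₂ →+* N)) (fun c => by
      rw [hm', ← hc1, e.symm_apply_apply]
      exact hW'1 c) (by
      rcases hW'2 with h | h | h
      · left
        rw [hn', heu', ← l1]
        exact h
      · right; left
        rw [hn', hev', ← l2]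
        exact h
      · right; right; left
        rw [hn', map_inv₀, map_inv₀, heu', ← l3]
        exact h) (fun σ z₂ hz₂ => by
      rw [hm', hm']
      have h6 : e.symm (S₂ σ z₂) = S σ (e.symm z₂) := by
        apply e.injective
        rw [e.apply_symm_apply, ← hS₂, e.apply_symm_apply]
      rw [h6]
      have h7 : ((e.symm z₂ : N) : Ω) = (z₂ : Ω) := by
        rw [← he, e.apply_symm_apply]
      exact hW'3 σ _ (by rw [h7]; exact (hgeo2 _).1 hz₂)) (e z) (by
      rw [he]; exact (hgeo2 _).2 hz)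
    rw [hm', e.symm_apply_apply] at h5
    rw [hcm]
    exact h5

end main

end Pool.Agent.X281.OB
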