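import Pool.Agent.X281.OB.Mem2
import Pool.Agent.Y158.FQ.Set

/-!
# The covering fields of a quotient of the Fermat curve and of the Fermat curve
-/

set_option autoImplicit false
set_option linter.all false

namespace Pool.Agent.X281.OB

open Polynomial FF Pool.Agent.Y157.PS Pool.Agent.Y948.PS

section fermat

variable {κ Ω : Type} [Field κ] [IsAlgClosed κ] [CharZero κ] [Field Ω] [Algebra κ Ω]

theorem val_sub_ne (W : ValuationSubring Ω) (hκ : ∀ c : κ, algebraMap κ Ω c ∈ W) {x : Ω} {a : κ}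
    (ha : W.valuation (x - algebraMap κ Ω a) < 1) {e : κ} (he : e ≠ a) :
    W.valuation (x - algebraMap κ Ω e) = 1 := by
  have h1 : x - algebraMap κ Ω e = algebraMap κ Ω (a - e) + (x - algebraMap κ Ω a) := by
    rw [map_sub]; ring
  have h2 : W.valuation (algebraMap κ Ω (a - e)) = 1 := by
    rw [← isU_iff]
    exact ⟨(_root_.map_ne_zero _).2 (sub_ne_zero.2 he.symm), hκ _, by rw [← map_inv₀]; exact hκ _⟩
  rw [h1, Valuation.map_add_eq_of_lt_left _ (by rw [h2]; exact ha), h2]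

/-- the values of `x` and `1 - x` at the places of the Fermat curve -/
theorem ferm_vals {ℓ : ℕ} [hp : Fact ℓ.Prime] (X0 U Y : Ω) (hU : U ^ ℓ = X0) (hY : Y ^ ℓ = X0 - 1)
    (hUt : Transcendental κ U) [hcl : IsAlgClosure (IntermediateField.adjoin κ {U}) Ω]
    (W : ValuationSubring Ω) (hκ : ∀ c : κ, algebraMap κ Ω c ∈ W) (hW : W ≠ ⊤) :
    ∃ π, Unf (IntermediateField.adjoin (IntermediateField.adjoin κ {U}) {Y}) W π ∧
      ((W.valuation X0 = 1 ∧ W.valuation (1 - X0) = W.valuation π ^ ℓ) ∨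
       (W.valuation X0 = W.valuation π ^ ℓ ∧ W.valuation (1 - X0) = 1) ∨
       (W.valuation X0 = 1 ∧ W.valuation (1 - X0) = 1 ∧
        ∃ c : κ, W.valuation (X0 - algebraMap κ Ω c) = W.valuation π) ∨
       (W.valuation X0 = (W.valuation π ^ ℓ)⁻¹ ∧ W.valuation (1 - X0) = (W.valuation π ^ ℓ)⁻¹)) := by
  classical
  have hℓ0 : ℓ ≠ 0 := hp.out.ne_zero
  haveI : NeZero ℓ := ⟨hℓ0⟩
  have hrat := ratF_adj hUt
  obtain ⟨ζ, hζ⟩ := HasEnoughRootsOfUnity.exists_primitiveRoot κ ℓ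
  have hcard : (nthRootsFinset ℓ (1 : κ)).card = ℓ := hζ.card_nthRootsFinset
  have hone : (1 : κ) ∈ nthRootsFinset ℓ (1 : κ) := by
    rw [mem_nthRootsFinset hp.out.pos]
    exact one_pow _
  have hprod : ∏ e ∈ nthRootsFinset ℓ (1 : κ), (U - algebraMap κ Ω e) = U ^ ℓ - 1 :=
    Pool.Agent.Y158.FQ.prod_mu ℓ (κ := κ) U
  have hYB : Y ^ ℓ = ∏ e ∈ nthRootsFinset ℓ (1 : κ), (algebraMap (IntermediateField.adjoin κ {U}) Ω
      ⟨U, IntermediateField.mem_adjoin_simple_self κ U⟩ - algebraMap κ Ω e) := by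
    rw [hY, ← hU]
    exact hprod.symm
  obtain ⟨π, hπ, hcase⟩ := unf_of_k0 hrat (nthRootsFinset ℓ (1 : κ)) (by rw [hcard]) ⟨1, hone⟩ hYB
    W hκ hW
  have hpos := hπ.pos
  have hlt := hπ.lt
  have hlt' : W.valuation π ^ ℓ < 1 := pow_lt_one₀ zero_le hlt hℓ0
  have hswap : W.valuation (1 - X0) = W.valuation (X0 - 1) := Valuation.map_sub_swap _ _ _
  have hX1 : ∀ v, W.valuation (X0 - 1) = v → v < 1 → W.valuation X0 = 1 := by
    rintro v rfl hv
    have h1 : X0 = 1 + (X0 - 1) := by ring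
    rw [h1, Valuation.map_add_eq_of_lt_left _ (by rw [map_one]; exact hv), map_one]
  have hp1 := val_prod (x := U) W hκ (nthRootsFinset ℓ (1 : κ)) (fun _ => 1) hpos hlt hp.out.pos (by
    rcases hcase with ⟨e, he, h⟩ | h | h
    · left; exact ⟨e, he, by rw [zpow_natCast]; exact h⟩
    · right; left; exact h
    · right; right; exact h)
  simp only [pow_one] at hp1
  rw [hprod, hU] at hp1
  refine ⟨π, hπ, ?_⟩
  rcases hp1 with ⟨e, he, h1, h2⟩ | ⟨⟨a, ha, h1⟩, h2⟩ | ⟨h1, h2⟩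
  · left
    rw [Nat.cast_one, mul_one, zpow_natCast] at h2
    exact ⟨hX1 _ h2 hlt', by rw [hswap, h2]⟩
  · rw [hswap]
    by_cases ha0 : a = 0
    · right; left
      refine ⟨?_, h2⟩
      rw [ha0, map_zero, sub_zero] at h1
      rw [← hU, h1, map_pow]
    · right; right; left
      refine ⟨?_, h2, a ^ ℓ, ?_⟩
      · -- the value of `X0 = U ^ ℓ`
        have h3 := val_sub_ne W hκ (x := U) (a := a) (by rw [← h1]; exact hlt) (e := 0)
          (fun h => ha0 h.symm)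
        rw [map_zero, sub_zero] at h3
        rw [← hU, map_pow, h3, one_pow]
      · have hζΩ : IsPrimitiveRoot (algebraMap κ Ω ζ) ℓ :=
          hζ.map_of_injective (algebraMap κ Ω).injective
        have h3 : U ^ ℓ - (algebraMap κ Ω a) ^ ℓ =
            ∏ e ∈ nthRootsFinset ℓ (1 : Ω), (U - e * algebraMap κ Ω a) :=
          hζΩ.pow_sub_pow_eq_prod_sub_mul _ _ hp.out.pos
        have hone' : (1 : Ω) ∈ nthRootsFinset ℓ (1 : Ω) := by
          rw [mem_nthRootsFinset hp.out.pos]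
          exact one_pow _
        rw [← hU, map_pow, h3, ← Finset.mul_prod_erase _ _ hone', map_mul, map_prod,
          Finset.prod_eq_one, mul_one, one_mul, h1]
        intro e he
        rw [Finset.mem_erase, mem_nthRootsFinset hp.out.pos] at he
        obtain ⟨c, hc⟩ := mu (κ := κ) hℓ0 e he.2
        rw [← hc, ← map_mul]
        refine val_sub_ne W hκ (x := U) (a := a) (by rw [← h1]; exact hlt) ?_
        intro h4
        apply he.1
        rw [← hc]
        have h5 : c = 1 := by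
          apply mul_right_cancel₀ ha0
          rw [h4, one_mul]
        rw [h5, map_one]
  · right; right; right
    have h3 : W.valuation X0 = (W.valuation π ^ ℓ)⁻¹ := by
      have h4 : W.valuation U = (W.valuation π)⁻¹ := by rw [h1, map_inv₀, inv_inv]
      rw [← hU, map_pow, h4, inv_pow]
    refine ⟨h3, ?_⟩
    have h5 : 1 < W.valuation X0 := by
      rw [h3]
      exact (one_lt_inv₀ (pow_pos hpos ℓ)).2 hlt'
    rw [hswap, ← h3]
    refine Valuation.map_sub_eq_of_lt_left _ ?_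
    rw [map_one]
    exact h5

theorem bez {ℓ n : ℕ} (hp : ℓ.Prime) (h : ¬ ℓ ∣ n) : ∃ u v : ℤ, (n : ℤ) * u + (ℓ : ℤ) * v = 1 := by
  have hcop : IsCoprime (n : ℤ) (ℓ : ℤ) := by
    rw [Nat.isCoprime_iff_coprime]
    exact ((Nat.Prime.coprime_iff_not_dvd hp).2 h).symm
  obtain ⟨u, v, huv⟩ := hcop
  exact ⟨u, v, by linarith⟩

/-- `κ(x, Z) ⊆ κ(U, Y)` -/
theorem ferm_sub {ℓ : ℕ} [hp : Fact ℓ.Prime] (hodd : Odd ℓ) (X0 U Y Z : Ω) (hX0 : X0 ≠ 0)
    (hX1 : X0 ≠ 1) (hU : U ^ ℓ = X0) (hY : Y ^ ℓ = X0 - 1)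
    (a b : ℕ) (hZ : Z ^ ℓ = X0 ^ a * (1 - X0) ^ b) :
    ∃ c : κ, c ^ ℓ = 1 ∧ Z = algebraMap κ Ω c * (U ^ a * (-Y) ^ b) := by
  have hℓ0 : ℓ ≠ 0 := hp.out.ne_zero
  have hY' : (-Y) ^ ℓ = 1 - X0 := by rw [hodd.neg_pow, hY, neg_sub]
  have hU0 : U ≠ 0 := by
    rintro rfl
    rw [zero_pow hℓ0] at hU
    exact hX0 hU.symm
  have hY0 : -Y ≠ 0 := by
    intro h
    rw [h, zero_pow hℓ0] at hY'
    exact hX1 (sub_eq_zero.1 hY'.symm).symm
  have h0 : U ^ a * (-Y) ^ b ≠ 0 := mul_ne_zero (pow_ne_zero _ hU0) (pow_ne_zero _ hY0)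
  have h1 : (U ^ a * (-Y) ^ b) ^ ℓ = Z ^ ℓ := by
    rw [mul_pow, ← pow_mul, ← pow_mul, mul_comm a, mul_comm b, pow_mul, pow_mul, hU, hY', hZ]
  obtain ⟨c, hc⟩ := mu (κ := κ) hℓ0 (Z / (U ^ a * (-Y) ^ b)) (by
    rw [div_pow, h1, div_self]
    rw [← h1]
    exact pow_ne_zero _ h0)
  refine ⟨c, ?_, by rw [hc, div_mul_cancel₀ _ h0]⟩
  apply (algebraMap κ Ω).injective
  rw [map_pow, hc, div_pow, h1, div_self, map_one]
  rw [← h1]
  exact pow_ne_zero _ h0

theorem ferm_fields {ℓ : ℕ} [hp : Fact ℓ.Prime] (hodd : Odd ℓ) (X0 U Y Z : Ω)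
    (hX : Transcendental κ X0) (hU : U ^ ℓ = X0) (hY : Y ^ ℓ = X0 - 1)
    (a b : ℕ) (hZ : Z ^ ℓ = X0 ^ a * (1 - X0) ^ b) (ha : ¬ ℓ ∣ a) (hb : ¬ ℓ ∣ b)
    (hab : ¬ ℓ ∣ a + b) [hcl0 : IsAlgClosure (IntermediateField.adjoin κ {X0}) Ω]
    [hcl : IsAlgClosure (IntermediateField.adjoin κ {U}) Ω]
    (hsub : ∀ t ∈ IntermediateField.adjoin (IntermediateField.adjoin κ {X0}) {Z},
      t ∈ IntermediateField.adjoin (IntermediateField.adjoin κ {U}) {Y})
    (W : ValuationSubring Ω) (hκ : ∀ c : κ, algebraMap κ Ω c ∈ W) (hW : W ≠ ⊤) :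
    ∃ π π', Unf (IntermediateField.adjoin (IntermediateField.adjoin κ {U}) {Y}) W π ∧
      Unf (IntermediateField.adjoin (IntermediateField.adjoin κ {X0}) {Z}) W π' ∧
      Apx (IntermediateField.adjoin (IntermediateField.adjoin κ {X0}) {Z}) W U ∧
      Apx (IntermediateField.adjoin (IntermediateField.adjoin κ {X0}) {Z}) W Y := by
  have hℓ0 : ℓ ≠ 0 := hp.out.ne_zero
  haveI : Algebra.IsAlgebraic (IntermediateField.adjoin κ {X0}) Ω := IsAlgClosure.isAlgebraic
  haveI : Algebra.IsAlgebraic (IntermediateField.adjoin κ {U}) Ω := IsAlgClosure.isAlgebraic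
  have hUt : Transcendental κ U := by
    intro h
    apply hX
    rw [← hU]
    exact h.pow ℓ
  obtain ⟨π, hπ, hcase⟩ := ferm_vals X0 U Y hU hY hUt W hκ hW
  have hpos := hπ.pos
  have hX0m : X0 ∈ IntermediateField.adjoin (IntermediateField.adjoin κ {X0}) {Z} :=
    IntermediateField.algebraMap_mem _
      (⟨X0, IntermediateField.mem_adjoin_simple_self κ X0⟩ : IntermediateField.adjoin κ {X0})
  have hZm : Z ∈ IntermediateField.adjoin (IntermediateField.adjoin κ {X0}) {Z} :=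
    IntermediateField.mem_adjoin_simple_self _ _
  have hcm : ∀ c : κ, algebraMap κ Ω c ∈
      IntermediateField.adjoin (IntermediateField.adjoin κ {X0}) {Z} := fun c =>
    IntermediateField.algebraMap_mem _
      (algebraMap κ (IntermediateField.adjoin κ {X0}) c)
  have hZv : ∀ p q : ℤ, W.valuation X0 = W.valuation π ^ ((ℓ : ℤ) * p) →
      W.valuation (1 - X0) = W.valuation π ^ ((ℓ : ℤ) * q) →
      W.valuation Z = W.valuation π ^ ((a : ℤ) * p + (b : ℤ) * q) := by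
    intro p q h1 h2
    refine ord_lemma hpos hℓ0 ?_
    rw [← map_pow, hZ, map_mul, map_pow, map_pow, h1, h2, ← zpow_natCast, ← zpow_natCast,
      ← zpow_mul, ← zpow_mul, ← zpow_add₀ hpos.ne']
    congr 1
    ring
  obtain ⟨p, q, π', h1, h2, hm, hv⟩ : ∃ (p q : ℤ) (π' : Ω),
      W.valuation X0 = W.valuation π ^ ((ℓ : ℤ) * p) ∧
      W.valuation (1 - X0) = W.valuation π ^ ((ℓ : ℤ) * q) ∧
      π' ∈ IntermediateField.adjoin (IntermediateField.adjoin κ {X0}) {Z} ∧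
      W.valuation π' = W.valuation π := by
    rcases hcase with ⟨h1, h2⟩ | ⟨h1, h2⟩ | ⟨h1, h2, c, h3⟩ | ⟨h1, h2⟩
    · obtain ⟨u, v, huv⟩ := bez hp.out hb
      have h1' : W.valuation X0 = W.valuation π ^ ((ℓ : ℤ) * 0) := by rw [mul_zero, zpow_zero, h1]
      have h2' : W.valuation (1 - X0) = W.valuation π ^ ((ℓ : ℤ) * 1) := by
        rw [mul_one, zpow_natCast, h2]
      refine ⟨0, 1, Z ^ u * (1 - X0) ^ v, h1', h2', mul_mem (zpow_mem hZm _)
        (zpow_mem (sub_mem (one_mem _) hX0m) _), ?_⟩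
      rw [map_mul, map_zpow₀, map_zpow₀, hZv 0 1 h1' h2', h2', ← zpow_mul, ← zpow_mul,
        ← zpow_add₀ hpos.ne']
      have h4 : ((a : ℤ) * 0 + (b : ℤ) * 1) * u + (ℓ : ℤ) * 1 * v = 1 := by linarith
      rw [h4, zpow_one]
    · obtain ⟨u, v, huv⟩ := bez hp.out ha
      have h1' : W.valuation X0 = W.valuation π ^ ((ℓ : ℤ) * 1) := by
        rw [mul_one, zpow_natCast, h1]
      have h2' : W.valuation (1 - X0) = W.valuation π ^ ((ℓ : ℤ) * 0) := by
        rw [mul_zero, zpow_zero, h2]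
      refine ⟨1, 0, Z ^ u * X0 ^ v, h1', h2', mul_mem (zpow_mem hZm _) (zpow_mem hX0m _), ?_⟩
      rw [map_mul, map_zpow₀, map_zpow₀, hZv 1 0 h1' h2', h1', ← zpow_mul, ← zpow_mul,
        ← zpow_add₀ hpos.ne']
      have h4 : ((a : ℤ) * 1 + (b : ℤ) * 0) * u + (ℓ : ℤ) * 1 * v = 1 := by linarith
      rw [h4, zpow_one]
    · exact ⟨0, 0, X0 - algebraMap κ Ω c, by rw [mul_zero, zpow_zero, h1],
        by rw [mul_zero, zpow_zero, h2], sub_mem hX0m (hcm c), h3⟩
    · obtain ⟨u, v, huv⟩ := bez hp.out hab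
      have h1' : W.valuation X0 = W.valuation π ^ ((ℓ : ℤ) * (-1)) := by
        rw [h1, mul_neg, mul_one, zpow_neg, zpow_natCast]
      have h2' : W.valuation (1 - X0) = W.valuation π ^ ((ℓ : ℤ) * (-1)) := by
        rw [h2, mul_neg, mul_one, zpow_neg, zpow_natCast]
      refine ⟨-1, -1, Z ^ (-u) * X0 ^ (-v), h1', h2', mul_mem (zpow_mem hZm _) (zpow_mem hX0m _),
        ?_⟩
      rw [map_mul, map_zpow₀, map_zpow₀, hZv (-1) (-1) h1' h2', h1', ← zpow_mul, ← zpow_mul,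
        ← zpow_add₀ hpos.ne']
      have h4 : ((a : ℤ) * (-1) + (b : ℤ) * (-1)) * (-u) + (ℓ : ℤ) * (-1) * (-v) = 1 := by
        push_cast at huv
        linarith
      rw [h4, zpow_one]
  have hπ' : Unf (IntermediateField.adjoin (IntermediateField.adjoin κ {X0}) {Z}) W π' :=
    unf_change2 hπ hsub hm hv
  have hres0 := hres (ratF_adj hX) (IntermediateField.adjoin (IntermediateField.adjoin κ {X0}) {Z})
    W hκ hW
  have hvl := vl hℓ0 W hκ
  refine ⟨π, π', hπ, hπ', ?_, ?_⟩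
  · refine Apx.root hπ' hres0 hℓ0 hvl U ?_ p ?_
    · rw [hU]
      exact Apx.of_mem hX0m
    · rw [hU, hv, h1]
  · refine Apx.root hπ' hres0 hℓ0 hvl Y ?_ q ?_
    · rw [hY]
      exact Apx.of_mem (sub_mem hX0m (one_mem _))
    · rw [hY, hv, Valuation.map_sub_swap, h2]

/-- **the two fields have the same maximal unramified pro-`ℓ` extension** -/
theorem ferm_maxPro {ℓ : ℕ} [hp : Fact ℓ.Prime] (hodd : Odd ℓ) (X0 U Y Z : Ω)
    (hX : Transcendental κ X0) (hU : U ^ ℓ = X0) (hY : Y ^ ℓ = X0 - 1)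
    (a b : ℕ) (hZ : Z ^ ℓ = X0 ^ a * (1 - X0) ^ b) (ha : ¬ ℓ ∣ a) (hb : ¬ ℓ ∣ b)
    (hab : ¬ ℓ ∣ a + b) [hcl0 : IsAlgClosure (IntermediateField.adjoin κ {X0}) Ω]
    [hcl : IsAlgClosure (IntermediateField.adjoin κ {U}) Ω] (z : Ω) :
    z ∈ maxPro ℓ κ (IntermediateField.adjoin (IntermediateField.adjoin κ {X0}) {Z}) Ω ↔
      z ∈ maxPro ℓ κ (IntermediateField.adjoin (IntermediateField.adjoin κ {U}) {Y}) Ω := by
  have hℓ0 : ℓ ≠ 0 := hp.out.ne_zero
  haveI : Algebra.IsAlgebraic (IntermediateField.adjoin κ {X0}) Ω := IsAlgClosure.isAlgebraic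
  haveI : Algebra.IsAlgebraic (IntermediateField.adjoin κ {U}) Ω := IsAlgClosure.isAlgebraic
  haveI : Normal (IntermediateField.adjoin κ {X0}) Ω := IsAlgClosure.normal _ Ω
  haveI : Normal (IntermediateField.adjoin κ {U}) Ω := IsAlgClosure.normal _ Ω
  have hUt : Transcendental κ U := by
    intro h
    apply hX
    rw [← hU]
    exact h.pow ℓ
  have hX0 : X0 ≠ 0 := by
    rintro rfl
    exact hX isAlgebraic_zero
  have hX1 : X0 ≠ 1 := by
    rintro rfl
    exact hX isAlgebraic_one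
  have hUm : U ∈ IntermediateField.adjoin (IntermediateField.adjoin κ {U}) {Y} :=
    IntermediateField.algebraMap_mem _
      (⟨U, IntermediateField.mem_adjoin_simple_self κ U⟩ : IntermediateField.adjoin κ {U})
  have hYm : Y ∈ IntermediateField.adjoin (IntermediateField.adjoin κ {U}) {Y} :=
    IntermediateField.mem_adjoin_simple_self _ _
  have hcm : ∀ c : κ, algebraMap κ Ω c ∈
      IntermediateField.adjoin (IntermediateField.adjoin κ {U}) {Y} := fun c =>
    IntermediateField.algebraMap_mem _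
      (algebraMap κ (IntermediateField.adjoin κ {U}) c)
  obtain ⟨c, -, hc⟩ := ferm_sub (κ := κ) hodd X0 U Y Z hX0 hX1 hU hY a b hZ
  have hsub : ∀ t ∈ IntermediateField.adjoin (IntermediateField.adjoin κ {X0}) {Z},
      t ∈ IntermediateField.adjoin (IntermediateField.adjoin κ {U}) {Y} := by
    intro t ht
    refine adjoin_le_sub (T := (IntermediateField.adjoin (IntermediateField.adjoin κ {U})
      {Y}).toSubfield) ?_ ?_ t ht
    · intro r
      refine adjoin_le_sub (T := (IntermediateField.adjoin (IntermediateField.adjoin κ {U})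
        {Y}).toSubfield) (fun c => hcm c) ?_ (r : Ω) r.2
      intro s hs
      rw [Set.mem_singleton_iff.1 hs, ← hU]
      exact pow_mem hUm _
    · intro s hs
      rw [Set.mem_singleton_iff.1 hs, hc]
      exact mul_mem (hcm c) (mul_mem (pow_mem hUm _) (pow_mem (neg_mem hYm) _))
  have hf := fun W h1 h2 => ferm_fields hodd X0 U Y Z hX hU hY a b hZ ha hb hab hsub W h1 h2
  have hU0 : HU κ (IntermediateField.adjoin (IntermediateField.adjoin κ {X0}) {Z}) :=
    fun W h1 h2 => by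
      obtain ⟨π, π', -, h5, -⟩ := hf W h1 h2
      exact ⟨π', h5⟩
  have hU1 : HU κ (IntermediateField.adjoin (IntermediateField.adjoin κ {U}) {Y}) :=
    fun W h1 h2 => by
      obtain ⟨π, π', h5, -⟩ := hf W h1 h2
      exact ⟨π, h5⟩
  have hapx : ∀ W : ValuationSubring Ω, (∀ c : κ, algebraMap κ Ω c ∈ W) → W ≠ ⊤ →
      ∀ t ∈ IntermediateField.adjoin (IntermediateField.adjoin κ {U}) {Y},
        Apx (IntermediateField.adjoin (IntermediateField.adjoin κ {X0}) {Z}) W t := by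
    intro W h1 h2 t ht
    obtain ⟨π, π', -, -, h5, h6⟩ := hf W h1 h2
    refine adjoin_le_sub (T := apxSub (IntermediateField.adjoin
      (IntermediateField.adjoin κ {X0}) {Z}) W) ?_ ?_ t ht
    · intro r
      refine adjoin_le_sub (T := apxSub (IntermediateField.adjoin
        (IntermediateField.adjoin κ {X0}) {Z}) W) (fun c => ?_) ?_ (r : Ω) r.2
      · exact Apx.of_mem (IntermediateField.algebraMap_mem _
          (algebraMap κ (IntermediateField.adjoin κ {X0}) c))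
      · intro s hs
        rw [Set.mem_singleton_iff.1 hs]
        exact h5
    · intro s hs
      rw [Set.mem_singleton_iff.1 hs]
      exact h6
  have hZf : Z ^ ℓ = algebraMap (IntermediateField.adjoin κ {X0}) Ω
      (⟨X0, IntermediateField.mem_adjoin_simple_self κ X0⟩ ^ a *
        (1 - ⟨X0, IntermediateField.mem_adjoin_simple_self κ X0⟩) ^ b) := hZ
  have hYf : Y ^ ℓ = algebraMap (IntermediateField.adjoin κ {U}) Ω
      (⟨U, IntermediateField.mem_adjoin_simple_self κ U⟩ ^ ℓ - 1) := by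
    rw [hY, ← hU]
    rfl
  have hpro := pro_iff (κ := κ) hℓ0 X0 U hU z
  constructor
  · intro hz
    have h3 := maxPro_le (ratF_adj hX) hZf hU0 hz
    exact le_maxPro hYf hU1 ⟨hpro.1 h3.1, fun W h4 h5 =>
      apx_change2 (fun t ht => Apx.of_mem (hsub t ht)) (h3.2 W h4 h5)⟩
  · intro hz
    have h3 := maxPro_le (ratF_adj hUt) hYf hU1 hz
    exact le_maxPro hZf hU0 ⟨hpro.2 h3.1, fun W h4 h5 =>
      apx_change2 (hapx W h4 h5) (h3.2 W h4 h5)⟩

end fermat

end Pool.Agent.X281.OB
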