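import Pool.Agent.X281.OB.Bt

/-!
# The covering fields of `κ(x, Z)`, `Z ^ ℓ = x ^ a ∏ (x - b) ^ c(b)`, and `κ(U, Y)`, `U ^ ℓ = x`,
`Y ^ ℓ = ∏ (x - b)`
-/

set_option autoImplicit false
set_option linter.all false

namespace Pool.Agent.X281.OB

open Polynomial FF Pool.Agent.Y157.PS Pool.Agent.Y948.PS

section apx3

variable {R R' Ω : Type} [Field R] [Field R'] [Field Ω] [Algebra R Ω] [Algebra R' Ω]
  [Algebra.IsAlgebraic R Ω] [Algebra.IsAlgebraic R' Ω]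
  {K : IntermediateField R Ω} {K' : IntermediateField R' Ω} {W : ValuationSubring Ω}

theorem unf_change3 {π π' : Ω} (hπ : Unf K' W π) (h : ∀ t ∈ K, Apx K' W t) (hm : π' ∈ K)
    (hv : W.valuation π' = W.valuation π) : Unf K W π' := by
  refine ⟨hm, ?_, by rw [hv]; exact hπ.lt, fun z hz hz0 => ?_⟩
  · intro h0
    rw [h0, map_zero] at hv
    exact hπ.pos.ne hv
  · obtain ⟨n, hn⟩ := (h z hz).val' hπ hz0
    exact ⟨n, by rw [hn, hv]⟩

end apx3

section gen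

variable {κ Ω : Type} [Field κ] [IsAlgClosed κ] [CharZero κ] [Field Ω] [Algebra κ Ω]

theorem adjm_c (U V : Ω) (c : κ) : algebraMap κ Ω c ∈
    IntermediateField.adjoin (IntermediateField.adjoin κ {U}) {V} :=
  IntermediateField.algebraMap_mem _ (algebraMap κ (IntermediateField.adjoin κ {U}) c)

theorem adjm_U (U V : Ω) : U ∈
    IntermediateField.adjoin (IntermediateField.adjoin κ {U}) {V} :=
  IntermediateField.algebraMap_mem _
    (⟨U, IntermediateField.mem_adjoin_simple_self κ U⟩ : IntermediateField.adjoin κ {U})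

theorem adjm_V (U V : Ω) : V ∈
    IntermediateField.adjoin (IntermediateField.adjoin κ {U}) {V} :=
  IntermediateField.mem_adjoin_simple_self _ _

theorem apx_adj2 {R' : Type} [Field R'] [Algebra R' Ω] [Algebra.IsAlgebraic R' Ω] (U V : Ω) (K : IntermediateField R' Ω)
    (W : ValuationSubring Ω) (hκ : ∀ c : κ, Apx K W (algebraMap κ Ω c)) (hU : Apx K W U)
    (hV : Apx K W V) : ∀ t ∈ IntermediateField.adjoin (IntermediateField.adjoin κ {U}) {V},
      Apx K W t := by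
  intro t ht
  refine adjoin_le_sub (T := apxSub K W) ?_ ?_ t ht
  · intro r
    refine adjoin_le_sub (T := apxSub K W) (fun c => hκ c) ?_ (r : Ω) r.2
    intro s hs
    rw [Set.mem_singleton_iff.1 hs]
    exact hU
  · intro s hs
    rw [Set.mem_singleton_iff.1 hs]
    exact hV

/-- the values of `X ^ a ∏ (X - b) ^ c(b)` -/
theorem valP (W : ValuationSubring Ω) (hκ : ∀ c : κ, algebraMap κ Ω c ∈ W) (B : Finset κ)
    (h0 : (0 : κ) ∉ B) (X : Ω) {g γ : W.ValueGroup} (hγ0 : 0 < g) (hγ1 : γ < 1) (hγg : g < 1)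
    (h : (∃ b ∈ B, W.valuation (X - algebraMap κ Ω b) = γ) ∨ (W.valuation X = γ) ∨
       (∃ c : κ, c ≠ 0 ∧ c ∉ B ∧ W.valuation (X - algebraMap κ Ω c) = g) ∨
       (W.valuation X = γ⁻¹)) (hγ : 0 < γ) :
    (∃ b ∈ B, W.valuation (X - algebraMap κ Ω b) = γ ∧ ∀ (a : ℕ) (c : κ → ℕ),
      W.valuation (X ^ a * ∏ b ∈ B, (X - algebraMap κ Ω b) ^ c b) = γ ^ (c b : ℤ)) ∨
    (W.valuation X = γ ∧ ∀ (a : ℕ) (c : κ → ℕ),
      W.valuation (X ^ a * ∏ b ∈ B, (X - algebraMap κ Ω b) ^ c b) = γ ^ (a : ℤ)) ∨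
    ((∃ c : κ, W.valuation (X - algebraMap κ Ω c) = g) ∧ ∀ (a : ℕ) (c : κ → ℕ),
      W.valuation (X ^ a * ∏ b ∈ B, (X - algebraMap κ Ω b) ^ c b) = γ ^ (0 : ℤ)) ∨
    (W.valuation X = γ⁻¹ ∧ ∀ (a : ℕ) (c : κ → ℕ),
      W.valuation (X ^ a * ∏ b ∈ B, (X - algebraMap κ Ω b) ^ c b) =
        γ ^ (-((a : ℤ) + ∑ b ∈ B, (c b : ℤ)))) := by
  classical
  rcases h with ⟨b, hb, h1⟩ | h1 | ⟨c₀, hc0, hcB, h1⟩ | h1
  · left
    have hlt : W.valuation (X - algebraMap κ Ω b) < 1 := by rw [h1]; exact hγ1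
    have hb0 : (0 : κ) ≠ b := fun h => h0 (h ▸ hb)
    have hX : W.valuation X = 1 := by
      have := val_sub_ne W hκ hlt hb0
      rwa [map_zero, sub_zero] at this
    refine ⟨b, hb, h1, fun a c => ?_⟩
    rw [map_mul, map_pow, hX, one_pow, one_mul, ← Finset.mul_prod_erase _ _ hb, map_mul, map_prod,
      Finset.prod_eq_one, mul_one, map_pow, h1, zpow_natCast]
    intro e he
    rw [map_pow, val_sub_ne W hκ hlt (Finset.ne_of_mem_erase he), one_pow]
  · right; left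
    refine ⟨h1, fun a c => ?_⟩
    have hlt : W.valuation (X - algebraMap κ Ω 0) < 1 := by
      rw [map_zero, sub_zero, h1]; exact hγ1
    rw [map_mul, map_pow, h1, map_prod, Finset.prod_eq_one, mul_one, zpow_natCast]
    intro e he
    rw [map_pow, val_sub_ne W hκ hlt (fun h => h0 (h ▸ he)), one_pow]
  · right; right; left
    have hlt : W.valuation (X - algebraMap κ Ω c₀) < 1 := by rw [h1]; exact hγg
    have hX : W.valuation X = 1 := by
      have := val_sub_ne W hκ hlt hc0.symm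
      rwa [map_zero, sub_zero] at this
    refine ⟨⟨c₀, h1⟩, fun a c => ?_⟩
    rw [map_mul, map_pow, hX, one_pow, one_mul, map_prod, Finset.prod_eq_one, zpow_zero]
    intro e he
    rw [map_pow, val_sub_ne W hκ hlt (fun h => hcB (h ▸ he)), one_pow]
  · right; right; right
    refine ⟨h1, fun a c => ?_⟩
    have hX1 : 1 < W.valuation X := by
      rw [h1]
      exact (one_lt_inv₀ hγ).2 hγ1
    have h2 : ∀ e : κ, W.valuation (X - algebraMap κ Ω e) = γ⁻¹ := by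
      intro e
      rw [← h1]
      exact Valuation.map_sub_eq_of_lt_left _ (lt_of_le_of_lt ((W.valuation_le_one_iff _).2 (hκ e))
        hX1)
    rw [map_mul, map_pow, h1, map_prod, Finset.prod_congr rfl fun e _ => by rw [map_pow, h2 e],
      Finset.prod_pow_eq_pow_sum, ← pow_add, zpow_neg, inv_pow]
    congr 1
    rw [← zpow_natCast]
    congr 1
    push_cast
    rfl

theorem gen_fields {ℓ : ℕ} [hp : Fact ℓ.Prime] (B : Finset κ) (h0 : (0 : κ) ∉ B)
    (hne : B.Nonempty) (X0 U Y Z : Ω)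
    (hX : Transcendental κ X0) (hU : U ^ ℓ = X0)
    (hY : Y ^ ℓ = ∏ e ∈ bt ℓ B, (U - algebraMap κ Ω e))
    (a : ℕ) (c : κ → ℕ) (hZ : Z ^ ℓ = X0 ^ a * ∏ b ∈ B, (X0 - algebraMap κ Ω b) ^ c b)
    (ha : ¬ ℓ ∣ a) (hc : ∀ b ∈ B, ¬ ℓ ∣ c b) (hac : ¬ ℓ ∣ a + ∑ b ∈ B, c b)
    [hcl0 : IsAlgClosure (IntermediateField.adjoin κ {X0}) Ω]
    [hcl : IsAlgClosure (IntermediateField.adjoin κ {U}) Ω]
    (W : ValuationSubring Ω) (hκ : ∀ c : κ, algebraMap κ Ω c ∈ W) (hW : W ≠ ⊤) :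
    ∃ π π', Unf (IntermediateField.adjoin (IntermediateField.adjoin κ {U}) {Y}) W π ∧
      Unf (IntermediateField.adjoin (IntermediateField.adjoin κ {X0}) {Z}) W π' ∧
      Apx (IntermediateField.adjoin (IntermediateField.adjoin κ {U}) {Y}) W Z ∧
      Apx (IntermediateField.adjoin (IntermediateField.adjoin κ {X0}) {Z}) W U ∧
      Apx (IntermediateField.adjoin (IntermediateField.adjoin κ {X0}) {Z}) W Y := by
  have hℓ0 : ℓ ≠ 0 := hp.out.ne_zero
  haveI : Algebra.IsAlgebraic (IntermediateField.adjoin κ {X0}) Ω := IsAlgClosure.isAlgebraic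
  haveI : Algebra.IsAlgebraic (IntermediateField.adjoin κ {U}) Ω := IsAlgClosure.isAlgebraic
  have hUt : Transcendental κ U := by
    intro h
    apply hX
    rw [← hU]
    exact h.pow ℓ
  obtain ⟨π, hπ, hcase⟩ := gen_vals B h0 hne U Y hY hUt W hκ hW
  rw [hU] at hcase
  have hpos := hπ.pos
  have hlt := hπ.lt
  have hlt' : W.valuation π ^ ℓ < 1 := pow_lt_one₀ zero_le hlt hℓ0
  have hpos' : 0 < W.valuation π ^ ℓ := pow_pos hpos ℓ
  have hYp : Y ^ ℓ = X0 ^ 0 * ∏ b ∈ B, (X0 - algebraMap κ Ω b) ^ (fun _ : κ => 1) b := by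
    rw [hY, pow_zero, one_mul, ← hU, ← bt_prod B h0 (fun _ => 1) U]
    exact Finset.prod_congr rfl fun e _ => (pow_one _).symm
  have hUp : U ^ ℓ = X0 ^ 1 * ∏ b ∈ B, (X0 - algebraMap κ Ω b) ^ (fun _ : κ => 0) b := by
    rw [hU, pow_one, Finset.prod_eq_one fun b _ => pow_zero _, mul_one]
  have hX0m := adjm_U (κ := κ) X0 Z
  have hZm := adjm_V (κ := κ) X0 Z
  have hcm := adjm_c (κ := κ) X0 Z
  have hgn : ∀ n : ℤ, (W.valuation π ^ ℓ) ^ n = W.valuation π ^ ((ℓ : ℤ) * n) := fun n => by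
    rw [zpow_mul, zpow_natCast]
  -- the values of `Z`, `U`, `Y`
  obtain ⟨n, p, q, hn, hp', hq, π', hm, hv⟩ : ∃ n p q : ℤ,
      W.valuation (Z ^ ℓ) = W.valuation π ^ ((ℓ : ℤ) * n) ∧
      W.valuation (U ^ ℓ) = W.valuation π ^ ((ℓ : ℤ) * p) ∧
      W.valuation (Y ^ ℓ) = W.valuation π ^ ((ℓ : ℤ) * q) ∧
      ∃ π' ∈ IntermediateField.adjoin (IntermediateField.adjoin κ {X0}) {Z},
        W.valuation Z = W.valuation π ^ n → W.valuation π' = W.valuation π := by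
    rcases valP W hκ B h0 X0 hpos hlt' hlt hcase hpos' with ⟨b, hb, h1, h2⟩ | ⟨h1, h2⟩ |
      ⟨⟨c₀, h1⟩, h2⟩ | ⟨h1, h2⟩
    · obtain ⟨u, v, huv⟩ := bez hp.out (hc b hb)
      refine ⟨c b, 0, 1, by rw [hZ, h2, hgn], by rw [hUp, h2, hgn]; rfl, by rw [hYp, h2, hgn]; rfl,
        Z ^ u * (X0 - algebraMap κ Ω b) ^ v, mul_mem (zpow_mem hZm _)
          (zpow_mem (sub_mem hX0m (hcm b)) _), fun h7 => ?_⟩
      rw [map_mul, map_zpow₀, map_zpow₀, h7, h1, hgn, ← zpow_mul, ← zpow_add₀ hpos.ne', huv,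
        zpow_one]
    · obtain ⟨u, v, huv⟩ := bez hp.out ha
      refine ⟨a, 1, 0, by rw [hZ, h2, hgn], by rw [hUp, h2, hgn]; rfl, by rw [hYp, h2, hgn]; rfl,
        Z ^ u * X0 ^ v, mul_mem (zpow_mem hZm _) (zpow_mem hX0m _), fun h7 => ?_⟩
      rw [map_mul, map_zpow₀, map_zpow₀, h7, h1, hgn, ← zpow_mul, ← zpow_add₀ hpos.ne', huv,
        zpow_one]
    · exact ⟨0, 0, 0, by rw [hZ, h2, hgn], by rw [hUp, h2, hgn], by rw [hYp, h2, hgn],
        X0 - algebraMap κ Ω c₀, sub_mem hX0m (hcm c₀), fun _ => h1⟩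
    · obtain ⟨u, v, huv⟩ := bez hp.out hac
      refine ⟨-((a : ℤ) + ∑ b ∈ B, (c b : ℤ)), -1, -(∑ b ∈ B, (1 : ℤ)), by rw [hZ, h2, hgn],
        by rw [hUp, h2, hgn]; simp, by rw [hYp, h2, hgn]; simp,
        Z ^ (-u) * X0 ^ (-v), mul_mem (zpow_mem hZm _) (zpow_mem hX0m _), fun h7 => ?_⟩
      have h8 : W.valuation X0 = W.valuation π ^ ((ℓ : ℤ) * (-1)) := by
        rw [h1, mul_neg, mul_one, zpow_neg, zpow_natCast]
      rw [map_mul, map_zpow₀, map_zpow₀, h7, h8, ← zpow_mul, ← zpow_mul, ← zpow_add₀ hpos.ne']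
      have h4 : -((a : ℤ) + ∑ b ∈ B, (c b : ℤ)) * (-u) + (ℓ : ℤ) * (-1) * (-v) = 1 := by
        push_cast at huv
        linarith
      rw [h4, zpow_one]
  have hvl := vl hℓ0 W hκ
  have hZv : W.valuation Z = W.valuation π ^ n := ord_lemma hpos hℓ0 (by rw [← map_pow]; exact hn)
  have hv' := hv hZv
  have hresU := hres (ratF_adj hUt) (IntermediateField.adjoin (IntermediateField.adjoin κ {U}) {Y})
    W hκ hW
  have hresX := hres (ratF_adj hX) (IntermediateField.adjoin (IntermediateField.adjoin κ {X0}) {Z})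
    W hκ hW
  have hX0U : X0 ∈ IntermediateField.adjoin (IntermediateField.adjoin κ {U}) {Y} := by
    rw [← hU]
    exact pow_mem (adjm_U (κ := κ) U Y) _
  have hAZ : Apx (IntermediateField.adjoin (IntermediateField.adjoin κ {U}) {Y}) W Z := by
    refine Apx.root hπ hresU hℓ0 hvl Z ?_ n hn
    rw [hZ]
    exact Apx.of_mem (mul_mem (pow_mem hX0U _) (prod_mem fun b _ =>
      pow_mem (sub_mem hX0U (adjm_c (κ := κ) U Y b)) _))
  have hπ' : Unf (IntermediateField.adjoin (IntermediateField.adjoin κ {X0}) {Z}) W π' :=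
    unf_change3 hπ (apx_adj2 (κ := κ) X0 Z _ W (fun c => Apx.of_mem (adjm_c (κ := κ) U Y c))
      (Apx.of_mem hX0U) hAZ) hm hv'
  refine ⟨π, π', hπ, hπ', hAZ, ?_, ?_⟩
  · refine Apx.root hπ' hresX hℓ0 hvl U ?_ p (by rw [hp', hv'])
    rw [hU]
    exact Apx.of_mem hX0m
  · refine Apx.root hπ' hresX hℓ0 hvl Y ?_ q (by rw [hq, hv'])
    rw [hYp]
    exact Apx.of_mem (mul_mem (pow_mem hX0m _) (prod_mem fun b _ =>
      pow_mem (sub_mem hX0m (hcm b)) _))

/-- **the two fields have the same maximal unramified pro-`ℓ` extension** -/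
theorem gen_maxPro {ℓ : ℕ} [hp : Fact ℓ.Prime] (B : Finset κ) (h0 : (0 : κ) ∉ B)
    (hne : B.Nonempty) (X0 U Y Z : Ω)
    (hX : Transcendental κ X0) (hU : U ^ ℓ = X0)
    (hY : Y ^ ℓ = ∏ e ∈ bt ℓ B, (U - algebraMap κ Ω e))
    (a : ℕ) (c : κ → ℕ) (hZ : Z ^ ℓ = X0 ^ a * ∏ b ∈ B, (X0 - algebraMap κ Ω b) ^ c b)
    (ha : ¬ ℓ ∣ a) (hc : ∀ b ∈ B, ¬ ℓ ∣ c b) (hac : ¬ ℓ ∣ a + ∑ b ∈ B, c b)
    [hcl0 : IsAlgClosure (IntermediateField.adjoin κ {X0}) Ω]
    [hcl : IsAlgClosure (IntermediateField.adjoin κ {U}) Ω] (z : Ω) :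
    z ∈ maxPro ℓ κ (IntermediateField.adjoin (IntermediateField.adjoin κ {X0}) {Z}) Ω ↔
      z ∈ maxPro ℓ κ (IntermediateField.adjoin (IntermediateField.adjoin κ {U}) {Y}) Ω := by
  have hℓ0 : ℓ ≠ 0 := hp.out.ne_zero
  haveI : Algebra.IsAlgebraic (IntermediateField.adjoin κ {X0}) Ω := IsAlgClosure.isAlgebraic
  haveI : Algebra.IsAlgebraic (IntermediateField.adjoin κ {U}) Ω := IsAlgClosure.isAlgebraic
  haveI : Normal (IntermediateField.adjoin κ {X0}) Ω := IsAlgClosure.normal _ Ω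
  haveI : Normal (IntermediateField.adjoin κ {U}) Ω := IsAlgClosure.normal _ Ω
  have hUt : Transcendental κ U := by
    intro h
    apply hX
    rw [← hU]
    exact h.pow ℓ
  have hf := fun W h1 h2 => gen_fields B h0 hne X0 U Y Z hX hU hY a c hZ ha hc hac W h1 h2
  have hX0U : X0 ∈ IntermediateField.adjoin (IntermediateField.adjoin κ {U}) {Y} := by
    rw [← hU]
    exact pow_mem (adjm_U (κ := κ) U Y) _
  have hU0 : HU κ (IntermediateField.adjoin (IntermediateField.adjoin κ {X0}) {Z}) :=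
    fun W h1 h2 => by
      obtain ⟨π, π', -, h5, -⟩ := hf W h1 h2
      exact ⟨π', h5⟩
  have hU1 : HU κ (IntermediateField.adjoin (IntermediateField.adjoin κ {U}) {Y}) :=
    fun W h1 h2 => by
      obtain ⟨π, π', h5, -⟩ := hf W h1 h2
      exact ⟨π, h5⟩
  have hx0 : X0 ∈ IntermediateField.adjoin κ {X0} := IntermediateField.mem_adjoin_simple_self κ X0
  have hu0 : U ∈ IntermediateField.adjoin κ {U} := IntermediateField.mem_adjoin_simple_self κ U
  have hZR : Z ^ ℓ ∈ IntermediateField.adjoin κ {X0} := by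
    rw [hZ]
    exact mul_mem (pow_mem hx0 _) (prod_mem fun b _ => pow_mem (sub_mem hx0
      (IntermediateField.algebraMap_mem _ b)) _)
  have hYR : Y ^ ℓ ∈ IntermediateField.adjoin κ {U} := by
    rw [hY]
    exact prod_mem fun b _ => sub_mem hu0 (IntermediateField.algebraMap_mem _ b)
  have hZf : Z ^ ℓ = algebraMap (IntermediateField.adjoin κ {X0}) Ω ⟨Z ^ ℓ, hZR⟩ := rfl
  have hYf : Y ^ ℓ = algebraMap (IntermediateField.adjoin κ {U}) Ω ⟨Y ^ ℓ, hYR⟩ := rfl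
  have hpro := pro_iff (κ := κ) hℓ0 X0 U hU z
  constructor
  · intro hz
    have h3 := maxPro_le (ratF_adj hX) hZf hU0 hz
    refine le_maxPro hYf hU1 ⟨hpro.1 h3.1, fun W h4 h5 => ?_⟩
    obtain ⟨π, π', -, -, h6, -⟩ := hf W h4 h5
    exact apx_change2 (apx_adj2 (κ := κ) X0 Z _ W (fun c => Apx.of_mem (adjm_c (κ := κ) U Y c))
      (Apx.of_mem hX0U) h6) (h3.2 W h4 h5)
  · intro hz
    have h3 := maxPro_le (ratF_adj hUt) hYf hU1 hz
    refine le_maxPro hZf hU0 ⟨hpro.2 h3.1, fun W h4 h5 => ?_⟩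
    obtain ⟨π, π', -, -, -, h6, h7⟩ := hf W h4 h5
    exact apx_change2 (apx_adj2 (κ := κ) U Y _ W (fun c => Apx.of_mem (adjm_c (κ := κ) X0 Z c))
      h6 h7) (h3.2 W h4 h5)

end gen

end Pool.Agent.X281.OB
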