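import Pool.Agent.X281.FL.NoSec
import Pool.Agent.X281.FL.Cusp

/-!
# The place of a section of the orbifold fundamental group

`M` is the maximal pro-`ℓ` extension of `κ(x, Y)`, `Y ^ ℓ = ∏ (x - e)`, and `s` is a semilinear
action of `Gal(κ/k)` on `M` which fixes `x`.  If `s` acts on some `Z` with
`Z ^ ℓ = ∏ (x - e) ^ c(e)` through a ramified Kummer cocycle, then `s` fixes exactly one place of
`M` above the branch points.
-/

set_option autoImplicit false
set_option linter.all false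

namespace Pool.Agent.X281.OB

open Polynomial FF Pool.Agent.Y157.PS Pool.Agent.X281.FL

section ine

variable {A k κ : Type} [CommRing A] [IsDomain A] [IsDiscreteValuationRing A]
  [Finite (IsLocalRing.ResidueField A)] [Field k] [CharZero k] [Algebra A k] [IsFractionRing A k]
  [Field κ] [Algebra k κ] [Algebra A κ] [IsScalarTower A k κ] [IsAlgClosure k κ]

/-- inertia elements fix the `ℓ`-th roots of elements whose valuation is divisible by `ℓ` -/
theorem ine_fix {ℓ : ℕ} [hp : Fact ℓ.Prime] (V : ValuationSubring κ)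
    (hVa : ∀ a : A, algebraMap A κ a ∈ V) (hℓA : IsUnit (ℓ : A)) (ϖ : A) (hϖ : Irreducible ϖ)
    (σ : κ ≃ₐ[k] κ) (hσ : Ine V σ) (u : A) (hu : IsUnit u) (j : ℤ) (c : κ)
    (hc : c ^ ℓ = algebraMap A κ u * algebraMap A κ ϖ ^ ((ℓ : ℤ) * j)) : σ c = c := by
  have hinj : Function.Injective (algebraMap A κ) := by
    rw [IsScalarTower.algebraMap_eq A k κ]
    exact (algebraMap k κ).injective.comp (IsFractionRing.injective A k)
  have hϖ0 : algebraMap A κ ϖ ≠ 0 := by
    intro h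
    exact hϖ.ne_zero (hinj (by rw [h, map_zero]))
  have hσϖ : σ (algebraMap A κ ϖ) = algebraMap A κ ϖ := by
    rw [IsScalarTower.algebraMap_apply A k κ]
    exact σ.commutes _
  have hl : IsU V (ℓ : κ) := by
    have h1 := isU_alg V hVa (ℓ : A) hℓA
    rwa [map_natCast] at h1
  set v : κ := c / algebraMap A κ ϖ ^ j with hv
  have hvℓ : v ^ ℓ = algebraMap A κ u := by
    rw [hv, div_pow, hc, ← zpow_natCast (algebraMap A κ ϖ ^ j), ← zpow_mul, mul_comm j,
      mul_div_cancel_right₀ _ (zpow_ne_zero _ hϖ0)]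
  have hvU : IsU V v := by
    refine Pool.Agent.Y748.PS.isU_of_pow hp.out.pos ?_
    rw [hvℓ]
    exact isU_alg V hVa u hu
  have h1 : (σ v / v) ^ ℓ = 1 := by
    rw [div_pow, ← map_pow, hvℓ, IsScalarTower.algebraMap_apply A k κ, σ.commutes, div_self]
    rw [← IsScalarTower.algebraMap_apply, ← hvℓ]
    exact pow_ne_zero _ hvU.1
  have h2 : σ v / v - 1 = v⁻¹ * (σ v - v) := by
    have := hvU.1
    field_simp
  have h3 := Pool.Agent.Y748.PS.rou_eq_one hl h1
    (by rw [h2]; exact Pool.Agent.Y748.PS.nu_mul hvU.2.2 (hσ.2 v hvU.2.1))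
  have h4 : σ v = v := (div_eq_one_iff_eq hvU.1).1 h3
  have h5 : c = v * algebraMap A κ ϖ ^ j := by
    rw [hv, div_mul_cancel₀ _ (zpow_ne_zero _ hϖ0)]
  rw [h5, map_mul, h4, map_zpow₀, hσϖ]

end ine

section loc

variable {A k κ R M : Type} [CommRing A] [IsDomain A] [IsDiscreteValuationRing A]
  [Finite (IsLocalRing.ResidueField A)] [Field k] [CharZero k] [Algebra A k] [IsFractionRing A k]
  [Field κ] [Algebra k κ] [Algebra A κ] [IsScalarTower A k κ] [IsAlgClosure k κ]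
  [Field R] [Field M] [Algebra κ R] [Algebra R M] [Algebra κ M] [IsScalarTower κ R M]

/-- a product of powers of the `x - e` is a unit of the Gauss valuation -/
theorem gauss_prod {x : R} {V : ValuationSubring κ} {B : Finset κ} (hG : Good V B)
    {O : ValuationSubring M} (hO : Gauss V (algebraMap R M x) O) (c : κ → ℕ) :
    IsU O (∏ e ∈ B, (algebraMap R M x - algebraMap κ M e) ^ c e) := by
  classical
  have h1 : ∀ e ∈ B, IsU O (algebraMap R M x - algebraMap κ M e) := by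
    intro e he
    have h2 := hO.2 (X - C e) (fun n => by
      rw [coeff_sub, coeff_X, coeff_C]
      refine sub_mem ?_ ?_
      · split_ifs
        · exact one_mem _
        · exact zero_mem _
      · split_ifs
        · exact hG.1 e he
        · exact zero_mem _) ⟨1, by
        rw [coeff_sub, coeff_X_one, coeff_C_succ, sub_zero]
        exact Pool.Agent.Y748.PS.isU_one⟩
    rw [map_sub, aeval_X, aeval_C] at h2
    exact h2
  have h3 : ∀ S : Finset κ, S ⊆ B →
      IsU O (∏ e ∈ S, (algebraMap R M x - algebraMap κ M e) ^ c e) := by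
    intro S
    induction S using Finset.induction_on with
    | empty => intro _; rw [Finset.prod_empty]; exact Pool.Agent.Y748.PS.isU_one
    | insert a S ha ih =>
      intro hS
      rw [Finset.prod_insert ha]
      exact Pool.Agent.Y748.PS.isU_mul
        (Pool.Agent.Y748.PS.isU_pow (h1 a (hS (Finset.mem_insert_self a S))) _)
        (ih fun b hb => hS (Finset.mem_insert_of_mem hb))
  exact h3 B subset_rfl

/-- **the place of a section** -/
theorem orb_loc {ℓ : ℕ} [hp : Fact ℓ.Prime] {V : ValuationSubring κ}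
    (hVa : ∀ a : A, algebraMap A κ a ∈ V)
    (hVm : ∀ a ∈ IsLocalRing.maximalIdeal A, algebraMap A κ a ∈ V.nonunits)
    (hℓA : IsUnit (ℓ : A)) (ϖ : A) (hϖ : Irreducible ϖ) {x : R} {B : Finset κ} {Y : M}
    (hC : Cov ℓ κ R M x B Y) (hGood : Good V B)
    (hB : ∀ σ : κ ≃ₐ[k] κ, ∀ e ∈ B, σ e ∈ B)
    (s : (κ ≃ₐ[k] κ) →* RingAut M)
    (hconst : ∀ σ c, s σ (algebraMap κ M c) = algebraMap κ M (σ c))
    (hfixx : ∀ σ, s σ (algebraMap R M x) = algebraMap R M x)
    (hcont : ∀ z : M, ∃ E : IntermediateField k κ, FiniteDimensional k E ∧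
      ∀ σ ∈ E.fixingSubgroup, s σ z = z)
    (c : κ → ℕ) (Z : M) (hZ : Z ^ ℓ = ∏ e ∈ B, (algebraMap R M x - algebraMap κ M e) ^ c e)
    (δ : κ) (u : A) (hu : IsUnit u) (m : ℤ) (hm : ¬ (ℓ : ℤ) ∣ m)
    (hδ : δ ^ ℓ = algebraMap A κ u * algebraMap A κ ϖ ^ m)
    (hsZ : ∀ σ, s σ Z = algebraMap κ M (σ δ / δ) * Z) :
    ∃ W : Place κ M, (∃ e ∈ B, 0 < W.ord (algebraMap R M x - algebraMap κ M e) ∧
        ∀ σ : κ ≃ₐ[k] κ, Dec V σ → σ e = e) ∧
      (∀ σ : κ ≃ₐ[k] κ, Dec V σ → Fixes W (s σ)) ∧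
      ∀ W' : Place κ M, (∃ e ∈ B, 0 < W'.ord (algebraMap R M x - algebraMap κ M e)) →
        (∀ σ : κ ≃ₐ[k] κ, Dec V σ → Fixes W' (s σ)) → W' = W := by
  classical
  have hℓ0 : ℓ ≠ 0 := hp.out.ne_zero
  have halg : Algebra.IsAlgebraic k κ := IsAlgClosure.isAlgebraic
  haveI : IsAlgClosed κ := IsAlgClosure.isAlgClosed k
  haveI : CharZero κ := charZero_of_injective_algebraMap (algebraMap k κ).injective
  have hMinj : Function.Injective (algebraMap κ M) := (algebraMap κ M).injective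
  have hUℓ : IsU V (ℓ : κ) := by
    have h1 := isU_alg V hVa (ℓ : A) hℓA
    rwa [map_natCast] at h1
  obtain ⟨-, O, hO, -, hI⟩ := Pool.Agent.Y158.GR.wgtU (k := k) hVa hVm hℓA hC hGood
  have hYU : IsU O Y := Pool.Agent.Y748.PS.isU_Y hC hGood hO
  have hY0 : Y ≠ 0 := hYU.1
  -- the action on `Y`
  have hYs : ∀ σ, (s σ Y) ^ ℓ = Y ^ ℓ := by
    intro σ
    rw [← map_pow, hC.eqn, map_prod]
    have h1 : ∀ e ∈ B, s σ (algebraMap R M x - algebraMap κ M e) =
        algebraMap R M x - algebraMap κ M (σ e) := fun e _ => by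
      rw [map_sub, hfixx, hconst]
    rw [Finset.prod_congr rfl h1]
    have h2 : B.image σ = B := by
      refine Finset.eq_of_subset_of_card_le (fun y hy => ?_) ?_
      · obtain ⟨e, he, rfl⟩ := Finset.mem_image.1 hy
        exact hB σ e he
      · rw [Finset.card_image_of_injective _ σ.injective]
    conv_rhs => rw [← h2]
    rw [Finset.prod_image fun a _ b _ h => σ.injective h]
  have hξ : ∀ σ, ∃ ξ : κ, ξ ^ ℓ = 1 ∧ s σ Y = algebraMap κ M ξ * Y := by
    intro σ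
    obtain ⟨ξ, h1, h2⟩ := Pool.Agent.Y748.PS.rou_const (κ := κ) hp.out.pos (show (s σ Y / Y) ^ ℓ = 1 by
      rw [div_pow, hYs, div_self (pow_ne_zero _ hY0)])
    exact ⟨ξ, h1, by rw [h2, div_mul_cancel₀ _ hY0]⟩
  choose ξ hξ1 hξ2 using hξ
  have hmul : ∀ σ τ, ξ (σ * τ) = ξ σ * σ (ξ τ) := by
    intro σ τ
    apply hMinj
    apply mul_right_cancel₀ hY0
    rw [← hξ2, map_mul]
    change s σ (s τ Y) = _
    rw [hξ2 τ, map_mul, hconst, hξ2 σ, map_mul]
    ring
  obtain ⟨δ₁, hδ₁0, hδ₁, t₁, ht₁⟩ := Pool.Agent.Y158.FQ.exists_kum hp.out.pos ξ hξ1 hmul (by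
    obtain ⟨E, hE, hE'⟩ := hcont Y
    refine ⟨E, hE, fun σ hσ => ?_⟩
    apply hMinj
    apply mul_right_cancel₀ hY0
    rw [← hξ2, hE' σ hσ, map_one, one_mul])
  have hSec : Sec k κ R M x Y δ₁ s := ⟨hconst, hfixx, fun σ => by rw [hδ₁]; exact hξ2 σ, hcont⟩
  have ht₁0 : t₁ ≠ 0 := by
    rintro rfl
    rw [map_zero] at ht₁
    exact pow_ne_zero _ hδ₁0 ht₁.symm
  obtain ⟨n₁, u₁, hu₁, hn₁⟩ := exists_val hϖ ht₁0
  have hδ₁v : δ₁ ^ ℓ = algebraMap A κ u₁ * algebraMap A κ ϖ ^ n₁ := by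
    rw [← ht₁, hn₁, map_mul, map_zpow₀, ← IsScalarTower.algebraMap_apply,
      ← IsScalarTower.algebraMap_apply]
  by_cases hdv : (ℓ : ℤ) ∣ n₁
  · -- the section is unramified: this is impossible
    exfalso
    obtain ⟨j, rfl⟩ := hdv
    have hfix : ∀ σ : κ ≃ₐ[k] κ, Ine V σ → σ δ₁ = δ₁ := fun σ hσ =>
      ine_fix V hVa hℓA ϖ hϖ σ hσ u₁ hu₁ j δ₁ hδ₁v
    have hact := hI δ₁ hδ₁0 hfix s hSec
    have hZU : IsU O Z := by
      refine Pool.Agent.Y748.PS.isU_of_pow hp.out.pos ?_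
      rw [hZ]
      exact gauss_prod hGood hO c
    obtain ⟨σ, η, hσ, hη, hact'⟩ := exists_ine (k := k) (ℓ := ℓ) V hVa hVm hℓA ϖ hϖ
    have h1 := hact' u m δ hu hδ
    have h2 := hact σ hσ Z hZU.2.1
    rw [hsZ, h1] at h2
    have h3 : algebraMap κ M (η ^ m - 1) ∈ O.nonunits := by
      have h4 : algebraMap κ M (η ^ m - 1) = Z⁻¹ * (algebraMap κ M (η ^ m) * Z - Z) := by
        rw [map_sub, map_one]
        have := hZU.1
        field_simp
      rw [h4]
      exact Pool.Agent.Y748.PS.nu_mul hZU.2.2 h2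
    rw [Pool.Agent.Y748.PS.nu_alg hO] at h3
    have hη0 : η ≠ 0 := hη.ne_zero hℓ0
    have h4 : (η ^ m) ^ ℓ = 1 := by
      rw [← zpow_natCast, ← zpow_mul, mul_comm, zpow_mul, zpow_natCast, hη.pow_eq_one, one_zpow]
    have h5 := Pool.Agent.Y748.PS.rou_eq_one hUℓ h4 h3
    rw [hη.zpow_eq_one_iff_dvd] at h5
    exact hm h5
  · -- the section is ramified
    have hBase : Base ℓ A k κ V ϖ δ₁ n₁ := by
      refine ⟨hℓA, hVa, hVm, hϖ, hdv, ⟨t₁, ht₁.symm⟩, ?_⟩
      have hϖ0 : algebraMap A κ ϖ ≠ 0 := by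
        intro h
        apply hϖ.ne_zero
        apply IsFractionRing.injective A k
        apply (algebraMap k κ).injective
        rw [← IsScalarTower.algebraMap_apply, h, map_zero, map_zero]
      rw [hδ₁v, mul_div_cancel_right₀ _ (zpow_ne_zero _ hϖ0)]
      exact isU_alg V hVa u₁ hu₁
    obtain ⟨F0, iF0, r, hr, ⟨D⟩⟩ := a_ndisc A k κ V hVa hVm ℓ hℓA
    exact a_loc ℓ A k κ R M V ϖ δ₁ n₁ hBase x B Y hC hGood F0 r hr D s hSec

end loc

end Pool.Agent.X281.OB
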