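import Mathlib

/-!
# The roots of a product of coprime separable polynomials, with exponents
-/

set_option autoImplicit false
set_option linter.all false

namespace Pool.Agent.X281.OB

open Polynomial

section roots

variable {κ : Type} [Field κ] [IsAlgClosed κ] {ι : Type} [Fintype ι]

/-- the exponent of the root `e` in `∏ p_i ^ c_i` -/
noncomputable def expo (p : ι → κ[X]) (c : ι → ℕ) (e : κ) : ℕ := by
  classical exact ∑ i, if e ∈ (p i).roots then c i else 0

variable {p : ι → κ[X]} {c : ι → ℕ}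

theorem nodup_i (h0 : ∀ i, p i ≠ 0) (hnd : (∏ i, p i).roots.Nodup) (i : ι) :
    (p i).roots ≤ (∏ i, p i).roots ∧ (p i).roots.Nodup := by
  have h1 : (p i).roots ≤ (∏ i, p i).roots :=
    Polynomial.roots.le_of_dvd (Finset.prod_ne_zero_iff.2 fun i _ => h0 i)
      (Finset.dvd_prod_of_mem p (Finset.mem_univ i))
  exact ⟨h1, Multiset.nodup_of_le h1 hnd⟩

theorem expo_eq (h0 : ∀ i, p i ≠ 0) (hnd : (∏ i, p i).roots.Nodup) {e : κ} {i : ι}
    (he : e ∈ (p i).roots) : expo p c e = c i := by
  classical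
  unfold expo
  rw [Finset.sum_eq_single i]
  · rw [if_pos he]
  · intro j _ hj
    rw [if_neg]
    intro he'
    have h1 : p i * p j ∣ ∏ i, p i := by
      rw [← Finset.mul_prod_erase Finset.univ p (Finset.mem_univ i)]
      exact mul_dvd_mul_left _ (Finset.dvd_prod_of_mem p
        (Finset.mem_erase.2 ⟨hj, Finset.mem_univ j⟩))
    have h2 : (p i * p j).roots ≤ (∏ i, p i).roots :=
      Polynomial.roots.le_of_dvd (Finset.prod_ne_zero_iff.2 fun i _ => h0 i) h1
    rw [Polynomial.roots_mul (mul_ne_zero (h0 i) (h0 j))] at h2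
    have h3 := Multiset.nodup_of_le h2 hnd
    have h4 := (Multiset.nodup_add.1 h3).2.2
    exact (Multiset.disjoint_left.1 h4) he he'
  · intro h
    exact absurd (Finset.mem_univ i) h

theorem prod_expo (h0 : ∀ i, p i ≠ 0) (hnd : (∏ i, p i).roots.Nodup) {Ω : Type} [Field Ω]
    (j : κ →+* Ω) (B : Finset κ) (hB : ∀ e, e ∈ B ↔ e ∈ (∏ i, p i).roots) (x : Ω) :
    ∏ i, ((p i).eval₂ j x) ^ (c i) = j (∏ i, (p i).leadingCoeff ^ (c i)) *
      ∏ e ∈ B, (x - j e) ^ (expo p c e) := by
  classical
  have h1 : ∀ i, ((p i).eval₂ j x) ^ (c i) = j ((p i).leadingCoeff ^ (c i)) *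
      ∏ e ∈ B, (x - j e) ^ (if e ∈ (p i).roots then c i else 0) := by
    intro i
    obtain ⟨hle, hndi⟩ := nodup_i h0 hnd i
    have h2 := (IsAlgClosed.splits (p i)).eq_prod_roots
    have h3 : (p i).eval₂ j x = j (p i).leadingCoeff *
        ∏ e ∈ (p i).roots.toFinset, (x - j e) := by
      have h6 : ∏ e ∈ (p i).roots.toFinset, (x - j e) =
          ((p i).roots.map fun e => x - j e).prod := by
        rw [Finset.prod, Multiset.toFinset_val, Multiset.dedup_eq_self.2 hndi]
      rw [h6]
      conv_lhs => rw [h2]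
      rw [eval₂_mul, eval₂_C, ← coe_eval₂RingHom, map_multiset_prod, Multiset.map_map]
      congr 2
      refine Multiset.map_congr rfl fun a _ => ?_
      simp
    rw [h3, mul_pow, ← map_pow, ← Finset.prod_pow]
    congr 1
    have hsub : (p i).roots.toFinset ⊆ B := by
      intro e he
      rw [hB]
      exact Multiset.mem_of_le hle (Multiset.mem_toFinset.1 he)
    rw [← Finset.prod_subset hsub]
    · refine Finset.prod_congr rfl fun e he => ?_
      rw [if_pos (Multiset.mem_toFinset.1 he)]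
    · intro e _ he
      rw [if_neg (fun h => he (Multiset.mem_toFinset.2 h)), pow_zero]
  rw [Finset.prod_congr rfl fun i _ => h1 i, Finset.prod_mul_distrib, map_prod]
  congr 1
  rw [Finset.prod_comm]
  refine Finset.prod_congr rfl fun e _ => ?_
  unfold expo
  rw [Finset.prod_pow_eq_pow_sum]

theorem card_i (h0 : ∀ i, p i ≠ 0) (hnd : (∏ i, p i).roots.Nodup) (B : Finset κ)
    (hB : ∀ e, e ∈ B ↔ e ∈ (∏ i, p i).roots) : B.card = (∏ i, p i).natDegree := by
  classical
  have h1 : B = (∏ i, p i).roots.toFinset := by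
    ext e
    rw [hB, Multiset.mem_toFinset]
  rw [h1, Multiset.toFinset_card_of_nodup hnd]
  exact (IsAlgClosed.splits _).natDegree_eq_card_roots.symm

theorem sum_expo (h0 : ∀ i, p i ≠ 0) (hnd : (∏ i, p i).roots.Nodup) (B : Finset κ)
    (hB : ∀ e, e ∈ B ↔ e ∈ (∏ i, p i).roots) :
    ∑ e ∈ B, expo p c e = ∑ i, c i * (p i).natDegree := by
  classical
  unfold expo
  rw [Finset.sum_comm]
  refine Finset.sum_congr rfl fun i _ => ?_
  obtain ⟨hle, hndi⟩ := nodup_i h0 hnd i
  have hsub : (p i).roots.toFinset ⊆ B := by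
    intro e he
    rw [hB]
    exact Multiset.mem_of_le hle (Multiset.mem_toFinset.1 he)
  rw [← Finset.sum_subset hsub]
  · rw [Finset.sum_congr rfl (g := fun _ => c i), Finset.sum_const, smul_eq_mul, mul_comm,
      Multiset.toFinset_card_of_nodup hndi, ← (IsAlgClosed.splits _).natDegree_eq_card_roots]
    intro e he
    rw [if_pos (Multiset.mem_toFinset.1 he)]
  · intro e _ he
    rw [if_neg (fun h => he (Multiset.mem_toFinset.2 h))]

end roots

end Pool.Agent.X281.OB
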