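import Pool.Agent.X281.OB.Mem
import Pool.Agent.X281.OB.Loc
import Pool.Agent.X281.OB.Roots

/-!
# The covering field of a cyclic covering with arbitrary exponents
-/

set_option autoImplicit false
set_option linter.all false

open Polynomial FF Pool.Agent.Y157.PS

namespace Pool.Agent.X281.OB

section glue

variable {k F Ω : Type} [Field k] [CharZero k]
    [Field F] [Field Ω] [Algebra k F] [Algebra F Ω] [Algebra k Ω] [IsScalarTower k F Ω]
    [IsAlgClosed Ω] [Algebra.IsAlgebraic F Ω]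

/-- the covering field as an extension of `κ(x)` -/
theorem orb_glue {ℓ : ℕ} [hℓ : Fact ℓ.Prime] (B : Finset (algebraicClosure k Ω))
    (hdvd : ℓ ∣ B.card) (h3 : 3 ≤ B.card) (c : algebraicClosure k Ω → ℕ)
    (hc : ∀ e ∈ B, ¬ ℓ ∣ c e) (hsum : ℓ ∣ ∑ e ∈ B, c e)
    (δ : algebraicClosure k Ω) (hδ0 : δ ≠ 0) (x w : F) (hx : Transcendental k x)
    (hF : IntermediateField.adjoin k {x, w} = (⊤ : IntermediateField k F))
    (hZ : ((δ : Ω) * algebraMap F Ω w) ^ ℓ = ∏ e ∈ B, (algebraMap F Ω x - (e : Ω)) ^ c e) :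
    ∃ (R M : Type) (_ : Field R) (_ : Field M) (_ : Algebra (algebraicClosure k Ω) R)
      (_ : Algebra R M) (_ : Algebra (algebraicClosure k Ω) M)
      (_ : IsScalarTower (algebraicClosure k Ω) R M) (x' : R) (Y Z : M)
      (eqv : M ≃+* geomPro ℓ k F Ω), Cov ℓ (algebraicClosure k Ω) R M x' B Y ∧
      (∀ c : algebraicClosure k Ω, ((eqv (algebraMap (algebraicClosure k Ω) M c) :
        geomPro ℓ k F Ω) : Ω) = (c : Ω)) ∧
      ((eqv (algebraMap R M x') : geomPro ℓ k F Ω) : Ω) = algebraMap F Ω x ∧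
      ((eqv Z : geomPro ℓ k F Ω) : Ω) = (δ : Ω) * algebraMap F Ω w ∧
      Z ^ ℓ = ∏ e ∈ B, (algebraMap R M x' - algebraMap (algebraicClosure k Ω) M e) ^ c e := by
  classical
  have hac : IsAlgClosure k (algebraicClosure k Ω) := inferInstance
  have hkb : IsAlgClosed (algebraicClosure k Ω) := hac.1
  have hch : CharZero (algebraicClosure k Ω) :=
    charZero_of_injective_algebraMap (algebraMap k (algebraicClosure k Ω)).injective
  have hX0 : Transcendental k (algebraMap F Ω x) :=
    (transcendental_algebraMap_iff (R := k) (algebraMap F Ω).injective (a := x)).2 hx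
  have hrat := ratF_adj (trans_up hX0)
  obtain ⟨Z0, hZ0⟩ : ∃ Z0 : Ω, Z0 = (δ : Ω) * algebraMap F Ω w := ⟨_, rfl⟩
  rw [← hZ0] at hZ
  have hZR : Z0 ^ ℓ ∈ IntermediateField.adjoin (algebraicClosure k Ω) {algebraMap F Ω x} := by
    rw [hZ]
    exact prod_mem fun e _ => pow_mem (sub_mem (IntermediateField.mem_adjoin_simple_self _ _)
      (IntermediateField.algebraMap_mem _ e)) _
  have hclR := closure_R hF δ hδ0 hℓ.out.pos (by rw [← hZ0]; exact hZR)
  obtain ⟨Y0, hY⟩ := IsAlgClosed.exists_pow_nat_eq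
    (∏ e ∈ B, (algebraMap F Ω x - (e : Ω))) hℓ.out.pos
  obtain ⟨M, hM⟩ : ∃ M : IntermediateField
      (IntermediateField.adjoin (algebraicClosure k Ω) {algebraMap F Ω x}) Ω,
      ∀ z, z ∈ M ↔ z ∈ maxPro ℓ (algebraicClosure k Ω) (IntermediateField.adjoin
        (IntermediateField.adjoin (algebraicClosure k Ω) {algebraMap F Ω x}) {Y0}) Ω :=
    ⟨(maxPro ℓ (algebraicClosure k Ω) (IntermediateField.adjoin
        (IntermediateField.adjoin (algebraicClosure k Ω) {algebraMap F Ω x}) {Y0})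
        Ω).restrictScalars _, fun z => Iff.rfl⟩
  have hYM : Y0 ∈ M := by
    rw [hM]
    exact (maxPro ℓ (algebraicClosure k Ω) (IntermediateField.adjoin
      (IntermediateField.adjoin (algebraicClosure k Ω) {algebraMap F Ω x}) {Y0})
      Ω).algebraMap_mem ⟨Y0, IntermediateField.mem_adjoin_simple_self _ _⟩
  have hCov : Cov ℓ (algebraicClosure k Ω)
      (IntermediateField.adjoin (algebraicClosure k Ω) {algebraMap F Ω x}) M
      ⟨algebraMap F Ω x, IntermediateField.mem_adjoin_simple_self _ _⟩ B ⟨Y0, hYM⟩ :=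
    a_cov ℓ (algebraicClosure k Ω)
      (IntermediateField.adjoin (algebraicClosure k Ω) {algebraMap F Ω x}) Ω
      ⟨algebraMap F Ω x, IntermediateField.mem_adjoin_simple_self _ _⟩ hrat B hdvd h3 Y0 hY M hM
      ⟨Y0, hYM⟩ rfl
  have hMN : ∀ z, z ∈ M ↔ z ∈ geomPro ℓ k F Ω := fun z => by
    rw [hM z, maxPro_eq (κ := algebraicClosure k Ω)
      (R := IntermediateField.adjoin (algebraicClosure k Ω) {algebraMap F Ω x})
      (x := ⟨algebraMap F Ω x, IntermediateField.mem_adjoin_simple_self _ _⟩) hrat B hdvd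
      (Finset.card_pos.1 (by omega)) c hc hsum (Y := Y0) (Z := Z0) hY hZ z, hZ0]
    exact maxPro_geom ℓ k hF δ hδ0 z
  have hZM : Z0 ∈ M := by
    rw [hMN, hZ0]
    exact mul_mem (const_geomPro ℓ k δ) ((geomPro ℓ k F Ω).algebraMap_mem w)
  let eqv : M ≃+* geomPro ℓ k F Ω :=
    { toFun := fun w => ⟨w.1, (hMN _).1 w.2⟩
      invFun := fun w => ⟨w.1, (hMN _).2 w.2⟩
      left_inv := fun w => rfl
      right_inv := fun w => rfl
      map_mul' := fun w w' => rfl
      map_add' := fun w w' => rfl }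
  refine ⟨_, M, inferInstance, inferInstance, inferInstance, inferInstance, inferInstance,
    inferInstance, _, _, ⟨Z0, hZM⟩, eqv, hCov, fun c => rfl, rfl, hZ0, ?_⟩
  apply Subtype.ext
  push_cast
  exact hZ

end glue

section vals

/-- the valuation ring of the algebraic closure over a complete discrete valuation ring -/
theorem exists_Vc (A k κ : Type) [CommRing A] [IsDomain A] [IsDiscreteValuationRing A]
    [IsAdicComplete (IsLocalRing.maximalIdeal A) A]
    [Finite (IsLocalRing.ResidueField A)] [Field k] [CharZero k] [Algebra A k]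
    [IsFractionRing A k] [Field κ] [Algebra k κ] [Algebra A κ] [IsScalarTower A k κ]
    [IsAlgClosure k κ] :
    ∃ V : ValuationSubring κ, (∀ a : A, algebraMap A κ a ∈ V) ∧
      (∀ a ∈ IsLocalRing.maximalIdeal A, algebraMap A κ a ∈ V.nonunits) ∧
      ∀ σ : κ ≃ₐ[k] κ, Dec V σ := by
  obtain ⟨V, hV⟩ := Pool.Agent.Y809.PS.val A k κ
  have hVa : ∀ a : A, algebraMap A κ a ∈ V := fun a => (hV _).2 isIntegral_algebraMap
  refine ⟨V, hVa, ?_, ?_⟩
  · intro a ha
    refine nonunits_iff.2 ⟨hVa a, ?_⟩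
    by_cases ha0 : a = 0
    · left
      rw [ha0, map_zero]
    right
    intro hi
    rw [hV, IsScalarTower.algebraMap_apply A k κ, ← map_inv₀,
      isIntegral_algebraMap_iff (algebraMap k κ).injective] at hi
    obtain ⟨b, hb⟩ := IsIntegrallyClosed.isIntegral_iff.1 hi
    have h1 : a * b = 1 := by
      apply IsFractionRing.injective A k
      rw [map_mul, hb, map_one, mul_inv_cancel₀]
      rw [Ne, map_eq_zero_iff _ (IsFractionRing.injective A k)]
      exact ha0
    exact (IsLocalRing.mem_maximalIdeal _).1 ha (IsUnit.of_mul_eq_one b h1)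
  · intro σ z
    rw [hV, hV]
    have h1 : ∀ (τ : κ ≃ₐ[k] κ) (w : κ), IsIntegral A w → IsIntegral A (τ w) := fun τ w hw =>
      hw.map (τ.toAlgHom.restrictScalars A)
    refine ⟨fun h => ?_, h1 σ z⟩
    have h2 := h1 σ.symm _ h
    rwa [σ.symm_apply_apply] at h2

end vals

end Pool.Agent.X281.OB
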