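import Pool.Agent.X281.OB.Rel4

/-!
# The place of a section restricted to a decomposition group: all cyclic coverings of odd prime degree
-/

set_option autoImplicit false
set_option linter.all false

open Polynomial FF Pool.Agent.Y157.PS Pool.Agent.X281.FL

namespace Pool.Agent.X281.OB

section main

variable {A k F Ω : Type} [CommRing A] [IsDomain A] [IsDiscreteValuationRing A]
    [Finite (IsLocalRing.ResidueField A)] [Field k] [CharZero k] [Algebra A k] [IsFractionRing A k]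
    [Field F] [Field Ω] [Algebra k F] [Algebra F Ω] [Algebra k Ω] [IsScalarTower k F Ω]
    [IsAlgClosed Ω] [Algebra.IsAlgebraic F Ω]

/-- **the place of a section restricted to a decomposition group**, cyclic coverings with arbitrary
exponents and at least three branch points -/
theorem dec_placeN {ℓ : ℕ} [hp : Fact ℓ.Prime]
    (hℓ : IsUnit (ℓ : A)) {ι : Type} [Fintype ι] (f : ι → A[X]) (c : ι → ℕ)
    (hlc : ∀ i, IsUnit (f i).leadingCoeff)
    (hs : ((∏ i, f i).map (IsLocalRing.residue A)).Separable)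
    (hodd : 3 ≤ ℓ) (h3c : 3 ≤ ∑ i, (f i).natDegree)
    (hc : ∀ i, ¬ ℓ ∣ c i) (hsum : ℓ ∣ ∑ i, c i * (f i).natDegree)
    (ϖ : A) (hϖ : Irreducible ϖ) (d : k) (m : ℤ) (hm : ¬ (ℓ : ℤ) ∣ m) (hd : Val ϖ d m)
    (x w : F) (hx : Transcendental k x)
    (hxw : algebraMap k F d * w ^ ℓ = ∏ i, (aeval x ((f i).map (algebraMap A k))) ^ c i)
    (hF : IntermediateField.adjoin k {x, w} = (⊤ : IntermediateField k F))
    (S : (algebraicClosure k Ω ≃ₐ[k] algebraicClosure k Ω) →*
      (geomPro ℓ k F Ω ≃ₐ[F] geomPro ℓ k F Ω)) (hcont : Continuous S)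
    (hcompat : ∀ σ (c : algebraicClosure k Ω) (z : geomPro ℓ k F Ω), (z : Ω) = (c : Ω) →
      (S σ z : Ω) = (σ c : Ω))
    (V : ValuationSubring (algebraicClosure k Ω))
    (hVA : ∀ a : A, algebraMap k (algebraicClosure k Ω) (algebraMap A k a) ∈ V)
    (hVM : ∀ a ∈ IsLocalRing.maximalIdeal A,
      algebraMap k (algebraicClosure k Ω) (algebraMap A k a) ∈ V.nonunits) :
    ∃ W : ValuationSubring (geomPro ℓ k F Ω),
      (((∀ c : k, algebraMap F (geomPro ℓ k F Ω) (algebraMap k F c) ∈ W) ∧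
       (∃ e : algebraicClosure k Ω, (∃ i, aeval e ((f i).map (algebraMap A k)) = 0) ∧
          (∀ σ : algebraicClosure k Ω ≃ₐ[k] algebraicClosure k Ω, Dec V σ → σ e = e) ∧
          ∃ z' ∈ W.nonunits, (z' : Ω) = algebraMap F Ω x - e)) ∧
       ∀ σ : algebraicClosure k Ω ≃ₐ[k] algebraicClosure k Ω, Dec V σ →
        ∀ z, S σ z ∈ W ↔ z ∈ W) ∧
      ∀ W' : ValuationSubring (geomPro ℓ k F Ω),
        (∀ c : k, algebraMap F (geomPro ℓ k F Ω) (algebraMap k F c) ∈ W') →
        (∃ i, algebraMap F (geomPro ℓ k F Ω) (aeval x ((f i).map (algebraMap A k))) ∈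
          W'.nonunits) →
        (∀ σ : algebraicClosure k Ω ≃ₐ[k] algebraicClosure k Ω, Dec V σ →
          ∀ z, S σ z ∈ W' ↔ z ∈ W') → W' = W := by
  classical
  have hℓp : ℓ.Prime := hp.out
  have hac : IsAlgClosure k (algebraicClosure k Ω) := inferInstance
  haveI hkb : IsAlgClosed (algebraicClosure k Ω) := hac.1
  haveI hch : CharZero (algebraicClosure k Ω) :=
    charZero_of_injective_algebraMap (algebraMap k (algebraicClosure k Ω)).injective
  have : Normal k (algebraicClosure k Ω) := IsAlgClosure.normal k _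
  have hGal : IsGalois k (algebraicClosure k Ω) := ⟨⟩
  letI : Algebra A (algebraicClosure k Ω) :=
    ((algebraMap k (algebraicClosure k Ω)).comp (algebraMap A k)).toAlgebra
  haveI hst : IsScalarTower A k (algebraicClosure k Ω) :=
    IsScalarTower.of_algebraMap_eq (fun _ => rfl)
  have hVa : ∀ a : A, algebraMap A (algebraicClosure k Ω) a ∈ V := hVA
  have hVm : ∀ a ∈ IsLocalRing.maximalIdeal A,
      algebraMap A (algebraicClosure k Ω) a ∈ V.nonunits := hVM
  have hAk : Function.Injective (algebraMap A k) := IsFractionRing.injective A k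
  have hAinj : Function.Injective (algebraMap A (algebraicClosure k Ω)) := by
    rw [IsScalarTower.algebraMap_eq A k (algebraicClosure k Ω)]
    exact (algebraMap k (algebraicClosure k Ω)).injective.comp hAk
  have hd0 : d ≠ 0 := hd.ne_zero hϖ
  -- the polynomials over `κ`
  obtain ⟨P, hP⟩ : ∃ P : A[X], P = ∏ i, f i := ⟨_, rfl⟩
  have hPlc : IsUnit P.leadingCoeff := by
    rw [hP, leadingCoeff_prod]
    exact (Units.isUnit (∏ i, (hlc i).unit)).map (MonoidHom.id A) |> fun h => by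
      simpa using h
  have hPdeg : P.natDegree = ∑ i, (f i).natDegree := by
    rw [hP]
    refine natDegree_prod _ _ fun i _ h => ?_
    have h1 := (hlc i).ne_zero
    rw [h, leadingCoeff_zero] at h1
    exact h1 rfl
  obtain ⟨hnd, hdist⟩ := Pool.Agent.W623.SecC.roots_distinct V hVa hVm P hPlc (by rw [hP]; exact hs)
  obtain ⟨p, hpdef⟩ : ∃ p : ι → (algebraicClosure k Ω)[X],
      p = fun i => (f i).map (algebraMap A (algebraicClosure k Ω)) := ⟨_, rfl⟩
  have hpi : ∀ i, p i = (f i).map (algebraMap A (algebraicClosure k Ω)) := fun i => by rw [hpdef]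
  have hPp : P.map (algebraMap A (algebraicClosure k Ω)) = ∏ i, p i := by
    rw [hP, Polynomial.map_prod]
    exact Finset.prod_congr rfl fun i _ => (hpi i).symm
  have hlci : ∀ i, algebraMap A (algebraicClosure k Ω) (f i).leadingCoeff ≠ 0 := fun i =>
    ((hlc i).map (algebraMap A (algebraicClosure k Ω))).ne_zero
  have hplc : ∀ i, (p i).leadingCoeff = algebraMap A (algebraicClosure k Ω) (f i).leadingCoeff :=
    fun i => by rw [hpi]; exact leadingCoeff_map_of_leadingCoeff_ne_zero _ (hlci i)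
  have hpdeg : ∀ i, (p i).natDegree = (f i).natDegree :=
    fun i => by rw [hpi]; exact natDegree_map_of_leadingCoeff_ne_zero _ (hlci i)
  have hp0 : ∀ i, p i ≠ 0 := by
    intro i h
    have h1 := hplc i
    rw [h, leadingCoeff_zero] at h1
    exact hlci i h1.symm
  rw [hPp] at hnd hdist
  obtain ⟨B, hBdef⟩ : ∃ B : Finset (algebraicClosure k Ω), B = (∏ i, p i).roots.toFinset :=
    ⟨_, rfl⟩
  have hmemB : ∀ e, e ∈ B ↔ e ∈ (∏ i, p i).roots := fun e => by
    rw [hBdef, Multiset.mem_toFinset]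
  have hrooti : ∀ e, e ∈ (∏ i, p i).roots ↔ ∃ i, e ∈ (p i).roots := by
    intro e
    rw [mem_roots (Finset.prod_ne_zero_iff.2 fun i _ => hp0 i), IsRoot.def, eval_prod,
      Finset.prod_eq_zero_iff]
    constructor
    · rintro ⟨i, -, h⟩
      exact ⟨i, (mem_roots (hp0 i)).2 h⟩
    · rintro ⟨i, h⟩
      exact ⟨i, Finset.mem_univ i, (mem_roots (hp0 i)).1 h⟩
  have haev : ∀ i e, e ∈ (p i).roots ↔ aeval e (f i) = 0 := by
    intro i e
    rw [mem_roots (hp0 i), IsRoot.def, hpi, eval_map]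
    rfl
  have hcard : B.card = ∑ i, (f i).natDegree := by
    rw [card_i hp0 hnd B hmemB, ← hPp, ← hPdeg]
    exact natDegree_map_of_leadingCoeff_ne_zero _
      (hPlc.map (algebraMap A (algebraicClosure k Ω))).ne_zero
  have hGood : Good V B := by
    constructor
    · intro e he
      have h1 : aeval e P = 0 := by
        rw [hmemB, mem_roots (Finset.prod_ne_zero_iff.2 fun i _ => hp0 i), ← hPp, IsRoot.def,
          eval_map] at he
        exact he
      exact Pool.Agent.W308.SecC.root_mem V hVa P hPlc _ h1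
    · intro e he e' he' hne
      exact hdist e ((hmemB e).1 he) e' ((hmemB e').1 he') hne
  have hBs : ∀ σ : algebraicClosure k Ω ≃ₐ[k] algebraicClosure k Ω, ∀ e ∈ B, σ e ∈ B := by
    intro σ e he
    rw [hmemB, hrooti] at he ⊢
    obtain ⟨i, hi⟩ := he
    refine ⟨i, ?_⟩
    rw [haev] at hi ⊢
    have h1 := congrArg σ hi
    rw [map_zero] at h1
    rw [← h1]
    exact (aeval_algHom_apply (σ.toAlgHom.restrictScalars A) e (f i)).trans rfl
  have hexp : ∀ e ∈ B, ¬ ℓ ∣ expo p c e := by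
    intro e he
    rw [hmemB, hrooti] at he
    obtain ⟨i, hi⟩ := he
    rw [expo_eq hp0 hnd hi]
    exact hc i
  have hsumB : ℓ ∣ ∑ e ∈ B, expo p c e := by
    rw [sum_expo hp0 hnd B hmemB, Finset.sum_congr rfl fun i _ => by rw [hpdeg i]]
    exact hsum
  -- the element `δ`
  obtain ⟨lc, hlcdef⟩ : ∃ lc : A, lc = ∏ i, (f i).leadingCoeff ^ c i := ⟨_, rfl⟩
  have hlcU : IsUnit lc := by
    rw [hlcdef]
    have h1 : ∏ i, (f i).leadingCoeff ^ c i = ((∏ i, (hlc i).unit ^ c i : Aˣ) : A) := by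
      rw [Units.coe_prod]
      exact Finset.prod_congr rfl fun i _ => by rw [Units.val_pow_eq_pow_val, IsUnit.unit_spec]
    rw [h1]
    exact Units.isUnit _
  have hlck0 : algebraMap A k lc ≠ 0 := (hlcU.map (algebraMap A k)).ne_zero
  obtain ⟨δ, hδ⟩ : ∃ δ : algebraicClosure k Ω, δ ^ ℓ =
      algebraMap k (algebraicClosure k Ω) (d / algebraMap A k lc) :=
    IsAlgClosed.exists_pow_nat_eq _ hℓp.pos
  have hδ0 : δ ≠ 0 := by
    rintro rfl
    rw [zero_pow hℓp.ne_zero] at hδ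
    exact (_root_.map_ne_zero _).2 (div_ne_zero hd0 hlck0) hδ.symm
  obtain ⟨u, hu, hδu⟩ : ∃ u : A, IsUnit u ∧ δ ^ ℓ = algebraMap A (algebraicClosure k Ω) u *
      algebraMap A (algebraicClosure k Ω) ϖ ^ m := by
    have h1 : Val ϖ (algebraMap A k lc) 0 := ⟨lc, hlcU, by rw [zpow_zero, mul_one]⟩
    obtain ⟨u, hu, h2⟩ := hd.div hϖ h1
    refine ⟨u, hu, ?_⟩
    rw [hδ, h2, sub_zero, map_mul, map_zpow₀, ← IsScalarTower.algebraMap_apply,
      ← IsScalarTower.algebraMap_apply]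
  -- the equation
  have hfx : ∀ i, algebraMap F Ω (aeval x ((f i).map (algebraMap A k))) =
      (p i).eval₂ (algebraMap (algebraicClosure k Ω) Ω) (algebraMap F Ω x) := by
    intro i
    rw [aeval_def, hom_eval₂, hpi, eval₂_map, eval₂_map, ← IsScalarTower.algebraMap_eq k F Ω,
      IsScalarTower.algebraMap_eq A k (algebraicClosure k Ω), ← RingHom.comp_assoc,
      ← IsScalarTower.algebraMap_eq k (algebraicClosure k Ω) Ω]
  have hlcΩ : algebraMap (algebraicClosure k Ω) Ω (∏ i, (p i).leadingCoeff ^ c i) =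
      algebraMap k Ω (algebraMap A k lc) := by
    rw [hlcdef, IsScalarTower.algebraMap_apply k (algebraicClosure k Ω) Ω]
    congr 1
    rw [← IsScalarTower.algebraMap_apply, map_prod]
    exact Finset.prod_congr rfl fun i _ => by rw [hplc, map_pow]
  have hlcΩ0 : algebraMap k Ω (algebraMap A k lc) ≠ 0 := (_root_.map_ne_zero _).2 hlck0
  have hZ : ((δ : Ω) * algebraMap F Ω w) ^ ℓ =
      ∏ e ∈ B, (algebraMap F Ω x - (e : Ω)) ^ expo p c e := by
    have h1 := congrArg (algebraMap F Ω) hxw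
    rw [map_mul, map_pow, ← IsScalarTower.algebraMap_apply, map_prod] at h1
    have h2 := prod_expo (c := c) hp0 hnd (algebraMap (algebraicClosure k Ω) Ω) B hmemB
      (algebraMap F Ω x)
    rw [Finset.prod_congr rfl fun i _ => by rw [map_pow, hfx i], h2, hlcΩ] at h1
    have h6 : (δ : Ω) ^ ℓ = algebraMap k Ω d / algebraMap k Ω (algebraMap A k lc) := by
      have h7 := congrArg (algebraMap (algebraicClosure k Ω) Ω) hδ
      rw [map_pow, ← IsScalarTower.algebraMap_apply, map_div₀] at h7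
      exact h7
    rw [mul_pow, h6, div_mul_eq_mul_div, h1, mul_div_cancel_left₀ _ hlcΩ0]
    rfl
  -- the constants
  letI algN : Algebra (algebraicClosure k Ω) (geomPro ℓ k F Ω) := RingHom.toAlgebra
    { toFun := fun c => ⟨(c : Ω), const_geomPro ℓ k c⟩
      map_one' := rfl
      map_mul' := fun _ _ => rfl
      map_zero' := rfl
      map_add' := fun _ _ => rfl }
  have hcc : ∀ c : algebraicClosure k Ω, ((algebraMap (algebraicClosure k Ω)
      (geomPro ℓ k F Ω) c : geomPro ℓ k F Ω) : Ω) = (c : Ω) := fun c => rfl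
  have hconst : ∀ σ (c : algebraicClosure k Ω), S σ (algebraMap _ (geomPro ℓ k F Ω) c) =
      algebraMap _ (geomPro ℓ k F Ω) (σ c) := fun σ c =>
    Subtype.ext (by rw [hcompat σ c _ (hcc c), hcc])
  have hXκ : Transcendental (algebraicClosure k Ω) (algebraMap F Ω x) :=
    trans_up ((transcendental_algebraMap_iff (R := k) (algebraMap F Ω).injective (a := x)).2 hx)
  have hXneΩ : ∀ b : algebraicClosure k Ω, algebraMap F Ω x ≠ (b : Ω) := by
    intro b h
    apply hXκ
    rw [h]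
    exact isAlgebraic_algebraMap b
  have hXne : ∀ b : algebraicClosure k Ω, algebraMap F (geomPro ℓ k F Ω) x ≠
      algebraMap _ (geomPro ℓ k F Ω) b := fun b h => hXneΩ b (congrArg Subtype.val h)
  obtain ⟨n, hn⟩ := hsumB
  have hcardB3 : 3 ≤ B.card := by rw [hcard]; exact h3c
  have hglue := fun υ b₁ b₂ hυ h12 h1 h2 T hT => mob_glue3 (ℓ := ℓ) hodd B hcardB3 (expo p c) hexp
    ⟨n, hn⟩ δ hδ0 x w hx hF hZ υ b₁ b₂ hυ h12 h1 h2 T hT
  have hfglue := fun b₀ b₁ b₂ h0 h1 h2 h10 h20 h12 U Y hU hY => ferm_glue (ℓ := ℓ) hodd B hcardB3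
    (expo p c) hexp ⟨n, hn⟩ δ hδ0 x w hx hF hZ b₀ b₁ b₂ h0 h1 h2 h10 h20 h12 U Y hU hY
  obtain ⟨b₀, hb₀⟩ : B.Nonempty := Finset.card_pos.1 (by omega)
  obtain ⟨W, ⟨h1, h2, ⟨e, heB, hfix, he⟩, h4⟩, hun⟩ := many_dec3 (k := k) hVa hVm hℓ ϖ hϖ
    hGood hBs hcardB3 hXne S hconst (fun σ => (S σ).commutes x)
    (fun z => cont_fix S hcont z) (c := expo p c) (n := n) (by rw [hn, mul_comm])
    (Z := algebraMap _ (geomPro ℓ k F Ω) δ * algebraMap F (geomPro ℓ k F Ω) w) (by
      apply Subtype.ext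
      push_cast
      exact hZ) δ u hu m hm hδu (fun σ => by
      rw [map_mul, hconst, (S σ).commutes, ← mul_assoc, ← map_mul, div_mul_cancel₀ _ hδ0])
    (fun a₀ g0 a₁ g1 a₂ g2 n10 n20 n12 U Y hU hY => by
      obtain ⟨R, M, i1, i2, i3, i4, i5, i6, x', Y', i, hC, hic, hix, hiY, hst⟩ :=
        hfglue a₀ a₁ a₂ g0 g1 g2 n10 n20 n12 (U : Ω) (Y : Ω) (congrArg Subtype.val hU)
          (congrArg Subtype.val hY)
      have hix' : i (algebraMap R M x') = U := Subtype.ext hix
      have hiY' : i Y' = Y := Subtype.ext hiY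
      refine ⟨R, M, i1, i2, i3, i4, i5, i6, x', Y', i, hC, fun c => Subtype.ext (hic c), hix', hiY',
        fun φ d d' hd hd' hφU hφY => hst φ d d' hd hd' ?_ ?_⟩
      · rw [hix']
        exact congrArg Subtype.val hφU
      · rw [hiY']
        exact congrArg Subtype.val hφY)
    ⟨b₀, hb₀, fun b hb => by
      by_cases hbb : b = b₀
      · exact ⟨1, by rw [hbb, one_pow, one_mul]⟩
      · obtain ⟨T, hT⟩ := IsAlgClosed.exists_pow_nat_eq
          ((algebraMap F Ω x - (b : Ω)) / (algebraMap F Ω x - (b₀ : Ω))) hℓp.pos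
        have hX0 : algebraMap F Ω x - (b₀ : Ω) ≠ 0 := sub_ne_zero.2 (hXneΩ b₀)
        have hT' : T ^ ℓ * (algebraMap F Ω x - (b₀ : Ω)) =
            ((1 : algebraicClosure k Ω) : Ω) * (algebraMap F Ω x - (b : Ω)) := by
          rw [hT, div_mul_cancel₀ _ hX0]
          push_cast
          ring
        obtain ⟨R, M, i1, i2, i3, i4, i5, i6, x', Y, eqv, -, -, hxT⟩ :=
          hglue 1 b b₀ one_ne_zero hbb hb hb₀ T hT'
        refine ⟨eqv (algebraMap R M x'), Subtype.ext ?_⟩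
        push_cast
        rw [hxT, hT]
        exact div_mul_cancel₀ _ hX0⟩
    (fun υ b₁ b₂ T hυ h12 h1 h2 hT => by
      obtain ⟨R, M, i1, i2, i3, i4, i5, i6, x', Y, eqv, hC, hc1, hxT⟩ :=
        hglue υ b₁ b₂ hυ h12 h1 h2 (T : Ω) (congrArg Subtype.val hT)
      exact ⟨R, M, i1, i2, i3, i4, i5, i6, x', Y, eqv, hC, fun c => Subtype.ext (hc1 c),
        Subtype.ext hxT⟩)
  have heqc : ∀ (c : algebraicClosure k Ω) (z : geomPro ℓ k F Ω), (z : Ω) = (c : Ω) →
      z = algebraMap (algebraicClosure k Ω) (geomPro ℓ k F Ω) (c) := fun c z hz =>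
    Subtype.ext (by rw [hz, hcc])
  have hWk : ∀ c : k, algebraMap F (geomPro ℓ k F Ω) (algebraMap k F c) ∈ W := by
    intro c
    have h5 := heqc (algebraMap k (algebraicClosure k Ω) c)
      (algebraMap F (geomPro ℓ k F Ω) (algebraMap k F c))
      ((IsScalarTower.algebraMap_apply k F Ω c).symm)
    rw [h5]
    exact h1 _
  refine ⟨W, ⟨⟨hWk, ?_⟩, h4⟩, fun W' hW'1 hW'2 hW'3 => ?_⟩
  · rw [hmemB, hrooti] at heB
    obtain ⟨i, hi⟩ := heB
    refine ⟨e, ⟨i, ?_⟩, hfix, _, he, rfl⟩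
    rw [haev] at hi
    rw [aeval_map_algebraMap]
    exact hi
  · have hconst' : ∀ c : algebraicClosure k Ω,
        algebraMap (algebraicClosure k Ω) (geomPro ℓ k F Ω) (c) ∈ W' := fun c =>
      const_mem_N _ W' hW'1 c _ (hcc c)
    refine hun W' hconst' ?_ hW'3
    by_contra hno
    push Not at hno
    obtain ⟨i, hi⟩ := hW'2
    obtain ⟨ι', hι'⟩ : ∃ ι' : algebraicClosure k Ω →+* geomPro ℓ k F Ω,
        ∀ c, ι' c = algebraMap (algebraicClosure k Ω) (geomPro ℓ k F Ω) (c) :=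
      ⟨algebraMap (algebraicClosure k Ω) (geomPro ℓ k F Ω), fun c => rfl⟩
    have hno' : ∀ e ∈ (p i).roots, (algebraMap F (geomPro ℓ k F Ω) x - ι' e)⁻¹ ∈ W' := by
      intro e he
      apply inv_mem_of_not_nonunit
      rw [hι']
      exact hno e ((hmemB e).2 ((hrooti e).2 ⟨i, he⟩))
    have hlcι : (ι' (p i).leadingCoeff)⁻¹ ∈ W' := by
      rw [← map_inv₀, hι']
      exact hconst' _
    have hfN : algebraMap F (geomPro ℓ k F Ω) (aeval x ((f i).map (algebraMap A k))) =
        ι' (p i).leadingCoeff *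
          ((p i).roots.map fun e => algebraMap F (geomPro ℓ k F Ω) x - ι' e).prod := by
      have h5 : algebraMap F (geomPro ℓ k F Ω) (aeval x ((f i).map (algebraMap A k))) =
          (p i).eval₂ ι' (algebraMap F (geomPro ℓ k F Ω) x) := by
        apply Subtype.ext
        have h6 : (((p i).eval₂ ι' (algebraMap F (geomPro ℓ k F Ω) x) : geomPro ℓ k F Ω) : Ω) =
            (p i).eval₂ (algebraMap (algebraicClosure k Ω) Ω) (algebraMap F Ω x) := by
          change algebraMap (geomPro ℓ k F Ω) Ω _ = _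
          rw [hom_eval₂]
          congr 1
          ext c
          change ((ι' c : geomPro ℓ k F Ω) : Ω) = (c : Ω)
          rw [hι', hcc]
        rw [h6, ← hfx i]
        rfl
      rw [h5]
      conv_lhs => rw [(IsAlgClosed.splits (p i)).eq_prod_roots]
      rw [eval₂_mul, eval₂_C, ← coe_eval₂RingHom, map_multiset_prod, Multiset.map_map]
      congr 2
      refine Multiset.map_congr rfl fun a _ => ?_
      simp
    have hmsinv : ∀ T : Multiset (algebraicClosure k Ω), (∀ e ∈ T, e ∈ (p i).roots) →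
        ((T.map fun e => algebraMap F (geomPro ℓ k F Ω) x - ι' e).prod)⁻¹ ∈ W' := by
      intro T
      induction T using Multiset.induction_on with
      | empty => intro _; simp
      | cons a T ih =>
        intro h
        rw [Multiset.map_cons, Multiset.prod_cons, mul_inv]
        exact mul_mem (hno' a (h a (Multiset.mem_cons_self a T)))
          (ih fun b hb => h b (Multiset.mem_cons_of_mem hb))
    have h8 : (algebraMap F (geomPro ℓ k F Ω) (aeval x ((f i).map (algebraMap A k))))⁻¹ ∈ W' := by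
      rw [hfN, mul_inv]
      exact mul_mem hlcι (hmsinv _ fun e he => he)
    rcases (nonunits_iff.1 hi).2 with h9 | h9
    · rw [map_eq_zero] at h9
      have h10 : (f i).map (algebraMap A k) ≠ 0 := by
        intro h11
        have h12 := ((hlc i).map (algebraMap A k)).ne_zero
        rw [← leadingCoeff_map_of_leadingCoeff_ne_zero _ h12, h11, leadingCoeff_zero] at h12
        exact h12 rfl
      exact h10 ((transcendental_iff.1 hx) _ h9)
    · exact h9 h8

/-- **the place of a section** for fields which contain the maximal geometrically pro-`ℓ`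
extension -/
theorem numM3 {ℓ : ℕ} [hp : Fact ℓ.Prime]
    (hℓ : IsUnit (ℓ : A)) {ι : Type} [Fintype ι] (f : ι → A[X]) (c : ι → ℕ)
    (hlc : ∀ i, IsUnit (f i).leadingCoeff)
    (hs : ((∏ i, f i).map (IsLocalRing.residue A)).Separable)
    (hodd : 3 ≤ ℓ) (h3c : 3 ≤ ∑ i, (f i).natDegree)
    (hc : ∀ i, ¬ ℓ ∣ c i) (hsum : ℓ ∣ ∑ i, c i * (f i).natDegree)
    (ϖ : A) (hϖ : Irreducible ϖ) (d : k) (m : ℤ) (hm : ¬ (ℓ : ℤ) ∣ m) (hd : Val ϖ d m)
    (x w : F) (hx : Transcendental k x)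
    (hxw : algebraMap k F d * w ^ ℓ = ∏ i, (aeval x ((f i).map (algebraMap A k))) ^ c i)
    (hF : IntermediateField.adjoin k {x, w} = (⊤ : IntermediateField k F))
    (M : IntermediateField F Ω) (hM : geomPro ℓ k F Ω ≤ M)
    (S : (algebraicClosure k Ω ≃ₐ[k] algebraicClosure k Ω) →* (M ≃ₐ[F] M)) (hcont : Continuous S)
    (hcompat : ∀ σ (c : algebraicClosure k Ω) (z : M), (z : Ω) = (c : Ω) →
      (S σ z : Ω) = (σ c : Ω))
    (V : ValuationSubring (algebraicClosure k Ω))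
    (hVA : ∀ a : A, algebraMap k (algebraicClosure k Ω) (algebraMap A k a) ∈ V)
    (hVM : ∀ a ∈ IsLocalRing.maximalIdeal A,
      algebraMap k (algebraicClosure k Ω) (algebraMap A k a) ∈ V.nonunits) :
    ∃ W : ValuationSubring M,
      (((∀ c : k, algebraMap F M (algebraMap k F c) ∈ W) ∧
       (∃ e : algebraicClosure k Ω, (∃ i, aeval e ((f i).map (algebraMap A k)) = 0) ∧
          (∀ σ : algebraicClosure k Ω ≃ₐ[k] algebraicClosure k Ω, Dec V σ → σ e = e) ∧
          ∃ z' ∈ W.nonunits, (z' : Ω) = algebraMap F Ω x - e)) ∧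
       ∀ σ : algebraicClosure k Ω ≃ₐ[k] algebraicClosure k Ω, Dec V σ →
        ∀ z : M, (z : Ω) ∈ geomPro ℓ k F Ω → (S σ z ∈ W ↔ z ∈ W)) ∧
      ∀ W' : ValuationSubring M,
        (∀ c : k, algebraMap F M (algebraMap k F c) ∈ W') →
        (∃ i, algebraMap F M (aeval x ((f i).map (algebraMap A k))) ∈ W'.nonunits) →
        (∀ σ : algebraicClosure k Ω ≃ₐ[k] algebraicClosure k Ω, Dec V σ →
          ∀ z : M, (z : Ω) ∈ geomPro ℓ k F Ω → (S σ z ∈ W' ↔ z ∈ W')) →
        ∀ z : M, (z : Ω) ∈ geomPro ℓ k F Ω → (z ∈ W' ↔ z ∈ W) := by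
  have hd0 : d ≠ 0 := hd.ne_zero hϖ
  have hdF : algebraMap k F d ≠ 0 := (_root_.map_ne_zero _).2 hd0
  have halg := alg_of_pow hp.out.pos x w (by
    have h1 : w ^ ℓ = algebraMap k F d⁻¹ *
        ∏ i, (aeval x ((f i).map (algebraMap A k))) ^ c i := by
      rw [← hxw, map_inv₀, inv_mul_cancel_left₀ hdF]
    rw [h1]
    exact mul_mem (IntermediateField.algebraMap_mem _ _)
      (prod_mem fun i _ => pow_mem (aeval_mem x _) _)) hF
  obtain ⟨T, hTc, hT⟩ := a_ind2 ℓ k F Ω x hx halg M hM _ S hcont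
  have hTcompat : ∀ σ (c : algebraicClosure k Ω) (z : geomPro ℓ k F Ω), (z : Ω) = (c : Ω) →
      (T σ z : Ω) = (σ c : Ω) := by
    intro σ c z hz
    have h1 : (z : Ω) ∈ M := hM z.2
    rw [hT σ ⟨(z : Ω), h1⟩ z rfl]
    exact hcompat σ c _ hz
  obtain ⟨W₀, ⟨⟨h1, h2⟩, h4⟩, hun⟩ := dec_placeN hℓ f c hlc hs hodd h3c hc hsum ϖ hϖ d m hm hd x w
    hx hxw hF T hTc hTcompat V hVA hVM
  obtain ⟨W, ⟨⟨hW1, hW2⟩, hW4⟩, hWun⟩ := lift_thm (geomPro ℓ k F Ω) M hM S T (fun σ => Dec V σ) hT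
    (fun L W => (∀ c : k, algebraMap F L (algebraMap k F c) ∈ W) ∧
       (∃ e : algebraicClosure k Ω, (∃ i, aeval e ((f i).map (algebraMap A k)) = 0) ∧
          (∀ σ : algebraicClosure k Ω ≃ₐ[k] algebraicClosure k Ω, Dec V σ → σ e = e) ∧
          ∃ z' ∈ W.nonunits, (z' : Ω) = algebraMap F Ω x - e))
    (fun L W => (∀ c : k, algebraMap F L (algebraMap k F c) ∈ W) ∧
      ∃ i, algebraMap F L (aeval x ((f i).map (algebraMap A k))) ∈ W.nonunits)
    (by
      rintro W ⟨a1, ⟨e, he, hfix, z', hz', hz''⟩⟩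
      exact ⟨a1, e, he, hfix, _, (non_incl ((IntermediateField.inclusion hM :
        geomPro ℓ k F Ω →ₐ[F] M) : geomPro ℓ k F Ω →+* M) W _).1 hz', hz''⟩)
    (by
      rintro W ⟨a1, i, a2⟩
      exact ⟨a1, i, (non_incl _ _ _).2 a2⟩)
    ⟨W₀, ⟨⟨h1, h2⟩, h4⟩, fun W' hW' hst => hun W' hW'.1 hW'.2 hst⟩
  exact ⟨W, ⟨⟨hW1, hW2⟩, hW4⟩, fun W' b1 b2 b3 z hz => hWun W' ⟨b1, b2⟩ b3 z hz⟩

end main

end Pool.Agent.X281.OB
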