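import Pool.Agent.X281.OB.InfB
import Pool.Agent.X281.SE.Place

/-!
# Sections at infinity over extensions of small degree, all prime numbers
-/

set_option autoImplicit false

namespace Pool.Agent.X281.OB

open Pool.Agent.TH377.LocG Pool.Agent.X281.SE
open Polynomial
open Pool.Agent.Y157.PS (Dec geomPro non_mul non_mem nonunits_iff)

theorem atInf_dvr3 {A k : Type} [CommRing A] [IsDomain A] [IsDiscreteValuationRing A]
    [Finite (IsLocalRing.ResidueField A)] [Field k] [CharZero k] [Algebra A k] [IsFractionRing A k]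
    {ℓ : ℕ} (hℓ0 : ℓ.Prime) (hℓ : IsUnit (ℓ : A)) (f : A[X]) (hlc : IsUnit f.leadingCoeff)
    (hs : (f.map (IsLocalRing.residue A)).Separable) (hdvd : ¬ ℓ ∣ f.natDegree)
    (h3 : 2 ≤ f.natDegree) (hroot : ∀ b : A, f.eval b ∉ IsLocalRing.maximalIdeal A)
    (ϖ : A) (hϖ : Irreducible ϖ) (d : k) (m : ℤ) (hm : ¬ (ℓ : ℤ) ∣ m)
    (t : A) (ht : IsUnit t) (hd : d = algebraMap A k t * algebraMap A k ϖ ^ m)
    (B : ValuationSubring k) (hB : ∀ z, z ∈ B ↔ ∃ a : A, algebraMap A k a = z)
    (hBm : ∀ a : A, algebraMap A k a ∈ B.nonunits ↔ a ∈ IsLocalRing.maximalIdeal A) :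
    AtInf ℓ B d (f.map (algebraMap A k)) := by
  by_cases hdvd' : ℓ ∣ f.natDegree + 1
  · exact atInf_dvr hℓ0 hℓ f hlc hs hdvd' h3 hroot ϖ hϖ d m hm t ht hd B hB hBm
  have hodd : 3 ≤ ℓ := by
    by_contra h4
    have h5 := hℓ0.two_le
    have h6 : ℓ = 2 := by omega
    subst h6
    omega
  have hfact : Fact ℓ.Prime := ⟨hℓ0⟩
  intro F Ω _ _ _ _ _ _ _ _ x y hx hxy hF M hM S hS hc V hV
  refine near_inf3 V ?_ ?_ hℓ f hlc hs hodd hdvd h3 hroot ϖ hϖ d m hm t ht hd x y hx hxy hF M hM S
    hS hc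
  · intro a
    have h1 : algebraMap A k a ∈ B := (hB _).2 ⟨a, rfl⟩
    rw [← hV] at h1
    exact h1
  · intro a ha
    rw [← Pool.Agent.Y157.PS.non_incl, hV]
    exact (hBm a).2 ha

/-- sections at infinity, all prime numbers that do not divide the degree -/
theorem inf_ext3 {k : Type} [Field k] [CharZero k] (q q' : ℕ) (a : k) (g : k[X])
    (h : Pool.Agent.X281.SEN.GoodDvr q q' a g) (h3 : 3 ≤ g.natDegree) :
    ∃ (p : ℕ) (A : ValuationSubring k), p.Prime ∧ p ∣ q' ∧ ¬ p ∣ q ∧ IsPlace p A ∧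
      ∀ ℓ : ℕ, ℓ.Prime → ℓ ≠ p → ¬ ℓ ∣ g.natDegree →
      ∀ (L : Type) [Field L] [Algebra k L] [FiniteDimensional k L] (m : ℤ),
        Module.finrank k L < g.natDegree → ¬ (ℓ : ℤ) ∣ m * Module.finrank k L →
        ∃ B : ValuationSubring L, IsPlace p B ∧ B.comap (algebraMap k L) = A ∧
          AtInf ℓ B (algebraMap k L (a ^ m)) (g.map (algebraMap k L)) := by
  classical
  obtain ⟨A, _, _, _, _, f, ϖ, t, s, hfr, hfin, hfg, hdeg, hlc, hirr, hϖ, ht, hs, ha, hqA,
    hqA'⟩ := h
  obtain ⟨B0, hB1, hB2, hB3, hB4⟩ := place_of A k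
  set p := ringChar (IsLocalRing.ResidueField A) with hp
  have hpp : p.Prime := by
    have hcp : CharP (IsLocalRing.ResidueField A) p := ringChar.charP _
    rcases CharP.char_is_prime_or_zero (IsLocalRing.ResidueField A) p with h4 | h4
    · exact h4
    · exfalso
      rw [h4] at hcp
      have := CharP.charP_to_charZero (IsLocalRing.ResidueField A)
      exact not_finite (IsLocalRing.ResidueField A)
  have hres : ∀ n : ℕ, ((n : ℕ) : A) ∈ IsLocalRing.maximalIdeal A ↔ p ∣ n := by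
    intro n
    rw [← IsLocalRing.residue_eq_zero_iff, map_natCast, ringChar.spec]
  have hpA : ((p : ℕ) : A) ∈ IsLocalRing.maximalIdeal A := (hres p).2 dvd_rfl
  refine ⟨p, B0, hpp, ?_, ?_, ⟨hB1, hB2, ?_⟩, ?_⟩
  · rw [← hres, IsLocalRing.mem_maximalIdeal]
    exact hqA'
  · rw [← hres, IsLocalRing.mem_maximalIdeal, mem_nonunits_iff, not_not]
    exact hqA
  · rw [← map_natCast (algebraMap A k), hB4]
    exact hpA
  intro ℓ hℓ hℓq hℓd L _ _ _ m hL hm
  have hℓA : IsUnit (ℓ : A) := by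
    by_contra h4
    have h5 := (hres ℓ).1 ((IsLocalRing.mem_maximalIdeal _).2 h4)
    exact hℓq ((Nat.prime_dvd_prime_iff_eq hpp hℓ).1 h5).symm
  obtain ⟨tu, rfl⟩ := ht
  obtain ⟨u, hu⟩ := hlc
  have hur : IsLocalRing.residue A ((u⁻¹ : Aˣ) : A) ≠ 0 :=
    ((u⁻¹).isUnit.map (IsLocalRing.residue A)).ne_zero
  have hdr : (f.map (IsLocalRing.residue A)).natDegree = g.natDegree := by
    rw [← hdeg]
    exact natDegree_map_of_leadingCoeff_ne_zero _ (by
      rw [← hu]
      exact (u.isUnit.map _).ne_zero)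
  have hsep : (f.map (IsLocalRing.residue A)).Separable :=
    PerfectField.separable_of_irreducible hirr
  -- the monic polynomial
  set G : A[X] := C ((u⁻¹ : Aˣ) : A) * f with hG
  have hGm : G.Monic := by
    rw [hG, Monic, leadingCoeff_mul, leadingCoeff_C, ← hu, Units.inv_mul]
  have hGr : G.map (IsLocalRing.residue A) = C (IsLocalRing.residue A ((u⁻¹ : Aˣ) : A)) *
      f.map (IsLocalRing.residue A) := by
    rw [hG, Polynomial.map_mul, map_C]
  have hGs : (G.map (IsLocalRing.residue A)).Separable := by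
    rw [hGr]
    exact Separable.unit_mul (isUnit_C.2 hur.isUnit) hsep
  have hGirr : Irreducible (G.map (IsLocalRing.residue A)) := by
    rw [hGr]
    exact (irreducible_isUnit_mul (isUnit_C.2 hur.isUnit)).2 hirr
  have hGd : (G.map (IsLocalRing.residue A)).natDegree = g.natDegree := by
    rw [hGr, natDegree_C_mul hur, hdr]
  have hGf : FactorDiv g.natDegree (G.map (IsLocalRing.residue A)) :=
    factorDiv_of_irreducible _ _ hGirr (by rw [hGd])
  -- the place of `L`
  let _ : Algebra A L := ((algebraMap k L).comp (algebraMap A k)).toAlgebra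
  have hstR : IsScalarTower A k L := IsScalarTower.of_algebraMap_eq (fun _ => rfl)
  have hczL : CharZero L := charZero_of_injective_algebraMap (algebraMap k L).injective
  obtain ⟨B, _, _, _, _, hfrB, F, fd, hfdle, hfd0, hfinB, hℓB, hFm, hFL, hFs, hFd, hAB,
    ϖ', t', m', hϖ', ht', hm', hat⟩ :=
    dvr_gen (k := k) (L := L) G hGm hGs g.natDegree ℓ hℓ hℓA hGf ϖ ((u⁻¹ * tu ^ m : Aˣ) : A) hϖ
      (u⁻¹ * tu ^ m).isUnit (s * m) (by
        intro h4
        apply hm
        rcases hs with rfl | rfl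
        · rwa [one_mul] at h4
        · rw [neg_one_mul, neg_mul, dvd_neg] at h4
          exact h4)
  obtain ⟨B1, hC1, hC2, hC3, hC4⟩ := place_of B L
  have hdom : ∀ r : A, r ∈ IsLocalRing.maximalIdeal A →
      algebraMap k L (algebraMap A k r) ∈ B1.nonunits := by
    intro r hr
    obtain ⟨b, hb1, hb2⟩ := hAB r
    have h4 : algebraMap k L (algebraMap A k r) = algebraMap B L b := hb1.symm
    rw [h4, hC4]
    exact hb2 hr
  have hin : ∀ r : A, algebraMap k L (algebraMap A k r) ∈ B1 := by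
    intro r
    obtain ⟨b, hb1, hb2⟩ := hAB r
    have h4 : algebraMap k L (algebraMap A k r) = algebraMap B L b := hb1.symm
    rw [h4, hC3]
    exact ⟨b, rfl⟩
  refine ⟨B1, ⟨hC1, hC2, ?_⟩, ?_, ?_⟩
  · have h4 := hdom _ hpA
    rwa [map_natCast, map_natCast] at h4
  · ext z
    rw [ValuationSubring.mem_comap]
    constructor
    · intro hz
      by_contra hzB
      rcases B0.mem_or_inv_mem z with h4 | h4
      · exact hzB h4
      · obtain ⟨r, hr⟩ := (hB3 _).1 h4
        have hz0 : z ≠ 0 := by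
          rintro rfl
          exact hzB (zero_mem _)
        have h5 : z⁻¹ ∈ B0.nonunits := by
          rw [nonunits_iff, inv_inv]
          exact ⟨h4, Or.inr hzB⟩
        rw [← hr, hB4] at h5
        have h6 := hdom r h5
        rw [hr, map_inv₀, nonunits_iff, inv_inv] at h6
        rcases h6.2 with h7 | h7
        · rw [inv_eq_zero, _root_.map_eq_zero] at h7
          exact hz0 h7
        · exact h7 hz
    · intro hz
      obtain ⟨r, hr⟩ := (hB3 _).1 hz
      rw [← hr]
      exact hin r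
  set c : L := algebraMap k L (algebraMap A k ((u⁻¹ : Aˣ) : A)) with hcdef
  have hc0 : c ≠ 0 := (_root_.map_ne_zero _).2 ((u⁻¹).isUnit.map (algebraMap A k)).ne_zero
  have hgL : g.map (algebraMap k L) = f.map (algebraMap A L) := by
    rw [← hfg, Polynomial.map_map]
    rfl
  have hFL' : F.map (algebraMap B L) = C c * g.map (algebraMap k L) := by
    rw [hFL, hG, Polynomial.map_mul, map_C, hgL]
    rfl
  have hFdeg : F.natDegree = g.natDegree := by
    have h4 : (F.map (algebraMap B L)).natDegree = F.natDegree :=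
      natDegree_map_eq_of_injective (IsFractionRing.injective B L) F
    rw [← h4, hFL', natDegree_C_mul hc0, natDegree_map]
  have hcoef : c * algebraMap k L (a ^ m) = algebraMap B L t' * algebraMap B L ϖ' ^ m' := by
    rw [← hat, hcdef, ← map_mul]
    have h5 : algebraMap A k ((u⁻¹ : Aˣ) : A) * a ^ m =
        algebraMap A k ((u⁻¹ * tu ^ m : Aˣ) : A) * algebraMap A k ϖ ^ (s * m) := by
      rw [ha, mul_zpow, ← zpow_mul, Units.val_mul, map_mul, zpow_unit]
      ring
    rw [h5, map_mul, map_zpow₀]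
    rfl
  refine atInf_scale _ _ _ c ?_
  rw [hcoef, ← hFL']
  refine atInf_dvr3 hℓ hℓB F (by rw [hFm.leadingCoeff]; exact isUnit_one) hFs (by rwa [hFdeg])
    (by rw [hFdeg]; omega) ?_ ϖ' hϖ' _ m' hm' t' ht' rfl B1 hC3 hC4
  intro b hb
  have h5 : (F.map (IsLocalRing.residue B)).eval (IsLocalRing.residue B b) = 0 := by
    rw [eval_map, eval₂_at_apply]
    exact (IsLocalRing.residue_eq_zero_iff _).2 hb
  have h6 : X - C (IsLocalRing.residue B b) ∣ F.map (IsLocalRing.residue B) :=
    dvd_iff_isRoot.2 h5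
  have h7 := hFd _ (irreducible_X_sub_C _) h6
  rw [natDegree_X_sub_C, one_mul] at h7
  have h8 := Nat.le_of_dvd hfd0 h7
  omega

end Pool.Agent.X281.OB
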