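import Pool.Agent.X281.OB.InfB

/-!
# Sections of cyclic coverings that are totally ramified at infinity, arbitrary exponents
-/

set_option autoImplicit false

namespace Pool.Agent.X281.OB

open Polynomial
open Pool.Agent.Y157.PS (Dec geomPro root_mod non_mul non_mem non_add non_sub nonunits_iff IsU)
open Pool.Agent.X281.SE (sep_reflect aeval_reflect near_inf)

section refl

theorem prod_reflect {A ι : Type} [CommRing A] [IsDomain A] (s : Finset ι) (f : ι → A[X]) :
    ∏ i ∈ s, (f i).reflect (f i).natDegree =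
      (∏ i ∈ s, f i).reflect (∑ i ∈ s, (f i).natDegree) := by
  classical
  induction s using Finset.induction_on with
  | empty => simp
  | insert a s ha ih =>
    rw [Finset.prod_insert ha, Finset.prod_insert ha, Finset.sum_insert ha, ih,
      reflect_mul _ _ le_rfl (natDegree_prod_le _ _)]

variable {A : Type} [CommRing A] [IsDomain A] [IsDiscreteValuationRing A]

theorem refl_facts (f : A[X]) (hc0 : IsUnit (f.coeff 0)) :
    (f.reflect f.natDegree).natDegree = f.natDegree ∧
      (f.reflect f.natDegree).leadingCoeff = f.coeff 0 ∧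
      (f.reflect f.natDegree).coeff 0 = f.leadingCoeff := by
  have hrD : (f.reflect f.natDegree).coeff f.natDegree = f.coeff 0 := by
    rw [coeff_reflect, revAt_le le_rfl, Nat.sub_self]
  have hrd : (f.reflect f.natDegree).natDegree = f.natDegree := by
    refine le_antisymm ?_ ?_
    · refine (natDegree_reflect_le).trans ?_
      simp
    · refine le_natDegree_of_ne_zero ?_
      rw [hrD]
      exact hc0.ne_zero
  refine ⟨hrd, by rw [leadingCoeff, hrd, hrD], ?_⟩
  rw [coeff_reflect, revAt_le (Nat.zero_le _), Nat.sub_zero]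
  rfl

theorem no_root_refl (f : A[X]) (hlc : IsUnit f.leadingCoeff)
    (hroot : ∀ b : A, f.eval b ∉ IsLocalRing.maximalIdeal A) (b : A) :
    (f.reflect f.natDegree).eval b ∉ IsLocalRing.maximalIdeal A := by
  intro hb
  have hc0 : IsUnit (f.coeff 0) := by
    have h4 := hroot 0
    rw [← coeff_zero_eq_eval_zero] at h4
    by_contra h5
    exact h4 ((IsLocalRing.mem_maximalIdeal _).2 h5)
  obtain ⟨-, -, hr0⟩ := refl_facts f hc0
  by_cases hbu : IsUnit b
  · obtain ⟨c, rfl⟩ := hbu
    let _ : Invertible ((c⁻¹ : Aˣ) : A) := (c⁻¹).invertible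
    have h6 := eval₂_reflect_mul_pow (RingHom.id A) ((c⁻¹ : Aˣ) : A) f.natDegree f le_rfl
    have h7 : ⅟((c⁻¹ : Aˣ) : A) = (c : A) := by
      rw [invOf_units, inv_inv]
    rw [h7] at h6
    apply hroot ((c⁻¹ : Aˣ) : A)
    change eval₂ (RingHom.id A) _ f ∈ _
    rw [← h6]
    exact Ideal.mul_mem_right _ _ hb
  · have h6 : b ∈ IsLocalRing.maximalIdeal A := (IsLocalRing.mem_maximalIdeal _).2 hbu
    have h7 : (f.reflect f.natDegree).eval b = (f.reflect f.natDegree).coeff 0 +
        b * (f.reflect f.natDegree).divX.eval b := by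
      conv_lhs => rw [← divX_mul_X_add (f.reflect f.natDegree)]
      rw [eval_add, eval_mul, eval_X, eval_C]
      ring
    have h8 : (f.reflect f.natDegree).coeff 0 ∈ IsLocalRing.maximalIdeal A := by
      have h9 : (f.reflect f.natDegree).coeff 0 = (f.reflect f.natDegree).eval b -
          b * (f.reflect f.natDegree).divX.eval b := by rw [h7]; ring
      rw [h9]
      exact sub_mem hb (Ideal.mul_mem_right _ _ h6)
    rw [hr0] at h8
    exact (IsLocalRing.mem_maximalIdeal _).1 h8 hlc

end refl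

section main

variable {A k F Ω : Type} [CommRing A] [IsDomain A] [IsDiscreteValuationRing A]
    [Finite (IsLocalRing.ResidueField A)] [Field k] [CharZero k] [Algebra A k] [IsFractionRing A k]
    [Field F] [Field Ω] [Algebra k F] [Algebra F Ω] [Algebra k Ω] [IsScalarTower k F Ω]
    [IsAlgClosed Ω] [Algebra.IsAlgebraic F Ω]

/-- at a place where the reductions of the `f_i` have no roots all sections of the geometrically
pro-`ℓ` group are locally the section at infinity, for arbitrary exponents -/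
theorem near_infX {ℓ : ℕ} [hp : Fact ℓ.Prime] (V : ValuationSubring (algebraicClosure k Ω))
    (hVA : ∀ a : A, algebraMap k (algebraicClosure k Ω) (algebraMap A k a) ∈ V)
    (hVm : ∀ a ∈ IsLocalRing.maximalIdeal A,
      algebraMap k (algebraicClosure k Ω) (algebraMap A k a) ∈ V.nonunits)
    (hℓ : IsUnit (ℓ : A)) {ι : Type} [Fintype ι] (f : ι → A[X]) (c : ι → ℕ)
    (hlc : ∀ i, IsUnit (f i).leadingCoeff)
    (hs : ((∏ i, f i).map (IsLocalRing.residue A)).Separable) (hodd : 3 ≤ ℓ)
    (hc : ∀ i, ¬ ℓ ∣ c i) (hndvd : ¬ ℓ ∣ ∑ i, c i * (f i).natDegree)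
    (h2 : 2 ≤ ∑ i, (f i).natDegree)
    (hroot : ∀ i (b : A), (f i).eval b ∉ IsLocalRing.maximalIdeal A)
    (ϖ : A) (hϖ : Irreducible ϖ) (d : k) (m : ℤ) (hm : ¬ (ℓ : ℤ) ∣ m)
    (t : A) (ht : IsUnit t) (hd : d = algebraMap A k t * algebraMap A k ϖ ^ m)
    (x y : F) (hx : Transcendental k x)
    (hxy : algebraMap k F d * y ^ ℓ = aeval x ((∏ i, f i ^ c i).map (algebraMap A k)))
    (hF : IntermediateField.adjoin k {x, y} = (⊤ : IntermediateField k F))
    (M : IntermediateField F Ω) (hM : geomPro ℓ k F Ω ≤ M)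
    (S : (algebraicClosure k Ω ≃ₐ[k] algebraicClosure k Ω) →* (M ≃ₐ[F] M)) (hcont : Continuous S)
    (hcompat : ∀ σ (c : algebraicClosure k Ω) (z : M), (z : Ω) = (c : Ω) →
      (S σ z : Ω) = (σ c : Ω)) :
    ∃ W : ValuationSubring M,
      ((∀ c : k, algebraMap F M (algebraMap k F c) ∈ W) ∧ algebraMap F M x⁻¹ ∈ W.nonunits) ∧
      (∀ σ : algebraicClosure k Ω ≃ₐ[k] algebraicClosure k Ω, Dec V σ →
        ∀ z : M, (z : Ω) ∈ geomPro ℓ k F Ω → (S σ z ∈ W ↔ z ∈ W)) ∧
      ∀ W' : ValuationSubring M,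
        (∀ c : k, algebraMap F M (algebraMap k F c) ∈ W') →
        (algebraMap F M x⁻¹ ∈ W'.nonunits ∨
          algebraMap F M (aeval x ((∏ i, f i ^ c i).map (algebraMap A k))) ∈ W'.nonunits) →
        (∀ σ : algebraicClosure k Ω ≃ₐ[k] algebraicClosure k Ω, Dec V σ →
          ∀ z : M, (z : Ω) ∈ geomPro ℓ k F Ω → (S σ z ∈ W' ↔ z ∈ W')) →
        ∀ z : M, (z : Ω) ∈ geomPro ℓ k F Ω → (z ∈ W' ↔ z ∈ W) := by
  classical
  have hAk : Function.Injective (algebraMap A k) := IsFractionRing.injective A k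
  have hx0 : x ≠ 0 := by
    rintro rfl
    exact hx (isAlgebraic_zero)
  have hc0 : ∀ i, IsUnit ((f i).coeff 0) := by
    intro i
    have h4 := hroot i 0
    rw [← coeff_zero_eq_eval_zero] at h4
    by_contra h5
    exact h4 ((IsLocalRing.mem_maximalIdeal _).2 h5)
  have hrf := fun i => refl_facts (f i) (hc0 i)
  obtain ⟨r, hr⟩ : ∃ r : ι → A[X], r = fun i => (f i).reflect (f i).natDegree := ⟨_, rfl⟩
  have hri : ∀ i, r i = (f i).reflect (f i).natDegree := fun i => by rw [hr]
  obtain ⟨E, hE⟩ : ∃ E : ℕ, E = ∑ i, c i * (f i).natDegree := ⟨_, rfl⟩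
  rw [← hE] at hndvd
  have hf0 : ∀ i, f i ≠ 0 := fun i h => by
    have h4 := (hlc i).ne_zero
    rw [h, leadingCoeff_zero] at h4
    exact h4 rfl
  have hlcP : IsUnit (∏ i, f i).leadingCoeff := by
    rw [leadingCoeff_prod, IsUnit.prod_iff]
    exact fun i _ => hlc i
  have hPd : (∏ i, f i).natDegree = ∑ i, (f i).natDegree := natDegree_prod _ _ fun i _ => hf0 i
  have hPr : ((∏ i, f i).map (IsLocalRing.residue A)).natDegree = ∑ i, (f i).natDegree := by
    rw [natDegree_map_of_leadingCoeff_ne_zero _ (hlcP.map _).ne_zero, hPd]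
  have hsr : ((X * ∏ i, r i : A[X]).map (IsLocalRing.residue A)).Separable := by
    have h4 := sep_reflect ((∏ i, f i).map (IsLocalRing.residue A)) hs (by
      rw [coeff_map, coeff_zero_prod]
      refine ((IsUnit.prod_iff.2 fun i _ => ?_).map (IsLocalRing.residue A)).ne_zero
      exact hc0 i)
    rw [hPr] at h4
    rw [Polynomial.map_mul, map_X, hr, prod_reflect, ← reflect_map]
    exact h4
  -- the factors
  obtain ⟨g, hg⟩ : ∃ g : Option ι → A[X], g = fun o => o.elim X r := ⟨_, rfl⟩
  obtain ⟨c', hc'⟩ : ∃ c' : Option ι → ℕ, c' = fun o => o.elim (E * (ℓ - 1)) c := ⟨_, rfl⟩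
  have hgn : g none = X := by rw [hg]; rfl
  have hgs : ∀ i, g (some i) = r i := fun i => by rw [hg]; rfl
  have hcn : c' none = E * (ℓ - 1) := by rw [hc']; rfl
  have hcs : ∀ i, c' (some i) = c i := fun i => by rw [hc']; rfl
  have hgprod : ∏ o, g o = X * ∏ i, r i := by
    rw [Fintype.prod_option, hgn]
    congr 1
    exact Finset.prod_congr rfl fun i _ => hgs i
  have hgdeg : ∑ o, (g o).natDegree = 1 + ∑ i, (f i).natDegree := by
    rw [Fintype.sum_option, hgn, natDegree_X]
    congr 1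
    refine Finset.sum_congr rfl fun i _ => ?_
    rw [hgs, hri, (hrf i).1]
  have hcsum : ∑ o, c' o * (g o).natDegree = ℓ * E := by
    rw [Fintype.sum_option, hgn, natDegree_X, hcn, mul_one,
      Finset.sum_congr rfl fun i _ => by rw [hgs, hri, (hrf i).1, hcs], ← hE]
    obtain ⟨l', rfl⟩ : ∃ l', ℓ = l' + 1 := ⟨ℓ - 1, by omega⟩
    rw [Nat.add_sub_cancel]
    ring
  have hcnd : ∀ o, ¬ ℓ ∣ c' o := by
    rintro (_ | i)
    · rw [hcn, hp.out.dvd_mul]
      rintro (h4 | h4)
      · exact hndvd h4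
      · have := Nat.le_of_dvd (by omega) h4
        omega
    · rw [hcs]
      exact hc i
  have hxu : Transcendental k x⁻¹ := by
    intro h4
    apply hx
    have h5 := h4.inv
    rwa [inv_inv] at h5
  have hX6 : aeval x⁻¹ ((X : A[X]).map (algebraMap A k)) = x⁻¹ := by rw [map_X, aeval_X]
  have hr6 : ∀ i, aeval x⁻¹ ((r i).map (algebraMap A k)) =
      x⁻¹ ^ (f i).natDegree * aeval x ((f i).map (algebraMap A k)) := by
    intro i
    have h5 := aeval_reflect ((f i).map (algebraMap A k)) (f i).natDegree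
      (natDegree_map_eq_of_injective hAk (f i)).le x hx0
    rw [reflect_map, ← hri, map_mul, aeval_X, pow_succ', mul_assoc] at h5
    exact mul_left_cancel₀ (inv_ne_zero hx0) h5
  have hPx : aeval x ((∏ i, f i ^ c i).map (algebraMap A k)) =
      ∏ i, (aeval x ((f i).map (algebraMap A k))) ^ c i := by
    rw [Polynomial.map_prod, map_prod]
    exact Finset.prod_congr rfl fun i _ => by rw [Polynomial.map_pow, map_pow]
  have hrprod : ∏ i, (aeval x⁻¹ ((r i).map (algebraMap A k))) ^ c i =
      x⁻¹ ^ E * aeval x ((∏ i, f i ^ c i).map (algebraMap A k)) := by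
    rw [hPx, hE, ← Finset.prod_pow_eq_pow_sum, ← Finset.prod_mul_distrib]
    refine Finset.prod_congr rfl fun i _ => ?_
    rw [hr6, mul_pow, ← pow_mul, mul_comm (f i).natDegree]
  have hxy' : algebraMap k F d * (y * x⁻¹ ^ E) ^ ℓ =
      ∏ o, (aeval x⁻¹ ((g o).map (algebraMap A k))) ^ c' o := by
    rw [Fintype.prod_option, hgn, hcn, hX6,
      Finset.prod_congr rfl fun i _ => by rw [hgs, hcs], hrprod, mul_pow, ← mul_assoc, hxy]
    obtain ⟨l', rfl⟩ : ∃ l', ℓ = l' + 1 := ⟨ℓ - 1, by omega⟩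
    rw [Nat.add_sub_cancel]
    ring
  have hF' : IntermediateField.adjoin k {x⁻¹, y * x⁻¹ ^ E} = (⊤ : IntermediateField k F) := by
    rw [eq_top_iff, ← hF, IntermediateField.adjoin_le_iff]
    have h4 : x⁻¹ ∈ IntermediateField.adjoin k {x⁻¹, y * x⁻¹ ^ E} :=
      IntermediateField.subset_adjoin _ _ (by simp)
    have h5 : y * x⁻¹ ^ E ∈ IntermediateField.adjoin k {x⁻¹, y * x⁻¹ ^ E} :=
      IntermediateField.subset_adjoin _ _ (by simp)
    have h6 : x ∈ IntermediateField.adjoin k {x⁻¹, y * x⁻¹ ^ E} := by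
      have := inv_mem h4
      rwa [inv_inv] at this
    intro z hz
    rcases hz with rfl | hz
    · exact h6
    · rw [Set.mem_singleton_iff] at hz
      rw [hz]
      have h7 : y = y * x⁻¹ ^ E * x ^ E := by
        rw [mul_assoc, ← mul_pow, inv_mul_cancel₀ hx0, one_pow, mul_one]
      have h8 := mul_mem h5 (pow_mem h6 E)
      rw [← h7] at h8
      exact h8
  have hdV : Pool.Agent.X281.FL.Val ϖ d m := ⟨t, ht, hd⟩
  obtain ⟨W, ⟨⟨h1, ⟨e, ⟨o, he⟩, hfix, z', hz', hz'e⟩⟩, h5⟩, hun⟩ := numM3 hℓ g c' (by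
      rintro (_ | i)
      · rw [hgn, leadingCoeff_X]
        exact isUnit_one
      · rw [hgs, hri, (hrf i).2.1]
        exact hc0 i) (by rw [hgprod]; exact hsr) hodd (by rw [hgdeg]; omega) hcnd
    (by rw [hcsum]; exact Dvd.intro E rfl) ϖ hϖ d m hm hdV x⁻¹
    (y * x⁻¹ ^ E) hxu hxy' hF' M hM S hcont hcompat V hVA hVm
  have he0 : e = 0 := by
    rcases o with _ | i
    · rw [hgn, map_X, aeval_X] at he
      exact he
    · exfalso
      rw [hgs] at he
      obtain ⟨b, hb⟩ := root_mod V hVA hVm (r i) (by rw [hri, (hrf i).2.1]; exact hc0 i) e he hfix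
      rw [hri] at hb
      exact no_root_refl (f i) (hlc i) (hroot i) b hb
  have hxW : algebraMap F M x⁻¹ ∈ W.nonunits := by
    have h6 : algebraMap F M x⁻¹ = z' := by
      apply Subtype.ext
      rw [hz'e, he0]
      change algebraMap F Ω x⁻¹ = algebraMap F Ω x⁻¹ - ((0 : algebraicClosure k Ω) : Ω)
      rw [ZeroMemClass.coe_zero, sub_zero]
    rw [h6]
    exact hz'
  refine ⟨W, ⟨h1, hxW⟩, h5, fun W' b1 b2 b3 => hun W' b1 ?_ b3⟩
  have hcW : ∀ (g : k[X]) (z : F), algebraMap F M z ∈ W' → algebraMap F M (aeval z g) ∈ W' := by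
    intro g z hz
    rw [aeval_eq_sum_range, map_sum]
    refine sum_mem fun i _ => ?_
    rw [Algebra.smul_def, map_mul, map_pow]
    exact mul_mem (b1 _) (pow_mem hz i)
  rcases b2 with b2 | b2
  · exact ⟨none, by rw [hgn, hX6]; exact b2⟩
  · obtain ⟨P, hP⟩ : ∃ P : A[X], P = ∏ i, f i ^ c i := ⟨_, rfl⟩
    rw [← hP] at b2 hrprod
    have hPc : P.coeff 0 ≠ 0 := by
      rw [hP, coeff_zero_prod]
      refine (IsUnit.prod_iff.2 fun i _ => ?_).ne_zero
      rw [coeff_zero_eq_eval_zero, eval_pow, ← coeff_zero_eq_eval_zero]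
      exact (hc0 i).pow _
    have h6 : algebraMap F M x⁻¹ ∈ W' := by
      by_contra h7
      have h8 : algebraMap F M x ∈ W'.nonunits := by
        rw [nonunits_iff]
        rw [map_inv₀] at h7
        refine ⟨?_, Or.inr h7⟩
        rcases W'.mem_or_inv_mem (algebraMap F M x) with h9 | h9
        · exact h9
        · exact absurd h9 h7
      have h9 : aeval x (P.map (algebraMap A k)) = algebraMap k F (algebraMap A k (P.coeff 0)) +
          aeval x ((P.map (algebraMap A k)).divX) * x := by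
        conv_lhs => rw [← divX_mul_X_add (P.map (algebraMap A k))]
        rw [map_add, map_mul, aeval_X, aeval_C, coeff_map, add_comm]
      have h10 : algebraMap F M (algebraMap k F (algebraMap A k (P.coeff 0))) ∈ W'.nonunits := by
        have h11 : algebraMap F M (algebraMap k F (algebraMap A k (P.coeff 0))) =
            algebraMap F M (aeval x (P.map (algebraMap A k))) -
            algebraMap F M (aeval x ((P.map (algebraMap A k)).divX)) * algebraMap F M x := by
          rw [h9, map_add, map_mul]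
          ring
        rw [h11]
        exact non_sub b2 (non_mul (hcW _ _ (non_mem h8)) h8)
      rcases (nonunits_iff.1 h10).2 with h12 | h12
      · rw [_root_.map_eq_zero, _root_.map_eq_zero, map_eq_zero_iff _ hAk] at h12
        exact hPc h12
      · apply h12
        rw [← map_inv₀, ← map_inv₀]
        exact b1 _
    have h7 : ∏ i, algebraMap F M (aeval x⁻¹ ((r i).map (algebraMap A k))) ^ c i ∈ W'.nonunits := by
      have h8 := congrArg (algebraMap F M) hrprod
      rw [map_prod, Finset.prod_congr rfl fun i _ => map_pow (algebraMap F M) _ _] at h8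
      rw [h8, map_mul, map_pow]
      exact non_mul (pow_mem h6 _) b2
    obtain ⟨i, -, h8⟩ := prod_nonunits _ _ (fun i _ => pow_mem (hcW _ _ h6) _) h7
    refine ⟨some i, ?_⟩
    rw [hgs]
    refine (non_pow_iff ?_).1 h8
    intro h9
    exact hc i (by rw [h9]; exact dvd_zero ℓ)

end main

end Pool.Agent.X281.OB
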