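import Pool.Agent.X281.OB.InfX

/-!
# Sections of cyclic coverings that are totally ramified at infinity, arbitrary exponents, all prime
numbers
-/

set_option autoImplicit false

namespace Pool.Agent.X281.OB

open Polynomial
open Pool.Agent.Y157.PS (Dec geomPro root_mod non_mul non_mem non_add non_sub nonunits_iff IsU)
open Pool.Agent.X281.SE (near_inf)

section main

variable {A k F Ω : Type} [CommRing A] [IsDomain A] [IsDiscreteValuationRing A]
    [Finite (IsLocalRing.ResidueField A)] [Field k] [CharZero k] [Algebra A k] [IsFractionRing A k]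
    [Field F] [Field Ω] [Algebra k F] [Algebra F Ω] [Algebra k Ω] [IsScalarTower k F Ω]
    [IsAlgClosed Ω] [Algebra.IsAlgebraic F Ω]

/-- at a place where the reductions of the `f_i` have no roots all sections of the geometrically
pro-`ℓ` group are locally the section at infinity, for arbitrary exponents and all prime numbers -/
theorem near_infXX {ℓ : ℕ} [hp : Fact ℓ.Prime] (V : ValuationSubring (algebraicClosure k Ω))
    (hVA : ∀ a : A, algebraMap k (algebraicClosure k Ω) (algebraMap A k a) ∈ V)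
    (hVm : ∀ a ∈ IsLocalRing.maximalIdeal A,
      algebraMap k (algebraicClosure k Ω) (algebraMap A k a) ∈ V.nonunits)
    (hℓ : IsUnit (ℓ : A)) {ι : Type} [Fintype ι] (f : ι → A[X]) (c : ι → ℕ)
    (hlc : ∀ i, IsUnit (f i).leadingCoeff)
    (hs : ((∏ i, f i).map (IsLocalRing.residue A)).Separable)
    (hc : ∀ i, ¬ ℓ ∣ c i) (hndvd : ¬ ℓ ∣ ∑ i, c i * (f i).natDegree)
    (h2 : 2 ≤ ∑ i, (f i).natDegree)
    (hroot : ∀ i (b : A), (f i).eval b ∉ IsLocalRing.maximalIdeal A)
    (ϖ : A) (hϖ : Irreducible ϖ) (d : k) (m : ℤ) (hm : ¬ (ℓ : ℤ) ∣ m)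
    (t : A) (ht : IsUnit t) (hd : d = algebraMap A k t * algebraMap A k ϖ ^ m)
    (x y : F) (hx : Transcendental k x)
    (hxy : algebraMap k F d * y ^ ℓ = aeval x ((∏ i, f i ^ c i).map (algebraMap A k)))
    (hF : IntermediateField.adjoin k {x, y} = (⊤ : IntermediateField k F))
    (M : IntermediateField F Ω) (hM : geomPro ℓ k F Ω ≤ M)
    (S : (algebraicClosure k Ω ≃ₐ[k] algebraicClosure k Ω) →* (M ≃ₐ[F] M)) (hcont : Continuous S)
    (hcompat : ∀ σ (c : algebraicClosure k Ω) (z : M), (z : Ω) = (c : Ω) →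
      (S σ z : Ω) = (σ c : Ω)) :
    ∃ W : ValuationSubring M,
      ((∀ c : k, algebraMap F M (algebraMap k F c) ∈ W) ∧ algebraMap F M x⁻¹ ∈ W.nonunits) ∧
      (∀ σ : algebraicClosure k Ω ≃ₐ[k] algebraicClosure k Ω, Dec V σ →
        ∀ z : M, (z : Ω) ∈ geomPro ℓ k F Ω → (S σ z ∈ W ↔ z ∈ W)) ∧
      ∀ W' : ValuationSubring M,
        (∀ c : k, algebraMap F M (algebraMap k F c) ∈ W') →
        (algebraMap F M x⁻¹ ∈ W'.nonunits ∨
          algebraMap F M (aeval x ((∏ i, f i ^ c i).map (algebraMap A k))) ∈ W'.nonunits) →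
        (∀ σ : algebraicClosure k Ω ≃ₐ[k] algebraicClosure k Ω, Dec V σ →
          ∀ z : M, (z : Ω) ∈ geomPro ℓ k F Ω → (S σ z ∈ W' ↔ z ∈ W')) →
        ∀ z : M, (z : Ω) ∈ geomPro ℓ k F Ω → (z ∈ W' ↔ z ∈ W) := by
  classical
  rcases hp.out.two_le.eq_or_lt with hl | hl
  swap
  · exact near_infX V hVA hVm hℓ f c hlc hs hl hc hndvd h2 hroot ϖ hϖ d m hm t ht hd x y hx hxy hF M
      hM S hcont hcompat
  subst hl
  have hAk : Function.Injective (algebraMap A k) := IsFractionRing.injective A k
  have hb : ∀ i, ∃ b, c i = 2 * b + 1 := fun i => by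
    have := hc i
    exact ⟨c i / 2, by omega⟩
  choose b hb using hb
  have hf0 : ∀ i, f i ≠ 0 := fun i h => by
    have h4 := (hlc i).ne_zero
    rw [h, leadingCoeff_zero] at h4
    exact h4 rfl
  obtain ⟨P, hP⟩ : ∃ P : A[X], P = ∏ i, f i := ⟨_, rfl⟩
  obtain ⟨G, hG⟩ : ∃ G : A[X], G = ∏ i, f i ^ b i := ⟨_, rfl⟩
  have hfac : ∏ i, f i ^ c i = P * G ^ 2 := by
    rw [hP, hG, ← Finset.prod_pow, ← Finset.prod_mul_distrib]
    refine Finset.prod_congr rfl fun i _ => ?_
    rw [hb i, pow_succ', mul_comm 2, pow_mul]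
  have hfx0 : ∀ i, aeval x ((f i).map (algebraMap A k)) ≠ 0 := by
    intro i h
    have h4 := (transcendental_iff.1 hx) _ h
    rw [Polynomial.map_eq_zero_iff hAk] at h4
    exact hf0 i h4
  have hGx : aeval x (G.map (algebraMap A k)) ≠ 0 := by
    rw [hG, Polynomial.map_prod, map_prod]
    refine Finset.prod_ne_zero_iff.2 fun i _ => ?_
    rw [Polynomial.map_pow, map_pow]
    exact pow_ne_zero _ (hfx0 i)
  obtain ⟨y', hy'⟩ : ∃ y' : F, y' = y / aeval x (G.map (algebraMap A k)) := ⟨_, rfl⟩
  have hyy : y = y' * aeval x (G.map (algebraMap A k)) := by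
    rw [hy', div_mul_cancel₀ _ hGx]
  have hxy' : algebraMap k F d * y' ^ 2 = aeval x (P.map (algebraMap A k)) := by
    rw [hy', div_pow, ← mul_div_assoc, hxy, hfac, Polynomial.map_mul, Polynomial.map_pow, map_mul,
      map_pow, mul_div_cancel_right₀ _ (pow_ne_zero 2 hGx)]
  have hF' : IntermediateField.adjoin k {x, y'} = (⊤ : IntermediateField k F) := by
    rw [eq_top_iff, ← hF, IntermediateField.adjoin_le_iff]
    have h4 : x ∈ IntermediateField.adjoin k {x, y'} :=
      IntermediateField.subset_adjoin _ _ (by simp)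
    have h5 : y' ∈ IntermediateField.adjoin k {x, y'} :=
      IntermediateField.subset_adjoin _ _ (by simp)
    intro z hz
    rcases hz with rfl | hz
    · exact h4
    · rw [Set.mem_singleton_iff] at hz
      rw [hz, hyy]
      refine mul_mem h5 ?_
      rw [aeval_eq_sum_range]
      refine sum_mem fun i _ => ?_
      rw [Algebra.smul_def]
      exact mul_mem (IntermediateField.algebraMap_mem _ _) (pow_mem h4 _)
  have hlcP : IsUnit P.leadingCoeff := by
    rw [hP, leadingCoeff_prod, IsUnit.prod_iff]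
    exact fun i _ => hlc i
  have hPd : P.natDegree = ∑ i, (f i).natDegree := by
    rw [hP]
    exact natDegree_prod _ _ fun i _ => hf0 i
  have hdvd : 2 ∣ P.natDegree + 1 := by
    have h4 : ∑ i, c i * (f i).natDegree =
        ∑ i, (f i).natDegree + 2 * ∑ i, b i * (f i).natDegree := by
      rw [Finset.mul_sum, ← Finset.sum_add_distrib]
      refine Finset.sum_congr rfl fun i _ => ?_
      rw [hb i]
      ring
    rw [h4, ← hPd] at hndvd
    omega
  have hrootP : ∀ b : A, P.eval b ∉ IsLocalRing.maximalIdeal A := by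
    intro a ha
    rw [hP, eval_prod, (IsLocalRing.maximalIdeal.isMaximal A).isPrime.prod_mem_iff] at ha
    obtain ⟨i, -, hi⟩ := ha
    exact hroot i a hi
  obtain ⟨W, h1, h3, h4⟩ := near_inf V hVA hVm hℓ P hlcP (by rw [hP]; exact hs) hdvd
    (by rw [hPd]; exact h2) hrootP ϖ hϖ d m hm t ht hd x y' hx hxy' hF' M hM S hcont hcompat
  refine ⟨W, h1, h3, fun W' b1 b2 b3 => h4 W' b1 ?_ b3⟩
  rcases b2 with b2 | b2
  · exact Or.inl b2
  by_cases hxW : algebraMap F M x ∈ W'
  · right
    have hcW : ∀ g : k[X], algebraMap F M (aeval x g) ∈ W' := by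
      intro g
      rw [aeval_eq_sum_range, map_sum]
      refine sum_mem fun i _ => ?_
      rw [Algebra.smul_def, map_mul, map_pow]
      exact mul_mem (b1 _) (pow_mem hxW i)
    rw [nonunits_iff]
    refine ⟨hcW _, ?_⟩
    by_contra hcon
    push Not at hcon
    obtain ⟨hne, hinv⟩ := hcon
    have hPx : aeval x (P.map (algebraMap A k)) = ∏ i, aeval x ((f i).map (algebraMap A k)) := by
      rw [hP, Polynomial.map_prod, map_prod]
    have hfi : ∀ i, (algebraMap F M (aeval x ((f i).map (algebraMap A k))))⁻¹ ∈ W' := by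
      intro i
      have h5 : (algebraMap F M (aeval x ((f i).map (algebraMap A k))))⁻¹ =
          (algebraMap F M (aeval x (P.map (algebraMap A k))))⁻¹ *
          ∏ j ∈ Finset.univ.erase i, algebraMap F M (aeval x ((f j).map (algebraMap A k))) := by
        rw [hPx, map_prod, ← Finset.mul_prod_erase Finset.univ
          (fun j => algebraMap F M (aeval x ((f j).map (algebraMap A k)))) (Finset.mem_univ i),
          mul_inv, mul_assoc, inv_mul_cancel₀, mul_one]
        exact Finset.prod_ne_zero_iff.2 fun j _ => (_root_.map_ne_zero _).2 (hfx0 j)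
      rw [h5]
      exact mul_mem hinv (prod_mem fun j _ => hcW _)
    have hall : (algebraMap F M (aeval x ((∏ i, f i ^ c i).map (algebraMap A k))))⁻¹ ∈ W' := by
      rw [Polynomial.map_prod, map_prod, map_prod, ← Finset.prod_inv_distrib]
      refine prod_mem fun i _ => ?_
      rw [Polynomial.map_pow, map_pow, map_pow, ← inv_pow]
      exact pow_mem (hfi i) _
    rcases (nonunits_iff.1 b2).2 with h9 | h9
    · rw [_root_.map_eq_zero, Polynomial.map_prod, map_prod, Finset.prod_eq_zero_iff] at h9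
      obtain ⟨i, -, hi⟩ := h9
      rw [Polynomial.map_pow, map_pow] at hi
      exact pow_ne_zero _ (hfx0 i) hi
    · exact h9 hall
  · left
    rw [nonunits_iff, map_inv₀, inv_inv]
    refine ⟨?_, Or.inr hxW⟩
    rcases W'.mem_or_inv_mem (algebraMap F M x) with h9 | h9
    · exact absurd h9 hxW
    · exact h9

end main

end Pool.Agent.X281.OB
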