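import Pool.Agent.X281.OB.InfX
import Pool.Agent.X281.OB.InfC
import Pool.Agent.X281.OB.Rel5

/-!
# Sections at infinity over extensions of small degree, arbitrary exponents
-/

set_option autoImplicit false

namespace Pool.Agent.X281.SE

open Pool.Agent.W620.SC Pool.Agent.W623.SecC Pool.Agent.TH120.Sec Pool.Agent.TH377.LocG
  Pool.Agent.TH377.NC
open Polynomial IsDedekindDomain
open Pool.Agent.TH377.Sup (pol pol_natDegree pol_leadingCoeff pol_map)
open Pool.Agent.Y157.PS (nonunits_iff)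

/-- sections at infinity, all odd prime numbers, arbitrary exponents -/
theorem typ_inf {I : Type} [Fintype I] (d : I → ℕ) (hd2 : 2 ≤ ∑ i, d i)
    {k : Type} [Field k] [CharZero k] (q q' : ℕ) (a : k) (g : (Σ i, Fin (d i + 1)) → k)
    (h : Pool.Agent.X281.SEI.GoodI (fun κ _ c => TypC d κ c) q q' a g) :
    ∃ (p : ℕ) (A : ValuationSubring k), p.Prime ∧ p ∣ q' ∧ ¬ p ∣ q ∧ IsPlace p A ∧
      ∀ ℓ : ℕ, ℓ.Prime → ℓ ≠ p → 3 ≤ ℓ → ∀ e : I → ℕ, (∀ i, ¬ ℓ ∣ e i) → ¬ ℓ ∣ ∑ i, e i * d i →
      ∀ (L : Type) [Field L] [Algebra k L] [FiniteDimensional k L] (m : ℤ),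
        ¬ (ℓ : ℤ) ∣ m * Module.finrank k L → (∀ i, ℓ ∣ d i ∨ Module.finrank k L < d i) →
        ∃ B : ValuationSubring L, IsPlace p B ∧ B.comap (algebraMap k L) = A ∧
          AtInf ℓ B (algebraMap k L (a ^ m))
            ((∏ i, (pol fun j => g ⟨i, j⟩) ^ e i).map (algebraMap k L)) := by
  classical
  obtain ⟨A, _, _, _, _, c, ϖ, t, s, hfr, hfin, hc, hP, hϖ, ht, hs, ha, hqA, hqA'⟩ := h
  have hA := typA_of d c hP
  obtain ⟨B0, hB1, hB2, hB3, hB4⟩ := place_of A k
  obtain ⟨p, hp⟩ : ∃ p, p = ringChar (IsLocalRing.ResidueField A) := ⟨_, rfl⟩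
  have hpp : p.Prime := by
    have hcp : CharP (IsLocalRing.ResidueField A) p := hp ▸ ringChar.charP _
    rcases CharP.char_is_prime_or_zero (IsLocalRing.ResidueField A) p with h4 | h4
    · exact h4
    · exfalso
      rw [h4] at hcp
      have := CharP.charP_to_charZero (IsLocalRing.ResidueField A)
      exact not_finite (IsLocalRing.ResidueField A)
  have hres : ∀ n : ℕ, ((n : ℕ) : A) ∈ IsLocalRing.maximalIdeal A ↔ p ∣ n := by
    intro n
    rw [← IsLocalRing.residue_eq_zero_iff, map_natCast, ringChar.spec, hp]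
  have hpA : ((p : ℕ) : A) ∈ IsLocalRing.maximalIdeal A := (hres p).2 dvd_rfl
  refine ⟨p, B0, hpp, ?_, ?_, ⟨hB1, hB2, ?_⟩, ?_⟩
  · rw [← hres, IsLocalRing.mem_maximalIdeal]
    exact hqA'
  · rw [← hres, IsLocalRing.mem_maximalIdeal, mem_nonunits_iff, not_not]
    exact hqA
  · rw [← map_natCast (algebraMap A k), hB4]
    exact hpA
  intro ℓ hℓ hℓq hodd e he hsum L _ _ _ m hm hL
  have hℓA : IsUnit (ℓ : A) := by
    by_contra h4
    have h5 := (hres ℓ).1 ((IsLocalRing.mem_maximalIdeal _).2 h4)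
    exact hℓq ((Nat.prime_dvd_prime_iff_eq hpp hℓ).1 h5).symm
  obtain ⟨tu, rfl⟩ := ht
  obtain ⟨fA, hfA⟩ : ∃ fA : A[X], fA = ∏ i, pol fun j => c ⟨i, j⟩ := ⟨_, rfl⟩
  have hfAs : (fA.map (IsLocalRing.residue A)).Separable := by rw [hfA]; exact hA.sep'
  -- the place of `L`
  let _ : Algebra A L := ((algebraMap k L).comp (algebraMap A k)).toAlgebra
  have hstR : IsScalarTower A k L := IsScalarTower.of_algebraMap_eq (fun _ => rfl)
  have hczL : CharZero L := charZero_of_injective_algebraMap (algebraMap k L).injective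
  obtain ⟨B, _, _, _, _, hfrB, J, fd, hfdle, hfd0, hfdℓ, hfinB, hℓB, hJL, hJm, hJs, hJf,
    ϖ', t', m', hϖ', ht', hm', hat⟩ :=
    dvr_hom (k := k) (L := L) ℓ hℓ hℓA ϖ ((tu ^ m : Aˣ) : A) hϖ
      (tu ^ m).isUnit (s * m) (by
        intro h4
        apply hm
        rcases hs with rfl | rfl
        · rwa [one_mul] at h4
        · rw [neg_one_mul, neg_mul, dvd_neg] at h4
          exact h4)
  have hJL' : ∀ z : A, algebraMap B L (J z) = algebraMap k L (algebraMap A k z) := by
    intro z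
    rw [← RingHom.comp_apply, hJL]
    rfl
  have hJinj : Function.Injective J := by
    intro z w hzw
    have h4 := congrArg (algebraMap B L) hzw
    rw [hJL', hJL'] at h4
    exact IsFractionRing.injective A k ((algebraMap k L).injective h4)
  obtain ⟨B1, hC1, hC2, hC3, hC4⟩ := place_of B L
  have hdom : ∀ r : A, r ∈ IsLocalRing.maximalIdeal A →
      algebraMap k L (algebraMap A k r) ∈ B1.nonunits := by
    intro r hr
    rw [← hJL', hC4]
    exact hJm r hr
  have hin : ∀ r : A, algebraMap k L (algebraMap A k r) ∈ B1 := by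
    intro r
    rw [← hJL', hC3]
    exact ⟨_, rfl⟩
  refine ⟨B1, ⟨hC1, hC2, ?_⟩, ?_, ?_⟩
  · have h4 := hdom _ hpA
    rwa [map_natCast, map_natCast] at h4
  · ext z
    rw [ValuationSubring.mem_comap]
    constructor
    · intro hz
      by_contra hzB
      rcases B0.mem_or_inv_mem z with h4 | h4
      · exact hzB h4
      · obtain ⟨r, hr⟩ := (hB3 _).1 h4
        have hz0 : z ≠ 0 := by
          rintro rfl
          exact hzB (zero_mem _)
        have h5 : z⁻¹ ∈ B0.nonunits := by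
          rw [nonunits_iff, inv_inv]
          exact ⟨h4, Or.inr hzB⟩
        rw [← hr, hB4] at h5
        have h6 := hdom r h5
        rw [hr, map_inv₀, nonunits_iff, inv_inv] at h6
        rcases h6.2 with h7 | h7
        · rw [inv_eq_zero, _root_.map_eq_zero] at h7
          exact hz0 h7
        · exact h7 hz
    · intro hz
      obtain ⟨r, hr⟩ := (hB3 _).1 hz
      rw [← hr]
      exact hin r
  have hcoef : algebraMap k L (a ^ m) = algebraMap B L t' * algebraMap B L ϖ' ^ m' := by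
    rw [← hat]
    have h5 : a ^ m = algebraMap A k ((tu ^ m : Aˣ) : A) * algebraMap A k ϖ ^ (s * m) := by
      rw [ha, mul_zpow, ← zpow_mul, zpow_unit]
    rw [h5, map_mul, map_zpow₀]
    rfl
  have hfB : (∏ i, (pol fun j => g ⟨i, j⟩) ^ e i).map (algebraMap k L) =
      (∏ i, ((pol fun j => c ⟨i, j⟩ : A[X]).map J) ^ e i).map (algebraMap B L) := by
    rw [Polynomial.map_prod, Polynomial.map_prod]
    refine Finset.prod_congr rfl fun i _ => ?_
    rw [Polynomial.map_pow, Polynomial.map_pow, Polynomial.map_map, hJL, pol_map, pol_map]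
    congr 2
    funext j
    rw [← hc]
    rfl
  have hdeg : ∀ i, ((pol fun j => c ⟨i, j⟩ : A[X]).map J).natDegree = d i := fun i => by
    rw [natDegree_map_eq_of_injective hJinj]
    exact hA.deg i
  have hroot : ∀ i (b : B), ((pol fun j => c ⟨i, j⟩ : A[X]).map J).eval b ∉
      IsLocalRing.maximalIdeal B := by
    intro i b hb
    have h5 : ((((pol fun j => c ⟨i, j⟩ : A[X]).map J)).map
        (IsLocalRing.residue B)).eval (IsLocalRing.residue B b) = 0 := by
      rw [eval_map, eval₂_at_apply]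
      exact (IsLocalRing.residue_eq_zero_iff _).2 hb
    have hi : X - C (IsLocalRing.residue B b) ∣
        (((pol fun j => c ⟨i, j⟩ : A[X]).map J)).map (IsLocalRing.residue B) :=
      dvd_iff_isRoot.2 h5
    have h7 := hJf (d i) (pol fun j => c ⟨i, j⟩)
      (factorDiv_of_irreducible _ _ (hA.irr i) (by rw [hA.degr])) _
      (irreducible_X_sub_C _) hi
    rw [natDegree_X_sub_C, one_mul] at h7
    rcases hL i with hL | hL
    · exact hfdℓ (hL.trans h7)
    · have h8 := Nat.le_of_dvd hfd0 h7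
      omega
  rw [hcoef, hfB]
  have hfact : Fact ℓ.Prime := ⟨hℓ⟩
  intro F Ω _ _ _ _ _ _ _ _ x y hx hxy hF M hM S hS hcc V hV
  refine Pool.Agent.X281.OB.near_infX V ?_ ?_ hℓB
    (fun i => (pol fun j => c ⟨i, j⟩ : A[X]).map J) e ?_ ?_ hodd he ?_ ?_ hroot
    ϖ' hϖ' _ m' hm' t' ht' rfl x y hx hxy hF M hM S hS hcc
  · intro a
    have h1 : algebraMap B L a ∈ B1 := (hC3 _).2 ⟨a, rfl⟩
    rw [← hV] at h1
    exact h1
  · intro a ha
    rw [← Pool.Agent.Y157.PS.non_incl, hV]
    exact (hC4 a).2 ha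
  · intro i
    rw [leadingCoeff_map_of_injective hJinj]
    exact (hA.lc i).map J
  · have h6 := hJs _ hfAs
    rw [hfA, Polynomial.map_prod] at h6
    exact h6
  · rw [Finset.sum_congr rfl fun i _ => by rw [hdeg i]]
    exact hsum
  · rw [Finset.sum_congr rfl fun i _ => hdeg i]
    exact hd2

end Pool.Agent.X281.SE
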