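import Pool.Agent.X281.OB.Glue

/-!
# Sections of cyclic coverings with arbitrary exponents, over complete fields
-/

set_option autoImplicit false
set_option linter.all false

open Polynomial FF Pool.Agent.Y157.PS Pool.Agent.X281.FL

namespace Pool.Agent.X281.OB

section absM

variable {k κ R F M N : Type} [Field k] [Field κ] [IsAlgClosed κ] [CharZero κ] [Algebra k κ]
    [Field R] [Field F] [Field M] [Field N] [Algebra κ R] [Algebra R M] [Algebra κ M]
    [IsScalarTower κ R M] [Algebra F N]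

/-- from places of `M` to valuation rings of `N` -/
theorem place_to_val {ℓ : ℕ} [Fact ℓ.Prime] {x' : R} {B : Finset κ} {Y' : M}
    (hCov : Cov ℓ κ R M x' B Y') (eqv : M ≃+* N) (x : F)
    (hx : eqv (algebraMap R M x') = algebraMap F N x)
    (S : (κ ≃ₐ[k] κ) →* (N ≃ₐ[F] N))
    (hcompat : ∀ σ c, S σ (eqv (algebraMap κ M c)) = eqv (algebraMap κ M (σ c)))
    (hQ : ∃ Q : Place κ M, (∃ e ∈ B, 0 < Q.ord (algebraMap R M x' - algebraMap κ M e) ∧
        ∀ σ : κ ≃ₐ[k] κ, σ e = e) ∧
      (∀ σ : κ ≃ₐ[k] κ, Fixes Q (conjSec eqv S σ)) ∧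
      ∀ Q' : Place κ M, (∃ e ∈ B, 0 < Q'.ord (algebraMap R M x' - algebraMap κ M e)) →
        (∀ σ : κ ≃ₐ[k] κ, Fixes Q' (conjSec eqv S σ)) → Q' = Q) :
    ∃ W : ValuationSubring N,
      ((∀ c : κ, eqv (algebraMap κ M c) ∈ W) ∧
       (∀ z ∈ W, ∃ c : κ, z - eqv (algebraMap κ M c) ∈ W.nonunits) ∧
       (∃ e ∈ B, (∀ σ : κ ≃ₐ[k] κ, σ e = e) ∧
          algebraMap F N x - eqv (algebraMap κ M e) ∈ W.nonunits) ∧
       ∀ σ : κ ≃ₐ[k] κ, ∀ z, S σ z ∈ W ↔ z ∈ W) ∧
      ∀ W' : ValuationSubring N, (∀ c : κ, eqv (algebraMap κ M c) ∈ W') →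
        (∃ e ∈ B, algebraMap F N x - eqv (algebraMap κ M e) ∈ W'.nonunits) →
        (∀ σ : κ ≃ₐ[k] κ, ∀ z, S σ z ∈ W' ↔ z ∈ W') → W' = W := by
  classical
  let s' : (κ ≃ₐ[k] κ) →* RingAut M := conjSec eqv S
  have hs' : ∀ σ z, eqv (s' σ z) = S σ (eqv z) := fun σ z => conjSec_apply eqv S σ z
  have hconst : ∀ σ c, s' σ (algebraMap κ M c) = algebraMap κ M (σ c) := by
    intro σ c
    apply eqv.injective
    rw [hs', hcompat]
  obtain ⟨Q, ⟨e, heB, hQe, hfix⟩, hQfix, hQun⟩ := hQ
  have hmem : ∀ z : N, z ∈ Q.O.comap (eqv.symm : N →+* M) ↔ eqv.symm z ∈ Q.O := fun z => Iff.rfl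
  refine ⟨Q.O.comap (eqv.symm : N →+* M), ⟨?_, ?_, ?_, ?_⟩, ?_⟩
  · intro c
    rw [hmem, eqv.symm_apply_apply, Place.mem_O]
    exact Q.reg_const c
  · intro z hz
    rw [hmem] at hz
    by_cases hz0 : z = 0
    · refine ⟨0, ?_⟩
      rw [comap_non, hz0, map_zero, map_zero, sub_zero, map_zero]
      exact nonunits_iff.2 ⟨zero_mem _, Or.inl rfl⟩
    have hz0' : eqv.symm z ≠ 0 := (map_ne_zero_iff _ eqv.symm.injective).2 hz0
    rw [O_iff Q hz0'] at hz
    obtain ⟨c, hc⟩ := Pool.Agent.Y536.PS.res_const κ M (algebraMap R M x') hCov.alg Q _ hz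
    refine ⟨c, ?_⟩
    rw [comap_non, map_sub, eqv.symm_apply_apply]
    rcases hc with hc | hc
    · rw [hc, sub_self]
      exact nonunits_iff.2 ⟨zero_mem _, Or.inl rfl⟩
    · have h0 : eqv.symm z - algebraMap κ M c ≠ 0 := by
        intro h0
        rw [h0, Q.ord_zero] at hc
        exact lt_irrefl _ hc
      exact (O_non_iff Q h0).2 hc
  · refine ⟨e, heB, hfix, ?_⟩
    rw [comap_non, map_sub, eqv.symm_apply_apply, ← hx, eqv.symm_apply_apply]
    have h0 : algebraMap R M x' - algebraMap κ M e ≠ 0 := by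
      intro h0
      rw [h0, Q.ord_zero] at hQe
      exact lt_irrefl _ hQe
    exact (O_non_iff Q h0).2 hQe
  · intro σ z
    rw [hmem, hmem]
    have h1 : eqv.symm (S σ z) = s' σ (eqv.symm z) := by
      apply eqv.injective
      rw [hs', eqv.apply_symm_apply, eqv.apply_symm_apply]
    rw [h1]
    exact O_of_fixes Q (s' σ) (hQfix σ) _
  · rintro W' hW'1 ⟨e', he'B, he'⟩ hW'3
    have hmem' : ∀ z : M, z ∈ W'.comap (eqv : M →+* N) ↔ eqv z ∈ W' := fun z => Iff.rfl
    have hnon' : ∀ z : M, z ∈ (W'.comap (eqv : M →+* N)).nonunits ↔ eqv z ∈ W'.nonunits :=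
      fun z => comap_non eqv W' z
    have h1 : algebraMap R M x' - algebraMap κ M e' ∈ (W'.comap (eqv : M →+* N)).nonunits := by
      rw [hnon', map_sub, hx]
      exact he'
    have hne : algebraMap R M x' - algebraMap κ M e' ≠ 0 := by
      intro h0
      have h2 : Transcendental κ (algebraMap R M x') :=
        (transcendental_algebraMap_iff (algebraMap R M).injective).2 hCov.rat.trans
      apply h2
      rw [sub_eq_zero.1 h0]
      exact isAlgebraic_algebraMap _
    have htop : W'.comap (eqv : M →+* N) ≠ ⊤ := by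
      intro h0
      rw [h0, nonunits_iff] at h1
      rcases h1.2 with h2 | h2
      · exact hne h2
      · exact h2 trivial
    obtain ⟨Q', hQ', -⟩ := hCov.loc _ (fun c => (hmem' _).2 (hW'1 c)) htop
    have h2 : Q' = Q := by
      refine hQun Q' ⟨e', he'B, ?_⟩ fun σ => ?_
      · rw [← O_non_iff Q' hne, hQ']
        exact h1
      · refine fixes_of_O Q' (s' σ) (σ : κ ≃+* κ) (fun c => hconst σ c) fun z => ?_
        rw [hQ', hmem', hmem', hs']
        exact hW'3 σ _
    ext z
    rw [hmem, ← h2, hQ', hmem', eqv.apply_symm_apply]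

end absM

section main

variable {A k F Ω : Type} [CommRing A] [IsDomain A] [IsDiscreteValuationRing A]
    [IsAdicComplete (IsLocalRing.maximalIdeal A) A]
    [Finite (IsLocalRing.ResidueField A)] [Field k] [CharZero k] [Algebra A k] [IsFractionRing A k]
    [Field F] [Field Ω] [Algebra k F] [Algebra F Ω] [Algebra k Ω] [IsScalarTower k F Ω]
    [IsAlgClosed Ω] [Algebra.IsAlgebraic F Ω]

/-- **the place of a section**, cyclic coverings with arbitrary exponents -/
theorem orb_padic {ℓ : ℕ} [hp : Fact ℓ.Prime]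
    (hℓ : IsUnit (ℓ : A)) {ι : Type} [Fintype ι] (f : ι → A[X]) (c : ι → ℕ)
    (hlc : ∀ i, IsUnit (f i).leadingCoeff)
    (hs : ((∏ i, f i).map (IsLocalRing.residue A)).Separable)
    (hdvd : ℓ ∣ ∑ i, (f i).natDegree) (h3 : 3 ≤ ∑ i, (f i).natDegree)
    (hc : ∀ i, ¬ ℓ ∣ c i) (hsum : ℓ ∣ ∑ i, c i * (f i).natDegree)
    (ϖ : A) (hϖ : Irreducible ϖ) (d : k) (m : ℤ) (hm : ¬ (ℓ : ℤ) ∣ m) (hd : Val ϖ d m)
    (x w : F) (hx : Transcendental k x)
    (hxw : algebraMap k F d * w ^ ℓ = ∏ i, (aeval x ((f i).map (algebraMap A k))) ^ c i)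
    (hF : IntermediateField.adjoin k {x, w} = (⊤ : IntermediateField k F))
    (S : (algebraicClosure k Ω ≃ₐ[k] algebraicClosure k Ω) →*
      (geomPro ℓ k F Ω ≃ₐ[F] geomPro ℓ k F Ω)) (hcont : Continuous S)
    (hcompat : ∀ σ (c : algebraicClosure k Ω) (z : geomPro ℓ k F Ω), (z : Ω) = (c : Ω) →
      (S σ z : Ω) = (σ c : Ω)) :
    ∃ W : ValuationSubring (geomPro ℓ k F Ω),
      ((∀ c : k, algebraMap F (geomPro ℓ k F Ω) (algebraMap k F c) ∈ W) ∧
       (∃ e : k, (∃ i, aeval e ((f i).map (algebraMap A k)) = 0) ∧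
          algebraMap F (geomPro ℓ k F Ω) (x - algebraMap k F e) ∈ W.nonunits) ∧
       (∀ z : F, algebraMap F (geomPro ℓ k F Ω) z ∈ W →
          ∃ c : k, algebraMap F (geomPro ℓ k F Ω) (z - algebraMap k F c) ∈ W.nonunits) ∧
       ∀ σ z, S σ z ∈ W ↔ z ∈ W) ∧
      ∀ W' : ValuationSubring (geomPro ℓ k F Ω),
        (∀ c : k, algebraMap F (geomPro ℓ k F Ω) (algebraMap k F c) ∈ W') →
        (∃ i, algebraMap F (geomPro ℓ k F Ω) (aeval x ((f i).map (algebraMap A k))) ∈
          W'.nonunits) →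
        (∀ σ z, S σ z ∈ W' ↔ z ∈ W') → W' = W := by
  classical
  have hℓp : ℓ.Prime := hp.out
  have hac : IsAlgClosure k (algebraicClosure k Ω) := inferInstance
  haveI hkb : IsAlgClosed (algebraicClosure k Ω) := hac.1
  haveI hch : CharZero (algebraicClosure k Ω) :=
    charZero_of_injective_algebraMap (algebraMap k (algebraicClosure k Ω)).injective
  have : Normal k (algebraicClosure k Ω) := IsAlgClosure.normal k _
  have hGal : IsGalois k (algebraicClosure k Ω) := ⟨⟩
  letI : Algebra A (algebraicClosure k Ω) :=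
    ((algebraMap k (algebraicClosure k Ω)).comp (algebraMap A k)).toAlgebra
  haveI hst : IsScalarTower A k (algebraicClosure k Ω) :=
    IsScalarTower.of_algebraMap_eq (fun _ => rfl)
  obtain ⟨V, hVa, hVm, hdec⟩ := exists_Vc A k (algebraicClosure k Ω)
  have hAk : Function.Injective (algebraMap A k) := IsFractionRing.injective A k
  have hAinj : Function.Injective (algebraMap A (algebraicClosure k Ω)) := by
    rw [IsScalarTower.algebraMap_eq A k (algebraicClosure k Ω)]
    exact (algebraMap k (algebraicClosure k Ω)).injective.comp hAk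
  have hd0 : d ≠ 0 := hd.ne_zero hϖ
  -- the polynomials over `κ`
  obtain ⟨P, hP⟩ : ∃ P : A[X], P = ∏ i, f i := ⟨_, rfl⟩
  have hPlc : IsUnit P.leadingCoeff := by
    rw [hP, leadingCoeff_prod]
    exact (Units.isUnit (∏ i, (hlc i).unit)).map (MonoidHom.id A) |> fun h => by
      simpa using h
  have hPdeg : P.natDegree = ∑ i, (f i).natDegree := by
    rw [hP]
    refine natDegree_prod _ _ fun i _ h => ?_
    have h1 := (hlc i).ne_zero
    rw [h, leadingCoeff_zero] at h1
    exact h1 rfl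
  obtain ⟨hnd, hdist⟩ := Pool.Agent.W623.SecC.roots_distinct V hVa hVm P hPlc (by rw [hP]; exact hs)
  obtain ⟨p, hpdef⟩ : ∃ p : ι → (algebraicClosure k Ω)[X],
      p = fun i => (f i).map (algebraMap A (algebraicClosure k Ω)) := ⟨_, rfl⟩
  have hpi : ∀ i, p i = (f i).map (algebraMap A (algebraicClosure k Ω)) := fun i => by rw [hpdef]
  have hPp : P.map (algebraMap A (algebraicClosure k Ω)) = ∏ i, p i := by
    rw [hP, Polynomial.map_prod]
    exact Finset.prod_congr rfl fun i _ => (hpi i).symm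
  have hlci : ∀ i, algebraMap A (algebraicClosure k Ω) (f i).leadingCoeff ≠ 0 := fun i =>
    ((hlc i).map (algebraMap A (algebraicClosure k Ω))).ne_zero
  have hplc : ∀ i, (p i).leadingCoeff = algebraMap A (algebraicClosure k Ω) (f i).leadingCoeff :=
    fun i => by rw [hpi]; exact leadingCoeff_map_of_leadingCoeff_ne_zero _ (hlci i)
  have hpdeg : ∀ i, (p i).natDegree = (f i).natDegree :=
    fun i => by rw [hpi]; exact natDegree_map_of_leadingCoeff_ne_zero _ (hlci i)
  have hp0 : ∀ i, p i ≠ 0 := by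
    intro i h
    have h1 := hplc i
    rw [h, leadingCoeff_zero] at h1
    exact hlci i h1.symm
  rw [hPp] at hnd hdist
  obtain ⟨B, hBdef⟩ : ∃ B : Finset (algebraicClosure k Ω), B = (∏ i, p i).roots.toFinset :=
    ⟨_, rfl⟩
  have hmemB : ∀ e, e ∈ B ↔ e ∈ (∏ i, p i).roots := fun e => by
    rw [hBdef, Multiset.mem_toFinset]
  have hrooti : ∀ e, e ∈ (∏ i, p i).roots ↔ ∃ i, e ∈ (p i).roots := by
    intro e
    rw [mem_roots (Finset.prod_ne_zero_iff.2 fun i _ => hp0 i), IsRoot.def, eval_prod,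
      Finset.prod_eq_zero_iff]
    constructor
    · rintro ⟨i, -, h⟩
      exact ⟨i, (mem_roots (hp0 i)).2 h⟩
    · rintro ⟨i, h⟩
      exact ⟨i, Finset.mem_univ i, (mem_roots (hp0 i)).1 h⟩
  have haev : ∀ i e, e ∈ (p i).roots ↔ aeval e (f i) = 0 := by
    intro i e
    rw [mem_roots (hp0 i), IsRoot.def, hpi, eval_map]
    rfl
  have hcard : B.card = ∑ i, (f i).natDegree := by
    rw [card_i hp0 hnd B hmemB, ← hPp, ← hPdeg]
    exact natDegree_map_of_leadingCoeff_ne_zero _
      (hPlc.map (algebraMap A (algebraicClosure k Ω))).ne_zero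
  have hGood : Good V B := by
    constructor
    · intro e he
      have h1 : aeval e P = 0 := by
        rw [hmemB, mem_roots (Finset.prod_ne_zero_iff.2 fun i _ => hp0 i), ← hPp, IsRoot.def,
          eval_map] at he
        exact he
      exact Pool.Agent.W308.SecC.root_mem V hVa P hPlc _ h1
    · intro e he e' he' hne
      exact hdist e ((hmemB e).1 he) e' ((hmemB e').1 he') hne
  have hBs : ∀ σ : algebraicClosure k Ω ≃ₐ[k] algebraicClosure k Ω, ∀ e ∈ B, σ e ∈ B := by
    intro σ e he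
    rw [hmemB, hrooti] at he ⊢
    obtain ⟨i, hi⟩ := he
    refine ⟨i, ?_⟩
    rw [haev] at hi ⊢
    have h1 := congrArg σ hi
    rw [map_zero] at h1
    rw [← h1]
    exact (aeval_algHom_apply (σ.toAlgHom.restrictScalars A) e (f i)).trans rfl
  have hexp : ∀ e ∈ B, ¬ ℓ ∣ expo p c e := by
    intro e he
    rw [hmemB, hrooti] at he
    obtain ⟨i, hi⟩ := he
    rw [expo_eq hp0 hnd hi]
    exact hc i
  have hsumB : ℓ ∣ ∑ e ∈ B, expo p c e := by
    rw [sum_expo hp0 hnd B hmemB, Finset.sum_congr rfl fun i _ => by rw [hpdeg i]]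
    exact hsum
  -- the element `δ`
  obtain ⟨lc, hlcdef⟩ : ∃ lc : A, lc = ∏ i, (f i).leadingCoeff ^ c i := ⟨_, rfl⟩
  have hlcU : IsUnit lc := by
    rw [hlcdef]
    have h1 : ∏ i, (f i).leadingCoeff ^ c i = ((∏ i, (hlc i).unit ^ c i : Aˣ) : A) := by
      rw [Units.coe_prod]
      exact Finset.prod_congr rfl fun i _ => by rw [Units.val_pow_eq_pow_val, IsUnit.unit_spec]
    rw [h1]
    exact Units.isUnit _
  have hlck0 : algebraMap A k lc ≠ 0 := (hlcU.map (algebraMap A k)).ne_zero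
  obtain ⟨δ, hδ⟩ : ∃ δ : algebraicClosure k Ω, δ ^ ℓ =
      algebraMap k (algebraicClosure k Ω) (d / algebraMap A k lc) :=
    IsAlgClosed.exists_pow_nat_eq _ hℓp.pos
  have hδ0 : δ ≠ 0 := by
    rintro rfl
    rw [zero_pow hℓp.ne_zero] at hδ
    exact (_root_.map_ne_zero _).2 (div_ne_zero hd0 hlck0) hδ.symm
  obtain ⟨u, hu, hδu⟩ : ∃ u : A, IsUnit u ∧ δ ^ ℓ = algebraMap A (algebraicClosure k Ω) u *
      algebraMap A (algebraicClosure k Ω) ϖ ^ m := by
    have h1 : Val ϖ (algebraMap A k lc) 0 := ⟨lc, hlcU, by rw [zpow_zero, mul_one]⟩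
    obtain ⟨u, hu, h2⟩ := hd.div hϖ h1
    refine ⟨u, hu, ?_⟩
    rw [hδ, h2, sub_zero, map_mul, map_zpow₀, ← IsScalarTower.algebraMap_apply,
      ← IsScalarTower.algebraMap_apply]
  -- the equation
  have hfx : ∀ i, algebraMap F Ω (aeval x ((f i).map (algebraMap A k))) =
      (p i).eval₂ (algebraMap (algebraicClosure k Ω) Ω) (algebraMap F Ω x) := by
    intro i
    rw [aeval_def, hom_eval₂, hpi, eval₂_map, eval₂_map, ← IsScalarTower.algebraMap_eq k F Ω,
      IsScalarTower.algebraMap_eq A k (algebraicClosure k Ω), ← RingHom.comp_assoc,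
      ← IsScalarTower.algebraMap_eq k (algebraicClosure k Ω) Ω]
  have hlcΩ : algebraMap (algebraicClosure k Ω) Ω (∏ i, (p i).leadingCoeff ^ c i) =
      algebraMap k Ω (algebraMap A k lc) := by
    rw [hlcdef, IsScalarTower.algebraMap_apply k (algebraicClosure k Ω) Ω]
    congr 1
    rw [← IsScalarTower.algebraMap_apply, map_prod]
    exact Finset.prod_congr rfl fun i _ => by rw [hplc, map_pow]
  have hlcΩ0 : algebraMap k Ω (algebraMap A k lc) ≠ 0 := (_root_.map_ne_zero _).2 hlck0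
  have hZ : ((δ : Ω) * algebraMap F Ω w) ^ ℓ =
      ∏ e ∈ B, (algebraMap F Ω x - (e : Ω)) ^ expo p c e := by
    have h1 := congrArg (algebraMap F Ω) hxw
    rw [map_mul, map_pow, ← IsScalarTower.algebraMap_apply, map_prod] at h1
    have h2 := prod_expo (c := c) hp0 hnd (algebraMap (algebraicClosure k Ω) Ω) B hmemB
      (algebraMap F Ω x)
    rw [Finset.prod_congr rfl fun i _ => by rw [map_pow, hfx i], h2, hlcΩ] at h1
    have h6 : (δ : Ω) ^ ℓ = algebraMap k Ω d / algebraMap k Ω (algebraMap A k lc) := by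
      have h7 := congrArg (algebraMap (algebraicClosure k Ω) Ω) hδ
      rw [map_pow, ← IsScalarTower.algebraMap_apply, map_div₀] at h7
      exact h7
    rw [mul_pow, h6, div_mul_eq_mul_div, h1, mul_div_cancel_left₀ _ hlcΩ0]
    rfl
  -- the covering field
  obtain ⟨R, M, i1, i2, i3, i4, i5, i6, x', Y, Z, eqv, hCov, hcc, hxx, hzz, hZeq⟩ :=
    orb_glue B (by rw [hcard]; exact hdvd) (by rw [hcard]; exact h3) (expo p c) hexp hsumB δ hδ0
      x w hx hF hZ
  have hs' : ∀ σ z, eqv (conjSec eqv S σ z) = S σ (eqv z) := fun σ z => conjSec_apply eqv S σ z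
  have hconst : ∀ σ c, conjSec eqv S σ (algebraMap (algebraicClosure k Ω) M c) =
      algebraMap (algebraicClosure k Ω) M (σ c) := by
    intro σ c
    apply eqv.injective
    apply Subtype.ext
    rw [hs', hcc, hcompat σ c _ (hcc c)]
  have hbase : ∀ σ (z : F) (w : M), ((eqv w : geomPro ℓ k F Ω) : Ω) = algebraMap F Ω z →
      conjSec eqv S σ w = w := by
    intro σ z w hw
    apply eqv.injective
    have h1 : eqv w = algebraMap F (geomPro ℓ k F Ω) z := Subtype.ext hw
    rw [hs', h1]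
    exact (S σ).commutes z
  have hcompat' : ∀ σ c, S σ (eqv (algebraMap (algebraicClosure k Ω) M c)) =
      eqv (algebraMap (algebraicClosure k Ω) M (σ c)) := by
    intro σ c
    apply Subtype.ext
    rw [hcompat σ c _ (hcc c), hcc]
  have hxN : eqv (algebraMap R M x') = algebraMap F (geomPro ℓ k F Ω) x := Subtype.ext hxx
  obtain ⟨Q, ⟨e, heB, hQe, hfix⟩, hQfix, hQun⟩ := orb_loc (k := k) hVa hVm hℓ ϖ hϖ hCov hGood hBs
    (conjSec eqv S) hconst (fun σ => hbase σ x _ hxx) (fun z => by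
      obtain ⟨E, hE, hE'⟩ := cont_fix S hcont (eqv z)
      refine ⟨E, hE, fun σ hσ => eqv.injective ?_⟩
      rw [hs', hE' σ hσ]) (expo p c) Z hZeq δ u hu m hm hδu (fun σ => by
      obtain ⟨v, hv⟩ : ∃ v : M, ((eqv v : geomPro ℓ k F Ω) : Ω) = algebraMap F Ω w :=
        ⟨eqv.symm (algebraMap F (geomPro ℓ k F Ω) w), by rw [eqv.apply_symm_apply]; rfl⟩
      have hZv : Z = algebraMap (algebraicClosure k Ω) M δ * v := by
        apply eqv.injective
        apply Subtype.ext
        rw [hzz, map_mul]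
        change _ = ((eqv (algebraMap (algebraicClosure k Ω) M δ) : geomPro ℓ k F Ω) : Ω) *
          ((eqv v : geomPro ℓ k F Ω) : Ω)
        rw [hcc, hv]
      have h2 : algebraMap (algebraicClosure k Ω) M (σ δ / δ) * Z =
          algebraMap (algebraicClosure k Ω) M (σ δ) * v := by
        rw [hZv, ← mul_assoc, ← map_mul, div_mul_cancel₀ _ hδ0]
      rw [h2]
      conv_lhs => rw [hZv]
      rw [map_mul, hconst, hbase σ w v hv])
  obtain ⟨W, ⟨h1, h2, ⟨e, heB, hfix, he⟩, h4⟩, hun⟩ := place_to_val hCov eqv x hxN S hcompat'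
    ⟨Q, ⟨e, heB, hQe, fun σ => hfix σ (hdec σ)⟩, fun σ => hQfix σ (hdec σ), fun Q' h5 h6 =>
      hQun Q' h5 fun σ _ => h6 σ⟩
  have heqc : ∀ (c : algebraicClosure k Ω) (z : geomPro ℓ k F Ω), (z : Ω) = (c : Ω) →
      z = eqv (algebraMap (algebraicClosure k Ω) M c) := fun c z hz =>
    Subtype.ext (by rw [hz, hcc])
  have hrat : ∀ c : algebraicClosure k Ω, (∀ σ : algebraicClosure k Ω ≃ₐ[k]
      algebraicClosure k Ω, σ c = c) → ∃ c' : k, algebraMap k (algebraicClosure k Ω) c' = c := by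
    intro c hc
    have h5 := (InfiniteGalois.mem_bot_iff_fixed c).2 hc
    exact IntermediateField.mem_bot.1 h5
  have hWk : ∀ c : k, algebraMap F (geomPro ℓ k F Ω) (algebraMap k F c) ∈ W := by
    intro c
    have h5 := heqc (algebraMap k (algebraicClosure k Ω) c)
      (algebraMap F (geomPro ℓ k F Ω) (algebraMap k F c))
      ((IsScalarTower.algebraMap_apply k F Ω c).symm)
    rw [h5]
    exact h1 _
  refine ⟨W, ⟨hWk, ?_, ?_, h4⟩, fun W' hW'1 hW'2 hW'3 => ?_⟩
  · obtain ⟨e', rfl⟩ := hrat e hfix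
    rw [hmemB, hrooti] at heB
    obtain ⟨i, hi⟩ := heB
    refine ⟨e', ⟨i, ?_⟩, ?_⟩
    · rw [haev] at hi
      rw [← aeval_map_algebraMap k, aeval_algebraMap_apply] at hi
      exact (_root_.map_eq_zero _).1 hi
    · have h5 : algebraMap F (geomPro ℓ k F Ω) (x - algebraMap k F e') =
          algebraMap F (geomPro ℓ k F Ω) x -
            eqv (algebraMap (algebraicClosure k Ω) M (algebraMap k (algebraicClosure k Ω) e')) := by
        rw [map_sub]
        congr 1
        exact heqc _ _ ((IsScalarTower.algebraMap_apply k F Ω e').symm)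
      rw [h5]
      exact he
  · intro z hz
    obtain ⟨c, hw⟩ := h2 _ hz
    obtain ⟨c', rfl⟩ := hrat c fun σ => res_fixed _ W hWk σ (S σ) (h4 σ)
      (fun c z hz => hcompat σ c z hz) z c _ hw (by
        change algebraMap F Ω z - ((eqv (algebraMap (algebraicClosure k Ω) M c) :
          geomPro ℓ k F Ω) : Ω) = _
        rw [hcc])
    refine ⟨c', ?_⟩
    have h5 : algebraMap F (geomPro ℓ k F Ω) (z - algebraMap k F c') =
        algebraMap F (geomPro ℓ k F Ω) z -
          eqv (algebraMap (algebraicClosure k Ω) M (algebraMap k (algebraicClosure k Ω) c')) := by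
      rw [map_sub]
      congr 1
      exact heqc _ _ ((IsScalarTower.algebraMap_apply k F Ω c').symm)
    rw [h5]
    exact hw
  · have hconst' : ∀ c : algebraicClosure k Ω,
        eqv (algebraMap (algebraicClosure k Ω) M c) ∈ W' := fun c =>
      const_mem_N _ W' hW'1 c _ (hcc c)
    refine hun W' hconst' ?_ hW'3
    by_contra hno
    push Not at hno
    obtain ⟨i, hi⟩ := hW'2
    obtain ⟨ι', hι'⟩ : ∃ ι' : algebraicClosure k Ω →+* geomPro ℓ k F Ω,
        ∀ c, ι' c = eqv (algebraMap (algebraicClosure k Ω) M c) :=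
      ⟨(eqv : M →+* geomPro ℓ k F Ω).comp (algebraMap (algebraicClosure k Ω) M), fun c => rfl⟩
    have hno' : ∀ e ∈ (p i).roots, (algebraMap F (geomPro ℓ k F Ω) x - ι' e)⁻¹ ∈ W' := by
      intro e he
      apply inv_mem_of_not_nonunit
      rw [hι']
      exact hno e ((hmemB e).2 ((hrooti e).2 ⟨i, he⟩))
    have hlcι : (ι' (p i).leadingCoeff)⁻¹ ∈ W' := by
      rw [← map_inv₀, hι']
      exact hconst' _
    have hfN : algebraMap F (geomPro ℓ k F Ω) (aeval x ((f i).map (algebraMap A k))) =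
        ι' (p i).leadingCoeff *
          ((p i).roots.map fun e => algebraMap F (geomPro ℓ k F Ω) x - ι' e).prod := by
      have h5 : algebraMap F (geomPro ℓ k F Ω) (aeval x ((f i).map (algebraMap A k))) =
          (p i).eval₂ ι' (algebraMap F (geomPro ℓ k F Ω) x) := by
        apply Subtype.ext
        have h6 : (((p i).eval₂ ι' (algebraMap F (geomPro ℓ k F Ω) x) : geomPro ℓ k F Ω) : Ω) =
            (p i).eval₂ (algebraMap (algebraicClosure k Ω) Ω) (algebraMap F Ω x) := by
          change algebraMap (geomPro ℓ k F Ω) Ω _ = _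
          rw [hom_eval₂]
          congr 1
          ext c
          change ((ι' c : geomPro ℓ k F Ω) : Ω) = (c : Ω)
          rw [hι', hcc]
        rw [h6, ← hfx i]
        rfl
      rw [h5]
      conv_lhs => rw [(IsAlgClosed.splits (p i)).eq_prod_roots]
      rw [eval₂_mul, eval₂_C, ← coe_eval₂RingHom, map_multiset_prod, Multiset.map_map]
      congr 2
      refine Multiset.map_congr rfl fun a _ => ?_
      simp
    have hmsinv : ∀ T : Multiset (algebraicClosure k Ω), (∀ e ∈ T, e ∈ (p i).roots) →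
        ((T.map fun e => algebraMap F (geomPro ℓ k F Ω) x - ι' e).prod)⁻¹ ∈ W' := by
      intro T
      induction T using Multiset.induction_on with
      | empty => intro _; simp
      | cons a T ih =>
        intro h
        rw [Multiset.map_cons, Multiset.prod_cons, mul_inv]
        exact mul_mem (hno' a (h a (Multiset.mem_cons_self a T)))
          (ih fun b hb => h b (Multiset.mem_cons_of_mem hb))
    have h8 : (algebraMap F (geomPro ℓ k F Ω) (aeval x ((f i).map (algebraMap A k))))⁻¹ ∈ W' := by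
      rw [hfN, mul_inv]
      exact mul_mem hlcι (hmsinv _ fun e he => he)
    rcases (nonunits_iff.1 hi).2 with h9 | h9
    · rw [map_eq_zero] at h9
      have h10 : (f i).map (algebraMap A k) ≠ 0 := by
        intro h11
        have h12 := ((hlc i).map (algebraMap A k)).ne_zero
        rw [← leadingCoeff_map_of_leadingCoeff_ne_zero _ h12, h11, leadingCoeff_zero] at h12
        exact h12 rfl
      exact h10 ((transcendental_iff.1 hx) _ h9)
    · exact h9 h8

/-- the field `F = k(x, w)` is algebraic over `k(x)` -/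
theorem alg_of_pow {k F : Type} [Field k] [Field F] [Algebra k F] {ℓ : ℕ} (hℓ : 0 < ℓ) (x w : F)
    (hw : w ^ ℓ ∈ IntermediateField.adjoin k {x})
    (hF : IntermediateField.adjoin k {x, w} = (⊤ : IntermediateField k F)) :
    Algebra.IsAlgebraic (IntermediateField.adjoin k {x}) F := by
  have hint : IsIntegral (IntermediateField.adjoin k {x}) w := by
    apply IsIntegral.of_pow hℓ
    exact isIntegral_algebraMap (x := (⟨_, hw⟩ : IntermediateField.adjoin k {x}))
  have h1 : Algebra.IsAlgebraic (IntermediateField.adjoin k {x})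
      (IntermediateField.adjoin (IntermediateField.adjoin k {x}) {w}) :=
    IntermediateField.isAlgebraic_adjoin_simple hint
  have h2 : IntermediateField.adjoin (IntermediateField.adjoin k {x}) {w} = ⊤ := by
    rw [eq_top_iff]
    intro z _
    have h3 : z ∈ IntermediateField.adjoin k {x, w} := by rw [hF]; trivial
    refine adjoin_le_sub (T := (IntermediateField.adjoin (IntermediateField.adjoin k {x})
      {w}).toSubfield) ?_ ?_ z h3
    · intro c
      exact IntermediateField.algebraMap_mem _ (algebraMap k (IntermediateField.adjoin k {x}) c)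
    · intro y hy
      rcases hy with hy | hy
      · rw [hy]
        exact IntermediateField.algebraMap_mem _ (IntermediateField.AdjoinSimple.gen k x)
      · rw [Set.mem_singleton_iff] at hy
        rw [hy]
        exact IntermediateField.mem_adjoin_simple_self _ _
  rw [h2] at h1
  exact Algebra.IsAlgebraic.of_injective (IntermediateField.topEquiv (F :=
    IntermediateField.adjoin k {x}) (E := F)).symm.toAlgHom
    (IntermediateField.topEquiv (F := IntermediateField.adjoin k {x}) (E := F)).symm.injective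

theorem aeval_mem {k F : Type} [Field k] [Field F] [Algebra k F] (x : F) (f : k[X]) :
    aeval x f ∈ IntermediateField.adjoin k {x} := by
  have h3 : aeval x f = algebraMap (IntermediateField.adjoin k {x}) F
      (aeval (IntermediateField.AdjoinSimple.gen k x) f) := by
    rw [← aeval_algebraMap_apply]
    rfl
  rw [h3]
  exact (aeval (IntermediateField.AdjoinSimple.gen k x) f).2

/-- **the place of a section** for fields which contain the maximal geometrically pro-`ℓ`
extension -/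
theorem orb_padicM {ℓ : ℕ} [hp : Fact ℓ.Prime]
    (hℓ : IsUnit (ℓ : A)) {ι : Type} [Fintype ι] (f : ι → A[X]) (c : ι → ℕ)
    (hlc : ∀ i, IsUnit (f i).leadingCoeff)
    (hs : ((∏ i, f i).map (IsLocalRing.residue A)).Separable)
    (hdvd : ℓ ∣ ∑ i, (f i).natDegree) (h3 : 3 ≤ ∑ i, (f i).natDegree)
    (hc : ∀ i, ¬ ℓ ∣ c i) (hsum : ℓ ∣ ∑ i, c i * (f i).natDegree)
    (ϖ : A) (hϖ : Irreducible ϖ) (d : k) (m : ℤ) (hm : ¬ (ℓ : ℤ) ∣ m) (hd : Val ϖ d m)
    (x w : F) (hx : Transcendental k x)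
    (hxw : algebraMap k F d * w ^ ℓ = ∏ i, (aeval x ((f i).map (algebraMap A k))) ^ c i)
    (hF : IntermediateField.adjoin k {x, w} = (⊤ : IntermediateField k F))
    (M : IntermediateField F Ω) (hM : geomPro ℓ k F Ω ≤ M)
    (S : (algebraicClosure k Ω ≃ₐ[k] algebraicClosure k Ω) →* (M ≃ₐ[F] M)) (hcont : Continuous S)
    (hcompat : ∀ σ (c : algebraicClosure k Ω) (z : M), (z : Ω) = (c : Ω) →
      (S σ z : Ω) = (σ c : Ω)) :
    ∃ W : ValuationSubring M,
      (((∀ c : k, algebraMap F M (algebraMap k F c) ∈ W) ∧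
       (∃ e : k, (∃ i, aeval e ((f i).map (algebraMap A k)) = 0) ∧
          algebraMap F M (x - algebraMap k F e) ∈ W.nonunits) ∧
       (∀ z : F, algebraMap F M z ∈ W →
          ∃ c : k, algebraMap F M (z - algebraMap k F c) ∈ W.nonunits)) ∧
       ∀ σ, ∀ z : M, (z : Ω) ∈ geomPro ℓ k F Ω → (S σ z ∈ W ↔ z ∈ W)) ∧
      ∀ W' : ValuationSubring M,
        (∀ c : k, algebraMap F M (algebraMap k F c) ∈ W') →
        (∃ i, algebraMap F M (aeval x ((f i).map (algebraMap A k))) ∈ W'.nonunits) →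
        (∀ σ, ∀ z : M, (z : Ω) ∈ geomPro ℓ k F Ω → (S σ z ∈ W' ↔ z ∈ W')) →
        ∀ z : M, (z : Ω) ∈ geomPro ℓ k F Ω → (z ∈ W' ↔ z ∈ W) := by
  have hd0 : d ≠ 0 := hd.ne_zero hϖ
  have hdF : algebraMap k F d ≠ 0 := (_root_.map_ne_zero _).2 hd0
  have halg := alg_of_pow hp.out.pos x w (by
    have h1 : w ^ ℓ = algebraMap k F d⁻¹ *
        ∏ i, (aeval x ((f i).map (algebraMap A k))) ^ c i := by
      rw [← hxw, map_inv₀, inv_mul_cancel_left₀ hdF]
    rw [h1]
    exact mul_mem (IntermediateField.algebraMap_mem _ _)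
      (prod_mem fun i _ => pow_mem (aeval_mem x _) _)) hF
  obtain ⟨T, hTc, hT⟩ := a_ind2 ℓ k F Ω x hx halg M hM _ S hcont
  have hTcompat : ∀ σ (c : algebraicClosure k Ω) (z : geomPro ℓ k F Ω), (z : Ω) = (c : Ω) →
      (T σ z : Ω) = (σ c : Ω) := by
    intro σ c z hz
    have h1 : (z : Ω) ∈ M := hM z.2
    rw [hT σ ⟨(z : Ω), h1⟩ z rfl]
    exact hcompat σ c _ hz
  obtain ⟨W₀, ⟨h1, h2, h3', h4⟩, hun⟩ := orb_padic hℓ f c hlc hs hdvd h3 hc hsum ϖ hϖ d m hm hd x w
    hx hxw hF T hTc hTcompat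
  obtain ⟨W, ⟨⟨hW1, hW2, hW3⟩, hW4⟩, hWun⟩ := lift_thm (geomPro ℓ k F Ω) M hM S T (fun _ => True) hT
    (fun L W => (∀ c : k, algebraMap F L (algebraMap k F c) ∈ W) ∧
       (∃ e : k, (∃ i, aeval e ((f i).map (algebraMap A k)) = 0) ∧
          algebraMap F L (x - algebraMap k F e) ∈ W.nonunits) ∧
       (∀ z : F, algebraMap F L z ∈ W →
          ∃ c : k, algebraMap F L (z - algebraMap k F c) ∈ W.nonunits))
    (fun L W => (∀ c : k, algebraMap F L (algebraMap k F c) ∈ W) ∧
      ∃ i, algebraMap F L (aeval x ((f i).map (algebraMap A k))) ∈ W.nonunits)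
    (by
      rintro W ⟨a1, ⟨e, he, a2⟩, a3⟩
      refine ⟨a1, ⟨e, he, (non_incl ((IntermediateField.inclusion hM :
        geomPro ℓ k F Ω →ₐ[F] M) : geomPro ℓ k F Ω →+* M) W _).1 a2⟩, fun z hz => ?_⟩
      obtain ⟨c, hc⟩ := a3 z hz
      exact ⟨c, (non_incl ((IntermediateField.inclusion hM :
        geomPro ℓ k F Ω →ₐ[F] M) : geomPro ℓ k F Ω →+* M) W _).1 hc⟩)
    (by
      rintro W ⟨a1, i, a2⟩
      exact ⟨a1, i, (non_incl _ _ _).2 a2⟩)
    ⟨W₀, ⟨⟨h1, h2, h3'⟩, fun σ _ z => h4 σ z⟩, fun W' hW' hst =>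
      hun W' hW'.1 hW'.2 fun σ z => hst σ trivial z⟩
  exact ⟨W, ⟨⟨hW1, hW2, hW3⟩, fun σ z hz => hW4 σ trivial z hz⟩, fun W' b1 b2 b3 z hz =>
    hWun W' ⟨b1, b2⟩ (fun σ _ z hz => b3 σ z hz) z hz⟩

end main

end Pool.Agent.X281.OB
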