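import Pool.Agent.X281.OB.Ferm
import Pool.Agent.X281.FL.Main
import Pool.Agent.Y158.FQ.Ext

/-!
# Twists of the elements of a covering field
-/

set_option autoImplicit false
set_option linter.all false

namespace Pool.Agent.X281.OB

open Polynomial FF Pool.Agent.Y157.PS Pool.Agent.X281.FL

section nonu

variable {K : Type} [Field K] {W : ValuationSubring K}

theorem non_pow_iff {ℓ : ℕ} (hℓ : ℓ ≠ 0) {z : K} : z ^ ℓ ∈ W.nonunits ↔ z ∈ W.nonunits := by
  constructor
  · intro h5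
    by_contra hno
    have h6 := inv_mem_of_not_nonunit hno
    have h7 : (z ^ ℓ)⁻¹ ∈ W := by
      rw [← inv_pow]
      exact pow_mem h6 ℓ
    rcases (nonunits_iff.1 h5).2 with h8 | h8
    · rw [pow_eq_zero_iff hℓ] at h8
      apply hno
      rw [h8]
      exact nonunits_iff.2 ⟨zero_mem _, Or.inl rfl⟩
    · exact h8 h7
  · intro h
    obtain ⟨r, hr⟩ := Nat.exists_eq_succ_of_ne_zero hℓ
    rw [hr, pow_succ]
    exact non_mul (pow_mem (non_mem h) r) h

theorem non_unit_mul {u z : K} (hu : IsU W u) : u * z ∈ W.nonunits ↔ z ∈ W.nonunits :=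
  ⟨fun h => non_of_isU_mul hu h, fun h => non_mul hu.2.1 h⟩

/-- if `1 - x` has a pole, so has `x` -/
theorem pole_one_sub {x : K} (hx : x ≠ 0) (h : (1 - x)⁻¹ ∈ W.nonunits) (h0 : (1 - x) ≠ 0) :
    x⁻¹ ∈ W.nonunits := by
  have h1 : 1 - x ∉ W := by
    rcases (nonunits_iff.1 h).2 with h2 | h2
    · exact absurd (inv_eq_zero.1 h2) h0
    · rwa [inv_inv] at h2
  have h2 : x ∉ W := fun h3 => h1 (sub_mem (one_mem _) h3)
  refine nonunits_iff.2 ⟨(W.mem_or_inv_mem x).resolve_left h2, Or.inr ?_⟩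
  rwa [inv_inv]

end nonu

section tw

variable {k F Ω : Type} [Field k] [CharZero k] [Field F] [Field Ω] [Algebra k F] [Algebra F Ω]
  [Algebra k Ω] [IsScalarTower k F Ω] [IsAlgClosed Ω] [Algebra.IsAlgebraic F Ω]

/-- an element whose `ℓ`-th power is in `F` has a twist by a constant which is fixed by the
section -/
theorem exists_twist {ℓ : ℕ} [hp : Fact ℓ.Prime] (N : IntermediateField F Ω)
    (hNc : ∀ c : algebraicClosure k Ω, (c : Ω) ∈ N)
    (S : (algebraicClosure k Ω ≃ₐ[k] algebraicClosure k Ω) →* (N ≃ₐ[F] N)) (hcont : Continuous S)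
    (hcompat : ∀ σ (c : algebraicClosure k Ω) (z : N), (z : Ω) = (c : Ω) →
      (S σ z : Ω) = (σ c : Ω)) (y : N) (hy0 : y ≠ 0) (g : F) (hy : y ^ ℓ = algebraMap F N g) :
    ∃ (c : algebraicClosure k Ω) (t : k), c ≠ 0 ∧ algebraMap k (algebraicClosure k Ω) t = c ^ ℓ ∧
      ∀ σ (z : N), (z : Ω) = (c : Ω)⁻¹ * (y : Ω) → S σ z = z := by
  have hℓ0 : ℓ ≠ 0 := hp.out.ne_zero
  haveI : IsAlgClosure k (algebraicClosure k Ω) := inferInstance
  haveI : IsAlgClosed (algebraicClosure k Ω) := IsAlgClosure.isAlgClosed k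
  haveI : CharZero (algebraicClosure k Ω) :=
    charZero_of_injective_algebraMap (algebraMap k (algebraicClosure k Ω)).injective
  let ι : algebraicClosure k Ω →+* N :=
    { toFun := fun c => ⟨(c : Ω), hNc c⟩
      map_one' := rfl
      map_mul' := fun _ _ => rfl
      map_zero' := rfl
      map_add' := fun _ _ => rfl }
  have hι : ∀ c : algebraicClosure k Ω, ((ι c : N) : Ω) = (c : Ω) := fun c => rfl
  have hSι : ∀ σ c, S σ (ι c) = ι (σ c) := fun σ c =>
    Subtype.ext (by rw [hcompat σ c _ (hι c), hι])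
  have hξ : ∀ σ, ∃ ξ : algebraicClosure k Ω, ξ ^ ℓ = 1 ∧ S σ y = ι ξ * y := by
    intro σ
    have h1 : (S σ y) ^ ℓ = y ^ ℓ := by rw [← map_pow, hy, (S σ).commutes]
    have h2 : (S σ y / y) ^ ℓ = 1 := by
      rw [div_pow, h1, div_self (pow_ne_zero _ hy0)]
    obtain ⟨ξ, hξ⟩ := Pool.Agent.Y948.PS.mu (κ := algebraicClosure k Ω) hℓ0
      ((S σ y / y : N) : Ω) (by
        have h3 := congrArg (fun z : N => (z : Ω)) h2
        simpa using h3)
    have h3 : ι ξ = S σ y / y := Subtype.ext (by rw [hι]; exact hξ)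
    refine ⟨ξ, ?_, by rw [h3, div_mul_cancel₀ _ hy0]⟩
    apply ι.injective
    rw [map_pow, h3, h2, map_one]
  choose ξ hξ1 hξ2 using hξ
  have hmul : ∀ σ τ, ξ (σ * τ) = ξ σ * σ (ξ τ) := by
    intro σ τ
    apply ι.injective
    apply mul_right_cancel₀ hy0
    rw [← hξ2, map_mul]
    change S σ (S τ y) = _
    rw [hξ2 τ, map_mul, hSι, hξ2 σ, map_mul]
    ring
  obtain ⟨c, hc0, hc, t, ht⟩ := Pool.Agent.Y158.FQ.exists_kum hp.out.pos ξ hξ1 hmul (by
    obtain ⟨E, hE, hE'⟩ := cont_fix S hcont y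
    refine ⟨E, hE, fun σ hσ => ?_⟩
    apply ι.injective
    apply mul_right_cancel₀ hy0
    rw [← hξ2, hE' σ hσ, map_one, one_mul])
  refine ⟨c, t, hc0, ht, fun σ z hz => ?_⟩
  have hιc : ι c ≠ 0 := (_root_.map_ne_zero ι).2 hc0
  have h1 : z = (ι c)⁻¹ * y := Subtype.ext (by rw [hz]; rfl)
  have h2 : σ c = ξ σ * c := by rw [← hc, div_mul_cancel₀ _ hc0]
  have hξ0 : ι (ξ σ) ≠ 0 := by
    rw [_root_.map_ne_zero]
    intro h
    have := hξ1 σ
    rw [h, zero_pow hℓ0] at this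
    exact zero_ne_one this
  rw [h1, map_mul, map_inv₀, hSι, hξ2, h2, map_mul]
  field_simp

end tw

section change

variable {k F Ω : Type} [Field k] [CharZero k] [Field F] [Field Ω] [Algebra k F] [Algebra F Ω]
  [Algebra k Ω] [IsScalarTower k F Ω] [IsAlgClosed Ω] [Algebra.IsAlgebraic F Ω]

/-- **a larger base field**: a section is a section over every field of fixed elements -/
theorem change_base (N : IntermediateField F Ω)
    (S : (algebraicClosure k Ω ≃ₐ[k] algebraicClosure k Ω) →* (N ≃ₐ[F] N)) (hcont : Continuous S)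
    (hcompat : ∀ σ (c : algebraicClosure k Ω) (z : N), (z : Ω) = (c : Ω) →
      (S σ z : Ω) = (σ c : Ω)) (F₂ : IntermediateField k Ω) (N₂ : IntermediateField F₂ Ω)
    (hNN : ∀ z, z ∈ N₂ ↔ z ∈ N)
    (hfix : ∀ σ (z : N), (z : Ω) ∈ F₂ → S σ z = z) :
    ∃ (e : N ≃+* N₂) (S₂ : (algebraicClosure k Ω ≃ₐ[k] algebraicClosure k Ω) →*
      (N₂ ≃ₐ[F₂] N₂)), Continuous S₂ ∧ (∀ z : N, ((e z : N₂) : Ω) = (z : Ω)) ∧
      (∀ σ z, S₂ σ (e z) = e (S σ z)) ∧
      ∀ σ (c : algebraicClosure k Ω) (z : N₂), (z : Ω) = (c : Ω) → (S₂ σ z : Ω) = (σ c : Ω) := by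
  let e : N ≃+* N₂ :=
    { toFun := fun w => ⟨w.1, (hNN _).2 w.2⟩
      invFun := fun w => ⟨w.1, (hNN _).1 w.2⟩
      left_inv := fun w => rfl
      right_inv := fun w => rfl
      map_mul' := fun w w' => rfl
      map_add' := fun w w' => rfl }
  have he : ∀ z : N, ((e z : N₂) : Ω) = (z : Ω) := fun z => rfl
  let S₂ : (algebraicClosure k Ω ≃ₐ[k] algebraicClosure k Ω) →* (N₂ ≃ₐ[F₂] N₂) :=
    { toFun := fun σ => AlgEquiv.ofRingEquiv (f := (e.symm.trans (S σ : N ≃+* N)).trans e)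
        (fun r => by
          have h1 : ((e.symm (algebraMap F₂ N₂ r) : N) : Ω) ∈ F₂ := r.2
          change e (S σ (e.symm (algebraMap F₂ N₂ r))) = _
          rw [hfix σ _ h1, e.apply_symm_apply])
      map_one' := by
        ext z
        change ((e (S 1 (e.symm z)) : N₂) : Ω) = _
        rw [map_one]
        rfl
      map_mul' := fun σ τ => by
        ext z
        change ((e (S (σ * τ) (e.symm z)) : N₂) : Ω) =
          ((e (S σ (e.symm (e (S τ (e.symm z))))) : N₂) : Ω)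
        rw [map_mul, e.symm_apply_apply]
        rfl }
  have hS₂ : ∀ σ z, S₂ σ z = e (S σ (e.symm z)) := fun σ z => rfl
  refine ⟨e, S₂, ?_, he, fun σ z => by rw [hS₂, e.symm_apply_apply], fun σ c z hz => ?_⟩
  · refine Pool.Agent.Y158.FQ.cont_of_fix S₂ fun z => ?_
    obtain ⟨E, hE, hE'⟩ := cont_fix S hcont (e.symm z)
    refine ⟨E, hE, fun σ hσ => ?_⟩
    rw [hS₂, hE' σ hσ, e.apply_symm_apply]
  · rw [hS₂, he]
    exact hcompat σ c _ hz

/-- the elements of a field with two generators which are fixed are fixed -/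
theorem fix_adj (N : IntermediateField F Ω) (f : N ≃ₐ[F] N) (u v : Ω) (hu : u ∈ N) (hv : v ∈ N)
    (hfu : f ⟨u, hu⟩ = ⟨u, hu⟩) (hfv : f ⟨v, hv⟩ = ⟨v, hv⟩) (z : N)
    (hz : (z : Ω) ∈ IntermediateField.adjoin k {u, v}) : f z = z := by
  let T : Subfield Ω := (RingHom.eqLocusField (f : N →+* N) (RingHom.id N)).map
    (algebraMap N Ω)
  have h1 := adjoin_le_sub (K := k) (S := {u, v}) (T := T) (fun r => by
      refine ⟨algebraMap F N (algebraMap k F r), ?_, (IsScalarTower.algebraMap_apply k F Ω r).symm⟩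
      exact f.commutes _) (fun s hs => by
      rcases hs with hs | hs
      · rw [hs]; exact ⟨⟨u, hu⟩, hfu, rfl⟩
      · rw [Set.mem_singleton_iff] at hs
        rw [hs]; exact ⟨⟨v, hv⟩, hfv, rfl⟩) (z : Ω) hz
  obtain ⟨w, hw, hwz⟩ := h1
  have h2 : w = z := Subtype.ext hwz
  rw [← h2]
  exact hw

end change

end Pool.Agent.X281.OB
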