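import Pool.Agent.X281.OB.MGlue
import Pool.Agent.X281.OB.Padic
import Pool.Agent.X281.OB.Tw

/-!
# Places and valuation rings
-/

set_option autoImplicit false
set_option linter.all false

open Polynomial FF Pool.Agent.Y157.PS Pool.Agent.X281.FL

namespace Pool.Agent.X281.OB

section absX

variable {k κ R F M N : Type} [Field k] [Field κ] [IsAlgClosed κ] [CharZero κ] [Algebra k κ]
    [Field R] [Field F] [Field M] [Field N] [Algebra κ R] [Algebra R M] [Algebra κ M]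
    [IsScalarTower κ R M] [Algebra F N]

/-- from places of `M` to valuation rings of `N` -/
theorem place_to_valX {ℓ : ℕ} [Fact ℓ.Prime] {x' : R} {B : Finset κ} {Y' : M}
    (hCov : Cov ℓ κ R M x' B Y') (eqv : M ≃+* N) (X : N)
    (hx : eqv (algebraMap R M x') = X)
    (S : (κ ≃ₐ[k] κ) →* (N ≃ₐ[F] N))
    (hcompat : ∀ σ c, S σ (eqv (algebraMap κ M c)) = eqv (algebraMap κ M (σ c)))
    (hQ : ∃ Q : Place κ M, (∃ e ∈ B, 0 < Q.ord (algebraMap R M x' - algebraMap κ M e) ∧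
        ∀ σ : κ ≃ₐ[k] κ, σ e = e) ∧
      (∀ σ : κ ≃ₐ[k] κ, Fixes Q (conjSec eqv S σ)) ∧
      ∀ Q' : Place κ M, (∃ e ∈ B, 0 < Q'.ord (algebraMap R M x' - algebraMap κ M e)) →
        (∀ σ : κ ≃ₐ[k] κ, Fixes Q' (conjSec eqv S σ)) → Q' = Q) :
    ∃ W : ValuationSubring N,
      ((∀ c : κ, eqv (algebraMap κ M c) ∈ W) ∧
       (∀ z ∈ W, ∃ c : κ, z - eqv (algebraMap κ M c) ∈ W.nonunits) ∧
       (∃ e ∈ B, (∀ σ : κ ≃ₐ[k] κ, σ e = e) ∧
          X - eqv (algebraMap κ M e) ∈ W.nonunits) ∧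
       ∀ σ : κ ≃ₐ[k] κ, ∀ z, S σ z ∈ W ↔ z ∈ W) ∧
      ∀ W' : ValuationSubring N, (∀ c : κ, eqv (algebraMap κ M c) ∈ W') →
        (∃ e ∈ B, X - eqv (algebraMap κ M e) ∈ W'.nonunits) →
        (∀ σ : κ ≃ₐ[k] κ, ∀ z, S σ z ∈ W' ↔ z ∈ W') → W' = W := by
  classical
  let s' : (κ ≃ₐ[k] κ) →* RingAut M := conjSec eqv S
  have hs' : ∀ σ z, eqv (s' σ z) = S σ (eqv z) := fun σ z => conjSec_apply eqv S σ z
  have hconst : ∀ σ c, s' σ (algebraMap κ M c) = algebraMap κ M (σ c) := by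
    intro σ c
    apply eqv.injective
    rw [hs', hcompat]
  obtain ⟨Q, ⟨e, heB, hQe, hfix⟩, hQfix, hQun⟩ := hQ
  have hmem : ∀ z : N, z ∈ Q.O.comap (eqv.symm : N →+* M) ↔ eqv.symm z ∈ Q.O := fun z => Iff.rfl
  refine ⟨Q.O.comap (eqv.symm : N →+* M), ⟨?_, ?_, ?_, ?_⟩, ?_⟩
  · intro c
    rw [hmem, eqv.symm_apply_apply, Place.mem_O]
    exact Q.reg_const c
  · intro z hz
    rw [hmem] at hz
    by_cases hz0 : z = 0
    · refine ⟨0, ?_⟩
      rw [comap_non, hz0, map_zero, map_zero, sub_zero, map_zero]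
      exact nonunits_iff.2 ⟨zero_mem _, Or.inl rfl⟩
    have hz0' : eqv.symm z ≠ 0 := (map_ne_zero_iff _ eqv.symm.injective).2 hz0
    rw [O_iff Q hz0'] at hz
    obtain ⟨c, hc⟩ := Pool.Agent.Y536.PS.res_const κ M (algebraMap R M x') hCov.alg Q _ hz
    refine ⟨c, ?_⟩
    rw [comap_non, map_sub, eqv.symm_apply_apply]
    rcases hc with hc | hc
    · rw [hc, sub_self]
      exact nonunits_iff.2 ⟨zero_mem _, Or.inl rfl⟩
    · have h0 : eqv.symm z - algebraMap κ M c ≠ 0 := by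
        intro h0
        rw [h0, Q.ord_zero] at hc
        exact lt_irrefl _ hc
      exact (O_non_iff Q h0).2 hc
  · refine ⟨e, heB, hfix, ?_⟩
    rw [comap_non, map_sub, eqv.symm_apply_apply, ← hx, eqv.symm_apply_apply]
    have h0 : algebraMap R M x' - algebraMap κ M e ≠ 0 := by
      intro h0
      rw [h0, Q.ord_zero] at hQe
      exact lt_irrefl _ hQe
    exact (O_non_iff Q h0).2 hQe
  · intro σ z
    rw [hmem, hmem]
    have h1 : eqv.symm (S σ z) = s' σ (eqv.symm z) := by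
      apply eqv.injective
      rw [hs', eqv.apply_symm_apply, eqv.apply_symm_apply]
    rw [h1]
    exact O_of_fixes Q (s' σ) (hQfix σ) _
  · rintro W' hW'1 ⟨e', he'B, he'⟩ hW'3
    have hmem' : ∀ z : M, z ∈ W'.comap (eqv : M →+* N) ↔ eqv z ∈ W' := fun z => Iff.rfl
    have hnon' : ∀ z : M, z ∈ (W'.comap (eqv : M →+* N)).nonunits ↔ eqv z ∈ W'.nonunits :=
      fun z => comap_non eqv W' z
    have h1 : algebraMap R M x' - algebraMap κ M e' ∈ (W'.comap (eqv : M →+* N)).nonunits := by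
      rw [hnon', map_sub, hx]
      exact he'
    have hne : algebraMap R M x' - algebraMap κ M e' ≠ 0 := by
      intro h0
      have h2 : Transcendental κ (algebraMap R M x') :=
        (transcendental_algebraMap_iff (algebraMap R M).injective).2 hCov.rat.trans
      apply h2
      rw [sub_eq_zero.1 h0]
      exact isAlgebraic_algebraMap _
    have htop : W'.comap (eqv : M →+* N) ≠ ⊤ := by
      intro h0
      rw [h0, nonunits_iff] at h1
      rcases h1.2 with h2 | h2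
      · exact hne h2
      · exact h2 trivial
    obtain ⟨Q', hQ', -⟩ := hCov.loc _ (fun c => (hmem' _).2 (hW'1 c)) htop
    have h2 : Q' = Q := by
      refine hQun Q' ⟨e', he'B, ?_⟩ fun σ => ?_
      · rw [← O_non_iff Q' hne, hQ']
        exact h1
      · refine fixes_of_O Q' (s' σ) (σ : κ ≃+* κ) (fun c => hconst σ c) fun z => ?_
        rw [hQ', hmem', hmem', hs']
        exact hW'3 σ _
    ext z
    rw [hmem, ← h2, hQ', hmem', eqv.apply_symm_apply]

end absX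

section low

variable {κ N : Type} [Field κ] [IsAlgClosed κ] [CharZero κ] [Field N] [Algebra κ N]

theorem prod_nonunits {W : ValuationSubring N} {ι : Type} (s : Finset ι) (f : ι → N)
    (hf : ∀ i ∈ s, f i ∈ W) (h : ∏ i ∈ s, f i ∈ W.nonunits) : ∃ i ∈ s, f i ∈ W.nonunits := by
  classical
  by_contra hno
  push Not at hno
  have h1 : (∏ i ∈ s, f i)⁻¹ ∈ W := by
    rw [← Finset.prod_inv_distrib]
    exact prod_mem fun i hi => inv_mem_of_not_nonunit (hno i hi)
  rcases (nonunits_iff.1 h).2 with h2 | h2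
  · obtain ⟨i, hi, h3⟩ := Finset.prod_eq_zero_iff.1 h2
    exact hno i hi (by rw [h3]; exact nonunits_iff.2 ⟨zero_mem _, Or.inl rfl⟩)
  · exact h2 h1

/-- roots of elements whose powers are near constants are near constants -/
theorem near_root {ℓ : ℕ} [hp : Fact ℓ.Prime] {W : ValuationSubring N}
    (hκ : ∀ c : κ, algebraMap κ N c ∈ W) {z : N} {y : κ} (hy : y ≠ 0)
    (h : z ^ ℓ - algebraMap κ N y ∈ W.nonunits) :
    ∃ e : κ, e ^ ℓ = y ∧ z - algebraMap κ N e ∈ W.nonunits := by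
  classical
  have hzW : z ∈ W := by
    by_contra hz
    have h1 : z ^ ℓ ∈ W := by
      have := add_mem (non_mem h) (hκ y)
      rwa [sub_add_cancel] at this
    have h2 := (W.mem_or_inv_mem z).resolve_left hz
    have h3 : z⁻¹ ∈ W.nonunits := nonunits_iff.2 ⟨h2, Or.inr (by rwa [inv_inv])⟩
    have h4 : (z⁻¹) ^ ℓ ∈ W.nonunits := (non_pow_iff hp.out.ne_zero).2 h3
    rcases (nonunits_iff.1 h4).2 with h5 | h5
    · have h6 : z = 0 := by
        have := pow_eq_zero_iff (n := ℓ) hp.out.ne_zero |>.1 h5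
        exact inv_eq_zero.1 this
      rw [h6] at hz
      exact hz (zero_mem _)
    · rw [inv_pow, inv_inv] at h5
      exact h5 h1
  rw [← bt_prod_fib (ℓ := ℓ) {y} (by rw [Finset.mem_singleton]; exact hy.symm)
    (Finset.mem_singleton_self y) z] at h
  obtain ⟨e, he, h1⟩ := prod_nonunits _ _ (fun e _ => sub_mem hzW (hκ e)) h
  exact ⟨e, (Finset.mem_filter.1 he).2, h1⟩

theorem const_non {W : ValuationSubring N} (hκ : ∀ c : κ, algebraMap κ N c ∈ W) {c : κ}
    (h : algebraMap κ N c ∈ W.nonunits) : c = 0 := by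
  by_contra hc
  rcases (nonunits_iff.1 h).2 with h1 | h1
  · exact hc ((_root_.map_eq_zero _).1 h1)
  · apply h1
    rw [← map_inv₀]
    exact hκ _

theorem const_U {W : ValuationSubring N} (hκ : ∀ c : κ, algebraMap κ N c ∈ W) {c : κ}
    (h : c ≠ 0) : IsU W (algebraMap κ N c) :=
  ⟨(_root_.map_ne_zero _).2 h, hκ c, by rw [← map_inv₀]; exact hκ _⟩

theorem near_U {W : ValuationSubring N} (hκ : ∀ c : κ, algebraMap κ N c ∈ W) {z : N} {c : κ}
    (hc : c ≠ 0) (h : z - algebraMap κ N c ∈ W.nonunits) : IsU W z := by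
  have hz : z ∈ W := by
    have := add_mem (non_mem h) (hκ c)
    rwa [sub_add_cancel] at this
  refine ⟨?_, hz, ?_⟩
  · rintro rfl
    rw [zero_sub, ← map_neg] at h
    exact hc (neg_eq_zero.1 (const_non hκ h))
  · apply inv_mem_of_not_nonunit
    intro h1
    apply hc
    refine const_non hκ (W := W) ?_
    have h2 : algebraMap κ N c = z - (z - algebraMap κ N c) := by ring
    rw [h2]
    exact non_sub h1 h

/-- **the values of the new coordinate at a place above a branch point** -/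
theorem near_mob {ℓ : ℕ} [hp : Fact ℓ.Prime] {W : ValuationSubring N}
    (hκ : ∀ c : κ, algebraMap κ N c ∈ W) {υ b₁ b₂ : κ} (h12 : b₁ ≠ b₂) (hυ : υ ≠ 0) {X T : N}
    (hX2 : X ≠ algebraMap κ N b₂)
    (hX : T ^ ℓ * (X - algebraMap κ N b₂) = algebraMap κ N υ * (X - algebraMap κ N b₁)) {b : κ}
    (hb : X - algebraMap κ N b ∈ W.nonunits) :
    (b = b₁ → T ∈ W.nonunits) ∧ (b = b₂ → T⁻¹ ∈ W.nonunits) ∧
      (b ≠ b₁ → b ≠ b₂ → ∃ e : κ, e ^ ℓ = mob υ b₁ b₂ b ∧ T - algebraMap κ N e ∈ W.nonunits) := by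
  have hℓ0 := hp.out.ne_zero
  obtain ⟨hne, e1, e2, e3⟩ := mob_X h12 hυ hX2 hX
  have h21 : b₂ - b₁ ≠ 0 := sub_ne_zero.2 h12.symm
  have hX20 : X - algebraMap κ N b₂ ≠ 0 := sub_ne_zero.2 hX2
  -- `T ^ ℓ - υ` is a unit if `b ≠ b₂`
  have hU : b ≠ b₂ → IsU W (T ^ ℓ - algebraMap κ N υ) := by
    intro hb2
    have h1 : IsU W (X - algebraMap κ N b₂) := by
      refine near_U hκ (c := b - b₂) (sub_ne_zero.2 hb2) ?_
      have h2 : X - algebraMap κ N b₂ - algebraMap κ N (b - b₂) = X - algebraMap κ N b := by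
        rw [map_sub]; ring
      rw [h2]
      exact hb
    have h2 : T ^ ℓ - algebraMap κ N υ =
        algebraMap κ N (υ * (b₂ - b₁)) * (X - algebraMap κ N b₂)⁻¹ := by
      rw [← e2]
      field_simp
    rw [h2]
    exact Pool.Agent.Y748.PS.isU_mul (const_U hκ (mul_ne_zero hυ h21))
      ⟨inv_ne_zero h1.1, h1.2.2, by rw [inv_inv]; exact h1.2.1⟩
  refine ⟨?_, ?_, ?_⟩
  · rintro rfl
    have h1 : algebraMap κ N (b₂ - b) * T ^ ℓ ∈ W.nonunits := by
      rw [mul_comm, ← e1, mul_comm]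
      exact non_mul (hU h12).2.1 hb
    exact (non_pow_iff hℓ0).1 ((non_unit_mul (const_U hκ h21)).1 h1)
  · rintro rfl
    have h1 : (T ^ ℓ - algebraMap κ N υ)⁻¹ ∈ W.nonunits := by
      have h2 : (T ^ ℓ - algebraMap κ N υ)⁻¹ =
          (algebraMap κ N (υ * (b - b₁)))⁻¹ * (X - algebraMap κ N b) := by
        rw [← e2]
        field_simp
      rw [h2, ← map_inv₀]
      exact non_mul (hκ _) hb
    have h3 : T ^ ℓ ∉ W := by
      intro h4
      rcases (nonunits_iff.1 h1).2 with h5 | h5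
      · exact hne (inv_eq_zero.1 h5)
      · rw [inv_inv] at h5
        exact h5 (sub_mem h4 (hκ _))
    have h4 : T ∉ W := fun h5 => h3 (pow_mem h5 ℓ)
    exact nonunits_iff.2 ⟨(W.mem_or_inv_mem T).resolve_left h4, Or.inr (by rwa [inv_inv])⟩
  · intro hb1 hb2
    have h1 : algebraMap κ N (b₂ - b) * (T ^ ℓ - algebraMap κ N (mob υ b₁ b₂ b)) ∈ W.nonunits := by
      rw [← e3 b hb2, mul_comm]
      exact non_mul (hU hb2).2.1 hb
    have h2 := (non_unit_mul (const_U hκ (sub_ne_zero.2 (Ne.symm hb2)))).1 h1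
    refine near_root hκ ?_ h2
    unfold mob
    exact div_ne_zero (mul_ne_zero hυ (sub_ne_zero.2 hb1)) (sub_ne_zero.2 hb2)

/-- the converse -/
theorem near_mob' {ℓ : ℕ} [hp : Fact ℓ.Prime] {W : ValuationSubring N}
    (hκ : ∀ c : κ, algebraMap κ N c ∈ W) {υ b₁ b₂ : κ} (h12 : b₁ ≠ b₂) (hυ : υ ≠ 0) {X T : N}
    (hX2 : X ≠ algebraMap κ N b₂)
    (hX : T ^ ℓ * (X - algebraMap κ N b₂) = algebraMap κ N υ * (X - algebraMap κ N b₁)) {b e : κ}
    (hb2 : b ≠ b₂) (he : e ^ ℓ = mob υ b₁ b₂ b) (h : T - algebraMap κ N e ∈ W.nonunits) :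
    X - algebraMap κ N b ∈ W.nonunits := by
  obtain ⟨hne, e1, e2, e3⟩ := mob_X h12 hυ hX2 hX
  have hTW : T ∈ W := by
    have := add_mem (non_mem h) (hκ e)
    rwa [sub_add_cancel] at this
  have h1 : T ^ ℓ - algebraMap κ N (mob υ b₁ b₂ b) ∈ W.nonunits := by
    rw [← he, map_pow]
    obtain ⟨q, hq⟩ := sub_dvd_pow_sub_pow (⟨T, hTW⟩ : W) ⟨algebraMap κ N e, hκ e⟩ ℓ
    have h2 := congrArg (Subtype.val : W → N) hq
    change T ^ ℓ - algebraMap κ N e ^ ℓ = (T - algebraMap κ N e) * (q : N) at h2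
    rw [h2, mul_comm]
    exact non_mul q.2 h
  have h3 : mob υ b₁ b₂ b - υ ≠ 0 := by
    have h4 : mob υ b₁ b₂ b - υ = υ * (b₂ - b₁) / (b - b₂) := by
      have := sub_ne_zero.2 hb2
      unfold mob
      field_simp
      ring
    rw [h4]
    exact div_ne_zero (mul_ne_zero hυ (sub_ne_zero.2 h12.symm)) (sub_ne_zero.2 hb2)
  have h5 : IsU W (T ^ ℓ - algebraMap κ N υ) := by
    refine near_U hκ h3 ?_
    have h6 : T ^ ℓ - algebraMap κ N υ - algebraMap κ N (mob υ b₁ b₂ b - υ) =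
        T ^ ℓ - algebraMap κ N (mob υ b₁ b₂ b) := by
      rw [map_sub]; ring
    rw [h6]
    exact h1
  have h7 : (T ^ ℓ - algebraMap κ N υ) * (X - algebraMap κ N b) ∈ W.nonunits := by
    rw [mul_comm, e3 b hb2]
    exact non_mul (hκ _) h1
  exact (non_unit_mul h5).1 h7

end low

end Pool.Agent.X281.OB
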