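import Pool.Agent.X281.OB.Mob

/-!
# The covering field as an extension of `κ(T)`, `T ^ ℓ = υ (x - b₁) / (x - b₂)`
-/

set_option autoImplicit false
set_option linter.all false

namespace Pool.Agent.X281.OB

open Polynomial FF Pool.Agent.Y157.PS Pool.Agent.Y948.PS

section geo

variable {k F Ω : Type} [Field k] [CharZero k]
    [Field F] [Field Ω] [Algebra k F] [Algebra F Ω] [Algebra k Ω] [IsScalarTower k F Ω]
    [IsAlgClosed Ω] [Algebra.IsAlgebraic F Ω]

theorem mob_glue {ℓ : ℕ} [hℓ : Fact ℓ.Prime] (B : Finset (algebraicClosure k Ω))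
    (h4 : 4 ≤ B.card) (c : algebraicClosure k Ω → ℕ)
    (hc : ∀ e ∈ B, ¬ ℓ ∣ c e) (hsum : ℓ ∣ ∑ e ∈ B, c e)
    (δ : algebraicClosure k Ω) (hδ0 : δ ≠ 0) (x w : F) (hx : Transcendental k x)
    (hF : IntermediateField.adjoin k {x, w} = (⊤ : IntermediateField k F))
    (hZ : ((δ : Ω) * algebraMap F Ω w) ^ ℓ = ∏ e ∈ B, (algebraMap F Ω x - (e : Ω)) ^ c e)
    (υ b₁ b₂ : algebraicClosure k Ω) (hυ : υ ≠ 0) (h12 : b₁ ≠ b₂) (h1 : b₁ ∈ B) (h2 : b₂ ∈ B)
    (T : Ω) (hT : T ^ ℓ * (algebraMap F Ω x - (b₂ : Ω)) =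
      (υ : Ω) * (algebraMap F Ω x - (b₁ : Ω))) :
    ∃ (R M : Type) (_ : Field R) (_ : Field M) (_ : Algebra (algebraicClosure k Ω) R)
      (_ : Algebra R M) (_ : Algebra (algebraicClosure k Ω) M)
      (_ : IsScalarTower (algebraicClosure k Ω) R M) (x' : R) (Y : M)
      (eqv : M ≃+* geomPro ℓ k F Ω),
      Cov ℓ (algebraicClosure k Ω) R M x' (bt ℓ (mbB B υ b₁ b₂)) Y ∧
      (∀ c : algebraicClosure k Ω, ((eqv (algebraMap (algebraicClosure k Ω) M c) :
        geomPro ℓ k F Ω) : Ω) = (c : Ω)) ∧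
      ((eqv (algebraMap R M x') : geomPro ℓ k F Ω) : Ω) = T := by
  classical
  have hac : IsAlgClosure k (algebraicClosure k Ω) := inferInstance
  haveI hkb : IsAlgClosed (algebraicClosure k Ω) := hac.1
  haveI hch : CharZero (algebraicClosure k Ω) :=
    charZero_of_injective_algebraMap (algebraMap k (algebraicClosure k Ω)).injective
  obtain ⟨Y0, hY⟩ := IsAlgClosed.exists_pow_nat_eq
    (∏ e ∈ bt ℓ (mbB B υ b₁ b₂), (T - (e : Ω))) hℓ.out.pos
  obtain ⟨hTκ, hclT, hgeo⟩ := mob_geo B (by omega) c hc hsum δ hδ0 x w hx hF hZ υ b₁ b₂ hυ h12 h1 h2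
    T Y0 hT hY
  have hrat := ratF_adj hTκ
  have hcardB := mbB_card (B := B) hυ h12 h1 h2
  have hcard := bt_card (ℓ := ℓ) (mbB B υ b₁ b₂) (mbB_zero hυ)
  have h2ℓ := hℓ.out.two_le
  obtain ⟨M, hM⟩ : ∃ M : IntermediateField
      (IntermediateField.adjoin (algebraicClosure k Ω) {T}) Ω,
      ∀ z, z ∈ M ↔ z ∈ maxPro ℓ (algebraicClosure k Ω) (IntermediateField.adjoin
        (IntermediateField.adjoin (algebraicClosure k Ω) {T}) {Y0}) Ω :=
    ⟨(maxPro ℓ (algebraicClosure k Ω) (IntermediateField.adjoin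
        (IntermediateField.adjoin (algebraicClosure k Ω) {T}) {Y0})
        Ω).restrictScalars _, fun z => Iff.rfl⟩
  have hYM : Y0 ∈ M := by
    rw [hM]
    exact (maxPro ℓ (algebraicClosure k Ω) (IntermediateField.adjoin
      (IntermediateField.adjoin (algebraicClosure k Ω) {T}) {Y0})
      Ω).algebraMap_mem ⟨Y0, IntermediateField.mem_adjoin_simple_self _ _⟩
  have hCov : Cov ℓ (algebraicClosure k Ω)
      (IntermediateField.adjoin (algebraicClosure k Ω) {T}) M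
      ⟨T, IntermediateField.mem_adjoin_simple_self _ _⟩ (bt ℓ (mbB B υ b₁ b₂)) ⟨Y0, hYM⟩ :=
    a_cov ℓ (algebraicClosure k Ω)
      (IntermediateField.adjoin (algebraicClosure k Ω) {T}) Ω
      ⟨T, IntermediateField.mem_adjoin_simple_self _ _⟩ hrat (bt ℓ (mbB B υ b₁ b₂))
      (by rw [hcard]; exact dvd_mul_right _ _) (by rw [hcard]; nlinarith) Y0 hY M hM
      ⟨Y0, hYM⟩ rfl
  have hMN : ∀ z, z ∈ M ↔ z ∈ geomPro ℓ k F Ω := fun z => by
    rw [hM z, hgeo z]
  let eqv : M ≃+* geomPro ℓ k F Ω :=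
    { toFun := fun w => ⟨w.1, (hMN _).1 w.2⟩
      invFun := fun w => ⟨w.1, (hMN _).2 w.2⟩
      left_inv := fun w => rfl
      right_inv := fun w => rfl
      map_mul' := fun w w' => rfl
      map_add' := fun w w' => rfl }
  exact ⟨_, M, inferInstance, inferInstance, inferInstance, inferInstance, inferInstance,
    inferInstance, _, _, eqv, hCov, fun c => rfl, rfl⟩

end geo

end Pool.Agent.X281.OB
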