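import Pool.Agent.X281.OB.Low

/-!
# Inertia elements, the new branch points, and a finite extension of the base field
-/

set_option autoImplicit false
set_option linter.all false

open Polynomial FF Pool.Agent.Y157.PS Pool.Agent.X281.FL

namespace Pool.Agent.X281.OB

section isu

variable {K : Type} [Field K] {V : ValuationSubring K}

theorem isU_inv' {a : K} (h : IsU V a) : IsU V a⁻¹ :=
  ⟨inv_ne_zero h.1, h.2.2, by rw [inv_inv]; exact h.2.1⟩

theorem isU_div' {a b : K} (h : IsU V a) (h' : IsU V b) : IsU V (a / b) := by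
  rw [div_eq_mul_inv]
  exact Pool.Agent.Y748.PS.isU_mul h (isU_inv' h')

theorem isU_neg' {a : K} (h : IsU V a) : IsU V (-a) :=
  ⟨neg_ne_zero.2 h.1, neg_mem h.2.1, by rw [inv_neg]; exact neg_mem h.2.2⟩

theorem isU_prod' {ι : Type} (s : Finset ι) (f : ι → K) (h : ∀ i ∈ s, IsU V (f i)) :
    IsU V (∏ i ∈ s, f i) := by
  classical
  induction s using Finset.induction_on with
  | empty => rw [Finset.prod_empty]; exact Pool.Agent.Y748.PS.isU_one
  | insert a s ha ih =>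
    rw [Finset.prod_insert ha]
    exact Pool.Agent.Y748.PS.isU_mul (h a (Finset.mem_insert_self a s))
      (ih fun i hi => h i (Finset.mem_insert_of_mem hi))

end isu

section ine

variable {k κ : Type} [Field k] [Field κ] [Algebra k κ] {V : ValuationSubring κ} {B : Finset κ}

theorem ine_unit {ℓ : ℕ} (hl : IsU V (ℓ : κ)) {σ : κ ≃ₐ[k] κ} (hσ : Ine V σ) {μ : κ}
    (hμ : IsU V μ) (h : σ (μ ^ ℓ) = μ ^ ℓ) : σ μ = μ := by
  have h1 : (σ μ / μ) ^ ℓ = 1 := by
    rw [div_pow, ← map_pow, h, div_self (pow_ne_zero _ hμ.1)]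
  have h3 : σ μ / μ - 1 = μ⁻¹ * (σ μ - μ) := by
    have := hμ.1
    field_simp
  have h4 := Pool.Agent.Y748.PS.rou_eq_one hl h1
    (by rw [h3]; exact Pool.Agent.Y748.PS.nu_mul hμ.2.2 (hσ.2 μ hμ.2.1))
  exact (div_eq_one_iff_eq hμ.1).1 h4

theorem ine_fix_B (hG : Good V B) (hB : ∀ σ : κ ≃ₐ[k] κ, ∀ e ∈ B, σ e ∈ B) {σ : κ ≃ₐ[k] κ}
    (hσ : Ine V σ) {b : κ} (hb : b ∈ B) : σ b = b := by
  by_contra hne
  have h1 := hG.2 _ (hB σ b hb) b hb hne
  have h2 := hσ.2 b (hG.1 b hb)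
  rcases (nonunits_iff.1 h2).2 with h3 | h3
  · exact h1.1 h3
  · exact h3 h1.2.2

theorem good_mob (hG : Good V B) {υ b₁ b₂ : κ} (hυ : IsU V υ) (h12 : b₁ ≠ b₂) (h1 : b₁ ∈ B)
    (h2 : b₂ ∈ B) : Good V (mbB B υ b₁ b₂) ∧ ∀ y ∈ mbB B υ b₁ b₂, IsU V y := by
  have hU : ∀ y ∈ mbB B υ b₁ b₂, IsU V y := by
    intro y hy
    obtain ⟨b, hb, hb1, hb2, rfl⟩ := mem_mbB.1 hy
    exact isU_div' (Pool.Agent.Y748.PS.isU_mul hυ (hG.2 b hb b₁ h1 hb1)) (hG.2 b hb b₂ h2 hb2)
  refine ⟨⟨fun y hy => (hU y hy).2.1, fun y hy y' hy' hne => ?_⟩, hU⟩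
  obtain ⟨b, hb, hb1, hb2, rfl⟩ := mem_mbB.1 hy
  obtain ⟨b', hb', hb1', hb2', rfl⟩ := mem_mbB.1 hy'
  have hbb : b ≠ b' := fun h => hne (by rw [h])
  have h3 : mob υ b₁ b₂ b - mob υ b₁ b₂ b' =
      υ * (b - b') * (b₁ - b₂) / ((b - b₂) * (b' - b₂)) := by
    have e1 := sub_ne_zero.2 hb2
    have e2 := sub_ne_zero.2 hb2'
    unfold mob
    field_simp
    ring
  rw [h3]
  exact isU_div' (Pool.Agent.Y748.PS.isU_mul (Pool.Agent.Y748.PS.isU_mul hυ
    (hG.2 b hb b' hb' hbb)) (hG.2 b₁ h1 b₂ h2 h12))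
    (Pool.Agent.Y748.PS.isU_mul (hG.2 b hb b₂ h2 hb2) (hG.2 b' hb' b₂ h2 hb2'))

theorem mbl_U (hG : Good V B) {c : κ → ℕ} {υ b₁ b₂ : κ} (hυ : IsU V υ) (h12 : b₁ ≠ b₂)
    (h1 : b₁ ∈ B) (h2 : b₂ ∈ B) : IsU V (mbl B c υ b₁ b₂) := by
  have h21 : IsU V (b₂ - b₁) := hG.2 b₂ h2 b₁ h1 h12.symm
  unfold mbl
  refine Pool.Agent.Y748.PS.isU_mul (Pool.Agent.Y748.PS.isU_mul
    (Pool.Agent.Y748.PS.isU_pow h21 _)
    (Pool.Agent.Y748.PS.isU_pow (Pool.Agent.Y748.PS.isU_mul hυ h21) _))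
    (isU_prod' _ _ fun y hy => Pool.Agent.Y748.PS.isU_pow ?_ _)
  obtain ⟨b, hb, hb1, hb2, rfl⟩ := mem_mbB.1 hy
  rw [mobi_mob hυ.1 h12 hb2]
  exact hG.2 b₂ h2 b hb (Ne.symm hb2)

theorem good_bt [IsAlgClosed κ] [CharZero κ] {ℓ : ℕ} [hp : Fact ℓ.Prime] (hl : IsU V (ℓ : κ))
    (hG : Good V B) (hU : ∀ y ∈ B, IsU V y) : Good V (bt ℓ B) := by
  have hU' : ∀ e ∈ bt ℓ B, IsU V e := fun e he => by
    rw [mem_bt hp.out.pos] at he
    exact Pool.Agent.Y748.PS.isU_of_pow hp.out.pos (hU _ he)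
  refine ⟨fun e he => (hU' e he).2.1, fun e he e' he' hne => ?_⟩
  refine isU_of_not_nonunit (sub_mem (hU' e he).2.1 (hU' e' he').2.1) fun h1 => hne ?_
  have hB1 := (mem_bt hp.out.pos B e).1 he
  have hB2 := (mem_bt hp.out.pos B e').1 he'
  have he0 := (hU' e' he').1
  by_cases heq : e ^ ℓ = e' ^ ℓ
  · have h2 : e / e' - 1 = e'⁻¹ * (e - e') := by field_simp
    have h3 := Pool.Agent.Y748.PS.rou_eq_one hl (z := e / e') (by
      rw [div_pow, heq, div_self (pow_ne_zero _ he0)])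
      (by rw [h2]; exact Pool.Agent.Y748.PS.nu_mul (hU' e' he').2.2 h1)
    exact (div_eq_one_iff_eq he0).1 h3
  · exfalso
    have h2 := hG.2 _ hB1 _ hB2 heq
    obtain ⟨q, hq⟩ := sub_dvd_pow_sub_pow (⟨e, (hU' e he).2.1⟩ : V) ⟨e', (hU' e' he').2.1⟩ ℓ
    have h3 := congrArg (Subtype.val : V → κ) hq
    change e ^ ℓ - e' ^ ℓ = (e - e') * (q : κ) at h3
    have h4 : e ^ ℓ - e' ^ ℓ ∈ V.nonunits := by
      rw [h3, mul_comm]
      exact non_mul q.2 h1
    rcases (nonunits_iff.1 h4).2 with h5 | h5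
    · exact h2.1 h5
    · exact h5 h2.2.2

end ine

section ext

variable {k κ : Type} [Field k] [Field κ] [Algebra k κ]

theorem fix_E (B : Set κ) (σ : κ ≃ₐ[k] κ) (h : ∀ b ∈ B, σ b = b) :
    ∀ z ∈ IntermediateField.adjoin k B, σ z = z := by
  intro z hz
  exact adjoin_le_sub (K := k) (S := B)
    (T := RingHom.eqLocusField (σ : κ →+* κ) (RingHom.id κ)) (fun r => σ.commutes r)
    (fun b hb => h b hb) z hz

/-- an automorphism which fixes the generators, over the larger field -/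
noncomputable def liftE (B : Set κ) (σ : κ ≃ₐ[k] κ) (h : ∀ b ∈ B, σ b = b) :
    κ ≃ₐ[IntermediateField.adjoin k B] κ :=
  AlgEquiv.ofRingEquiv (f := (σ : κ ≃+* κ)) (fun z => fix_E B σ h z z.2)

theorem liftE_apply (B : Set κ) (σ : κ ≃ₐ[k] κ) (h : ∀ b ∈ B, σ b = b) (z : κ) :
    liftE B σ h z = σ z := rfl

theorem res_liftE (B : Set κ) (σ : κ ≃ₐ[k] κ) (h : ∀ b ∈ B, σ b = b) :
    AlgEquiv.restrictScalarsHom k (liftE B σ h) = σ := by
  ext z
  rfl

theorem cont_res (halg : Algebra.IsAlgebraic k κ) (E E1 : IntermediateField k κ)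
    (hE1 : FiniteDimensional k E1) :
    ∃ E2 : IntermediateField E κ, FiniteDimensional E E2 ∧
      ∀ τ ∈ E2.fixingSubgroup, AlgEquiv.restrictScalarsHom k τ ∈ E1.fixingSubgroup := by
  let b := Module.finBasis k E1
  let T : Set κ := Set.range fun i => ((b i : E1) : κ)
  haveI : Finite T := Set.finite_range _
  refine ⟨IntermediateField.adjoin E T, ?_, fun τ hτ => ?_⟩
  · exact IntermediateField.finiteDimensional_adjoin (S := T)
      (fun z _ => (halg.isAlgebraic z).isIntegral.tower_top)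
  · rw [IntermediateField.mem_fixingSubgroup_iff] at hτ ⊢
    intro y hy
    change τ y = y
    have h1 : y = ∑ i, (b.repr ⟨y, hy⟩ i) • ((b i : E1) : κ) := by
      have h2 := b.sum_repr ⟨y, hy⟩
      have h3 := congrArg (fun w : E1 => (w : κ)) h2
      simp only [AddSubmonoidClass.coe_finset_sum] at h3
      exact h3.symm
    rw [h1, map_sum]
    refine Finset.sum_congr rfl fun i _ => ?_
    rw [Algebra.smul_def, map_mul, hτ _ (IntermediateField.subset_adjoin E T ⟨i, rfl⟩)]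
    congr 1
    rw [IsScalarTower.algebraMap_apply k E κ]
    exact τ.commutes _

end ext

section near

variable {κ N : Type} [Field κ] [Field N] [Algebra κ N] {W : ValuationSubring N}

theorem near_mul (hκ : ∀ c : κ, algebraMap κ N c ∈ W) {z w : N} {a b : κ}
    (hz : z - algebraMap κ N a ∈ W.nonunits) (hw : w - algebraMap κ N b ∈ W.nonunits) :
    z * w - algebraMap κ N (a * b) ∈ W.nonunits := by
  have hwW : w ∈ W := by
    have := add_mem (non_mem hw) (hκ b)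
    rwa [sub_add_cancel] at this
  have h1 : z * w - algebraMap κ N (a * b) =
      w * (z - algebraMap κ N a) + algebraMap κ N a * (w - algebraMap κ N b) := by
    rw [map_mul]; ring
  rw [h1]
  exact non_add (non_mul hwW hz) (non_mul (hκ a) hw)

theorem near_pow (hκ : ∀ c : κ, algebraMap κ N c ∈ W) {z : N} {a : κ}
    (hz : z - algebraMap κ N a ∈ W.nonunits) (n : ℕ) :
    z ^ n - algebraMap κ N (a ^ n) ∈ W.nonunits := by
  induction n with
  | zero =>
    rw [pow_zero, pow_zero, map_one, sub_self]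
    exact nonunits_iff.2 ⟨zero_mem _, Or.inl rfl⟩
  | succ n ih =>
    rw [pow_succ, pow_succ]
    exact near_mul hκ ih hz

theorem near_prod (hκ : ∀ c : κ, algebraMap κ N c ∈ W) {ι : Type} (s : Finset ι) (f : ι → N)
    (g : ι → κ) (h : ∀ i ∈ s, f i - algebraMap κ N (g i) ∈ W.nonunits) :
    ∏ i ∈ s, f i - algebraMap κ N (∏ i ∈ s, g i) ∈ W.nonunits := by
  classical
  induction s using Finset.induction_on with
  | empty =>
    rw [Finset.prod_empty, Finset.prod_empty, map_one, sub_self]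
    exact nonunits_iff.2 ⟨zero_mem _, Or.inl rfl⟩
  | insert a s ha ih =>
    rw [Finset.prod_insert ha, Finset.prod_insert ha]
    exact near_mul hκ (h a (Finset.mem_insert_self a s))
      (ih fun i hi => h i (Finset.mem_insert_of_mem hi))

end near

section contra

variable {k κ F N : Type} [Field k] [Field κ] [IsAlgClosed κ] [CharZero κ] [Algebra k κ] [Field F]
  [Field N] [Algebra F N] [Algebra κ N] {V : ValuationSubring κ}

/-- **the contradiction**: an element with a ramified Kummer cocycle has no value at a fixed place -/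
theorem no_value {ℓ : ℕ} [hp : Fact ℓ.Prime] (hl : IsU V (ℓ : κ)) (f : N ≃ₐ[F] N)
    {σ : κ ≃ₐ[k] κ} (hσ : Ine V σ) (hf : ∀ c, f (algebraMap κ N c) = algebraMap κ N (σ c))
    {W : ValuationSubring N} (hκ : ∀ c : κ, algebraMap κ N c ∈ W) (hW : ∀ z, f z ∈ W ↔ z ∈ W)
    {δ : κ} (hδ : σ (δ ^ ℓ) = δ ^ ℓ) (hδ1 : σ δ ≠ δ) {z : N}
    (hz : f z = algebraMap κ N (σ δ / δ) * z) {e : κ} (he : IsU V e)
    (h : z - algebraMap κ N e ∈ W.nonunits) : False := by
  have hδ0 : δ ≠ 0 := by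
    rintro rfl
    exact hδ1 (map_zero σ)
  have hnon : ∀ z : N, z ∈ W.nonunits → f z ∈ W.nonunits := by
    intro z hz
    rw [nonunits_iff] at hz ⊢
    refine ⟨(hW z).2 hz.1, ?_⟩
    rcases hz.2 with h1 | h1
    · left; rw [h1, map_zero]
    · right
      rw [← map_inv₀, hW]
      exact h1
  have h1 := hnon _ h
  rw [map_sub, hz, hf] at h1
  have h2 : algebraMap κ N (σ δ / δ) * (z - algebraMap κ N e) ∈ W.nonunits := non_mul (hκ _) h
  have h3 : algebraMap κ N ((σ δ / δ) * e - σ e) ∈ W.nonunits := by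
    have h4 : algebraMap κ N ((σ δ / δ) * e - σ e) = (algebraMap κ N (σ δ / δ) * z -
        algebraMap κ N (σ e)) - algebraMap κ N (σ δ / δ) * (z - algebraMap κ N e) := by
      rw [map_sub, map_mul]; ring
    rw [h4]
    exact non_sub h1 h2
  have h4 := const_non hκ h3
  have h5 : σ e / e = σ δ / δ := by
    rw [div_eq_iff he.1]
    exact (sub_eq_zero.1 h4).symm
  have h6 : (σ e / e) ^ ℓ = 1 := by
    rw [h5, div_pow, ← map_pow, hδ, div_self (pow_ne_zero _ hδ0)]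
  have h7 : σ e / e - 1 = e⁻¹ * (σ e - e) := by
    have := he.1
    field_simp
  have h8 := Pool.Agent.Y748.PS.rou_eq_one hl h6
    (by rw [h7]; exact Pool.Agent.Y748.PS.nu_mul he.2.2 (hσ.2 e he.2.1))
  rw [h5] at h8
  exact hδ1 ((div_eq_one_iff_eq hδ0).1 h8)

end contra

end Pool.Agent.X281.OB
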