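import Pool.Agent.X281.OB.Many1

/-!
# An unramified coordinate
-/

set_option autoImplicit false
set_option linter.all false

open Polynomial FF Pool.Agent.Y157.PS Pool.Agent.X281.FL

namespace Pool.Agent.X281.OB

theorem kum_root {κ F N : Type} [Field κ] [IsAlgClosed κ] [CharZero κ] [Field F] [Field N]
    [Algebra F N] [Algebra κ N] {ℓ : ℕ} (hℓ : 0 < ℓ) (f : N ≃ₐ[F] N) {t : N} (ht : t ≠ 0)
    (h : f (t ^ ℓ) = t ^ ℓ) : ∃ ξ : κ, ξ ^ ℓ = 1 ∧ f t = algebraMap κ N ξ * t := by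
  obtain ⟨ξ, h1, h2⟩ := Pool.Agent.Y748.PS.rou_const (κ := κ) hℓ (show (f t / t) ^ ℓ = 1 by
    rw [div_pow, ← map_pow, h, div_self (pow_ne_zero _ ht)])
  exact ⟨ξ, h1, by rw [h2, div_mul_cancel₀ _ ht]⟩

section mp

variable {A k κ F N : Type} [CommRing A] [IsDomain A] [IsDiscreteValuationRing A]
  [Finite (IsLocalRing.ResidueField A)] [Field k] [CharZero k] [Algebra A k] [IsFractionRing A k]
  [Field κ] [Algebra k κ] [Algebra A κ] [IsScalarTower A k κ] [IsAlgClosure k κ]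
  [Field F] [Field N] [Algebra F N] [Algebra κ N]

/-- **an unramified coordinate**: if there are more than `ℓ` branch points, then for two of them
a twist of `((x - b₁) / (x - b₂)) ^ (1 / ℓ)` by a unit is fixed -/
theorem exists_T {ℓ : ℕ} [hp : Fact ℓ.Prime] {V : ValuationSubring κ}
    (hVa : ∀ a : A, algebraMap A κ a ∈ V)
    (hVm : ∀ a ∈ IsLocalRing.maximalIdeal A, algebraMap A κ a ∈ V.nonunits)
    (hℓA : IsUnit (ℓ : A)) {B : Finset κ}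
    (hBfix : ∀ σ : κ ≃ₐ[k] κ, ∀ b ∈ B, σ b = b) (hbig : ℓ < B.card) (X : N)
    (hXne : ∀ b : κ, X ≠ algebraMap κ N b)
    (S : (κ ≃ₐ[k] κ) →* (N ≃ₐ[F] N))
    (hconst : ∀ σ c, S σ (algebraMap κ N c) = algebraMap κ N (σ c))
    (hfixX : ∀ σ, S σ X = X)
    (hcont : ∀ z : N, ∃ E : IntermediateField k κ, FiniteDimensional k E ∧
      ∀ σ ∈ E.fixingSubgroup, S σ z = z)
    (hroots : ∃ b₀ ∈ B, ∀ b ∈ B, ∃ t : N, t ^ ℓ * (X - algebraMap κ N b₀) =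
      X - algebraMap κ N b) :
    ∃ (υ b₁ b₂ : κ) (T : N), IsU V υ ∧ b₁ ≠ b₂ ∧ b₁ ∈ B ∧ b₂ ∈ B ∧ (∀ σ : κ ≃ₐ[k] κ, σ υ = υ) ∧
      T ^ ℓ * (X - algebraMap κ N b₂) = algebraMap κ N υ * (X - algebraMap κ N b₁) ∧
      ∀ σ, S σ T = T := by
  classical
  haveI : IsAlgClosed κ := IsAlgClosure.isAlgClosed k
  haveI : CharZero κ := charZero_of_injective_algebraMap (algebraMap k κ).injective
  have hℓ0 : ℓ ≠ 0 := hp.out.ne_zero
  haveI : NeZero ℓ := ⟨hℓ0⟩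
  have hXb : ∀ b, X - algebraMap κ N b ≠ 0 := fun b => sub_ne_zero.2 (hXne b)
  have hSX : ∀ σ, ∀ b ∈ B, S σ (X - algebraMap κ N b) = X - algebraMap κ N b := by
    intro σ b hb
    rw [map_sub, hfixX, hconst, hBfix σ b hb]
  obtain ⟨ϖ, hϖ⟩ := IsDiscreteValuationRing.exists_irreducible A
  obtain ⟨σ₁, η, hσ₁, hη, hact⟩ := exists_ine (k := k) (ℓ := ℓ) V hVa hVm hℓA ϖ hϖ
  obtain ⟨b₀, hb₀, ht⟩ := hroots
  choose! t ht using ht
  have htp : ∀ b ∈ B, t b ^ ℓ = (X - algebraMap κ N b) / (X - algebraMap κ N b₀) := fun b hb => by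
    rw [eq_div_iff (hXb b₀), ht b hb]
  have ht0 : ∀ b ∈ B, t b ≠ 0 := by
    intro b hb h
    have h1 := ht b hb
    rw [h, zero_pow hℓ0, zero_mul] at h1
    exact hXb b h1.symm
  have hξ : ∀ b ∈ B, ∃ ξ : κ, ξ ^ ℓ = 1 ∧ S σ₁ (t b) = algebraMap κ N ξ * t b := fun b hb =>
    kum_root hp.out.pos _ (ht0 b hb) (by
      rw [htp b hb, map_div₀, hSX σ₁ b hb, hSX σ₁ b₀ hb₀])
  choose! ξ hξ1 hξ2 using hξ
  obtain ⟨ζ, hζ⟩ := HasEnoughRootsOfUnity.exists_primitiveRoot κ ℓ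
  obtain ⟨b₁, hb₁, b₂, hb₂, hne, heq⟩ := Finset.exists_ne_map_eq_of_card_lt_of_maps_to (s := B)
    (t := nthRootsFinset ℓ (1 : κ)) (by rw [hζ.card_nthRootsFinset]; exact hbig) (f := ξ)
    (fun b hb => (mem_nthRootsFinset hp.out.pos _).2 (hξ1 b hb))
  obtain ⟨T0, hT0⟩ : ∃ T0 : N, T0 = t b₁ / t b₂ := ⟨_, rfl⟩
  have hT00 : T0 ≠ 0 := by rw [hT0]; exact div_ne_zero (ht0 b₁ hb₁) (ht0 b₂ hb₂)
  have hT0p : T0 ^ ℓ = (X - algebraMap κ N b₁) / (X - algebraMap κ N b₂) := by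
    rw [hT0, div_pow, htp b₁ hb₁, htp b₂ hb₂, div_div_div_cancel_right₀ (hXb b₀)]
  have hT0σ : S σ₁ T0 = T0 := by
    have hξ0 : algebraMap κ N (ξ b₂) ≠ 0 := by
      rw [_root_.map_ne_zero]
      intro h
      have := hξ1 b₂ hb₂
      rw [h, zero_pow hℓ0] at this
      exact zero_ne_one this
    rw [hT0, map_div₀, hξ2 b₁ hb₁, hξ2 b₂ hb₂, heq, mul_div_mul_left _ _ hξ0]
  -- the Kummer cocycle
  have hχ : ∀ σ, ∃ χ : κ, χ ^ ℓ = 1 ∧ S σ T0 = algebraMap κ N χ * T0 := fun σ =>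
    kum_root hp.out.pos _ hT00 (by rw [hT0p, map_div₀, hSX σ b₁ hb₁, hSX σ b₂ hb₂])
  choose χ hχ1 hχ2 using hχ
  have hinj : Function.Injective (algebraMap κ N) := (algebraMap κ N).injective
  have hmul : ∀ σ τ, χ (σ * τ) = χ σ * σ (χ τ) := by
    intro σ τ
    apply hinj
    apply mul_right_cancel₀ hT00
    rw [← hχ2, map_mul]
    change S σ (S τ T0) = _
    rw [hχ2 τ, map_mul, hconst, hχ2 σ, map_mul]
    ring
  obtain ⟨τ₀, hτ0, hτ, t', ht'⟩ := Pool.Agent.Y158.FQ.exists_kum hp.out.pos χ hχ1 hmul (by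
    obtain ⟨E, hE, hE'⟩ := hcont T0
    refine ⟨E, hE, fun σ hσ => ?_⟩
    apply hinj
    apply mul_right_cancel₀ hT00
    rw [← hχ2, hE' σ hσ, map_one, one_mul])
  have ht'0 : t' ≠ 0 := by
    rintro rfl
    rw [map_zero] at ht'
    exact pow_ne_zero _ hτ0 ht'.symm
  obtain ⟨n, u, hu, hn⟩ := exists_val hϖ ht'0
  have hτp : τ₀ ^ ℓ = algebraMap A κ u * algebraMap A κ ϖ ^ n := by
    rw [← ht', hn, map_mul, map_zpow₀, ← IsScalarTower.algebraMap_apply,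
      ← IsScalarTower.algebraMap_apply]
  have hχσ : χ σ₁ = 1 := by
    apply hinj
    apply mul_right_cancel₀ hT00
    rw [← hχ2, hT0σ, map_one, one_mul]
  have hdvd : (ℓ : ℤ) ∣ n := by
    have h1 := hact u n τ₀ hu hτp
    rw [hτ, hχσ] at h1
    exact (hη.zpow_eq_one_iff_dvd n).1 h1.symm
  obtain ⟨j, rfl⟩ := hdvd
  have hϖ0 : algebraMap A κ ϖ ≠ 0 := by
    intro h
    apply hϖ.ne_zero
    apply IsFractionRing.injective A k
    apply (algebraMap k κ).injective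
    rw [← IsScalarTower.algebraMap_apply, h, map_zero, map_zero]
  have huU : IsU V (algebraMap A κ u) := isU_alg V hVa u hu
  obtain ⟨τ, hτdef⟩ : ∃ τ : κ, τ = τ₀ / algebraMap A κ ϖ ^ j := ⟨_, rfl⟩
  have hτ1 : τ ^ ℓ = algebraMap A κ u := by
    rw [hτdef, div_pow, hτp, ← zpow_natCast (algebraMap A κ ϖ ^ j), ← zpow_mul, mul_comm j,
      mul_div_cancel_right₀ _ (zpow_ne_zero _ hϖ0)]
  have hτne : τ ≠ 0 := by rw [hτdef]; exact div_ne_zero hτ0 (zpow_ne_zero _ hϖ0)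
  have hAfix : ∀ (σ : κ ≃ₐ[k] κ) (a : A), σ (algebraMap A κ a) = algebraMap A κ a := fun σ a => by
    rw [IsScalarTower.algebraMap_apply A k κ]
    exact σ.commutes _
  have hστ : ∀ σ : κ ≃ₐ[k] κ, σ τ = χ σ * τ := by
    intro σ
    rw [hτdef, map_div₀, map_zpow₀, hAfix, ← hτ σ]
    field_simp
  refine ⟨(algebraMap A κ u)⁻¹, b₁, b₂, T0 / algebraMap κ N τ, isU_inv' huU, hne, hb₁, hb₂,
    fun σ => by rw [map_inv₀, hAfix], ?_, fun σ => ?_⟩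
  · rw [div_pow, ← map_pow, hτ1, hT0p, map_inv₀]
    have := hXb b₂
    field_simp
  · have h1 : χ σ ≠ 0 := by
      intro h
      have := hχ1 σ
      rw [h, zero_pow hℓ0] at this
      exact zero_ne_one this
    rw [map_div₀, hconst, hστ, map_mul, hχ2, mul_div_mul_left _ _ ((_root_.map_ne_zero _).2 h1)]

end mp

end Pool.Agent.X281.OB
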