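import Pool.Agent.X281.OB.Many2

/-!
# The place of a section if all branch points are rational
-/

set_option autoImplicit false
set_option linter.all false

open Polynomial FF Pool.Agent.Y157.PS Pool.Agent.X281.FL

namespace Pool.Agent.X281.OB

section zz

variable {κ F N : Type} [Field κ] [IsAlgClosed κ] [CharZero κ] [Field F] [Field N] [Algebra F N]
  [Algebra κ N]

/-- the values of `∏ (T ^ ℓ - y) ^ c(y)` at the zeros and at the poles of `T` -/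
theorem value_zero {ℓ : ℕ} [hp : Fact ℓ.Prime] {V : ValuationSubring κ} {W : ValuationSubring N}
    (hκ : ∀ c : κ, algebraMap κ N c ∈ W) (B' : Finset κ) (hU : ∀ y ∈ B', IsU V y) (c : κ → ℕ)
    {T Z : N} (hT : T ∈ W.nonunits)
    (hZ : Z ^ ℓ = ∏ y ∈ B', (T ^ ℓ - algebraMap κ N y) ^ c y) :
    ∃ e : κ, IsU V e ∧ Z - algebraMap κ N e ∈ W.nonunits := by
  have hρ : IsU V (∏ y ∈ B', (-y) ^ c y) :=
    isU_prod' _ _ fun y hy => Pool.Agent.Y748.PS.isU_pow (isU_neg' (hU y hy)) _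
  have h1 : Z ^ ℓ - algebraMap κ N (∏ y ∈ B', (-y) ^ c y) ∈ W.nonunits := by
    rw [hZ]
    refine near_prod hκ _ _ _ fun y hy => near_pow hκ ?_ _
    have h2 : T ^ ℓ - algebraMap κ N y - algebraMap κ N (-y) = T ^ ℓ := by
      rw [map_neg]; ring
    rw [h2]
    exact (non_pow_iff hp.out.ne_zero).2 hT
  obtain ⟨e, he, h3⟩ := near_root hκ hρ.1 h1
  exact ⟨e, Pool.Agent.Y748.PS.isU_of_pow hp.out.pos (he ▸ hρ), h3⟩

theorem value_pole {ℓ : ℕ} [hp : Fact ℓ.Prime] {V : ValuationSubring κ} {W : ValuationSubring N}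
    (hκ : ∀ c : κ, algebraMap κ N c ∈ W) (B' : Finset κ) (c : κ → ℕ)
    {T Z : N} (hT0 : T ≠ 0) (hT : T⁻¹ ∈ W.nonunits)
    (hZ : Z ^ ℓ = ∏ y ∈ B', (T ^ ℓ - algebraMap κ N y) ^ c y) :
    ∃ e : κ, IsU V e ∧ Z * (T⁻¹) ^ (∑ y ∈ B', c y) - algebraMap κ N e ∈ W.nonunits := by
  have h1 : (Z * (T⁻¹) ^ (∑ y ∈ B', c y)) ^ ℓ - algebraMap κ N (∏ y ∈ B', (1 : κ) ^ c y) ∈
      W.nonunits := by
    have h2 : (Z * (T⁻¹) ^ (∑ y ∈ B', c y)) ^ ℓ =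
        ∏ y ∈ B', ((T ^ ℓ - algebraMap κ N y) * (T⁻¹) ^ ℓ) ^ c y := by
      rw [mul_pow, hZ, ← pow_mul, mul_comm (∑ y ∈ B', c y), pow_mul, ← Finset.prod_pow_eq_pow_sum,
        ← Finset.prod_mul_distrib]
      exact Finset.prod_congr rfl fun y _ => by rw [mul_pow]
    rw [h2]
    refine near_prod hκ _ _ _ fun y hy => near_pow hκ ?_ _
    have h3 : (T ^ ℓ - algebraMap κ N y) * (T⁻¹) ^ ℓ - algebraMap κ N 1 =
        algebraMap κ N (-y) * (T⁻¹) ^ ℓ := by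
      rw [sub_mul, ← mul_pow, mul_inv_cancel₀ hT0, one_pow, map_one, map_neg]
      ring
    rw [h3]
    exact non_mul (hκ _) ((non_pow_iff hp.out.ne_zero).2 hT)
  have h4 : ∏ y ∈ B', (1 : κ) ^ c y = 1 := Finset.prod_eq_one fun y _ => one_pow _
  rw [h4] at h1
  obtain ⟨e, he, h3⟩ := near_root hκ one_ne_zero h1
  exact ⟨e, Pool.Agent.Y748.PS.isU_of_pow hp.out.pos (he ▸ Pool.Agent.Y748.PS.isU_one), h3⟩

end zz

section mp

variable {A k κ F N R M : Type} [CommRing A] [IsDomain A] [IsDiscreteValuationRing A]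
  [Finite (IsLocalRing.ResidueField A)] [Field k] [CharZero k] [Algebra A k] [IsFractionRing A k]
  [Field κ] [Algebra k κ] [Algebra A κ] [IsScalarTower A k κ] [IsAlgClosure k κ]
  [Field F] [Field N] [Algebra F N] [Algebra κ N]
  [Field R] [Field M] [Algebra κ R] [Algebra R M] [Algebra κ M] [IsScalarTower κ R M]

/-- **the place of a section** if all branch points are rational -/
theorem place_E {ℓ : ℕ} [hp : Fact ℓ.Prime] {V : ValuationSubring κ}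
    (hVa : ∀ a : A, algebraMap A κ a ∈ V)
    (hVm : ∀ a ∈ IsLocalRing.maximalIdeal A, algebraMap A κ a ∈ V.nonunits)
    (hℓA : IsUnit (ℓ : A)) (hdec : ∀ σ : κ ≃ₐ[k] κ, Dec V σ) {B : Finset κ} (hG : Good V B)
    (hBfix : ∀ σ : κ ≃ₐ[k] κ, ∀ b ∈ B, σ b = b) {X : N}
    (hXne : ∀ b : κ, X ≠ algebraMap κ N b)
    (S : (κ ≃ₐ[k] κ) →* (N ≃ₐ[F] N))
    (hconst : ∀ σ c, S σ (algebraMap κ N c) = algebraMap κ N (σ c))
    (hcont : ∀ z : N, ∃ E : IntermediateField k κ, FiniteDimensional k E ∧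
      ∀ σ ∈ E.fixingSubgroup, S σ z = z)
    {c : κ → ℕ} {n : ℕ} (hn : ∑ b ∈ B, c b = n * ℓ) {Z : N}
    (hZ : Z ^ ℓ = ∏ b ∈ B, (X - algebraMap κ N b) ^ c b) {δ : κ}
    (hδfix : ∀ σ : κ ≃ₐ[k] κ, σ (δ ^ ℓ) = δ ^ ℓ)
    (hδ1 : ∃ σ : κ ≃ₐ[k] κ, Ine V σ ∧ σ δ ≠ δ)
    (hsZ : ∀ σ, S σ Z = algebraMap κ N (σ δ / δ) * Z)
    {υ b₁ b₂ : κ} {T : N} (hυ : IsU V υ) (h12 : b₁ ≠ b₂) (h1 : b₁ ∈ B) (h2 : b₂ ∈ B)
    (hυfix : ∀ σ : κ ≃ₐ[k] κ, σ υ = υ)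
    (hT : T ^ ℓ * (X - algebraMap κ N b₂) = algebraMap κ N υ * (X - algebraMap κ N b₁))
    (hST : ∀ σ, S σ T = T) {x' : R} {Y : M}
    (hC : Cov ℓ κ R M x' (bt ℓ (mbB B υ b₁ b₂)) Y) (eqv : M ≃+* N)
    (hcc : ∀ c, eqv (algebraMap κ M c) = algebraMap κ N c) (hx' : eqv (algebraMap R M x') = T) :
    ∃ W : ValuationSubring N, ((∀ c : κ, algebraMap κ N c ∈ W) ∧
        (∀ z ∈ W, ∃ c : κ, z - algebraMap κ N c ∈ W.nonunits) ∧
        (∃ b ∈ B, X - algebraMap κ N b ∈ W.nonunits) ∧ (∀ σ z, S σ z ∈ W ↔ z ∈ W)) ∧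
      ∀ W' : ValuationSubring N, (∀ c : κ, algebraMap κ N c ∈ W') →
        (∃ b ∈ B, X - algebraMap κ N b ∈ W'.nonunits) →
        (∀ σ z, S σ z ∈ W' ↔ z ∈ W') → W' = W := by
  classical
  haveI : IsAlgClosed κ := IsAlgClosure.isAlgClosed k
  haveI : CharZero κ := charZero_of_injective_algebraMap (algebraMap k κ).injective
  haveI : Normal k κ := IsAlgClosure.normal k κ
  haveI : IsGalois k κ := ⟨⟩
  have hℓ0 : ℓ ≠ 0 := hp.out.ne_zero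
  have hl : IsU V (ℓ : κ) := by
    have h := isU_alg V hVa (ℓ : A) hℓA
    rwa [map_natCast] at h
  have hυ0 := hυ.1
  have hT0 : T ≠ 0 := by
    rintro rfl
    rw [zero_pow hℓ0, zero_mul] at hT
    rcases mul_eq_zero.1 hT.symm with h | h
    · exact hυ0 ((_root_.map_eq_zero _).1 h)
    · exact hXne b₁ (sub_eq_zero.1 h)
  have hδ0 : δ ≠ 0 := by
    rintro rfl
    obtain ⟨σ, -, h⟩ := hδ1
    exact h (map_zero σ)
  -- the new branch points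
  obtain ⟨hG', hU'⟩ := good_mob hG hυ h12 h1 h2
  have hyfix : ∀ σ : κ ≃ₐ[k] κ, ∀ y ∈ mbB B υ b₁ b₂, σ y = y := by
    intro σ y hy
    obtain ⟨b, hb, hb1, hb2, rfl⟩ := mem_mbB.1 hy
    unfold mob
    rw [map_div₀, map_mul, map_sub, map_sub, hυfix, hBfix σ b hb, hBfix σ b₁ h1, hBfix σ b₂ h2]
  have hGbt := good_bt hl hG' hU'
  have hBbt : ∀ σ : κ ≃ₐ[k] κ, ∀ e ∈ bt ℓ (mbB B υ b₁ b₂), σ e ∈ bt ℓ (mbB B υ b₁ b₂) := by
    intro σ e he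
    rw [mem_bt hp.out.pos] at he ⊢
    rw [← map_pow, hyfix σ _ he]
    exact he
  -- the constant
  have hlamU : IsU V (mbl B c υ b₁ b₂) := mbl_U hG hυ h12 h1 h2
  have hlamfix : ∀ σ : κ ≃ₐ[k] κ, σ (mbl B c υ b₁ b₂) = mbl B c υ b₁ b₂ := by
    intro σ
    unfold mbl
    rw [map_mul, map_mul, map_pow, map_pow, map_mul, map_sub, hυfix, hBfix σ b₁ h1,
      hBfix σ b₂ h2, map_prod]
    congr 1
    refine Finset.prod_congr rfl fun y hy => ?_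
    obtain ⟨b, hb, hb1, hb2, rfl⟩ := mem_mbB.1 hy
    rw [mobi_mob hυ0 h12 hb2, map_pow, map_sub, hBfix σ b hb, hBfix σ b₂ h2]
  obtain ⟨μ, hμ⟩ := IsAlgClosed.exists_pow_nat_eq (mbl B c υ b₁ b₂) hp.out.pos
  have hμU : IsU V μ := Pool.Agent.Y748.PS.isU_of_pow hp.out.pos (hμ ▸ hlamU)
  have hμN : algebraMap κ N μ ≠ 0 := (_root_.map_ne_zero _).2 hμU.1
  have hμfix : ∀ σ : κ ≃ₐ[k] κ, σ (μ ^ ℓ) = μ ^ ℓ := fun σ => by rw [hμ, hlamfix]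
  -- the element `Z'`
  have heqn := mob_eqn (ℓ := ℓ) (M := N) (B := B) (c := c) h12 hυ0 h1 h2 (hXne b₂) hT hZ hn
  obtain ⟨Z', hZ'⟩ : ∃ Z' : N, Z' = Z * (T ^ ℓ - algebraMap κ N υ) ^ n /
      (algebraMap κ N μ * T ^ c b₁) := ⟨_, rfl⟩
  have hZ'p : Z' ^ ℓ = ∏ y ∈ mbB B υ b₁ b₂,
      (T ^ ℓ - algebraMap κ N y) ^ c (mobi υ b₁ b₂ y) := by
    rw [hZ', div_pow, heqn, mul_pow, ← map_pow, hμ, ← pow_mul, ← pow_mul, mul_comm (c b₁) ℓ,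
      ← mul_assoc, mul_div_cancel_left₀]
    exact mul_ne_zero ((_root_.map_ne_zero _).2 hlamU.1) (pow_ne_zero _ hT0)
  obtain ⟨δ', hδ'⟩ : ∃ δ' : κ, δ' = δ / μ := ⟨_, rfl⟩
  have hδ'0 : δ' ≠ 0 := by rw [hδ']; exact div_ne_zero hδ0 hμU.1
  have hsZ' : ∀ σ, S σ Z' = algebraMap κ N (σ δ' / δ') * Z' := by
    intro σ
    have h3 : σ μ ≠ 0 := (_root_.map_ne_zero σ).2 hμU.1
    have h4 : algebraMap κ N (σ μ) ≠ 0 := (_root_.map_ne_zero _).2 h3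
    have h5 : algebraMap κ N δ ≠ 0 := (_root_.map_ne_zero _).2 hδ0
    have h6 : T ^ c b₁ ≠ 0 := pow_ne_zero _ hT0
    rw [hZ', map_div₀, map_mul, map_mul, map_pow, map_pow, map_sub, map_pow, hST, hconst, hconst,
      hυfix, hsZ, hδ', map_div₀ σ, map_div₀, map_div₀, map_div₀, map_div₀]
    field_simp
  have hδ'fix : ∀ σ : κ ≃ₐ[k] κ, σ (δ' ^ ℓ) = δ' ^ ℓ := by
    intro σ
    rw [hδ', div_pow, map_div₀, hδfix, hμfix]
  obtain ⟨σ₀, hσ₀, hσ₀1⟩ := hδ1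
  have hσ₀' : σ₀ δ' ≠ δ' := by
    intro h
    apply hσ₀1
    have h3 := ine_unit hl hσ₀ hμU (hμfix σ₀)
    rw [hδ', map_div₀, h3] at h
    exact (div_left_inj' hμU.1).1 h
  -- the valuation of `δ'`
  obtain ⟨t, ht⟩ : ∃ t : k, algebraMap k κ t = δ' ^ ℓ := by
    have h5 := (InfiniteGalois.mem_bot_iff_fixed (δ' ^ ℓ)).2 fun σ => hδ'fix σ
    exact IntermediateField.mem_bot.1 h5
  have ht0 : t ≠ 0 := by
    rintro rfl
    rw [map_zero] at ht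
    exact pow_ne_zero _ hδ'0 ht.symm
  obtain ⟨ϖ, hϖ⟩ := IsDiscreteValuationRing.exists_irreducible A
  obtain ⟨n₂, u₂, hu₂, hn₂⟩ := exists_val hϖ ht0
  have hδ'p : δ' ^ ℓ = algebraMap A κ u₂ * algebraMap A κ ϖ ^ n₂ := by
    rw [← ht, hn₂, map_mul, map_zpow₀, ← IsScalarTower.algebraMap_apply,
      ← IsScalarTower.algebraMap_apply]
  have hndvd : ¬ (ℓ : ℤ) ∣ n₂ := by
    rintro ⟨j, rfl⟩
    exact hσ₀' (ine_fix V hVa hℓA ϖ hϖ σ₀ hσ₀ u₂ hu₂ j δ' hδ'p)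
  -- the place
  have hs' : ∀ σ z, eqv (conjSec eqv S σ z) = S σ (eqv z) := fun σ z => conjSec_apply eqv S σ z
  have hc' : ∀ e : κ, eqv (algebraMap R M x' - algebraMap κ M e) = T - algebraMap κ N e :=
    fun e => by rw [map_sub, hx', hcc]
  obtain ⟨Q, ⟨e, heB, hQe, hfix⟩, hQfix, hQun⟩ := orb_loc (k := k) hVa hVm hℓA ϖ hϖ hC hGbt hBbt
    (conjSec eqv S) (fun σ c => eqv.injective (by rw [hs', hcc, hcc, hconst]))
    (fun σ => eqv.injective (by rw [hs', hx', hST])) (fun z => by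
      obtain ⟨E, hE, hE'⟩ := hcont (eqv z)
      exact ⟨E, hE, fun σ hσ => eqv.injective (by rw [hs', hE' σ hσ])⟩)
    (fun e => c (mobi υ b₁ b₂ (e ^ ℓ))) (eqv.symm Z') (eqv.injective (by
      rw [map_pow, eqv.apply_symm_apply, map_prod, hZ'p,
        ← bt_prod (mbB B υ b₁ b₂) (mbB_zero hυ0) (fun y => c (mobi υ b₁ b₂ y)) T]
      exact Finset.prod_congr rfl fun e _ => by rw [map_pow, hc']))
    δ' u₂ hu₂ n₂ hndvd hδ'p (fun σ => eqv.injective (by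
      rw [hs', eqv.apply_symm_apply, map_mul, hcc, eqv.apply_symm_apply, hsZ']))
  obtain ⟨W, ⟨w1, w2, ⟨e', he'B, -, he'⟩, w4⟩, hun⟩ := place_to_valX hC eqv T hx' S
    (fun σ c => by rw [hcc, hcc, hconst])
    ⟨Q, ⟨e, heB, hQe, fun σ => hfix σ (hdec σ)⟩, fun σ => hQfix σ (hdec σ), fun Q' h5 h6 =>
      hQun Q' h5 fun σ _ => h6 σ⟩
  have w1' : ∀ c : κ, algebraMap κ N c ∈ W := fun c => hcc c ▸ w1 c
  rw [hcc] at he'
  refine ⟨W, ⟨w1', fun z hz => ?_, ?_, w4⟩, fun W' hW'1 hW'2 hW'3 => ?_⟩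
  · obtain ⟨c, hc⟩ := w2 z hz
    exact ⟨c, by rw [hcc] at hc; exact hc⟩
  · rw [mem_bt hp.out.pos] at he'B
    obtain ⟨b, hb, hb1, hb2, hbe⟩ := mem_mbB.1 he'B
    exact ⟨b, hb, near_mob' w1' h12 hυ0 (hXne b₂) hT hb2 hbe.symm he'⟩
  · obtain ⟨b, hb, hXb⟩ := hW'2
    obtain ⟨n1, n2, n3⟩ := near_mob hW'1 h12 hυ0 (hXne b₂) hT hXb
    have hbb1 : b ≠ b₁ := by
      intro h
      obtain ⟨e, he, h3⟩ := value_zero hW'1 (mbB B υ b₁ b₂) hU' _ (n1 h) hZ'p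
      exact no_value hl (S σ₀) hσ₀ (hconst σ₀) hW'1 (hW'3 σ₀) (hδ'fix σ₀) hσ₀' (hsZ' σ₀) he h3
    have hbb2 : b ≠ b₂ := by
      intro h
      obtain ⟨e, he, h3⟩ := value_pole (V := V) hW'1 (mbB B υ b₁ b₂) _ hT0 (n2 h) hZ'p
      refine no_value hl (S σ₀) hσ₀ (hconst σ₀) hW'1 (hW'3 σ₀) (hδ'fix σ₀) hσ₀' ?_ he h3
      rw [map_mul, map_pow, map_inv₀, hST, hsZ', mul_assoc]
    obtain ⟨e, he, h3⟩ := n3 hbb1 hbb2
    refine hun W' (fun c => by rw [hcc]; exact hW'1 c) ⟨e, ?_, by rw [hcc]; exact h3⟩ hW'3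
    rw [mem_bt hp.out.pos, he]
    exact mem_mbB.2 ⟨b, hb, hbb1, hbb2, rfl⟩

end mp

end Pool.Agent.X281.OB
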