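import Pool.Agent.X281.OB.Many3

/-!
# The place of a section if there are more than `ℓ` branch points
-/

set_option autoImplicit false
set_option linter.all false

open Polynomial FF Pool.Agent.Y157.PS Pool.Agent.X281.FL

namespace Pool.Agent.X281.OB

section mp

variable {A k κ F N : Type} [CommRing A] [IsDomain A] [IsDiscreteValuationRing A]
  [Finite (IsLocalRing.ResidueField A)] [Field k] [CharZero k] [Algebra A k] [IsFractionRing A k]
  [Field κ] [Algebra k κ] [Algebra A κ] [IsScalarTower A k κ] [IsAlgClosure k κ]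
  [Field F] [Field N] [Algebra F N] [Algebra κ N]

/-- **the place of a section** -/
theorem many_place {ℓ : ℕ} [hp : Fact ℓ.Prime] {V : ValuationSubring κ}
    (hVa : ∀ a : A, algebraMap A κ a ∈ V)
    (hVm : ∀ a ∈ IsLocalRing.maximalIdeal A, algebraMap A κ a ∈ V.nonunits)
    (hℓA : IsUnit (ℓ : A)) (ϖ : A) (hϖ : Irreducible ϖ) (hdec : ∀ σ : κ ≃ₐ[k] κ, Dec V σ)
    {B : Finset κ} (hG : Good V B) (hB : ∀ σ : κ ≃ₐ[k] κ, ∀ e ∈ B, σ e ∈ B)
    (hbig : ℓ < B.card) {X : N} (hXne : ∀ b : κ, X ≠ algebraMap κ N b)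
    (S : (κ ≃ₐ[k] κ) →* (N ≃ₐ[F] N))
    (hconst : ∀ σ c, S σ (algebraMap κ N c) = algebraMap κ N (σ c))
    (hfixX : ∀ σ, S σ X = X)
    (hcont : ∀ z : N, ∃ E : IntermediateField k κ, FiniteDimensional k E ∧
      ∀ σ ∈ E.fixingSubgroup, S σ z = z)
    {c : κ → ℕ} {n : ℕ} (hn : ∑ b ∈ B, c b = n * ℓ) {Z : N}
    (hZ : Z ^ ℓ = ∏ b ∈ B, (X - algebraMap κ N b) ^ c b) (δ : κ) (u : A) (hu : IsUnit u) (m : ℤ)
    (hm : ¬ (ℓ : ℤ) ∣ m) (hδ : δ ^ ℓ = algebraMap A κ u * algebraMap A κ ϖ ^ m)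
    (hsZ : ∀ σ, S σ Z = algebraMap κ N (σ δ / δ) * Z)
    (hroots : ∃ b₀ ∈ B, ∀ b ∈ B, ∃ t : N, t ^ ℓ * (X - algebraMap κ N b₀) = X - algebraMap κ N b)
    (hcov : ∀ (υ b₁ b₂ : κ) (T : N), υ ≠ 0 → b₁ ≠ b₂ → b₁ ∈ B → b₂ ∈ B →
      T ^ ℓ * (X - algebraMap κ N b₂) = algebraMap κ N υ * (X - algebraMap κ N b₁) →
      ∃ (R M : Type) (_ : Field R) (_ : Field M) (_ : Algebra κ R) (_ : Algebra R M)
        (_ : Algebra κ M) (_ : IsScalarTower κ R M) (x' : R) (Y : M) (eqv : M ≃+* N),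
        Cov ℓ κ R M x' (bt ℓ (mbB B υ b₁ b₂)) Y ∧
        (∀ c, eqv (algebraMap κ M c) = algebraMap κ N c) ∧ eqv (algebraMap R M x') = T) :
    ∃ W : ValuationSubring N, ((∀ c : κ, algebraMap κ N c ∈ W) ∧
        (∀ z ∈ W, ∃ c : κ, z - algebraMap κ N c ∈ W.nonunits) ∧
        (∃ b ∈ B, (∀ σ : κ ≃ₐ[k] κ, σ b = b) ∧ X - algebraMap κ N b ∈ W.nonunits) ∧
        (∀ σ z, S σ z ∈ W ↔ z ∈ W)) ∧
      ∀ W' : ValuationSubring N, (∀ c : κ, algebraMap κ N c ∈ W') →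
        (∃ b ∈ B, X - algebraMap κ N b ∈ W'.nonunits) →
        (∀ σ z, S σ z ∈ W' ↔ z ∈ W') → W' = W := by
  classical
  haveI : IsAlgClosed κ := IsAlgClosure.isAlgClosed k
  haveI : CharZero κ := charZero_of_injective_algebraMap (algebraMap k κ).injective
  have halg : Algebra.IsAlgebraic k κ := IsAlgClosure.isAlgebraic
  haveI : Normal k κ := IsAlgClosure.normal k κ
  have hℓ0 : ℓ ≠ 0 := hp.out.ne_zero
  have hδ0 : δ ≠ 0 := by
    rintro rfl
    have hϖ0 : algebraMap A κ ϖ ≠ 0 := by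
      intro h
      apply hϖ.ne_zero
      apply IsFractionRing.injective A k
      apply (algebraMap k κ).injective
      rw [← IsScalarTower.algebraMap_apply, h, map_zero, map_zero]
    rw [zero_pow hℓ0] at hδ
    exact mul_ne_zero (isU_alg V hVa u hu).1 (zpow_ne_zero _ hϖ0) hδ.symm
  -- the field `E`
  let E : IntermediateField k κ := IntermediateField.adjoin k (B : Set κ)
  have hbE : ∀ b ∈ B, b ∈ E := fun b hb => IntermediateField.subset_adjoin k _ hb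
  haveI hEfin : FiniteDimensional k E := by
    haveI : Finite (B : Set κ) := B.finite_toSet
    exact IntermediateField.finiteDimensional_adjoin (S := (B : Set κ))
      (fun z _ => (halg.isAlgebraic z).isIntegral)
  haveI : IsAlgClosure E κ := ⟨inferInstance, Algebra.IsAlgebraic.tower_top (K := k) E⟩
  obtain ⟨A', _, _, _, _, hfr', hfin', hVa', hVm', hun'⟩ := dvr_below (A := A) E V hVa hVm
  letI : Algebra A' κ := ((algebraMap E κ).comp (algebraMap A' E)).toAlgebra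
  haveI : IsScalarTower A' E κ := IsScalarTower.of_algebraMap_eq fun _ => rfl
  let res : (κ ≃ₐ[E] κ) →* (κ ≃ₐ[k] κ) := AlgEquiv.restrictScalarsHom k
  have hres : ∀ τ z, res τ z = τ z := fun τ z => rfl
  have hBfix : ∀ τ : κ ≃ₐ[E] κ, ∀ b ∈ B, τ b = b := fun τ b hb => τ.commutes ⟨b, hbE b hb⟩
  let SE : (κ ≃ₐ[E] κ) →* (N ≃ₐ[F] N) := S.comp res
  have hSE : ∀ τ z, SE τ z = S (res τ) z := fun τ z => rfl
  have hcontE : ∀ z : N, ∃ E2 : IntermediateField E κ, FiniteDimensional E E2 ∧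
      ∀ τ ∈ E2.fixingSubgroup, SE τ z = z := by
    intro z
    obtain ⟨E1, hE1, hE1'⟩ := hcont z
    obtain ⟨E2, hE2, hE2'⟩ := cont_res halg E E1 hE1
    exact ⟨E2, hE2, fun τ hτ => hE1' _ (hE2' τ hτ)⟩
  obtain ⟨υ, b₁, b₂, T, hυ, h12, h1, h2, hυfix, hT, hST⟩ := exists_T (A := A') (k := E) hVa' hVm'
    (hun' ℓ hℓA) hBfix hbig X hXne SE (fun τ c => hconst _ c) (fun τ => hfixX _) hcontE hroots
  obtain ⟨R, M, i1, i2, i3, i4, i5, i6, x', Y, eqv, hC, hcc, hx'⟩ :=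
    hcov υ b₁ b₂ T hυ.1 h12 h1 h2 hT
  -- a ramified element
  obtain ⟨σ₀, η, hσ₀, hη, hact⟩ := exists_ine (k := k) (ℓ := ℓ) V hVa hVm hℓA ϖ hϖ
  have hσδ : σ₀ δ ≠ δ := by
    intro h
    have h3 := hact u m δ hu hδ
    rw [h, div_self hδ0] at h3
    exact hm ((hη.zpow_eq_one_iff_dvd m).1 h3.symm)
  have hδ1 : ∃ τ : κ ≃ₐ[E] κ, Ine V τ ∧ τ δ ≠ δ :=
    ⟨liftE (B : Set κ) σ₀ (fun b hb => ine_fix_B hG hB hσ₀ hb),
      ⟨fun z => hσ₀.1 z, fun z hz => hσ₀.2 z hz⟩, hσδ⟩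
  have hδfix : ∀ τ : κ ≃ₐ[E] κ, τ (δ ^ ℓ) = δ ^ ℓ := by
    intro τ
    have h3 : δ ^ ℓ = algebraMap k κ (algebraMap A k u * algebraMap A k ϖ ^ m) := by
      rw [hδ, map_mul, map_zpow₀, ← IsScalarTower.algebraMap_apply,
        ← IsScalarTower.algebraMap_apply]
    rw [h3]
    exact (res τ).commutes _
  obtain ⟨W, ⟨w1, w2, ⟨b, hb, w3⟩, w4⟩, hun⟩ := place_E (A := A') (k := E) hVa' hVm' (hun' ℓ hℓA)
    (fun τ z => hdec (res τ) z) hG hBfix hXne SE (fun τ c => hconst _ c) hcontE hn hZ hδfix hδ1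
    (fun τ => hsZ (res τ)) hυ h12 h1 h2 hυfix hT hST hC eqv hcc hx'
  -- the stability
  have hstab : ∀ (g : κ ≃ₐ[k] κ) z, S g z ∈ W ↔ z ∈ W := by
    intro g
    have hm' : ∀ z : N, z ∈ W.comap (((S g : N ≃ₐ[F] N) : N ≃+* N) : N →+* N) ↔ S g z ∈ W :=
      fun z => Iff.rfl
    have hn' : ∀ z : N, z ∈ (W.comap (((S g : N ≃ₐ[F] N) : N ≃+* N) : N →+* N)).nonunits ↔
        S g z ∈ W.nonunits := fun z => comap_non ((S g : N ≃ₐ[F] N) : N ≃+* N) W z
    have heq : W.comap (((S g : N ≃ₐ[F] N) : N ≃+* N) : N →+* N) = W := by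
      refine hun _ (fun c => ?_) ⟨g⁻¹ b, hB g⁻¹ b hb, ?_⟩ (fun τ z => ?_)
      · rw [hm', hconst]
        exact w1 _
      · rw [hn', map_sub, hfixX, hconst]
        have h3 : g (g⁻¹ b) = b := by
          rw [← AlgEquiv.mul_apply, mul_inv_cancel, AlgEquiv.one_apply]
        rw [h3]
        exact w3
      · rw [hm', hm', hSE]
        have h3 : ∀ b ∈ (B : Set κ), (g * res τ * g⁻¹) b = b := by
          intro b hb
          change g (τ (g⁻¹ b)) = b
          rw [hBfix τ _ (hB g⁻¹ b hb), ← AlgEquiv.mul_apply, mul_inv_cancel, AlgEquiv.one_apply]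
        have h4 : S g (S (res τ) z) = SE (liftE (B : Set κ) (g * res τ * g⁻¹) h3) (S g z) := by
          have h5 : res (liftE (B : Set κ) (g * res τ * g⁻¹) h3) = g * res τ * g⁻¹ :=
            res_liftE _ _ _
          rw [hSE, h5, ← AlgEquiv.mul_apply, ← AlgEquiv.mul_apply, ← map_mul, ← map_mul,
            inv_mul_cancel_right]
        rw [h4]
        exact w4 _ _
    intro z
    rw [← hm', heq]
  refine ⟨W, ⟨w1, w2, ⟨b, hb, fun g => ?_, w3⟩, hstab⟩, fun W' a1 a2 a3 =>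
    hun W' a1 a2 fun τ z => a3 (res τ) z⟩
  -- the branch point is rational
  have hnon : S g (X - algebraMap κ N b) ∈ W.nonunits := by
    rw [nonunits_iff] at w3 ⊢
    refine ⟨(hstab g _).2 w3.1, ?_⟩
    rcases w3.2 with h3 | h3
    · left; rw [h3, map_zero]
    · right
      rw [← map_inv₀, hstab]
      exact h3
  rw [map_sub, hfixX, hconst] at hnon
  have h3 : algebraMap κ N (g b - b) ∈ W.nonunits := by
    have h4 : algebraMap κ N (g b - b) = (X - algebraMap κ N b) - (X - algebraMap κ N (g b)) := by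
      rw [map_sub]; ring
    rw [h4]
    exact non_sub w3 hnon
  exact sub_eq_zero.1 (const_non w1 h3)

end mp

end Pool.Agent.X281.OB
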