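import Pool.Agent.X281.OB.Many4

/-!
# The place of a section restricted to a decomposition group, more than `ℓ` branch points
-/

set_option autoImplicit false
set_option linter.all false

open Polynomial FF Pool.Agent.Y157.PS Pool.Agent.X281.FL

namespace Pool.Agent.X281.OB

section absX

variable {k κ R F M N : Type} [Field k] [Field κ] [IsAlgClosed κ] [CharZero κ] [Algebra k κ]
    [Field R] [Field F] [Field M] [Field N] [Algebra κ R] [Algebra R M] [Algebra κ M]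
    [IsScalarTower κ R M] [Algebra F N]

/-- from places of `M` to valuation rings of `N` -/
theorem place_to_valP {ℓ : ℕ} [Fact ℓ.Prime] (P : (κ ≃ₐ[k] κ) → Prop) {x' : R} {B : Finset κ} {Y' : M}
    (hCov : Cov ℓ κ R M x' B Y') (eqv : M ≃+* N) (X : N)
    (hx : eqv (algebraMap R M x') = X)
    (S : (κ ≃ₐ[k] κ) →* (N ≃ₐ[F] N))
    (hcompat : ∀ σ c, S σ (eqv (algebraMap κ M c)) = eqv (algebraMap κ M (σ c)))
    (hQ : ∃ Q : Place κ M, (∃ e ∈ B, 0 < Q.ord (algebraMap R M x' - algebraMap κ M e) ∧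
        ∀ σ : κ ≃ₐ[k] κ, P σ → σ e = e) ∧
      (∀ σ : κ ≃ₐ[k] κ, P σ → Fixes Q (conjSec eqv S σ)) ∧
      ∀ Q' : Place κ M, (∃ e ∈ B, 0 < Q'.ord (algebraMap R M x' - algebraMap κ M e)) →
        (∀ σ : κ ≃ₐ[k] κ, P σ → Fixes Q' (conjSec eqv S σ)) → Q' = Q) :
    ∃ W : ValuationSubring N,
      ((∀ c : κ, eqv (algebraMap κ M c) ∈ W) ∧
       (∀ z ∈ W, ∃ c : κ, z - eqv (algebraMap κ M c) ∈ W.nonunits) ∧
       (∃ e ∈ B, (∀ σ : κ ≃ₐ[k] κ, P σ → σ e = e) ∧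
          X - eqv (algebraMap κ M e) ∈ W.nonunits) ∧
       ∀ σ : κ ≃ₐ[k] κ, P σ → ∀ z, S σ z ∈ W ↔ z ∈ W) ∧
      ∀ W' : ValuationSubring N, (∀ c : κ, eqv (algebraMap κ M c) ∈ W') →
        (∃ e ∈ B, X - eqv (algebraMap κ M e) ∈ W'.nonunits) →
        (∀ σ : κ ≃ₐ[k] κ, P σ → ∀ z, S σ z ∈ W' ↔ z ∈ W') → W' = W := by
  classical
  let s' : (κ ≃ₐ[k] κ) →* RingAut M := conjSec eqv S
  have hs' : ∀ σ z, eqv (s' σ z) = S σ (eqv z) := fun σ z => conjSec_apply eqv S σ z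
  have hconst : ∀ σ c, s' σ (algebraMap κ M c) = algebraMap κ M (σ c) := by
    intro σ c
    apply eqv.injective
    rw [hs', hcompat]
  obtain ⟨Q, ⟨e, heB, hQe, hfix⟩, hQfix, hQun⟩ := hQ
  have hmem : ∀ z : N, z ∈ Q.O.comap (eqv.symm : N →+* M) ↔ eqv.symm z ∈ Q.O := fun z => Iff.rfl
  refine ⟨Q.O.comap (eqv.symm : N →+* M), ⟨?_, ?_, ?_, ?_⟩, ?_⟩
  · intro c
    rw [hmem, eqv.symm_apply_apply, Place.mem_O]
    exact Q.reg_const c
  · intro z hz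
    rw [hmem] at hz
    by_cases hz0 : z = 0
    · refine ⟨0, ?_⟩
      rw [comap_non, hz0, map_zero, map_zero, sub_zero, map_zero]
      exact nonunits_iff.2 ⟨zero_mem _, Or.inl rfl⟩
    have hz0' : eqv.symm z ≠ 0 := (map_ne_zero_iff _ eqv.symm.injective).2 hz0
    rw [O_iff Q hz0'] at hz
    obtain ⟨c, hc⟩ := Pool.Agent.Y536.PS.res_const κ M (algebraMap R M x') hCov.alg Q _ hz
    refine ⟨c, ?_⟩
    rw [comap_non, map_sub, eqv.symm_apply_apply]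
    rcases hc with hc | hc
    · rw [hc, sub_self]
      exact nonunits_iff.2 ⟨zero_mem _, Or.inl rfl⟩
    · have h0 : eqv.symm z - algebraMap κ M c ≠ 0 := by
        intro h0
        rw [h0, Q.ord_zero] at hc
        exact lt_irrefl _ hc
      exact (O_non_iff Q h0).2 hc
  · refine ⟨e, heB, hfix, ?_⟩
    rw [comap_non, map_sub, eqv.symm_apply_apply, ← hx, eqv.symm_apply_apply]
    have h0 : algebraMap R M x' - algebraMap κ M e ≠ 0 := by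
      intro h0
      rw [h0, Q.ord_zero] at hQe
      exact lt_irrefl _ hQe
    exact (O_non_iff Q h0).2 hQe
  · intro σ hPσ z
    rw [hmem, hmem]
    have h1 : eqv.symm (S σ z) = s' σ (eqv.symm z) := by
      apply eqv.injective
      rw [hs', eqv.apply_symm_apply, eqv.apply_symm_apply]
    rw [h1]
    exact O_of_fixes Q (s' σ) (hQfix σ hPσ) _
  · rintro W' hW'1 ⟨e', he'B, he'⟩ hW'3
    have hmem' : ∀ z : M, z ∈ W'.comap (eqv : M →+* N) ↔ eqv z ∈ W' := fun z => Iff.rfl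
    have hnon' : ∀ z : M, z ∈ (W'.comap (eqv : M →+* N)).nonunits ↔ eqv z ∈ W'.nonunits :=
      fun z => comap_non eqv W' z
    have h1 : algebraMap R M x' - algebraMap κ M e' ∈ (W'.comap (eqv : M →+* N)).nonunits := by
      rw [hnon', map_sub, hx]
      exact he'
    have hne : algebraMap R M x' - algebraMap κ M e' ≠ 0 := by
      intro h0
      have h2 : Transcendental κ (algebraMap R M x') :=
        (transcendental_algebraMap_iff (algebraMap R M).injective).2 hCov.rat.trans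
      apply h2
      rw [sub_eq_zero.1 h0]
      exact isAlgebraic_algebraMap _
    have htop : W'.comap (eqv : M →+* N) ≠ ⊤ := by
      intro h0
      rw [h0, nonunits_iff] at h1
      rcases h1.2 with h2 | h2
      · exact hne h2
      · exact h2 trivial
    obtain ⟨Q', hQ', -⟩ := hCov.loc _ (fun c => (hmem' _).2 (hW'1 c)) htop
    have h2 : Q' = Q := by
      refine hQun Q' ⟨e', he'B, ?_⟩ fun σ hPσ => ?_
      · rw [← O_non_iff Q' hne, hQ']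
        exact h1
      · refine fixes_of_O Q' (s' σ) (σ : κ ≃+* κ) (fun c => hconst σ c) fun z => ?_
        rw [hQ', hmem', hmem', hs']
        exact hW'3 σ hPσ _
    ext z
    rw [hmem, ← h2, hQ', hmem', eqv.apply_symm_apply]

end absX

section decs

variable {k κ : Type} [Field k] [Field κ] [Algebra k κ]

theorem dec_of_ine {V : ValuationSubring κ} {σ : κ ≃ₐ[k] κ} (h : Ine V σ) : Dec V σ := h.1

theorem dec_conj {V : ValuationSubring κ} {g τ : κ ≃ₐ[k] κ} (hg : Dec V g) (hτ : ∀ z, τ z ∈ V ↔ z ∈ V) :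
    Dec V (g * τ * g⁻¹) := by
  intro z
  change g (τ (g⁻¹ z)) ∈ V ↔ z ∈ V
  rw [hg, hτ]
  have h1 : g (g⁻¹ z) = z := by
    rw [← AlgEquiv.mul_apply, mul_inv_cancel, AlgEquiv.one_apply]
  conv_rhs => rw [← h1]
  exact (hg _).symm

end decs

section mp

variable {A k κ F N R M : Type} [CommRing A] [IsDomain A] [IsDiscreteValuationRing A]
  [Finite (IsLocalRing.ResidueField A)] [Field k] [CharZero k] [Algebra A k] [IsFractionRing A k]
  [Field κ] [Algebra k κ] [Algebra A κ] [IsScalarTower A k κ] [IsAlgClosure k κ]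
  [Field F] [Field N] [Algebra F N] [Algebra κ N]
  [Field R] [Field M] [Algebra κ R] [Algebra R M] [Algebra κ M] [IsScalarTower κ R M]

/-- **the place of a section** if all branch points are rational -/
theorem place_D {ℓ : ℕ} [hp : Fact ℓ.Prime] {V : ValuationSubring κ}
    (hVa : ∀ a : A, algebraMap A κ a ∈ V)
    (hVm : ∀ a ∈ IsLocalRing.maximalIdeal A, algebraMap A κ a ∈ V.nonunits)
    (hℓA : IsUnit (ℓ : A)) {B : Finset κ} (hG : Good V B)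
    (hBfix : ∀ σ : κ ≃ₐ[k] κ, ∀ b ∈ B, σ b = b) {X : N}
    (hXne : ∀ b : κ, X ≠ algebraMap κ N b)
    (S : (κ ≃ₐ[k] κ) →* (N ≃ₐ[F] N))
    (hconst : ∀ σ c, S σ (algebraMap κ N c) = algebraMap κ N (σ c))
    (hcont : ∀ z : N, ∃ E : IntermediateField k κ, FiniteDimensional k E ∧
      ∀ σ ∈ E.fixingSubgroup, S σ z = z)
    {c : κ → ℕ} {n : ℕ} (hn : ∑ b ∈ B, c b = n * ℓ) {Z : N}
    (hZ : Z ^ ℓ = ∏ b ∈ B, (X - algebraMap κ N b) ^ c b) {δ : κ}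
    (hδfix : ∀ σ : κ ≃ₐ[k] κ, σ (δ ^ ℓ) = δ ^ ℓ)
    (hδ1 : ∃ σ : κ ≃ₐ[k] κ, Ine V σ ∧ σ δ ≠ δ)
    (hsZ : ∀ σ, S σ Z = algebraMap κ N (σ δ / δ) * Z)
    {υ b₁ b₂ : κ} {T : N} (hυ : IsU V υ) (h12 : b₁ ≠ b₂) (h1 : b₁ ∈ B) (h2 : b₂ ∈ B)
    (hυfix : ∀ σ : κ ≃ₐ[k] κ, σ υ = υ)
    (hT : T ^ ℓ * (X - algebraMap κ N b₂) = algebraMap κ N υ * (X - algebraMap κ N b₁))
    (hST : ∀ σ, S σ T = T) {x' : R} {Y : M}
    (hC : Cov ℓ κ R M x' (bt ℓ (mbB B υ b₁ b₂)) Y) (eqv : M ≃+* N)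
    (hcc : ∀ c, eqv (algebraMap κ M c) = algebraMap κ N c) (hx' : eqv (algebraMap R M x') = T) :
    ∃ W : ValuationSubring N, ((∀ c : κ, algebraMap κ N c ∈ W) ∧
        (∀ z ∈ W, ∃ c : κ, z - algebraMap κ N c ∈ W.nonunits) ∧
        (∃ b ∈ B, X - algebraMap κ N b ∈ W.nonunits) ∧ (∀ σ, Dec V σ → ∀ z, S σ z ∈ W ↔ z ∈ W)) ∧
      ∀ W' : ValuationSubring N, (∀ c : κ, algebraMap κ N c ∈ W') →
        (∃ b ∈ B, X - algebraMap κ N b ∈ W'.nonunits) →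
        (∀ σ, Dec V σ → ∀ z, S σ z ∈ W' ↔ z ∈ W') → W' = W := by
  classical
  haveI : IsAlgClosed κ := IsAlgClosure.isAlgClosed k
  haveI : CharZero κ := charZero_of_injective_algebraMap (algebraMap k κ).injective
  haveI : Normal k κ := IsAlgClosure.normal k κ
  haveI : IsGalois k κ := ⟨⟩
  have hℓ0 : ℓ ≠ 0 := hp.out.ne_zero
  have hl : IsU V (ℓ : κ) := by
    have h := isU_alg V hVa (ℓ : A) hℓA
    rwa [map_natCast] at h
  have hυ0 := hυ.1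
  have hT0 : T ≠ 0 := by
    rintro rfl
    rw [zero_pow hℓ0, zero_mul] at hT
    rcases mul_eq_zero.1 hT.symm with h | h
    · exact hυ0 ((_root_.map_eq_zero _).1 h)
    · exact hXne b₁ (sub_eq_zero.1 h)
  have hδ0 : δ ≠ 0 := by
    rintro rfl
    obtain ⟨σ, -, h⟩ := hδ1
    exact h (map_zero σ)
  -- the new branch points
  obtain ⟨hG', hU'⟩ := good_mob hG hυ h12 h1 h2
  have hyfix : ∀ σ : κ ≃ₐ[k] κ, ∀ y ∈ mbB B υ b₁ b₂, σ y = y := by
    intro σ y hy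
    obtain ⟨b, hb, hb1, hb2, rfl⟩ := mem_mbB.1 hy
    unfold mob
    rw [map_div₀, map_mul, map_sub, map_sub, hυfix, hBfix σ b hb, hBfix σ b₁ h1, hBfix σ b₂ h2]
  have hGbt := good_bt hl hG' hU'
  have hBbt : ∀ σ : κ ≃ₐ[k] κ, ∀ e ∈ bt ℓ (mbB B υ b₁ b₂), σ e ∈ bt ℓ (mbB B υ b₁ b₂) := by
    intro σ e he
    rw [mem_bt hp.out.pos] at he ⊢
    rw [← map_pow, hyfix σ _ he]
    exact he
  -- the constant
  have hlamU : IsU V (mbl B c υ b₁ b₂) := mbl_U hG hυ h12 h1 h2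
  have hlamfix : ∀ σ : κ ≃ₐ[k] κ, σ (mbl B c υ b₁ b₂) = mbl B c υ b₁ b₂ := by
    intro σ
    unfold mbl
    rw [map_mul, map_mul, map_pow, map_pow, map_mul, map_sub, hυfix, hBfix σ b₁ h1,
      hBfix σ b₂ h2, map_prod]
    congr 1
    refine Finset.prod_congr rfl fun y hy => ?_
    obtain ⟨b, hb, hb1, hb2, rfl⟩ := mem_mbB.1 hy
    rw [mobi_mob hυ0 h12 hb2, map_pow, map_sub, hBfix σ b hb, hBfix σ b₂ h2]
  obtain ⟨μ, hμ⟩ := IsAlgClosed.exists_pow_nat_eq (mbl B c υ b₁ b₂) hp.out.pos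
  have hμU : IsU V μ := Pool.Agent.Y748.PS.isU_of_pow hp.out.pos (hμ ▸ hlamU)
  have hμN : algebraMap κ N μ ≠ 0 := (_root_.map_ne_zero _).2 hμU.1
  have hμfix : ∀ σ : κ ≃ₐ[k] κ, σ (μ ^ ℓ) = μ ^ ℓ := fun σ => by rw [hμ, hlamfix]
  -- the element `Z'`
  have heqn := mob_eqn (ℓ := ℓ) (M := N) (B := B) (c := c) h12 hυ0 h1 h2 (hXne b₂) hT hZ hn
  obtain ⟨Z', hZ'⟩ : ∃ Z' : N, Z' = Z * (T ^ ℓ - algebraMap κ N υ) ^ n /
      (algebraMap κ N μ * T ^ c b₁) := ⟨_, rfl⟩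
  have hZ'p : Z' ^ ℓ = ∏ y ∈ mbB B υ b₁ b₂,
      (T ^ ℓ - algebraMap κ N y) ^ c (mobi υ b₁ b₂ y) := by
    rw [hZ', div_pow, heqn, mul_pow, ← map_pow, hμ, ← pow_mul, ← pow_mul, mul_comm (c b₁) ℓ,
      ← mul_assoc, mul_div_cancel_left₀]
    exact mul_ne_zero ((_root_.map_ne_zero _).2 hlamU.1) (pow_ne_zero _ hT0)
  obtain ⟨δ', hδ'⟩ : ∃ δ' : κ, δ' = δ / μ := ⟨_, rfl⟩
  have hδ'0 : δ' ≠ 0 := by rw [hδ']; exact div_ne_zero hδ0 hμU.1
  have hsZ' : ∀ σ, S σ Z' = algebraMap κ N (σ δ' / δ') * Z' := by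
    intro σ
    have h3 : σ μ ≠ 0 := (_root_.map_ne_zero σ).2 hμU.1
    have h4 : algebraMap κ N (σ μ) ≠ 0 := (_root_.map_ne_zero _).2 h3
    have h5 : algebraMap κ N δ ≠ 0 := (_root_.map_ne_zero _).2 hδ0
    have h6 : T ^ c b₁ ≠ 0 := pow_ne_zero _ hT0
    rw [hZ', map_div₀, map_mul, map_mul, map_pow, map_pow, map_sub, map_pow, hST, hconst, hconst,
      hυfix, hsZ, hδ', map_div₀ σ, map_div₀, map_div₀, map_div₀, map_div₀]
    field_simp
  have hδ'fix : ∀ σ : κ ≃ₐ[k] κ, σ (δ' ^ ℓ) = δ' ^ ℓ := by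
    intro σ
    rw [hδ', div_pow, map_div₀, hδfix, hμfix]
  obtain ⟨σ₀, hσ₀, hσ₀1⟩ := hδ1
  have hσ₀' : σ₀ δ' ≠ δ' := by
    intro h
    apply hσ₀1
    have h3 := ine_unit hl hσ₀ hμU (hμfix σ₀)
    rw [hδ', map_div₀, h3] at h
    exact (div_left_inj' hμU.1).1 h
  -- the valuation of `δ'`
  obtain ⟨t, ht⟩ : ∃ t : k, algebraMap k κ t = δ' ^ ℓ := by
    have h5 := (InfiniteGalois.mem_bot_iff_fixed (δ' ^ ℓ)).2 fun σ => hδ'fix σ
    exact IntermediateField.mem_bot.1 h5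
  have ht0 : t ≠ 0 := by
    rintro rfl
    rw [map_zero] at ht
    exact pow_ne_zero _ hδ'0 ht.symm
  obtain ⟨ϖ, hϖ⟩ := IsDiscreteValuationRing.exists_irreducible A
  obtain ⟨n₂, u₂, hu₂, hn₂⟩ := exists_val hϖ ht0
  have hδ'p : δ' ^ ℓ = algebraMap A κ u₂ * algebraMap A κ ϖ ^ n₂ := by
    rw [← ht, hn₂, map_mul, map_zpow₀, ← IsScalarTower.algebraMap_apply,
      ← IsScalarTower.algebraMap_apply]
  have hndvd : ¬ (ℓ : ℤ) ∣ n₂ := by
    rintro ⟨j, rfl⟩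
    exact hσ₀' (ine_fix V hVa hℓA ϖ hϖ σ₀ hσ₀ u₂ hu₂ j δ' hδ'p)
  -- the place
  have hs' : ∀ σ z, eqv (conjSec eqv S σ z) = S σ (eqv z) := fun σ z => conjSec_apply eqv S σ z
  have hc' : ∀ e : κ, eqv (algebraMap R M x' - algebraMap κ M e) = T - algebraMap κ N e :=
    fun e => by rw [map_sub, hx', hcc]
  obtain ⟨Q, ⟨e, heB, hQe, hfix⟩, hQfix, hQun⟩ := orb_loc (k := k) hVa hVm hℓA ϖ hϖ hC hGbt hBbt
    (conjSec eqv S) (fun σ c => eqv.injective (by rw [hs', hcc, hcc, hconst]))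
    (fun σ => eqv.injective (by rw [hs', hx', hST])) (fun z => by
      obtain ⟨E, hE, hE'⟩ := hcont (eqv z)
      exact ⟨E, hE, fun σ hσ => eqv.injective (by rw [hs', hE' σ hσ])⟩)
    (fun e => c (mobi υ b₁ b₂ (e ^ ℓ))) (eqv.symm Z') (eqv.injective (by
      rw [map_pow, eqv.apply_symm_apply, map_prod, hZ'p,
        ← bt_prod (mbB B υ b₁ b₂) (mbB_zero hυ0) (fun y => c (mobi υ b₁ b₂ y)) T]
      exact Finset.prod_congr rfl fun e _ => by rw [map_pow, hc']))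
    δ' u₂ hu₂ n₂ hndvd hδ'p (fun σ => eqv.injective (by
      rw [hs', eqv.apply_symm_apply, map_mul, hcc, eqv.apply_symm_apply, hsZ']))
  obtain ⟨W, ⟨w1, w2, ⟨e', he'B, -, he'⟩, w4⟩, hun⟩ := place_to_valP (fun σ => Dec V σ) hC eqv T
    hx' S (fun σ c => by rw [hcc, hcc, hconst])
    ⟨Q, ⟨e, heB, hQe, fun σ => hfix σ⟩, fun σ => hQfix σ, fun Q' h5 h6 => hQun Q' h5 h6⟩
  have w1' : ∀ c : κ, algebraMap κ N c ∈ W := fun c => hcc c ▸ w1 c
  rw [hcc] at he'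
  refine ⟨W, ⟨w1', fun z hz => ?_, ?_, w4⟩, fun W' hW'1 hW'2 hW'3 => ?_⟩
  · obtain ⟨c, hc⟩ := w2 z hz
    exact ⟨c, by rw [hcc] at hc; exact hc⟩
  · rw [mem_bt hp.out.pos] at he'B
    obtain ⟨b, hb, hb1, hb2, hbe⟩ := mem_mbB.1 he'B
    exact ⟨b, hb, near_mob' w1' h12 hυ0 (hXne b₂) hT hb2 hbe.symm he'⟩
  · obtain ⟨b, hb, hXb⟩ := hW'2
    obtain ⟨n1, n2, n3⟩ := near_mob hW'1 h12 hυ0 (hXne b₂) hT hXb
    have hbb1 : b ≠ b₁ := by
      intro h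
      obtain ⟨e, he, h3⟩ := value_zero hW'1 (mbB B υ b₁ b₂) hU' _ (n1 h) hZ'p
      exact no_value hl (S σ₀) hσ₀ (hconst σ₀) hW'1 (hW'3 σ₀ (dec_of_ine hσ₀)) (hδ'fix σ₀) hσ₀' (hsZ' σ₀) he h3
    have hbb2 : b ≠ b₂ := by
      intro h
      obtain ⟨e, he, h3⟩ := value_pole (V := V) hW'1 (mbB B υ b₁ b₂) _ hT0 (n2 h) hZ'p
      refine no_value hl (S σ₀) hσ₀ (hconst σ₀) hW'1 (hW'3 σ₀ (dec_of_ine hσ₀)) (hδ'fix σ₀) hσ₀' ?_ he h3
      rw [map_mul, map_pow, map_inv₀, hST, hsZ', mul_assoc]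
    obtain ⟨e, he, h3⟩ := n3 hbb1 hbb2
    refine hun W' (fun c => by rw [hcc]; exact hW'1 c) ⟨e, ?_, by rw [hcc]; exact h3⟩ hW'3
    rw [mem_bt hp.out.pos, he]
    exact mem_mbB.2 ⟨b, hb, hbb1, hbb2, rfl⟩

end mp

section mp

variable {A k κ F N : Type} [CommRing A] [IsDomain A] [IsDiscreteValuationRing A]
  [Finite (IsLocalRing.ResidueField A)] [Field k] [CharZero k] [Algebra A k] [IsFractionRing A k]
  [Field κ] [Algebra k κ] [Algebra A κ] [IsScalarTower A k κ] [IsAlgClosure k κ]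
  [Field F] [Field N] [Algebra F N] [Algebra κ N]

/-- **the place of a section** -/
theorem many_dec {ℓ : ℕ} [hp : Fact ℓ.Prime] {V : ValuationSubring κ}
    (hVa : ∀ a : A, algebraMap A κ a ∈ V)
    (hVm : ∀ a ∈ IsLocalRing.maximalIdeal A, algebraMap A κ a ∈ V.nonunits)
    (hℓA : IsUnit (ℓ : A)) (ϖ : A) (hϖ : Irreducible ϖ)
    {B : Finset κ} (hG : Good V B) (hB : ∀ σ : κ ≃ₐ[k] κ, ∀ e ∈ B, σ e ∈ B)
    (hbig : ℓ < B.card) {X : N} (hXne : ∀ b : κ, X ≠ algebraMap κ N b)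
    (S : (κ ≃ₐ[k] κ) →* (N ≃ₐ[F] N))
    (hconst : ∀ σ c, S σ (algebraMap κ N c) = algebraMap κ N (σ c))
    (hfixX : ∀ σ, S σ X = X)
    (hcont : ∀ z : N, ∃ E : IntermediateField k κ, FiniteDimensional k E ∧
      ∀ σ ∈ E.fixingSubgroup, S σ z = z)
    {c : κ → ℕ} {n : ℕ} (hn : ∑ b ∈ B, c b = n * ℓ) {Z : N}
    (hZ : Z ^ ℓ = ∏ b ∈ B, (X - algebraMap κ N b) ^ c b) (δ : κ) (u : A) (hu : IsUnit u) (m : ℤ)
    (hm : ¬ (ℓ : ℤ) ∣ m) (hδ : δ ^ ℓ = algebraMap A κ u * algebraMap A κ ϖ ^ m)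
    (hsZ : ∀ σ, S σ Z = algebraMap κ N (σ δ / δ) * Z)
    (hroots : ∃ b₀ ∈ B, ∀ b ∈ B, ∃ t : N, t ^ ℓ * (X - algebraMap κ N b₀) = X - algebraMap κ N b)
    (hcov : ∀ (υ b₁ b₂ : κ) (T : N), υ ≠ 0 → b₁ ≠ b₂ → b₁ ∈ B → b₂ ∈ B →
      T ^ ℓ * (X - algebraMap κ N b₂) = algebraMap κ N υ * (X - algebraMap κ N b₁) →
      ∃ (R M : Type) (_ : Field R) (_ : Field M) (_ : Algebra κ R) (_ : Algebra R M)
        (_ : Algebra κ M) (_ : IsScalarTower κ R M) (x' : R) (Y : M) (eqv : M ≃+* N),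
        Cov ℓ κ R M x' (bt ℓ (mbB B υ b₁ b₂)) Y ∧
        (∀ c, eqv (algebraMap κ M c) = algebraMap κ N c) ∧ eqv (algebraMap R M x') = T) :
    ∃ W : ValuationSubring N, ((∀ c : κ, algebraMap κ N c ∈ W) ∧
        (∀ z ∈ W, ∃ c : κ, z - algebraMap κ N c ∈ W.nonunits) ∧
        (∃ b ∈ B, (∀ σ : κ ≃ₐ[k] κ, Dec V σ → σ b = b) ∧ X - algebraMap κ N b ∈ W.nonunits) ∧
        (∀ σ, Dec V σ → ∀ z, S σ z ∈ W ↔ z ∈ W)) ∧
      ∀ W' : ValuationSubring N, (∀ c : κ, algebraMap κ N c ∈ W') →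
        (∃ b ∈ B, X - algebraMap κ N b ∈ W'.nonunits) →
        (∀ σ, Dec V σ → ∀ z, S σ z ∈ W' ↔ z ∈ W') → W' = W := by
  classical
  haveI : IsAlgClosed κ := IsAlgClosure.isAlgClosed k
  haveI : CharZero κ := charZero_of_injective_algebraMap (algebraMap k κ).injective
  have halg : Algebra.IsAlgebraic k κ := IsAlgClosure.isAlgebraic
  haveI : Normal k κ := IsAlgClosure.normal k κ
  have hℓ0 : ℓ ≠ 0 := hp.out.ne_zero
  have hδ0 : δ ≠ 0 := by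
    rintro rfl
    have hϖ0 : algebraMap A κ ϖ ≠ 0 := by
      intro h
      apply hϖ.ne_zero
      apply IsFractionRing.injective A k
      apply (algebraMap k κ).injective
      rw [← IsScalarTower.algebraMap_apply, h, map_zero, map_zero]
    rw [zero_pow hℓ0] at hδ
    exact mul_ne_zero (isU_alg V hVa u hu).1 (zpow_ne_zero _ hϖ0) hδ.symm
  -- the field `E`
  let E : IntermediateField k κ := IntermediateField.adjoin k (B : Set κ)
  have hbE : ∀ b ∈ B, b ∈ E := fun b hb => IntermediateField.subset_adjoin k _ hb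
  haveI hEfin : FiniteDimensional k E := by
    haveI : Finite (B : Set κ) := B.finite_toSet
    exact IntermediateField.finiteDimensional_adjoin (S := (B : Set κ))
      (fun z _ => (halg.isAlgebraic z).isIntegral)
  haveI : IsAlgClosure E κ := ⟨inferInstance, Algebra.IsAlgebraic.tower_top (K := k) E⟩
  obtain ⟨A', _, _, _, _, hfr', hfin', hVa', hVm', hun'⟩ := dvr_below (A := A) E V hVa hVm
  letI : Algebra A' κ := ((algebraMap E κ).comp (algebraMap A' E)).toAlgebra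
  haveI : IsScalarTower A' E κ := IsScalarTower.of_algebraMap_eq fun _ => rfl
  let res : (κ ≃ₐ[E] κ) →* (κ ≃ₐ[k] κ) := AlgEquiv.restrictScalarsHom k
  have hres : ∀ τ z, res τ z = τ z := fun τ z => rfl
  have hBfix : ∀ τ : κ ≃ₐ[E] κ, ∀ b ∈ B, τ b = b := fun τ b hb => τ.commutes ⟨b, hbE b hb⟩
  let SE : (κ ≃ₐ[E] κ) →* (N ≃ₐ[F] N) := S.comp res
  have hSE : ∀ τ z, SE τ z = S (res τ) z := fun τ z => rfl
  have hcontE : ∀ z : N, ∃ E2 : IntermediateField E κ, FiniteDimensional E E2 ∧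
      ∀ τ ∈ E2.fixingSubgroup, SE τ z = z := by
    intro z
    obtain ⟨E1, hE1, hE1'⟩ := hcont z
    obtain ⟨E2, hE2, hE2'⟩ := cont_res halg E E1 hE1
    exact ⟨E2, hE2, fun τ hτ => hE1' _ (hE2' τ hτ)⟩
  obtain ⟨υ, b₁, b₂, T, hυ, h12, h1, h2, hυfix, hT, hST⟩ := exists_T (A := A') (k := E) hVa' hVm'
    (hun' ℓ hℓA) hBfix hbig X hXne SE (fun τ c => hconst _ c) (fun τ => hfixX _) hcontE hroots
  obtain ⟨R, M, i1, i2, i3, i4, i5, i6, x', Y, eqv, hC, hcc, hx'⟩ :=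
    hcov υ b₁ b₂ T hυ.1 h12 h1 h2 hT
  -- a ramified element
  obtain ⟨σ₀, η, hσ₀, hη, hact⟩ := exists_ine (k := k) (ℓ := ℓ) V hVa hVm hℓA ϖ hϖ
  have hσδ : σ₀ δ ≠ δ := by
    intro h
    have h3 := hact u m δ hu hδ
    rw [h, div_self hδ0] at h3
    exact hm ((hη.zpow_eq_one_iff_dvd m).1 h3.symm)
  have hδ1 : ∃ τ : κ ≃ₐ[E] κ, Ine V τ ∧ τ δ ≠ δ :=
    ⟨liftE (B : Set κ) σ₀ (fun b hb => ine_fix_B hG hB hσ₀ hb),
      ⟨fun z => hσ₀.1 z, fun z hz => hσ₀.2 z hz⟩, hσδ⟩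
  have hδfix : ∀ τ : κ ≃ₐ[E] κ, τ (δ ^ ℓ) = δ ^ ℓ := by
    intro τ
    have h3 : δ ^ ℓ = algebraMap k κ (algebraMap A k u * algebraMap A k ϖ ^ m) := by
      rw [hδ, map_mul, map_zpow₀, ← IsScalarTower.algebraMap_apply,
        ← IsScalarTower.algebraMap_apply]
    rw [h3]
    exact (res τ).commutes _
  obtain ⟨W, ⟨w1, w2, ⟨b, hb, w3⟩, w4⟩, hun⟩ := place_D (A := A') (k := E) hVa' hVm' (hun' ℓ hℓA)
    hG hBfix hXne SE (fun τ c => hconst _ c) hcontE hn hZ hδfix hδ1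
    (fun τ => hsZ (res τ)) hυ h12 h1 h2 hυfix hT hST hC eqv hcc hx'
  -- the stability
  have hstab : ∀ (g : κ ≃ₐ[k] κ), Dec V g → ∀ z, S g z ∈ W ↔ z ∈ W := by
    intro g hg
    have hm' : ∀ z : N, z ∈ W.comap (((S g : N ≃ₐ[F] N) : N ≃+* N) : N →+* N) ↔ S g z ∈ W :=
      fun z => Iff.rfl
    have hn' : ∀ z : N, z ∈ (W.comap (((S g : N ≃ₐ[F] N) : N ≃+* N) : N →+* N)).nonunits ↔
        S g z ∈ W.nonunits := fun z => comap_non ((S g : N ≃ₐ[F] N) : N ≃+* N) W z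
    have heq : W.comap (((S g : N ≃ₐ[F] N) : N ≃+* N) : N →+* N) = W := by
      refine hun _ (fun c => ?_) ⟨g⁻¹ b, hB g⁻¹ b hb, ?_⟩ (fun τ hτ z => ?_)
      · rw [hm', hconst]
        exact w1 _
      · rw [hn', map_sub, hfixX, hconst]
        have h3 : g (g⁻¹ b) = b := by
          rw [← AlgEquiv.mul_apply, mul_inv_cancel, AlgEquiv.one_apply]
        rw [h3]
        exact w3
      · rw [hm', hm', hSE]
        have h3 : ∀ b ∈ (B : Set κ), (g * res τ * g⁻¹) b = b := by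
          intro b hb
          change g (τ (g⁻¹ b)) = b
          rw [hBfix τ _ (hB g⁻¹ b hb), ← AlgEquiv.mul_apply, mul_inv_cancel, AlgEquiv.one_apply]
        have h4 : S g (S (res τ) z) = SE (liftE (B : Set κ) (g * res τ * g⁻¹) h3) (S g z) := by
          have h5 : res (liftE (B : Set κ) (g * res τ * g⁻¹) h3) = g * res τ * g⁻¹ :=
            res_liftE _ _ _
          rw [hSE, h5, ← AlgEquiv.mul_apply, ← AlgEquiv.mul_apply, ← map_mul, ← map_mul,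
            inv_mul_cancel_right]
        rw [h4]
        refine w4 _ ?_ _
        have h6 : Dec V (g * res τ * g⁻¹) := dec_conj hg hτ
        exact fun z => h6 z
    intro z
    rw [← hm', heq]
  refine ⟨W, ⟨w1, w2, ⟨b, hb, fun g hg => ?_, w3⟩, hstab⟩, fun W' a1 a2 a3 =>
    hun W' a1 a2 fun τ hτ z => a3 (res τ) (fun z => hτ z) z⟩
  -- the branch point is rational
  have hnon : S g (X - algebraMap κ N b) ∈ W.nonunits := by
    rw [nonunits_iff] at w3 ⊢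
    refine ⟨(hstab g hg _).2 w3.1, ?_⟩
    rcases w3.2 with h3 | h3
    · left; rw [h3, map_zero]
    · right
      rw [← map_inv₀, hstab g hg]
      exact h3
  rw [map_sub, hfixX, hconst] at hnon
  have h3 : algebraMap κ N (g b - b) ∈ W.nonunits := by
    have h4 : algebraMap κ N (g b - b) = (X - algebraMap κ N b) - (X - algebraMap κ N (g b)) := by
      rw [map_sub]; ring
    rw [h4]
    exact non_sub w3 hnon
  exact sub_eq_zero.1 (const_non w1 h3)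

end mp

end Pool.Agent.X281.OB
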