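import Pool.Agent.X281.OB.FGlue
import Pool.Agent.X281.OB.Rel1

/-!
# The action of the inertia group on the roots of `(x - b) / (x - b')`: two of three characters agree
-/

set_option autoImplicit false
set_option linter.all false

open Polynomial FF Pool.Agent.Y157.PS Pool.Agent.X281.FL

namespace Pool.Agent.X281.OB

section mp

variable {A k κ F N : Type} [CommRing A] [IsDomain A] [IsDiscreteValuationRing A]
  [Finite (IsLocalRing.ResidueField A)] [Field k] [CharZero k] [Algebra A k] [IsFractionRing A k]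
  [Field κ] [Algebra k κ] [Algebra A κ] [IsScalarTower A k κ] [IsAlgClosure k κ]
  [Field F] [Field N] [Algebra F N] [Algebra κ N]

/-- the Kummer cocycle of an element whose power is fixed -/
theorem kum_data {ℓ : ℕ} [hp : Fact ℓ.Prime] (S : (κ ≃ₐ[k] κ) →* (N ≃ₐ[F] N))
    (hconst : ∀ σ c, S σ (algebraMap κ N c) = algebraMap κ N (σ c))
    (hcont : ∀ z : N, ∃ E : IntermediateField k κ, FiniteDimensional k E ∧
      ∀ σ ∈ E.fixingSubgroup, S σ z = z) (z : N) (hz : z ≠ 0)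
    (h : ∀ σ, S σ (z ^ ℓ) = z ^ ℓ) :
    ∃ τ : κ, τ ≠ 0 ∧ (∀ σ, S σ z = algebraMap κ N (σ τ / τ) * z) ∧
      ∃ t : k, algebraMap k κ t = τ ^ ℓ := by
  haveI : IsAlgClosed κ := IsAlgClosure.isAlgClosed k
  haveI : CharZero κ := charZero_of_injective_algebraMap (algebraMap k κ).injective
  have hχ : ∀ σ, ∃ χ : κ, χ ^ ℓ = 1 ∧ S σ z = algebraMap κ N χ * z := fun σ =>
    kum_root hp.out.pos _ hz (h σ)
  choose χ hχ1 hχ2 using hχ
  have hinj : Function.Injective (algebraMap κ N) := (algebraMap κ N).injective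
  have hmul : ∀ σ τ, χ (σ * τ) = χ σ * σ (χ τ) := by
    intro σ τ
    apply hinj
    apply mul_right_cancel₀ hz
    rw [← hχ2, map_mul]
    change S σ (S τ z) = _
    rw [hχ2 τ, map_mul, hconst, hχ2 σ, map_mul]
    ring
  obtain ⟨τ₀, hτ0, hτ, t', ht'⟩ := Pool.Agent.Y158.FQ.exists_kum hp.out.pos χ hχ1 hmul (by
    obtain ⟨E, hE, hE'⟩ := hcont z
    refine ⟨E, hE, fun σ hσ => ?_⟩
    apply hinj
    apply mul_right_cancel₀ hz
    rw [← hχ2, hE' σ hσ, map_one, one_mul])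
  exact ⟨τ₀, hτ0, fun σ => by rw [hτ]; exact hχ2 σ, t', ht'⟩

/-- **two of three characters agree** -/
theorem two_eq {ℓ : ℕ} [hp : Fact ℓ.Prime] {V : ValuationSubring κ}
    (hVa : ∀ a : A, algebraMap A κ a ∈ V)
    (hVm : ∀ a ∈ IsLocalRing.maximalIdeal A, algebraMap A κ a ∈ V.nonunits)
    (hℓA : IsUnit (ℓ : A)) {B : Finset κ} (hG : Good V B)
    (hBfix : ∀ σ : κ ≃ₐ[k] κ, ∀ b ∈ B, σ b = b) (X : N)
    (hXne : ∀ b : κ, X ≠ algebraMap κ N b)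
    (S : (κ ≃ₐ[k] κ) →* (N ≃ₐ[F] N))
    (hconst : ∀ σ c, S σ (algebraMap κ N c) = algebraMap κ N (σ c))
    (hfixX : ∀ σ, S σ X = X)
    (hcont : ∀ z : N, ∃ E : IntermediateField k κ, FiniteDimensional k E ∧
      ∀ σ ∈ E.fixingSubgroup, S σ z = z)
    {b₀ b₁ b₂ : κ} (h0 : b₀ ∈ B) (h1 : b₁ ∈ B) (h2 : b₂ ∈ B) (h10 : b₁ ≠ b₀) (h20 : b₂ ≠ b₀)
    (h12 : b₁ ≠ b₂)
    (hferm : ∀ U Y : N, U ^ ℓ * (X - algebraMap κ N b₀) =
        algebraMap κ N ((b₂ - b₀) / (b₂ - b₁)) * (X - algebraMap κ N b₁) → Y ^ ℓ = U ^ ℓ - 1 →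
      ∃ (R M : Type) (_ : Field R) (_ : Field M) (_ : Algebra κ R) (_ : Algebra R M)
        (_ : Algebra κ M) (_ : IsScalarTower κ R M) (x' : R) (Y' : M) (i : M →+* N),
        Cov ℓ κ R M x' (nthRootsFinset ℓ (1 : κ)) Y' ∧
        (∀ c, i (algebraMap κ M c) = algebraMap κ N c) ∧ i (algebraMap R M x') = U ∧ i Y' = Y ∧
        ∀ (φ : N ≃ₐ[F] N) (d d' : κ), d ≠ 0 → d' ≠ 0 → φ U = algebraMap κ N d * U →
          φ Y = algebraMap κ N d' * Y → ∀ z, ∃ w, i w = φ (i z))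
    {p t₀ t₁ t₂ : N} (hp0 : p ≠ 0) (ht₀ : t₀ ^ ℓ * p = X - algebraMap κ N b₀)
    (ht₁ : t₁ ^ ℓ * p = X - algebraMap κ N b₁) (ht₂ : t₂ ^ ℓ * p = X - algebraMap κ N b₂)
    {σ₁ : κ ≃ₐ[k] κ} (hσ₁ : Ine V σ₁) {ξ₀ ξ₁ ξ₂ : κ} (hξ₀ : ξ₀ ≠ 0)
    (hS₀ : S σ₁ t₀ = algebraMap κ N ξ₀ * t₀) (hS₁ : S σ₁ t₁ = algebraMap κ N ξ₁ * t₁)
    (hS₂ : S σ₁ t₂ = algebraMap κ N ξ₂ * t₂) : ξ₂ = ξ₀ ∨ ξ₁ = ξ₀ ∨ ξ₂ = ξ₁ := by
  classical
  haveI : IsAlgClosed κ := IsAlgClosure.isAlgClosed k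
  haveI : CharZero κ := charZero_of_injective_algebraMap (algebraMap k κ).injective
  have hℓ0 : ℓ ≠ 0 := hp.out.ne_zero
  have hl : IsU V (ℓ : κ) := by
    have h := isU_alg V hVa (ℓ : A) hℓA
    rwa [map_natCast] at h
  have hXb : ∀ b, X - algebraMap κ N b ≠ 0 := fun b => sub_ne_zero.2 (hXne b)
  have h20' : b₂ - b₀ ≠ 0 := sub_ne_zero.2 h20
  have h21' : b₂ - b₁ ≠ 0 := sub_ne_zero.2 h12.symm
  have h10' : b₁ - b₀ ≠ 0 := sub_ne_zero.2 h10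
  have ht0 : ∀ (t : N) (b : κ), t ^ ℓ * p = X - algebraMap κ N b → t ≠ 0 := by
    rintro t b h rfl
    rw [zero_pow hℓ0, zero_mul] at h
    exact hXb b h.symm
  have e0 := ht0 t₀ b₀ ht₀
  have e1 := ht0 t₁ b₁ ht₁
  have e2 := ht0 t₂ b₂ ht₂
  obtain ⟨υ, hυ⟩ : ∃ υ : κ, υ = (b₂ - b₀) / (b₂ - b₁) := ⟨_, rfl⟩
  obtain ⟨υ', hυ'⟩ : ∃ υ' : κ, υ' = (b₁ - b₀) / (b₂ - b₁) := ⟨_, rfl⟩
  have hυυ' : υ' = υ - 1 := by
    rw [hυ, hυ']
    field_simp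
    ring
  have hυU : IsU V υ := by
    rw [hυ]; exact isU_div' (hG.2 b₂ h2 b₀ h0 h20) (hG.2 b₂ h2 b₁ h1 h12.symm)
  have hυU' : IsU V υ' := by
    rw [hυ']; exact isU_div' (hG.2 b₁ h1 b₀ h0 h10) (hG.2 b₂ h2 b₁ h1 h12.symm)
  have hυfix : ∀ σ : κ ≃ₐ[k] κ, σ υ = υ := fun σ => by
    rw [hυ, map_div₀, map_sub, map_sub, hBfix σ _ h0, hBfix σ _ h1, hBfix σ _ h2]
  have hυfix' : ∀ σ : κ ≃ₐ[k] κ, σ υ' = υ' := fun σ => by
    rw [hυ', map_div₀, map_sub, map_sub, hBfix σ _ h0, hBfix σ _ h1, hBfix σ _ h2]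
  obtain ⟨μ, hμ⟩ := IsAlgClosed.exists_pow_nat_eq υ hp.out.pos
  obtain ⟨ν, hν⟩ := IsAlgClosed.exists_pow_nat_eq υ' hp.out.pos
  have hμU : IsU V μ := Pool.Agent.Y748.PS.isU_of_pow hp.out.pos (hμ ▸ hυU)
  have hνU : IsU V ν := Pool.Agent.Y748.PS.isU_of_pow hp.out.pos (hν ▸ hυU')
  have hμσ : σ₁ μ = μ := ine_unit hl hσ₁ hμU (by rw [hμ, hυfix])
  have hνσ : σ₁ ν = ν := ine_unit hl hσ₁ hνU (by rw [hν, hυfix'])
  have hμN : algebraMap κ N μ ≠ 0 := (_root_.map_ne_zero _).2 hμU.1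
  have hνN : algebraMap κ N ν ≠ 0 := (_root_.map_ne_zero _).2 hνU.1
  obtain ⟨U, hU⟩ : ∃ U : N, U = algebraMap κ N μ * t₁ / t₀ := ⟨_, rfl⟩
  obtain ⟨Y, hY⟩ : ∃ Y : N, Y = algebraMap κ N ν * t₂ / t₀ := ⟨_, rfl⟩
  have hU0 : U ≠ 0 := by rw [hU]; exact div_ne_zero (mul_ne_zero hμN e1) e0
  have hY0 : Y ≠ 0 := by rw [hY]; exact div_ne_zero (mul_ne_zero hνN e2) e0
  have q0 : t₀ ^ ℓ = (X - algebraMap κ N b₀) / p := by rw [← ht₀, mul_div_cancel_right₀ _ hp0]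
  have q1 : t₁ ^ ℓ = (X - algebraMap κ N b₁) / p := by rw [← ht₁, mul_div_cancel_right₀ _ hp0]
  have q2 : t₂ ^ ℓ = (X - algebraMap κ N b₂) / p := by rw [← ht₂, mul_div_cancel_right₀ _ hp0]
  have hUp : U ^ ℓ = algebraMap κ N υ * (X - algebraMap κ N b₁) / (X - algebraMap κ N b₀) := by
    rw [hU, div_pow, mul_pow, ← map_pow, hμ, q1, q0, ← mul_div_assoc, div_div_div_cancel_right₀ hp0]
  have hYp : Y ^ ℓ = algebraMap κ N υ' * (X - algebraMap κ N b₂) / (X - algebraMap κ N b₀) := by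
    rw [hY, div_pow, mul_pow, ← map_pow, hν, q2, q0, ← mul_div_assoc, div_div_div_cancel_right₀ hp0]
  have hU' : U ^ ℓ * (X - algebraMap κ N b₀) = algebraMap κ N υ * (X - algebraMap κ N b₁) := by
    rw [hUp, div_mul_cancel₀ _ (hXb b₀)]
  have hUY : Y ^ ℓ = U ^ ℓ - 1 := by
    rw [hYp, hUp, eq_sub_iff_add_eq, div_add' _ _ _ (hXb b₀), div_left_inj' (hXb b₀)]
    have h5 : υ * (b₂ - b₁) = b₂ - b₀ := by rw [hυ, div_mul_cancel₀ _ h21']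
    have h6 := congrArg (algebraMap κ N) h5
    rw [map_mul, map_sub, map_sub] at h6
    rw [hυυ', map_sub, map_one]
    linear_combination -h6
  have hSb : ∀ σ, ∀ b ∈ B, S σ (X - algebraMap κ N b) = X - algebraMap κ N b := by
    intro σ b hb
    rw [map_sub, hfixX, hconst, hBfix σ b hb]
  obtain ⟨c', hc'0, hc', hc'p⟩ := kum_data (ℓ := ℓ) S hconst hcont U hU0 (fun σ => by
    rw [hUp, map_div₀, map_mul, hSb σ b₁ h1, hSb σ b₀ h0, hconst, hυfix])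
  obtain ⟨c, hc0, hc, hcp⟩ := kum_data (ℓ := ℓ) S hconst hcont Y hY0 (fun σ => by
    rw [hYp, map_div₀, map_mul, hSb σ b₂ h2, hSb σ b₀ h0, hconst, hυfix'])
  rw [hυ] at hU'
  obtain ⟨R, M, i1, i2, i3, i4, i5, i6, x', Y', i, hC, hic, hix, hiY, hstab⟩ := hferm U Y hU' hUY
  let S' : (κ ≃ₐ[k] κ) →* RingAut N :=
    { toFun := fun g => (S g : N ≃+* N)
      map_one' := by rw [map_one]; rfl
      map_mul' := fun g g' => by rw [map_mul]; rfl }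
  have hS' : ∀ g z, S' g z = S g z := fun g z => rfl
  obtain ⟨T, hT⟩ := Pool.Agent.Y158.FQ.restrict_hom i S' (fun g z => by
    refine hstab (S g) (g c' / c') (g c / c) ?_ ?_ (hc' g) (hc g) z
    · exact div_ne_zero ((_root_.map_ne_zero g).2 hc'0) hc'0
    · exact div_ne_zero ((_root_.map_ne_zero g).2 hc0) hc0)
  have hTconst : ∀ g b, T g (algebraMap κ M b) = algebraMap κ M (g b) := by
    intro g b
    apply i.injective
    rw [hT, hS', hic, hic, hconst]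
  have hTw : Pool.Agent.Y158.FQ.Tw ℓ k κ R M x' Y' c c' T := by
    refine ⟨hTconst, fun g => i.injective ?_, fun g => i.injective ?_, fun z => ?_, hc0, hc'0,
      hcp, hc'p⟩
    · rw [hT, hS', map_mul, hix, hic, hc' g]
    · rw [hT, hS', map_mul, hiY, hic, hc g]
    · obtain ⟨E, hE, hE'⟩ := hcont (i z)
      refine ⟨E, hE, fun σ hσ => i.injective ?_⟩
      rw [hT]
      exact hE' σ hσ
  have hξN : algebraMap κ N ξ₀ ≠ 0 := (_root_.map_ne_zero _).2 hξ₀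
  have hd1 : σ₁ c' / c' = ξ₁ / ξ₀ := by
    apply (algebraMap κ N).injective
    apply mul_right_cancel₀ hU0
    rw [← hc' σ₁, hU, map_div₀, map_mul, hconst, hμσ, hS₁, hS₀, map_div₀]
    field_simp
  have hd2 : σ₁ c / c = ξ₂ / ξ₀ := by
    apply (algebraMap κ N).injective
    apply mul_right_cancel₀ hY0
    rw [← hc σ₁, hY, map_div₀, map_mul, hconst, hνσ, hS₂, hS₀, map_div₀]
    field_simp
  rcases ine_rotL hC hTw V hVa hVm hℓA σ₁ hσ₁ with h | h | h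
  · left
    rwa [hd2, div_eq_one_iff_eq hξ₀] at h
  · right; left
    rwa [hd1, div_eq_one_iff_eq hξ₀] at h
  · right; right
    rwa [hd1, hd2, div_left_inj' hξ₀] at h

end mp

end Pool.Agent.X281.OB
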