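import Pool.Agent.X281.OB.Many6

/-!
# The place of a section restricted to a decomposition group, at least three branch points
-/

set_option autoImplicit false
set_option linter.all false

open Polynomial FF Pool.Agent.Y157.PS Pool.Agent.X281.FL

namespace Pool.Agent.X281.OB

section mp

variable {A k κ F N : Type} [CommRing A] [IsDomain A] [IsDiscreteValuationRing A]
  [Finite (IsLocalRing.ResidueField A)] [Field k] [CharZero k] [Algebra A k] [IsFractionRing A k]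
  [Field κ] [Algebra k κ] [Algebra A κ] [IsScalarTower A k κ] [IsAlgClosure k κ]
  [Field F] [Field N] [Algebra F N] [Algebra κ N]

/-- **an unramified coordinate**: if there are at least three branch points, then for two of them
a twist of `((x - b₁) / (x - b₂)) ^ (1 / ℓ)` by a unit is fixed -/
theorem exists_T3 {ℓ : ℕ} [hp : Fact ℓ.Prime] {V : ValuationSubring κ}
    (hVa : ∀ a : A, algebraMap A κ a ∈ V)
    (hVm : ∀ a ∈ IsLocalRing.maximalIdeal A, algebraMap A κ a ∈ V.nonunits)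
    (hℓA : IsUnit (ℓ : A)) {B : Finset κ} (hG : Good V B)
    (hBfix : ∀ σ : κ ≃ₐ[k] κ, ∀ b ∈ B, σ b = b) (h3 : 3 ≤ B.card) (X : N)
    (hXne : ∀ b : κ, X ≠ algebraMap κ N b)
    (S : (κ ≃ₐ[k] κ) →* (N ≃ₐ[F] N))
    (hconst : ∀ σ c, S σ (algebraMap κ N c) = algebraMap κ N (σ c))
    (hfixX : ∀ σ, S σ X = X)
    (hcont : ∀ z : N, ∃ E : IntermediateField k κ, FiniteDimensional k E ∧
      ∀ σ ∈ E.fixingSubgroup, S σ z = z)
    (hferm : ∀ b₀ ∈ B, ∀ b₁ ∈ B, ∀ b₂ ∈ B, b₁ ≠ b₀ → b₂ ≠ b₀ → b₁ ≠ b₂ → ∀ U Y : N,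
        U ^ ℓ * (X - algebraMap κ N b₀) =
        algebraMap κ N ((b₂ - b₀) / (b₂ - b₁)) * (X - algebraMap κ N b₁) → Y ^ ℓ = U ^ ℓ - 1 →
      ∃ (R M : Type) (_ : Field R) (_ : Field M) (_ : Algebra κ R) (_ : Algebra R M)
        (_ : Algebra κ M) (_ : IsScalarTower κ R M) (x' : R) (Y' : M) (i : M →+* N),
        Cov ℓ κ R M x' (nthRootsFinset ℓ (1 : κ)) Y' ∧
        (∀ c, i (algebraMap κ M c) = algebraMap κ N c) ∧ i (algebraMap R M x') = U ∧ i Y' = Y ∧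
        ∀ (φ : N ≃ₐ[F] N) (d d' : κ), d ≠ 0 → d' ≠ 0 → φ U = algebraMap κ N d * U →
          φ Y = algebraMap κ N d' * Y → ∀ z, ∃ w, i w = φ (i z))
    (hroots : ∃ b₀ ∈ B, ∀ b ∈ B, ∃ t : N, t ^ ℓ * (X - algebraMap κ N b₀) =
      X - algebraMap κ N b) :
    ∃ (υ b₁ b₂ : κ) (T : N), IsU V υ ∧ b₁ ≠ b₂ ∧ b₁ ∈ B ∧ b₂ ∈ B ∧ (∀ σ : κ ≃ₐ[k] κ, σ υ = υ) ∧
      T ^ ℓ * (X - algebraMap κ N b₂) = algebraMap κ N υ * (X - algebraMap κ N b₁) ∧
      ∀ σ, S σ T = T := by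
  classical
  haveI : IsAlgClosed κ := IsAlgClosure.isAlgClosed k
  haveI : CharZero κ := charZero_of_injective_algebraMap (algebraMap k κ).injective
  have hℓ0 : ℓ ≠ 0 := hp.out.ne_zero
  haveI : NeZero ℓ := ⟨hℓ0⟩
  have hXb : ∀ b, X - algebraMap κ N b ≠ 0 := fun b => sub_ne_zero.2 (hXne b)
  have hSX : ∀ σ, ∀ b ∈ B, S σ (X - algebraMap κ N b) = X - algebraMap κ N b := by
    intro σ b hb
    rw [map_sub, hfixX, hconst, hBfix σ b hb]
  obtain ⟨ϖ, hϖ⟩ := IsDiscreteValuationRing.exists_irreducible A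
  obtain ⟨σ₁, η, hσ₁, hη, hact⟩ := exists_ine (k := k) (ℓ := ℓ) V hVa hVm hℓA ϖ hϖ
  obtain ⟨b₀, hb₀, ht⟩ := hroots
  choose! t ht using ht
  have htp : ∀ b ∈ B, t b ^ ℓ = (X - algebraMap κ N b) / (X - algebraMap κ N b₀) := fun b hb => by
    rw [eq_div_iff (hXb b₀), ht b hb]
  have ht0 : ∀ b ∈ B, t b ≠ 0 := by
    intro b hb h
    have h1 := ht b hb
    rw [h, zero_pow hℓ0, zero_mul] at h1
    exact hXb b h1.symm
  have hξ : ∀ b ∈ B, ∃ ξ : κ, ξ ^ ℓ = 1 ∧ S σ₁ (t b) = algebraMap κ N ξ * t b := fun b hb =>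
    kum_root hp.out.pos _ (ht0 b hb) (by
      rw [htp b hb, map_div₀, hSX σ₁ b hb, hSX σ₁ b₀ hb₀])
  choose! ξ hξ1 hξ2 using hξ
  have hξne : ∀ b ∈ B, ξ b ≠ 0 := by
    intro b hb h
    have := hξ1 b hb
    rw [h, zero_pow hℓ0] at this
    exact zero_ne_one this
  obtain ⟨b₁, hb₁, b₂, hb₂, hne, heq⟩ : ∃ b₁ ∈ B, ∃ b₂ ∈ B, b₁ ≠ b₂ ∧ ξ b₁ = ξ b₂ := by
    obtain ⟨a₀, a₁, a₂, g0, g1, g2, n01, n02, n12⟩ := Finset.two_lt_card_iff.1
      (show 2 < B.card by omega)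
    rcases two_eq hVa hVm hℓA hG hBfix X hXne S hconst hfixX hcont g0 g1 g2 n01.symm n02.symm n12
      (hferm a₀ g0 a₁ g1 a₂ g2 n01.symm n02.symm n12) (hXb b₀) (ht a₀ g0) (ht a₁ g1) (ht a₂ g2) hσ₁
      (hξne a₀ g0) (hξ2 a₀ g0) (hξ2 a₁ g1) (hξ2 a₂ g2) with h | h | h
    · exact ⟨a₂, g2, a₀, g0, n02.symm, h⟩
    · exact ⟨a₁, g1, a₀, g0, n01.symm, h⟩
    · exact ⟨a₂, g2, a₁, g1, n12.symm, h⟩
  obtain ⟨T0, hT0⟩ : ∃ T0 : N, T0 = t b₁ / t b₂ := ⟨_, rfl⟩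
  have hT00 : T0 ≠ 0 := by rw [hT0]; exact div_ne_zero (ht0 b₁ hb₁) (ht0 b₂ hb₂)
  have hT0p : T0 ^ ℓ = (X - algebraMap κ N b₁) / (X - algebraMap κ N b₂) := by
    rw [hT0, div_pow, htp b₁ hb₁, htp b₂ hb₂, div_div_div_cancel_right₀ (hXb b₀)]
  have hT0σ : S σ₁ T0 = T0 := by
    have hξ0 : algebraMap κ N (ξ b₂) ≠ 0 := by
      rw [_root_.map_ne_zero]
      intro h
      have := hξ1 b₂ hb₂
      rw [h, zero_pow hℓ0] at this
      exact zero_ne_one this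
    rw [hT0, map_div₀, hξ2 b₁ hb₁, hξ2 b₂ hb₂, heq, mul_div_mul_left _ _ hξ0]
  -- the Kummer cocycle
  have hχ : ∀ σ, ∃ χ : κ, χ ^ ℓ = 1 ∧ S σ T0 = algebraMap κ N χ * T0 := fun σ =>
    kum_root hp.out.pos _ hT00 (by rw [hT0p, map_div₀, hSX σ b₁ hb₁, hSX σ b₂ hb₂])
  choose χ hχ1 hχ2 using hχ
  have hinj : Function.Injective (algebraMap κ N) := (algebraMap κ N).injective
  have hmul : ∀ σ τ, χ (σ * τ) = χ σ * σ (χ τ) := by
    intro σ τ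
    apply hinj
    apply mul_right_cancel₀ hT00
    rw [← hχ2, map_mul]
    change S σ (S τ T0) = _
    rw [hχ2 τ, map_mul, hconst, hχ2 σ, map_mul]
    ring
  obtain ⟨τ₀, hτ0, hτ, t', ht'⟩ := Pool.Agent.Y158.FQ.exists_kum hp.out.pos χ hχ1 hmul (by
    obtain ⟨E, hE, hE'⟩ := hcont T0
    refine ⟨E, hE, fun σ hσ => ?_⟩
    apply hinj
    apply mul_right_cancel₀ hT00
    rw [← hχ2, hE' σ hσ, map_one, one_mul])
  have ht'0 : t' ≠ 0 := by
    rintro rfl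
    rw [map_zero] at ht'
    exact pow_ne_zero _ hτ0 ht'.symm
  obtain ⟨n, u, hu, hn⟩ := exists_val hϖ ht'0
  have hτp : τ₀ ^ ℓ = algebraMap A κ u * algebraMap A κ ϖ ^ n := by
    rw [← ht', hn, map_mul, map_zpow₀, ← IsScalarTower.algebraMap_apply,
      ← IsScalarTower.algebraMap_apply]
  have hχσ : χ σ₁ = 1 := by
    apply hinj
    apply mul_right_cancel₀ hT00
    rw [← hχ2, hT0σ, map_one, one_mul]
  have hdvd : (ℓ : ℤ) ∣ n := by
    have h1 := hact u n τ₀ hu hτp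
    rw [hτ, hχσ] at h1
    exact (hη.zpow_eq_one_iff_dvd n).1 h1.symm
  obtain ⟨j, rfl⟩ := hdvd
  have hϖ0 : algebraMap A κ ϖ ≠ 0 := by
    intro h
    apply hϖ.ne_zero
    apply IsFractionRing.injective A k
    apply (algebraMap k κ).injective
    rw [← IsScalarTower.algebraMap_apply, h, map_zero, map_zero]
  have huU : IsU V (algebraMap A κ u) := isU_alg V hVa u hu
  obtain ⟨τ, hτdef⟩ : ∃ τ : κ, τ = τ₀ / algebraMap A κ ϖ ^ j := ⟨_, rfl⟩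
  have hτ1 : τ ^ ℓ = algebraMap A κ u := by
    rw [hτdef, div_pow, hτp, ← zpow_natCast (algebraMap A κ ϖ ^ j), ← zpow_mul, mul_comm j,
      mul_div_cancel_right₀ _ (zpow_ne_zero _ hϖ0)]
  have hτne : τ ≠ 0 := by rw [hτdef]; exact div_ne_zero hτ0 (zpow_ne_zero _ hϖ0)
  have hAfix : ∀ (σ : κ ≃ₐ[k] κ) (a : A), σ (algebraMap A κ a) = algebraMap A κ a := fun σ a => by
    rw [IsScalarTower.algebraMap_apply A k κ]
    exact σ.commutes _
  have hστ : ∀ σ : κ ≃ₐ[k] κ, σ τ = χ σ * τ := by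
    intro σ
    rw [hτdef, map_div₀, map_zpow₀, hAfix, ← hτ σ]
    field_simp
  refine ⟨(algebraMap A κ u)⁻¹, b₁, b₂, T0 / algebraMap κ N τ, isU_inv' huU, hne, hb₁, hb₂,
    fun σ => by rw [map_inv₀, hAfix], ?_, fun σ => ?_⟩
  · rw [div_pow, ← map_pow, hτ1, hT0p, map_inv₀]
    have := hXb b₂
    field_simp
  · have h1 : χ σ ≠ 0 := by
      intro h
      have := hχ1 σ
      rw [h, zero_pow hℓ0] at this
      exact zero_ne_one this
    rw [map_div₀, hconst, hστ, map_mul, hχ2, mul_div_mul_left _ _ ((_root_.map_ne_zero _).2 h1)]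

/-- **the place of a section** -/
theorem many_dec3 {ℓ : ℕ} [hp : Fact ℓ.Prime] {V : ValuationSubring κ}
    (hVa : ∀ a : A, algebraMap A κ a ∈ V)
    (hVm : ∀ a ∈ IsLocalRing.maximalIdeal A, algebraMap A κ a ∈ V.nonunits)
    (hℓA : IsUnit (ℓ : A)) (ϖ : A) (hϖ : Irreducible ϖ)
    {B : Finset κ} (hG : Good V B) (hB : ∀ σ : κ ≃ₐ[k] κ, ∀ e ∈ B, σ e ∈ B)
    (h3 : 3 ≤ B.card) {X : N} (hXne : ∀ b : κ, X ≠ algebraMap κ N b)
    (S : (κ ≃ₐ[k] κ) →* (N ≃ₐ[F] N))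
    (hconst : ∀ σ c, S σ (algebraMap κ N c) = algebraMap κ N (σ c))
    (hfixX : ∀ σ, S σ X = X)
    (hcont : ∀ z : N, ∃ E : IntermediateField k κ, FiniteDimensional k E ∧
      ∀ σ ∈ E.fixingSubgroup, S σ z = z)
    {c : κ → ℕ} {n : ℕ} (hn : ∑ b ∈ B, c b = n * ℓ) {Z : N}
    (hZ : Z ^ ℓ = ∏ b ∈ B, (X - algebraMap κ N b) ^ c b) (δ : κ) (u : A) (hu : IsUnit u) (m : ℤ)
    (hm : ¬ (ℓ : ℤ) ∣ m) (hδ : δ ^ ℓ = algebraMap A κ u * algebraMap A κ ϖ ^ m)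
    (hsZ : ∀ σ, S σ Z = algebraMap κ N (σ δ / δ) * Z)
    (hferm : ∀ b₀ ∈ B, ∀ b₁ ∈ B, ∀ b₂ ∈ B, b₁ ≠ b₀ → b₂ ≠ b₀ → b₁ ≠ b₂ → ∀ U Y : N,
        U ^ ℓ * (X - algebraMap κ N b₀) =
        algebraMap κ N ((b₂ - b₀) / (b₂ - b₁)) * (X - algebraMap κ N b₁) → Y ^ ℓ = U ^ ℓ - 1 →
      ∃ (R M : Type) (_ : Field R) (_ : Field M) (_ : Algebra κ R) (_ : Algebra R M)
        (_ : Algebra κ M) (_ : IsScalarTower κ R M) (x' : R) (Y' : M) (i : M →+* N),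
        Cov ℓ κ R M x' (nthRootsFinset ℓ (1 : κ)) Y' ∧
        (∀ c, i (algebraMap κ M c) = algebraMap κ N c) ∧ i (algebraMap R M x') = U ∧ i Y' = Y ∧
        ∀ (φ : N ≃ₐ[F] N) (d d' : κ), d ≠ 0 → d' ≠ 0 → φ U = algebraMap κ N d * U →
          φ Y = algebraMap κ N d' * Y → ∀ z, ∃ w, i w = φ (i z))
    (hroots : ∃ b₀ ∈ B, ∀ b ∈ B, ∃ t : N, t ^ ℓ * (X - algebraMap κ N b₀) = X - algebraMap κ N b)
    (hcov : ∀ (υ b₁ b₂ : κ) (T : N), υ ≠ 0 → b₁ ≠ b₂ → b₁ ∈ B → b₂ ∈ B →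
      T ^ ℓ * (X - algebraMap κ N b₂) = algebraMap κ N υ * (X - algebraMap κ N b₁) →
      ∃ (R M : Type) (_ : Field R) (_ : Field M) (_ : Algebra κ R) (_ : Algebra R M)
        (_ : Algebra κ M) (_ : IsScalarTower κ R M) (x' : R) (Y : M) (eqv : M ≃+* N),
        Cov ℓ κ R M x' (bt ℓ (mbB B υ b₁ b₂)) Y ∧
        (∀ c, eqv (algebraMap κ M c) = algebraMap κ N c) ∧ eqv (algebraMap R M x') = T) :
    ∃ W : ValuationSubring N, ((∀ c : κ, algebraMap κ N c ∈ W) ∧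
        (∀ z ∈ W, ∃ c : κ, z - algebraMap κ N c ∈ W.nonunits) ∧
        (∃ b ∈ B, (∀ σ : κ ≃ₐ[k] κ, Dec V σ → σ b = b) ∧ X - algebraMap κ N b ∈ W.nonunits) ∧
        (∀ σ, Dec V σ → ∀ z, S σ z ∈ W ↔ z ∈ W)) ∧
      ∀ W' : ValuationSubring N, (∀ c : κ, algebraMap κ N c ∈ W') →
        (∃ b ∈ B, X - algebraMap κ N b ∈ W'.nonunits) →
        (∀ σ, Dec V σ → ∀ z, S σ z ∈ W' ↔ z ∈ W') → W' = W := by
  classical
  haveI : IsAlgClosed κ := IsAlgClosure.isAlgClosed k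
  haveI : CharZero κ := charZero_of_injective_algebraMap (algebraMap k κ).injective
  have halg : Algebra.IsAlgebraic k κ := IsAlgClosure.isAlgebraic
  haveI : Normal k κ := IsAlgClosure.normal k κ
  have hℓ0 : ℓ ≠ 0 := hp.out.ne_zero
  have hδ0 : δ ≠ 0 := by
    rintro rfl
    have hϖ0 : algebraMap A κ ϖ ≠ 0 := by
      intro h
      apply hϖ.ne_zero
      apply IsFractionRing.injective A k
      apply (algebraMap k κ).injective
      rw [← IsScalarTower.algebraMap_apply, h, map_zero, map_zero]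
    rw [zero_pow hℓ0] at hδ
    exact mul_ne_zero (isU_alg V hVa u hu).1 (zpow_ne_zero _ hϖ0) hδ.symm
  -- the field `E`
  let E : IntermediateField k κ := IntermediateField.adjoin k (B : Set κ)
  have hbE : ∀ b ∈ B, b ∈ E := fun b hb => IntermediateField.subset_adjoin k _ hb
  haveI hEfin : FiniteDimensional k E := by
    haveI : Finite (B : Set κ) := B.finite_toSet
    exact IntermediateField.finiteDimensional_adjoin (S := (B : Set κ))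
      (fun z _ => (halg.isAlgebraic z).isIntegral)
  haveI : IsAlgClosure E κ := ⟨inferInstance, Algebra.IsAlgebraic.tower_top (K := k) E⟩
  obtain ⟨A', _, _, _, _, hfr', hfin', hVa', hVm', hun'⟩ := dvr_below (A := A) E V hVa hVm
  letI : Algebra A' κ := ((algebraMap E κ).comp (algebraMap A' E)).toAlgebra
  haveI : IsScalarTower A' E κ := IsScalarTower.of_algebraMap_eq fun _ => rfl
  let res : (κ ≃ₐ[E] κ) →* (κ ≃ₐ[k] κ) := AlgEquiv.restrictScalarsHom k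
  have hres : ∀ τ z, res τ z = τ z := fun τ z => rfl
  have hBfix : ∀ τ : κ ≃ₐ[E] κ, ∀ b ∈ B, τ b = b := fun τ b hb => τ.commutes ⟨b, hbE b hb⟩
  let SE : (κ ≃ₐ[E] κ) →* (N ≃ₐ[F] N) := S.comp res
  have hSE : ∀ τ z, SE τ z = S (res τ) z := fun τ z => rfl
  have hcontE : ∀ z : N, ∃ E2 : IntermediateField E κ, FiniteDimensional E E2 ∧
      ∀ τ ∈ E2.fixingSubgroup, SE τ z = z := by
    intro z
    obtain ⟨E1, hE1, hE1'⟩ := hcont z
    obtain ⟨E2, hE2, hE2'⟩ := cont_res halg E E1 hE1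
    exact ⟨E2, hE2, fun τ hτ => hE1' _ (hE2' τ hτ)⟩
  obtain ⟨υ, b₁, b₂, T, hυ, h12, h1, h2, hυfix, hT, hST⟩ := exists_T3 (A := A') (k := E) hVa' hVm'
    (hun' ℓ hℓA) hG hBfix h3 X hXne SE (fun τ c => hconst _ c) (fun τ => hfixX _) hcontE hferm hroots
  obtain ⟨R, M, i1, i2, i3, i4, i5, i6, x', Y, eqv, hC, hcc, hx'⟩ :=
    hcov υ b₁ b₂ T hυ.1 h12 h1 h2 hT
  -- a ramified element
  obtain ⟨σ₀, η, hσ₀, hη, hact⟩ := exists_ine (k := k) (ℓ := ℓ) V hVa hVm hℓA ϖ hϖ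
  have hσδ : σ₀ δ ≠ δ := by
    intro h
    have h3 := hact u m δ hu hδ
    rw [h, div_self hδ0] at h3
    exact hm ((hη.zpow_eq_one_iff_dvd m).1 h3.symm)
  have hδ1 : ∃ τ : κ ≃ₐ[E] κ, Ine V τ ∧ τ δ ≠ δ :=
    ⟨liftE (B : Set κ) σ₀ (fun b hb => ine_fix_B hG hB hσ₀ hb),
      ⟨fun z => hσ₀.1 z, fun z hz => hσ₀.2 z hz⟩, hσδ⟩
  have hδfix : ∀ τ : κ ≃ₐ[E] κ, τ (δ ^ ℓ) = δ ^ ℓ := by
    intro τ
    have h3 : δ ^ ℓ = algebraMap k κ (algebraMap A k u * algebraMap A k ϖ ^ m) := by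
      rw [hδ, map_mul, map_zpow₀, ← IsScalarTower.algebraMap_apply,
        ← IsScalarTower.algebraMap_apply]
    rw [h3]
    exact (res τ).commutes _
  obtain ⟨W, ⟨w1, w2, ⟨b, hb, w3⟩, w4⟩, hun⟩ := place_D (A := A') (k := E) hVa' hVm' (hun' ℓ hℓA)
    hG hBfix hXne SE (fun τ c => hconst _ c) hcontE hn hZ hδfix hδ1
    (fun τ => hsZ (res τ)) hυ h12 h1 h2 hυfix hT hST hC eqv hcc hx'
  -- the stability
  have hstab : ∀ (g : κ ≃ₐ[k] κ), Dec V g → ∀ z, S g z ∈ W ↔ z ∈ W := by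
    intro g hg
    have hm' : ∀ z : N, z ∈ W.comap (((S g : N ≃ₐ[F] N) : N ≃+* N) : N →+* N) ↔ S g z ∈ W :=
      fun z => Iff.rfl
    have hn' : ∀ z : N, z ∈ (W.comap (((S g : N ≃ₐ[F] N) : N ≃+* N) : N →+* N)).nonunits ↔
        S g z ∈ W.nonunits := fun z => comap_non ((S g : N ≃ₐ[F] N) : N ≃+* N) W z
    have heq : W.comap (((S g : N ≃ₐ[F] N) : N ≃+* N) : N →+* N) = W := by
      refine hun _ (fun c => ?_) ⟨g⁻¹ b, hB g⁻¹ b hb, ?_⟩ (fun τ hτ z => ?_)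
      · rw [hm', hconst]
        exact w1 _
      · rw [hn', map_sub, hfixX, hconst]
        have h3 : g (g⁻¹ b) = b := by
          rw [← AlgEquiv.mul_apply, mul_inv_cancel, AlgEquiv.one_apply]
        rw [h3]
        exact w3
      · rw [hm', hm', hSE]
        have h3 : ∀ b ∈ (B : Set κ), (g * res τ * g⁻¹) b = b := by
          intro b hb
          change g (τ (g⁻¹ b)) = b
          rw [hBfix τ _ (hB g⁻¹ b hb), ← AlgEquiv.mul_apply, mul_inv_cancel, AlgEquiv.one_apply]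
        have h4 : S g (S (res τ) z) = SE (liftE (B : Set κ) (g * res τ * g⁻¹) h3) (S g z) := by
          have h5 : res (liftE (B : Set κ) (g * res τ * g⁻¹) h3) = g * res τ * g⁻¹ :=
            res_liftE _ _ _
          rw [hSE, h5, ← AlgEquiv.mul_apply, ← AlgEquiv.mul_apply, ← map_mul, ← map_mul,
            inv_mul_cancel_right]
        rw [h4]
        refine w4 _ ?_ _
        have h6 : Dec V (g * res τ * g⁻¹) := dec_conj hg hτ
        exact fun z => h6 z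
    intro z
    rw [← hm', heq]
  refine ⟨W, ⟨w1, w2, ⟨b, hb, fun g hg => ?_, w3⟩, hstab⟩, fun W' a1 a2 a3 =>
    hun W' a1 a2 fun τ hτ z => a3 (res τ) (fun z => hτ z) z⟩
  -- the branch point is rational
  have hnon : S g (X - algebraMap κ N b) ∈ W.nonunits := by
    rw [nonunits_iff] at w3 ⊢
    refine ⟨(hstab g hg _).2 w3.1, ?_⟩
    rcases w3.2 with h3 | h3
    · left; rw [h3, map_zero]
    · right
      rw [← map_inv₀, hstab g hg]
      exact h3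
  rw [map_sub, hfixX, hconst] at hnon
  have h3 : algebraMap κ N (g b - b) ∈ W.nonunits := by
    have h4 : algebraMap κ N (g b - b) = (X - algebraMap κ N b) - (X - algebraMap κ N (g b)) := by
      rw [map_sub]; ring
    rw [h4]
    exact non_sub w3 hnon
  exact sub_eq_zero.1 (const_non w1 h3)

end mp

end Pool.Agent.X281.OB
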