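import Pool.Agent.Y157.PS.Ind2

/-!
# The maximal pro-`ℓ` extension of a cyclic covering does not depend on the covering

`W ^ ℓ = ∏ (x - e) ^ c(e)`, where the `c(e)` are prime to `ℓ`, and `Y ^ ℓ = ∏ (x - e)`: the fields
`κ(x, W)` and `κ(x, Y)` have the same maximal unramified pro-`ℓ` extension.
-/

set_option autoImplicit false
set_option linter.all false

namespace Pool.Agent.X281.OB

open Polynomial FF Pool.Agent.Y157.PS Pool.Agent.Y948.PS

section apx

variable {R Ω : Type} [Field R] [Field Ω] [Algebra R Ω] [Algebra.IsAlgebraic R Ω]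
  {K0 K1 : IntermediateField R Ω} {W : ValuationSubring Ω}

theorem apx_change (h : ∀ t ∈ K0, Apx K1 W t) {z : Ω} (hz : Apx K0 W z) : Apx K1 W z := by
  intro s hs hs0
  obtain ⟨b, hb, hb0, h1⟩ := bdd_alg K0 W s⁻¹
  obtain ⟨t, ht, h2⟩ := hz b⁻¹ (inv_mem hb) (inv_ne_zero hb0)
  obtain ⟨t', ht', h3⟩ := h t ht s hs hs0
  refine ⟨t', ht', ?_⟩
  have hvs : 0 < W.valuation s := (Valuation.pos_iff _).2 hs0
  have h4 : W.valuation b⁻¹ ≤ W.valuation s := by
    rw [map_inv₀]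
    rw [map_inv₀] at h1
    exact inv_le_of_inv_le₀ hvs h1
  have h5 : z - t' = (z - t) + (t - t') := by ring
  rw [h5]
  exact (Valuation.map_add _ _ _).trans (max_le (h2.trans h4) h3)

theorem apx_adjoin {Y : Ω} (hY : Apx K1 W Y) :
    ∀ t ∈ IntermediateField.adjoin R {Y}, Apx K1 W t := by
  intro t ht
  induction ht using IntermediateField.adjoin_induction with
  | mem y hy => rw [Set.mem_singleton_iff.1 hy]; exact hY
  | algebraMap r => exact Apx.of_mem (algebraMap_mem _ _)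
  | add y w _ _ hy hw => exact hy.add hw
  | inv y _ hy => exact hy.inv
  | mul y w _ _ hy hw => exact hy.mul hw

theorem unf_change {π π' : Ω} (hπ : Unf K0 W π) (h : ∀ t ∈ K1, Apx K0 W t) (hm : π' ∈ K1)
    (hv : W.valuation π' = W.valuation π) : Unf K1 W π' := by
  refine ⟨hm, ?_, by rw [hv]; exact hπ.lt, fun z hz hz0 => ?_⟩
  · intro h0
    rw [h0, map_zero] at hv
    exact hπ.pos.ne hv
  · obtain ⟨n, hn⟩ := (h z hz).val' hπ hz0
    exact ⟨n, by rw [hn, hv]⟩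

end apx

section mem

variable {κ R Ω : Type} [Field κ] [IsAlgClosed κ] [CharZero κ] [Field R] [Field Ω] [Algebra κ R]
  [Algebra R Ω] [Algebra κ Ω] [IsScalarTower κ R Ω] [IsAlgClosure R Ω]

theorem val_const (W : ValuationSubring Ω) (hκ : ∀ c : κ, algebraMap κ Ω c ∈ W) {c : κ}
    (hc : c ≠ 0) : W.valuation (algebraMap κ Ω c) = 1 := by
  rw [← isU_iff]
  exact ⟨(_root_.map_ne_zero _).2 hc, hκ c, by rw [← map_inv₀]; exact hκ _⟩

/-- the values of `∏ (x - e) ^ c(e)` -/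
theorem val_prod (W : ValuationSubring Ω) (hκ : ∀ c : κ, algebraMap κ Ω c ∈ W) {x : Ω}
    (B : Finset κ) (c : κ → ℕ) {π : Ω} {ℓ : ℕ} (hπ0 : 0 < W.valuation π)
    (hπ1 : W.valuation π < 1) (hℓ : 0 < ℓ)
    (h : (∃ e ∈ B, W.valuation (x - algebraMap κ Ω e) = W.valuation π ^ (ℓ : ℤ)) ∨
      (∃ a, a ∉ B ∧ π = x - algebraMap κ Ω a) ∨ π = x⁻¹) :
    (∃ e ∈ B, W.valuation (x - algebraMap κ Ω e) = W.valuation π ^ (ℓ : ℤ) ∧
      W.valuation (∏ e ∈ B, (x - algebraMap κ Ω e) ^ c e) = W.valuation π ^ ((ℓ : ℤ) * c e)) ∨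
      (∃ a, a ∉ B ∧ π = x - algebraMap κ Ω a) ∧
        W.valuation (∏ e ∈ B, (x - algebraMap κ Ω e) ^ c e) = 1 ∨
      π = x⁻¹ ∧ W.valuation (∏ e ∈ B, (x - algebraMap κ Ω e) ^ c e) =
        W.valuation π ^ (-(∑ e ∈ B, c e : ℕ) : ℤ) := by
  classical
  have hne : ∀ a : κ, W.valuation (x - algebraMap κ Ω a) < 1 → ∀ e : κ, e ≠ a →
      W.valuation (x - algebraMap κ Ω e) = 1 := by
    intro a ha e he
    have h1 : x - algebraMap κ Ω e = algebraMap κ Ω (a - e) + (x - algebraMap κ Ω a) := by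
      rw [map_sub]; ring
    have h2 : W.valuation (algebraMap κ Ω (a - e)) = 1 :=
      val_const W hκ (sub_ne_zero.2 he.symm)
    rw [h1, Valuation.map_add_eq_of_lt_left _ (by rw [h2]; exact ha), h2]
  rcases h with ⟨e, he, h1⟩ | ⟨a, ha, h1⟩ | h1
  · left
    refine ⟨e, he, h1, ?_⟩
    have hlt : W.valuation (x - algebraMap κ Ω e) < 1 := by
      rw [h1, zpow_natCast]
      exact pow_lt_one₀ zero_le hπ1 hℓ.ne'
    rw [← Finset.mul_prod_erase _ _ he, map_mul, map_prod, Finset.prod_eq_one, mul_one, map_pow, h1,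
      zpow_mul, zpow_natCast, zpow_natCast]
    intro e' he'
    rw [map_pow, hne e hlt e' (Finset.ne_of_mem_erase he'), one_pow]
  · right; left
    refine ⟨⟨a, ha, h1⟩, ?_⟩
    rw [map_prod]
    refine Finset.prod_eq_one fun e he => ?_
    rw [map_pow, hne a (by rw [← h1]; exact hπ1) e (fun h => ha (h ▸ he)), one_pow]
  · right; right
    refine ⟨h1, ?_⟩
    have hx : W.valuation x = (W.valuation π)⁻¹ := by rw [h1, map_inv₀, inv_inv]
    have hx1 : 1 < W.valuation x := by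
      rw [hx]
      exact (one_lt_inv₀ hπ0).2 hπ1
    have h2 : ∀ e : κ, W.valuation (x - algebraMap κ Ω e) = (W.valuation π)⁻¹ := by
      intro e
      rw [← hx]
      have h3 : W.valuation (algebraMap κ Ω e) < W.valuation x :=
        lt_of_le_of_lt ((W.valuation_le_one_iff _).2 (hκ e)) hx1
      exact Valuation.map_sub_eq_of_lt_left _ h3
    rw [map_prod]
    have h3 : ∀ e ∈ B, W.valuation ((x - algebraMap κ Ω e) ^ c e) = (W.valuation π)⁻¹ ^ c e :=
      fun e _ => by rw [map_pow, h2]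
    rw [Finset.prod_congr rfl h3, Finset.prod_pow_eq_pow_sum, zpow_neg, zpow_natCast, inv_pow]

/-- **the two covering fields**: at every place there are uniformisers of both fields with the same
value, and the elements of each field can be approximated by elements of the other one -/
theorem two_fields {ℓ : ℕ} [hp : Fact ℓ.Prime] {x : R} (hx : RatF κ x) (B : Finset κ)
    (hB : ℓ ∣ B.card) (hBne : B.Nonempty) (c : κ → ℕ) (hc : ∀ e ∈ B, ¬ ℓ ∣ c e)
    (hsum : ℓ ∣ ∑ e ∈ B, c e) {Y Z : Ω}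
    (hY : Y ^ ℓ = ∏ e ∈ B, (algebraMap R Ω x - algebraMap κ Ω e))
    (hZ : Z ^ ℓ = ∏ e ∈ B, (algebraMap R Ω x - algebraMap κ Ω e) ^ c e)
    (W : ValuationSubring Ω) (hκ : ∀ c : κ, algebraMap κ Ω c ∈ W) (hW : W ≠ ⊤) :
    ∃ π π', Unf (IntermediateField.adjoin R {Y}) W π ∧ Unf (IntermediateField.adjoin R {Z}) W π' ∧
      Apx (IntermediateField.adjoin R {Y}) W Z ∧ Apx (IntermediateField.adjoin R {Z}) W Y := by
  have hℓ0 : ℓ ≠ 0 := hp.out.ne_zero
  haveI : Algebra.IsAlgebraic R Ω := IsAlgClosure.isAlgebraic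
  have hRW : ∃ z : R, algebraMap R Ω z ∉ W := by
    by_contra hc
    push Not at hc
    exact hW (top_of_R W hc)
  obtain ⟨π, h1, h2, h3, h4⟩ := Pool.Agent.Y809.PS.k0 ℓ κ R Ω x hx B hB hBne Y hY W hκ hRW
  have hxm : ∀ e : κ, algebraMap R Ω x - algebraMap κ Ω e = algebraMap R Ω (x - algebraMap κ R e) :=
    fun e => by rw [map_sub, ← IsScalarTower.algebraMap_apply]
  have hYne : Y ≠ 0 := by
    rintro rfl
    rw [zero_pow hℓ0] at hY
    obtain ⟨e, he, h5⟩ := Finset.prod_eq_zero_iff.1 hY.symm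
    apply hx.trans
    rw [hxm, map_eq_zero, sub_eq_zero] at h5
    rw [h5]
    exact isAlgebraic_algebraMap e
  have hπ : Unf (IntermediateField.adjoin R {Y}) W π := by
    refine ⟨?_, h2, (ValuationSubring.mem_nonunits_iff _).1 h1, ?_⟩
    · rcases h3 with ⟨e, he, rfl, _⟩ | ⟨a, ha, rfl⟩ | rfl
      · exact IntermediateField.mem_adjoin_simple_self R _
      · rw [hxm]
        exact algebraMap_mem _ _
      · exact inv_mem (algebraMap_mem _ _)
    · intro z hz hz0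
      obtain ⟨n, hn⟩ := h4 z hz hz0
      refine ⟨n, ?_⟩
      have h5 := (isU_iff W).1 hn
      rw [map_div₀, map_zpow₀] at h5
      rwa [div_eq_one_iff_eq] at h5
      exact zpow_ne_zero _ ((Valuation.pos_iff _).2 h2).ne'
  have hcase : (∃ e ∈ B, W.valuation (algebraMap R Ω x - algebraMap κ Ω e) =
      W.valuation π ^ (ℓ : ℤ)) ∨ (∃ a, a ∉ B ∧ π = algebraMap R Ω x - algebraMap κ Ω a) ∨
      π = (algebraMap R Ω x)⁻¹ := by
    rcases h3 with ⟨e, he, rfl, h5⟩ | h5 | h5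
    · left
      refine ⟨e, he, ?_⟩
      have h6 := (isU_iff W).1 h5
      rw [map_div₀, div_eq_one_iff_eq] at h6
      · rw [h6, map_pow, zpow_natCast]
      · exact ((Valuation.pos_iff _).2 (pow_ne_zero _ hYne)).ne'
    · right; left; exact h5
    · right; right; exact h5
  have hres0 := hres hx (IntermediateField.adjoin R {Y}) W hκ hW
  have hres1 := hres hx (IntermediateField.adjoin R {Z}) W hκ hW
  have hvl := vl hℓ0 W hκ
  have hpos := hπ.pos
  have hinj : ∀ (z : Ω) (n : ℤ), W.valuation (z ^ ℓ) = W.valuation π ^ ((ℓ : ℤ) * n) →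
      W.valuation z = W.valuation π ^ n := by
    intro z n h
    rw [map_pow, mul_comm, zpow_mul, zpow_natCast] at h
    exact (pow_left_inj₀ zero_le zero_le hℓ0).1 h
  -- the value of `Z`
  obtain ⟨j, hj⟩ := hsum
  obtain ⟨i, hi⟩ := hB
  obtain ⟨n, hn, π', hπ'm, hπ'v⟩ : ∃ n : ℤ, W.valuation (Z ^ ℓ) = W.valuation π ^ ((ℓ : ℤ) * n) ∧
      ∃ π' ∈ IntermediateField.adjoin R {Z}, W.valuation Z = W.valuation π ^ n →
        W.valuation π' = W.valuation π := by
    rw [hZ]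
    rcases val_prod W hκ B c hpos hπ.lt hp.out.pos hcase with ⟨e, he, h5, h6⟩ | ⟨⟨a, ha, h5⟩, h6⟩ |
      ⟨h5, h6⟩
    · have hcop : IsCoprime (c e : ℤ) (ℓ : ℤ) := by
        rw [Nat.isCoprime_iff_coprime]
        exact ((Nat.Prime.coprime_iff_not_dvd hp.out).2 (hc e he)).symm
      obtain ⟨u, v, huv⟩ := hcop
      refine ⟨c e, h6, Z ^ u * (algebraMap R Ω x - algebraMap κ Ω e) ^ v, ?_, fun h7 => ?_⟩
      · refine mul_mem (zpow_mem (IntermediateField.mem_adjoin_simple_self R Z) _)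
          (zpow_mem ?_ _)
        rw [hxm]
        exact algebraMap_mem _ _
      · rw [map_mul, map_zpow₀, map_zpow₀, h7, h5, ← zpow_mul, ← zpow_mul,
          ← zpow_add₀ hpos.ne']
        have h8 : (c e : ℤ) * u + (ℓ : ℤ) * v = 1 := by linarith
        rw [h8, zpow_one]
    · refine ⟨0, by rw [h6, mul_zero, zpow_zero], π, ?_, fun _ => rfl⟩
      rw [h5, hxm]
      exact algebraMap_mem _ _
    · refine ⟨-j, ?_, π, ?_, fun _ => rfl⟩
      · rw [h6, hj]
        congr 1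
        push_cast
        ring
      · rw [h5]
        exact inv_mem (algebraMap_mem _ _)
  have hZv := hinj Z n hn
  have hAZ : Apx (IntermediateField.adjoin R {Y}) W Z := by
    refine Apx.root hπ hres0 hℓ0 hvl Z ?_ n hn
    rw [hZ]
    refine Apx.of_mem (prod_mem fun e _ => pow_mem ?_ _)
    rw [hxm]
    exact algebraMap_mem _ _
  have hπ' : Unf (IntermediateField.adjoin R {Z}) W π' :=
    unf_change hπ (apx_adjoin hAZ) hπ'm (hπ'v hZv)
  -- the value of `Y`
  obtain ⟨n', hn'⟩ : ∃ n' : ℤ, W.valuation (Y ^ ℓ) = W.valuation π ^ ((ℓ : ℤ) * n') := by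
    have h5 := val_prod W hκ B (fun _ => 1) hpos hπ.lt hp.out.pos hcase
    simp only [pow_one] at h5
    rw [hY]
    rcases h5 with ⟨e, he, h5, h6⟩ | ⟨⟨a, ha, h5⟩, h6⟩ | ⟨h5, h6⟩
    · exact ⟨1, by rw [h6]; push_cast; rfl⟩
    · exact ⟨0, by rw [h6, mul_zero, zpow_zero]⟩
    · refine ⟨-i, ?_⟩
      rw [h6, Finset.sum_const, smul_eq_mul, mul_one, hi]
      congr 1
      push_cast
      ring
  refine ⟨π, π', hπ, hπ', hAZ, ?_⟩
  refine Apx.root hπ' hres1 hℓ0 hvl Y ?_ n' (by rw [hn', hπ'v hZv])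
  rw [hY]
  refine Apx.of_mem (prod_mem fun e _ => ?_)
  rw [hxm]
  exact algebraMap_mem _ _

/-- **the two fields have the same maximal unramified pro-`ℓ` extension** -/
theorem maxPro_eq {ℓ : ℕ} [hp : Fact ℓ.Prime] {x : R} (hx : RatF κ x) (B : Finset κ)
    (hB : ℓ ∣ B.card) (hBne : B.Nonempty) (c : κ → ℕ) (hc : ∀ e ∈ B, ¬ ℓ ∣ c e)
    (hsum : ℓ ∣ ∑ e ∈ B, c e) {Y Z : Ω}
    (hY : Y ^ ℓ = ∏ e ∈ B, (algebraMap R Ω x - algebraMap κ Ω e))
    (hZ : Z ^ ℓ = ∏ e ∈ B, (algebraMap R Ω x - algebraMap κ Ω e) ^ c e) (z : Ω) :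
    z ∈ maxPro ℓ κ (IntermediateField.adjoin R {Y}) Ω ↔
      z ∈ maxPro ℓ κ (IntermediateField.adjoin R {Z}) Ω := by
  haveI : Algebra.IsAlgebraic R Ω := IsAlgClosure.isAlgebraic
  haveI : Normal R Ω := IsAlgClosure.normal R Ω
  have h2 := fun W h1 h2 => two_fields hx B hB hBne c hc hsum hY hZ W h1 h2
  have hU0 : HU κ (IntermediateField.adjoin R {Y}) := fun W h3 h4 => by
    obtain ⟨π, π', h5, -⟩ := h2 W h3 h4
    exact ⟨π, h5⟩
  have hU1 : HU κ (IntermediateField.adjoin R {Z}) := fun W h3 h4 => by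
    obtain ⟨π, π', -, h5, -⟩ := h2 W h3 h4
    exact ⟨π', h5⟩
  have hYf : Y ^ ℓ = algebraMap R Ω (∏ e ∈ B, (x - algebraMap κ R e)) := by
    rw [hY, map_prod]
    refine Finset.prod_congr rfl fun e _ => ?_
    rw [map_sub, ← IsScalarTower.algebraMap_apply]
  have hZf : Z ^ ℓ = algebraMap R Ω (∏ e ∈ B, (x - algebraMap κ R e) ^ c e) := by
    rw [hZ, map_prod]
    refine Finset.prod_congr rfl fun e _ => ?_
    rw [map_pow, map_sub, ← IsScalarTower.algebraMap_apply]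
  constructor
  · intro hz
    have h3 := maxPro_le hx hYf hU0 hz
    refine le_maxPro hZf hU1 ⟨h3.1, fun W h4 h5 => ?_⟩
    obtain ⟨π, π', -, -, -, h6⟩ := h2 W h4 h5
    exact apx_change (apx_adjoin h6) (h3.2 W h4 h5)
  · intro hz
    have h3 := maxPro_le hx hZf hU1 hz
    refine le_maxPro hYf hU0 ⟨h3.1, fun W h4 h5 => ?_⟩
    obtain ⟨π, π', -, -, h6, -⟩ := h2 W h4 h5
    exact apx_change (apx_adjoin h6) (h3.2 W h4 h5)

end mem

end Pool.Agent.X281.OB
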