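import Pool.Agent.X281.OB.Mem

/-!
# The maximal unramified pro-`ℓ` extensions of a quotient of the Fermat curve and of the Fermat curve

`U ^ ℓ = x`, `Y ^ ℓ = U ^ ℓ - 1`, `Z ^ ℓ = x ^ a * (1 - x) ^ b`: the fields `κ(x, Z)` and
`κ(U, Y)` have the same maximal unramified pro-`ℓ` extension.
-/

set_option autoImplicit false
set_option linter.all false

namespace Pool.Agent.X281.OB

open Polynomial FF Pool.Agent.Y157.PS Pool.Agent.Y948.PS

section apx

variable {R R' Ω : Type} [Field R] [Field R'] [Field Ω] [Algebra R Ω] [Algebra R' Ω]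
  [Algebra.IsAlgebraic R Ω] [Algebra.IsAlgebraic R' Ω]
  {K : IntermediateField R Ω} {K' : IntermediateField R' Ω} {W : ValuationSubring Ω}

theorem apx_change2 (h : ∀ t ∈ K, Apx K' W t) {z : Ω} (hz : Apx K W z) : Apx K' W z := by
  intro s hs hs0
  obtain ⟨b, hb, hb0, h1⟩ := bdd_alg K W s⁻¹
  obtain ⟨t, ht, h2⟩ := hz b⁻¹ (inv_mem hb) (inv_ne_zero hb0)
  obtain ⟨t', ht', h3⟩ := h t ht s hs hs0
  refine ⟨t', ht', ?_⟩
  have hvs : 0 < W.valuation s := (Valuation.pos_iff _).2 hs0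
  have h4 : W.valuation b⁻¹ ≤ W.valuation s := by
    rw [map_inv₀]
    rw [map_inv₀] at h1
    exact inv_le_of_inv_le₀ hvs h1
  have h5 : z - t' = (z - t) + (t - t') := by ring
  rw [h5]
  exact (Valuation.map_add _ _ _).trans (max_le (h2.trans h4) h3)

/-- the subfield of the elements which can be approximated -/
def apxSub (K : IntermediateField R Ω) (W : ValuationSubring Ω) : Subfield Ω where
  carrier := {z | Apx K W z}
  mul_mem' := fun ha hb => Apx.mul ha hb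
  one_mem' := Apx.of_mem (one_mem _)
  add_mem' := fun ha hb => Apx.add ha hb
  zero_mem' := Apx.of_mem (zero_mem _)
  neg_mem' := fun {z} hz => by
    have h1 : -z = (-1) * z := by ring
    rw [Set.mem_setOf_eq, h1]
    exact Apx.mul (Apx.of_mem (neg_mem (one_mem _))) hz
  inv_mem' := fun _ ha => Apx.inv ha

theorem unf_change2 {π π' : Ω} (hπ : Unf K' W π) (h : ∀ t ∈ K, t ∈ K') (hm : π' ∈ K)
    (hv : W.valuation π' = W.valuation π) : Unf K W π' := by
  refine ⟨hm, ?_, by rw [hv]; exact hπ.lt, fun z hz hz0 => ?_⟩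
  · intro h0
    rw [h0, map_zero] at hv
    exact hπ.pos.ne hv
  · obtain ⟨n, hn⟩ := hπ.val z (h z hz) hz0
    exact ⟨n, by rw [hn, hv]⟩

end apx

section pro

variable {κ Ω : Type} [Field κ] [Field Ω] [Algebra κ Ω]

theorem adj_le {K : IntermediateField κ Ω} {U : Ω} (hU : U ∈ K) :
    IntermediateField.adjoin κ {U} ≤ K := by
  rw [IntermediateField.adjoin_le_iff, Set.singleton_subset_iff]
  exact hU

/-- pro-`ℓ` elements over `κ(x)` and over `κ(U)`, `U ^ ℓ = x` -/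
theorem pro_iff [IsAlgClosed κ] {ℓ : ℕ} (hℓ : ℓ ≠ 0) (X0 U : Ω) (hU : U ^ ℓ = X0) (z : Ω) :
    Pro ℓ (IntermediateField.adjoin κ {X0}) z ↔ Pro ℓ (IntermediateField.adjoin κ {U}) z := by
  have hXU : IntermediateField.adjoin κ {X0} ≤ IntermediateField.adjoin κ {U} := by
    refine adj_le ?_
    rw [← hU]
    exact pow_mem (IntermediateField.mem_adjoin_simple_self κ U) _
  constructor
  · rintro ⟨n, hn⟩
    refine ⟨n, fun σ γ => ?_⟩
    let down : (Ω ≃ₐ[IntermediateField.adjoin κ {U}] Ω) →*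
        (Ω ≃ₐ[IntermediateField.adjoin κ {X0}] Ω) :=
      { toFun := fun e => AlgEquiv.ofRingEquiv (f := (e : Ω ≃+* Ω))
          (fun r => e.commutes ⟨(r : Ω), hXU r.2⟩)
        map_one' := rfl
        map_mul' := fun _ _ => rfl }
    have h1 := hn (down σ) (down γ)
    rw [← map_pow] at h1
    exact h1
  · rintro ⟨n, hn⟩
    refine ⟨n + 1, fun σ γ => ?_⟩
    have hμ : ∀ ζ : Ω, ζ ^ ℓ = 1 → ∃ c : IntermediateField.adjoin κ {X0},
        algebraMap (IntermediateField.adjoin κ {X0}) Ω c = ζ := fun ζ => muR (κ := κ) hℓ ζ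
    set τ : Ω ≃ₐ[IntermediateField.adjoin κ {X0}] Ω := γ⁻¹ * σ * γ with hτ
    have h1 : (τ ^ ℓ) U = U := root_fix hμ τ U (by
      rw [hU]
      exact τ.commutes ⟨X0, IntermediateField.mem_adjoin_simple_self κ X0⟩)
    have h2 : ∀ r ∈ IntermediateField.adjoin κ {U}, (τ ^ ℓ) r = r := by
      intro r hr
      induction hr using IntermediateField.adjoin_induction with
      | mem y hy => rw [Set.mem_singleton_iff.1 hy]; exact h1
      | algebraMap c =>
        exact (τ ^ ℓ).commutes (algebraMap κ (IntermediateField.adjoin κ {X0}) c)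
      | add y w _ _ hy hw => rw [map_add, hy, hw]
      | inv y _ hy => rw [map_inv₀, hy]
      | mul y w _ _ hy hw => rw [map_mul, hy, hw]
    let τ' : Ω ≃ₐ[IntermediateField.adjoin κ {U}] Ω :=
      AlgEquiv.ofRingEquiv (f := ((τ ^ ℓ : Ω ≃ₐ[IntermediateField.adjoin κ {X0}] Ω) : Ω ≃+* Ω))
        (fun r => h2 r r.2)
    have h3 : ∀ (j : ℕ) (w : Ω), (τ' ^ j) w = ((τ ^ ℓ) ^ j) w := by
      intro j
      induction j with
      | zero => intro w; simp
      | succ j ih =>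
        intro w
        rw [pow_succ, AlgEquiv.mul_apply, ih, pow_succ, AlgEquiv.mul_apply]
        rfl
    have h5 : (τ' ^ (ℓ ^ n)) z = z := hn τ' 1
    rw [h3, ← pow_mul, ← pow_succ'] at h5
    have h7 : γ⁻¹ * σ ^ (ℓ ^ (n + 1)) * γ = τ ^ (ℓ ^ (n + 1)) := by
      rw [hτ]
      have := conj_pow (i := ℓ ^ (n + 1)) (a := γ⁻¹) (b := σ)
      rw [inv_inv] at this
      exact this.symm
    rw [← h7] at h5
    have h8 : γ (γ⁻¹ ((σ ^ (ℓ ^ (n + 1))) (γ z))) = γ z := by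
      congr 1
    have h9 : ∀ w, γ (γ⁻¹ w) = w := fun w => by
      rw [← AlgEquiv.mul_apply, mul_inv_cancel, AlgEquiv.one_apply]
    rwa [h9] at h8

end pro

section mem

variable {κ Ω : Type} [Field κ] [IsAlgClosed κ] [CharZero κ] [Field Ω] [Algebra κ Ω]

theorem ord_lemma {Γ : Type} [LinearOrderedCommGroupWithZero Γ] {g p : Γ} (hp : 0 < p) {ℓ : ℕ}
    (hℓ : ℓ ≠ 0) {n : ℤ} (h : g ^ ℓ = p ^ ((ℓ : ℤ) * n)) : g = p ^ n := by
  rw [mul_comm, zpow_mul, zpow_natCast] at h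
  exact (pow_left_inj₀ zero_le zero_le hℓ).1 h

theorem unf_of_k0 {ℓ : ℕ} [hp : Fact ℓ.Prime] {R : Type} [Field R] [Algebra κ R] [Algebra R Ω]
    [IsScalarTower κ R Ω] [IsAlgClosure R Ω] {x : R} (hx : RatF κ x) (B : Finset κ)
    (hB : ℓ ∣ B.card) (hBne : B.Nonempty) {Y : Ω}
    (hY : Y ^ ℓ = ∏ e ∈ B, (algebraMap R Ω x - algebraMap κ Ω e))
    (W : ValuationSubring Ω) (hκ : ∀ c : κ, algebraMap κ Ω c ∈ W) (hW : W ≠ ⊤) :
    ∃ π, Unf (IntermediateField.adjoin R {Y}) W π ∧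
      ((∃ e ∈ B, W.valuation (algebraMap R Ω x - algebraMap κ Ω e) = W.valuation π ^ ℓ) ∨
      (∃ a, a ∉ B ∧ π = algebraMap R Ω x - algebraMap κ Ω a) ∨
      π = (algebraMap R Ω x)⁻¹) := by
  have hℓ0 : ℓ ≠ 0 := hp.out.ne_zero
  haveI : Algebra.IsAlgebraic R Ω := IsAlgClosure.isAlgebraic
  have hRW : ∃ z : R, algebraMap R Ω z ∉ W := by
    by_contra hc
    push Not at hc
    exact hW (top_of_R W hc)
  obtain ⟨π, h1, h2, h3, h4⟩ := Pool.Agent.Y809.PS.k0 ℓ κ R Ω x hx B hB hBne Y hY W hκ hRW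
  have hxm : ∀ e : κ, algebraMap R Ω x - algebraMap κ Ω e = algebraMap R Ω (x - algebraMap κ R e) :=
    fun e => by rw [map_sub, ← IsScalarTower.algebraMap_apply]
  have hYne : Y ≠ 0 := by
    rintro rfl
    rw [zero_pow hℓ0] at hY
    obtain ⟨e, he, h5⟩ := Finset.prod_eq_zero_iff.1 hY.symm
    apply hx.trans
    rw [hxm, map_eq_zero, sub_eq_zero] at h5
    rw [h5]
    exact isAlgebraic_algebraMap e
  refine ⟨π, ⟨?_, h2, (ValuationSubring.mem_nonunits_iff _).1 h1, ?_⟩, ?_⟩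
  · rcases h3 with ⟨e, he, rfl, _⟩ | ⟨a, ha, rfl⟩ | rfl
    · exact IntermediateField.mem_adjoin_simple_self R _
    · rw [hxm]
      exact algebraMap_mem _ _
    · exact inv_mem (algebraMap_mem _ _)
  · intro z hz hz0
    obtain ⟨n, hn⟩ := h4 z hz hz0
    refine ⟨n, ?_⟩
    have h5 := (isU_iff W).1 hn
    rw [map_div₀, map_zpow₀] at h5
    rwa [div_eq_one_iff_eq] at h5
    exact zpow_ne_zero _ ((Valuation.pos_iff _).2 h2).ne'
  · rcases h3 with ⟨e, he, rfl, h5⟩ | h5 | h5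
    · left
      refine ⟨e, he, ?_⟩
      have h6 := (isU_iff W).1 h5
      rw [map_div₀, div_eq_one_iff_eq] at h6
      · rw [h6, map_pow]
      · exact ((Valuation.pos_iff _).2 (pow_ne_zero _ hYne)).ne'
    · right; left; exact h5
    · right; right; exact h5

end mem

end Pool.Agent.X281.OB
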