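import Pool.Agent.X281.OB.Gen
import Pool.Agent.X281.OB.Adj
import Pool.Agent.X281.OB.Glue

/-!
# Change of the coordinate
-/

set_option autoImplicit false
set_option linter.all false

namespace Pool.Agent.X281.OB

open Polynomial FF Pool.Agent.Y157.PS Pool.Agent.Y948.PS

section mob

variable {κ : Type} [Field κ]

/-- the Möbius transformation `υ (x - b₁) / (x - b₂)` -/
def mob (υ b₁ b₂ b : κ) : κ := υ * (b - b₁) / (b - b₂)

/-- the inverse transformation -/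
def mobi (υ b₁ b₂ y : κ) : κ := (y * b₂ - υ * b₁) / (y - υ)

theorem mobi_mob {υ b₁ b₂ b : κ} (hυ : υ ≠ 0) (h12 : b₁ ≠ b₂) (hb : b ≠ b₂) :
    mobi υ b₁ b₂ (mob υ b₁ b₂ b) = b := by
  have h1 : b - b₂ ≠ 0 := sub_ne_zero.2 hb
  have h2 : mob υ b₁ b₂ b - υ = υ * (b₂ - b₁) / (b - b₂) := by
    unfold mob
    field_simp
    ring
  have h3 : υ * (b₂ - b₁) / (b - b₂) ≠ 0 :=
    div_ne_zero (mul_ne_zero hυ (sub_ne_zero.2 h12.symm)) h1
  unfold mobi
  rw [h2, div_eq_iff h3]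
  unfold mob
  field_simp
  ring

theorem mob_inj {υ b₁ b₂ b b' : κ} (hυ : υ ≠ 0) (h12 : b₁ ≠ b₂) (hb : b ≠ b₂) (hb' : b' ≠ b₂)
    (h : mob υ b₁ b₂ b = mob υ b₁ b₂ b') : b = b' := by
  rw [← mobi_mob hυ h12 hb, h, mobi_mob hυ h12 hb']

open Classical in
/-- the other branch points in the new coordinate -/
noncomputable def mbB (B : Finset κ) (υ b₁ b₂ : κ) : Finset κ :=
  ((B.erase b₁).erase b₂).image (mob υ b₁ b₂)

theorem mem_mbB {B : Finset κ} {υ b₁ b₂ y : κ} :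
    y ∈ mbB B υ b₁ b₂ ↔ ∃ b ∈ B, b ≠ b₁ ∧ b ≠ b₂ ∧ mob υ b₁ b₂ b = y := by
  classical
  unfold mbB
  rw [Finset.mem_image]
  constructor
  · rintro ⟨b, hb, h⟩
    rw [Finset.mem_erase, Finset.mem_erase] at hb
    exact ⟨b, hb.2.2, hb.2.1, hb.1, h⟩
  · rintro ⟨b, h1, h2, h3, h⟩
    exact ⟨b, Finset.mem_erase.2 ⟨h3, Finset.mem_erase.2 ⟨h2, h1⟩⟩, h⟩

theorem mbB_zero {B : Finset κ} {υ b₁ b₂ : κ} (hυ : υ ≠ 0) : (0 : κ) ∉ mbB B υ b₁ b₂ := by
  rw [mem_mbB]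
  rintro ⟨b, hb, h1, h2, h⟩
  unfold mob at h
  rw [div_eq_zero_iff, mul_eq_zero] at h
  rcases h with (h | h) | h
  · exact hυ h
  · exact h1 (sub_eq_zero.1 h)
  · exact h2 (sub_eq_zero.1 h)

theorem mbB_card {B : Finset κ} {υ b₁ b₂ : κ} (hυ : υ ≠ 0) (h12 : b₁ ≠ b₂) (h1 : b₁ ∈ B)
    (h2 : b₂ ∈ B) : (mbB B υ b₁ b₂).card + 2 = B.card := by
  classical
  unfold mbB
  rw [Finset.card_image_of_injOn, Finset.card_erase_of_mem, Finset.card_erase_of_mem h1]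
  · have h3 : 1 < B.card := Finset.one_lt_card.2 ⟨b₁, h1, b₂, h2, h12⟩
    omega
  · exact Finset.mem_erase.2 ⟨h12.symm, h2⟩
  · intro b hb b' hb' h
    simp only [Finset.coe_erase, Set.mem_diff, Set.mem_singleton_iff] at hb hb'
    exact mob_inj hυ h12 hb.2 hb'.2 h

theorem prod_mbB {M : Type} [CommMonoid M] {B : Finset κ} {υ b₁ b₂ : κ} (hυ : υ ≠ 0)
    (h12 : b₁ ≠ b₂) (h1 : b₁ ∈ B) (h2 : b₂ ∈ B) (f : κ → M) (g : κ → M) :
    f b₁ * f b₂ * ∏ y ∈ mbB B υ b₁ b₂, f (mobi υ b₁ b₂ y) = ∏ b ∈ B, f b := by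
  classical
  unfold mbB
  rw [Finset.prod_image]
  · rw [← Finset.mul_prod_erase B f h1, ← Finset.mul_prod_erase (B.erase b₁) f
      (Finset.mem_erase.2 ⟨h12.symm, h2⟩), mul_assoc]
    congr 2
    refine Finset.prod_congr rfl fun b hb => ?_
    rw [mobi_mob hυ h12 (Finset.mem_erase.1 hb).1]
  · intro b hb b' hb' h
    simp only [Finset.coe_erase, Set.mem_diff, Set.mem_singleton_iff] at hb hb'
    exact mob_inj hυ h12 hb.2 hb'.2 h

theorem sum_mbB {B : Finset κ} {υ b₁ b₂ : κ} (hυ : υ ≠ 0)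
    (h12 : b₁ ≠ b₂) (h1 : b₁ ∈ B) (h2 : b₂ ∈ B) (c : κ → ℕ) :
    c b₁ + c b₂ + ∑ y ∈ mbB B υ b₁ b₂, c (mobi υ b₁ b₂ y) = ∑ b ∈ B, c b :=
  prod_mbB (M := Multiplicative ℕ) hυ h12 h1 h2 (fun b => Multiplicative.ofAdd (c b))
    (fun b => Multiplicative.ofAdd (c b))

variable {M : Type} [Field M] [Algebra κ M]

/-- the constant which appears when the equation is written in the new coordinate -/
noncomputable def mbl (B : Finset κ) (c : κ → ℕ) (υ b₁ b₂ : κ) : κ :=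
  (b₂ - b₁) ^ c b₁ * (υ * (b₂ - b₁)) ^ c b₂ *
    ∏ y ∈ mbB B υ b₁ b₂, (b₂ - mobi υ b₁ b₂ y) ^ c (mobi υ b₁ b₂ y)

theorem mbl_ne {B : Finset κ} {c : κ → ℕ} {υ b₁ b₂ : κ} (hυ : υ ≠ 0) (h12 : b₁ ≠ b₂) :
    mbl B c υ b₁ b₂ ≠ 0 := by
  unfold mbl
  refine mul_ne_zero (mul_ne_zero (pow_ne_zero _ (sub_ne_zero.2 h12.symm))
    (pow_ne_zero _ (mul_ne_zero hυ (sub_ne_zero.2 h12.symm)))) ?_
  rw [Finset.prod_ne_zero_iff]
  intro y hy
  obtain ⟨b, hb, hb1, hb2, rfl⟩ := mem_mbB.1 hy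
  rw [mobi_mob hυ h12 hb2]
  exact pow_ne_zero _ (sub_ne_zero.2 hb2.symm)

theorem mob_X {υ b₁ b₂ : κ} (h12 : b₁ ≠ b₂) (hυ : υ ≠ 0) {X X₁ : M}
    (hX2 : X ≠ algebraMap κ M b₂)
    (hX : X₁ * (X - algebraMap κ M b₂) = algebraMap κ M υ * (X - algebraMap κ M b₁)) :
    X₁ - algebraMap κ M υ ≠ 0 ∧
      (X - algebraMap κ M b₁) * (X₁ - algebraMap κ M υ) = X₁ * algebraMap κ M (b₂ - b₁) ∧
      (X - algebraMap κ M b₂) * (X₁ - algebraMap κ M υ) = algebraMap κ M (υ * (b₂ - b₁)) ∧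
      ∀ b, b ≠ b₂ → (X - algebraMap κ M b) * (X₁ - algebraMap κ M υ) =
        algebraMap κ M (b₂ - b) * (X₁ - algebraMap κ M (mob υ b₁ b₂ b)) := by
  have h1 : (X - algebraMap κ M b₂) * (X₁ - algebraMap κ M υ) =
      algebraMap κ M (υ * (b₂ - b₁)) := by
    rw [map_mul, map_sub]
    linear_combination hX
  have h2 : X₁ - algebraMap κ M υ ≠ 0 := by
    intro h
    rw [h, mul_zero] at h1
    exact (_root_.map_ne_zero (algebraMap κ M)).2
      (mul_ne_zero hυ (sub_ne_zero.2 h12.symm)) h1.symm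
  refine ⟨h2, ?_, h1, fun b hb => ?_⟩
  · rw [map_sub]
    linear_combination hX
  · have hb2 : b - b₂ ≠ 0 := sub_ne_zero.2 hb
    have h3 : algebraMap κ M (b₂ - b) * algebraMap κ M (mob υ b₁ b₂ b) =
        algebraMap κ M υ * (algebraMap κ M b₁ - algebraMap κ M b) := by
      rw [← map_mul, ← map_sub, ← map_mul]
      congr 1
      unfold mob
      field_simp
      ring
    rw [mul_sub (algebraMap κ M (b₂ - b)), h3, map_sub]
    linear_combination hX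

/-- the equation in the new coordinate -/
theorem mob_eqn {ℓ : ℕ} {B : Finset κ} {c : κ → ℕ} {υ b₁ b₂ : κ} (h12 : b₁ ≠ b₂) (hυ : υ ≠ 0)
    (h1 : b₁ ∈ B) (h2 : b₂ ∈ B) {X X₁ Z : M} (hX2 : X ≠ algebraMap κ M b₂)
    (hX : X₁ * (X - algebraMap κ M b₂) = algebraMap κ M υ * (X - algebraMap κ M b₁))
    (hZ : Z ^ ℓ = ∏ b ∈ B, (X - algebraMap κ M b) ^ c b) {n : ℕ} (hn : ∑ b ∈ B, c b = n * ℓ) :
    (Z * (X₁ - algebraMap κ M υ) ^ n) ^ ℓ = algebraMap κ M (mbl B c υ b₁ b₂) *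
      (X₁ ^ c b₁ * ∏ y ∈ mbB B υ b₁ b₂, (X₁ - algebraMap κ M y) ^ c (mobi υ b₁ b₂ y)) := by
  obtain ⟨hne, e1, e2, e3⟩ := mob_X h12 hυ hX2 hX
  have h4 : ∏ b ∈ B, (X₁ - algebraMap κ M υ) ^ c b = (X₁ - algebraMap κ M υ) ^ (n * ℓ) := by
    rw [Finset.prod_pow_eq_pow_sum, hn]
  rw [mul_pow, ← pow_mul, hZ, ← h4, ← Finset.prod_mul_distrib]
  simp_rw [← mul_pow]
  rw [← prod_mbB hυ h12 h1 h2 (fun b => ((X - algebraMap κ M b) * (X₁ - algebraMap κ M υ)) ^ c b)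
    (fun b => ((X - algebraMap κ M b) * (X₁ - algebraMap κ M υ)) ^ c b)]
  have h5 : ∀ y ∈ mbB B υ b₁ b₂,
      ((X - algebraMap κ M (mobi υ b₁ b₂ y)) * (X₁ - algebraMap κ M υ)) ^ c (mobi υ b₁ b₂ y) =
      algebraMap κ M (b₂ - mobi υ b₁ b₂ y) ^ c (mobi υ b₁ b₂ y) *
        (X₁ - algebraMap κ M y) ^ c (mobi υ b₁ b₂ y) := by
    intro y hy
    obtain ⟨b, hb, hb1, hb2, rfl⟩ := mem_mbB.1 hy
    rw [mobi_mob hυ h12 hb2, e3 b hb2, mul_pow]
  rw [e1, e2, Finset.prod_congr rfl h5, Finset.prod_mul_distrib]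
  unfold mbl
  simp only [map_mul, map_pow, map_prod]
  ring

end mob

section geo

variable {k F Ω : Type} [Field k] [CharZero k]
    [Field F] [Field Ω] [Algebra k F] [Algebra F Ω] [Algebra k Ω] [IsScalarTower k F Ω]
    [IsAlgClosed Ω] [Algebra.IsAlgebraic F Ω]

theorem isAlgClosure_of_mem {κ Ω : Type} [Field κ] [Field Ω] [Algebra κ Ω] [IsAlgClosed Ω]
    (X U : Ω) [h : IsAlgClosure (IntermediateField.adjoin κ {X}) Ω]
    (hX : X ∈ IntermediateField.adjoin κ {U}) :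
    IsAlgClosure (IntermediateField.adjoin κ {U}) Ω := by
  refine ⟨inferInstance, ⟨fun z => ?_⟩⟩
  have hle : IntermediateField.adjoin κ {X} ≤ IntermediateField.adjoin κ {U} := adj_le hX
  letI : Algebra (IntermediateField.adjoin κ {X}) (IntermediateField.adjoin κ {U}) :=
    (IntermediateField.inclusion hle).toRingHom.toAlgebra
  haveI : IsScalarTower (IntermediateField.adjoin κ {X}) (IntermediateField.adjoin κ {U}) Ω :=
    IsScalarTower.of_algebraMap_eq fun _ => rfl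
  have h1 : IsAlgebraic (IntermediateField.adjoin κ {X}) z :=
    (IsAlgClosure.isAlgebraic (R := IntermediateField.adjoin κ {X}) (K := Ω)).isAlgebraic z
  exact h1.extendScalars (algebraMap (IntermediateField.adjoin κ {X})
    (IntermediateField.adjoin κ {U})).injective

/-- the covering field in terms of the coordinate `T`, `T ^ ℓ = υ (x - b₁) / (x - b₂)` -/
theorem mob_geo {ℓ : ℕ} [hℓ : Fact ℓ.Prime] (B : Finset (algebraicClosure k Ω))
    (h4 : 3 ≤ B.card) (c : algebraicClosure k Ω → ℕ)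
    (hc : ∀ e ∈ B, ¬ ℓ ∣ c e) (hsum : ℓ ∣ ∑ e ∈ B, c e)
    (δ : algebraicClosure k Ω) (hδ0 : δ ≠ 0) (x w : F) (hx : Transcendental k x)
    (hF : IntermediateField.adjoin k {x, w} = (⊤ : IntermediateField k F))
    (hZ : ((δ : Ω) * algebraMap F Ω w) ^ ℓ = ∏ e ∈ B, (algebraMap F Ω x - (e : Ω)) ^ c e)
    (υ b₁ b₂ : algebraicClosure k Ω) (hυ : υ ≠ 0) (h12 : b₁ ≠ b₂) (h1 : b₁ ∈ B) (h2 : b₂ ∈ B)
    (T Y : Ω) (hT : T ^ ℓ * (algebraMap F Ω x - (b₂ : Ω)) = (υ : Ω) * (algebraMap F Ω x - (b₁ : Ω)))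
    (hY : Y ^ ℓ = ∏ e ∈ bt ℓ (mbB B υ b₁ b₂), (T - (e : Ω))) :
    Transcendental (algebraicClosure k Ω) T ∧
    IsAlgClosure (IntermediateField.adjoin (algebraicClosure k Ω) {T}) Ω ∧
    ∀ z, z ∈ geomPro ℓ k F Ω ↔ z ∈ maxPro ℓ (algebraicClosure k Ω)
      (IntermediateField.adjoin (IntermediateField.adjoin (algebraicClosure k Ω) {T}) {Y}) Ω := by
  classical
  have hℓ0 : ℓ ≠ 0 := hℓ.out.ne_zero
  have hac : IsAlgClosure k (algebraicClosure k Ω) := inferInstance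
  haveI hkb : IsAlgClosed (algebraicClosure k Ω) := hac.1
  haveI hch : CharZero (algebraicClosure k Ω) :=
    charZero_of_injective_algebraMap (algebraMap k (algebraicClosure k Ω)).injective
  obtain ⟨X0, hX0def⟩ : ∃ X0 : Ω, X0 = algebraMap F Ω x := ⟨_, rfl⟩
  rw [← hX0def] at hZ hT
  have hXk : Transcendental k X0 := by
    rw [hX0def]
    exact (transcendental_algebraMap_iff (R := k) (algebraMap F Ω).injective (a := x)).2 hx
  have hXκ : Transcendental (algebraicClosure k Ω) X0 := trans_up hXk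
  have hXne : ∀ b : algebraicClosure k Ω, X0 ≠ algebraMap (algebraicClosure k Ω) Ω b := by
    rintro b rfl
    exact hXκ (isAlgebraic_algebraMap b)
  have hX0m : X0 ∈ IntermediateField.adjoin (algebraicClosure k Ω) {X0} :=
    IntermediateField.mem_adjoin_simple_self _ _
  haveI hcl0 : IsAlgClosure (IntermediateField.adjoin (algebraicClosure k Ω) {X0}) Ω := by
    rw [hX0def]
    refine closure_R hF δ hδ0 hℓ.out.pos ?_
    rw [hZ, ← hX0def]
    exact prod_mem fun e _ => pow_mem (sub_mem hX0m (IntermediateField.algebraMap_mem _ e)) _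
  obtain ⟨X1, hX1⟩ : ∃ X1 : Ω, X1 = T ^ ℓ := ⟨_, rfl⟩
  have hXX : X1 * (X0 - algebraMap (algebraicClosure k Ω) Ω b₂) =
      algebraMap (algebraicClosure k Ω) Ω υ * (X0 - algebraMap (algebraicClosure k Ω) Ω b₁) := by
    rw [hX1]
    exact hT
  obtain ⟨hne, e1, e2, e3⟩ := mob_X h12 hυ (hXne b₂) hXX
  have hX2 : X0 - algebraMap (algebraicClosure k Ω) Ω b₂ ≠ 0 := sub_ne_zero.2 (hXne b₂)
  have hX1eq : X1 = algebraMap (algebraicClosure k Ω) Ω υ *
      (X0 - algebraMap (algebraicClosure k Ω) Ω b₁) /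
      (X0 - algebraMap (algebraicClosure k Ω) Ω b₂) := by
    rw [eq_div_iff hX2]
    exact hXX
  have hX0eq : X0 = algebraMap (algebraicClosure k Ω) Ω (υ * (b₂ - b₁)) /
      (X1 - algebraMap (algebraicClosure k Ω) Ω υ) + algebraMap (algebraicClosure k Ω) Ω b₂ := by
    rw [← e2, mul_div_cancel_right₀ _ hne]
    ring
  have hX1m : X1 ∈ IntermediateField.adjoin (algebraicClosure k Ω) {X0} := by
    rw [hX1eq]
    exact div_mem (mul_mem (IntermediateField.algebraMap_mem _ _)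
      (sub_mem hX0m (IntermediateField.algebraMap_mem _ _)))
      (sub_mem hX0m (IntermediateField.algebraMap_mem _ _))
  have hX1m' : X1 ∈ IntermediateField.adjoin (algebraicClosure k Ω) {X1} :=
    IntermediateField.mem_adjoin_simple_self _ _
  have hX0m' : X0 ∈ IntermediateField.adjoin (algebraicClosure k Ω) {X1} := by
    rw [hX0eq]
    exact add_mem (div_mem (IntermediateField.algebraMap_mem _ _)
      (sub_mem hX1m' (IntermediateField.algebraMap_mem _ _))) (IntermediateField.algebraMap_mem _ _)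
  have hX1κ : Transcendental (algebraicClosure k Ω) X1 := by
    intro h
    apply hXκ
    rw [hX0eq, div_eq_mul_inv]
    exact ((isAlgebraic_algebraMap _).mul (h.sub (isAlgebraic_algebraMap _)).inv).add
      (isAlgebraic_algebraMap _)
  have hTκ : Transcendental (algebraicClosure k Ω) T := by
    intro h
    apply hX1κ
    rw [hX1]
    exact h.pow ℓ
  haveI hcl1 : IsAlgClosure (IntermediateField.adjoin (algebraicClosure k Ω) {X1}) Ω :=
    isAlgClosure_of_mem X0 X1 hX0m'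
  haveI hclT : IsAlgClosure (IntermediateField.adjoin (algebraicClosure k Ω) {T}) Ω := by
    refine isAlgClosure_of_mem X1 T ?_
    rw [hX1]
    exact pow_mem (IntermediateField.mem_adjoin_simple_self _ T) _
  refine ⟨hTκ, hclT, fun z => ?_⟩
  -- the element `Z1`
  obtain ⟨n, hn⟩ := hsum
  rw [mul_comm] at hn
  have hlam := mbl_ne (B := B) (c := c) (b₁ := b₁) (b₂ := b₂) hυ h12
  obtain ⟨μ, hμ⟩ := IsAlgClosed.exists_pow_nat_eq (mbl B c υ b₁ b₂) hℓ.out.pos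
  have hμ0 : μ ≠ 0 := by
    rintro rfl
    rw [zero_pow hℓ0] at hμ
    exact hlam hμ.symm
  have hμΩ : algebraMap (algebraicClosure k Ω) Ω μ ≠ 0 := (_root_.map_ne_zero _).2 hμ0
  obtain ⟨Z0, hZ0⟩ : ∃ Z0 : Ω, Z0 = (δ : Ω) * algebraMap F Ω w := ⟨_, rfl⟩
  rw [← hZ0] at hZ
  have heqn := mob_eqn (ℓ := ℓ) (M := Ω) (B := B) (c := c) h12 hυ h1 h2 (hXne b₂) hXX hZ hn
  obtain ⟨Z1, hZ1⟩ : ∃ Z1 : Ω, Z1 = Z0 * (X1 - algebraMap (algebraicClosure k Ω) Ω υ) ^ n /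
      algebraMap (algebraicClosure k Ω) Ω μ := ⟨_, rfl⟩
  have hZ1p : Z1 ^ ℓ = X1 ^ c b₁ * ∏ y ∈ mbB B υ b₁ b₂,
      (X1 - algebraMap (algebraicClosure k Ω) Ω y) ^ c (mobi υ b₁ b₂ y) := by
    rw [hZ1, div_pow, heqn, ← map_pow, hμ, mul_div_cancel_left₀]
    exact (_root_.map_ne_zero _).2 hlam
  have hset : ∀ z, z ∈ IntermediateField.adjoin
      (IntermediateField.adjoin (algebraicClosure k Ω) {X0}) {Z0} ↔
      z ∈ IntermediateField.adjoin
      (IntermediateField.adjoin (algebraicClosure k Ω) {X1}) {Z1} := by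
    intro z
    constructor
    · refine adj_le2 X0 Z0 (IntermediateField.adjoin
        (IntermediateField.adjoin (algebraicClosure k Ω) {X1}) {Z1}).toSubfield
        (adj_mem_c X1 Z1) ?_ ?_ z
      · exact IntermediateField.algebraMap_mem _
          (⟨X0, hX0m'⟩ : IntermediateField.adjoin (algebraicClosure k Ω) {X1})
      · have h5 : Z0 = Z1 * algebraMap (algebraicClosure k Ω) Ω μ /
            (X1 - algebraMap (algebraicClosure k Ω) Ω υ) ^ n := by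
          rw [hZ1, div_mul_cancel₀ _ hμΩ, mul_div_cancel_right₀ _ (pow_ne_zero _ hne)]
        rw [h5]
        exact div_mem (mul_mem (adj_mem_V X1 Z1) (adj_mem_c X1 Z1 μ))
          (pow_mem (sub_mem (adj_mem_U X1 Z1) (adj_mem_c X1 Z1 υ)) _)
    · refine adj_le2 X1 Z1 (IntermediateField.adjoin
        (IntermediateField.adjoin (algebraicClosure k Ω) {X0}) {Z0}).toSubfield
        (adj_mem_c X0 Z0) ?_ ?_ z
      · exact IntermediateField.algebraMap_mem _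
          (⟨X1, hX1m⟩ : IntermediateField.adjoin (algebraicClosure k Ω) {X0})
      · rw [hZ1]
        have h6 : X1 ∈ (IntermediateField.adjoin
            (IntermediateField.adjoin (algebraicClosure k Ω) {X0}) {Z0}) :=
          IntermediateField.algebraMap_mem _
            (⟨X1, hX1m⟩ : IntermediateField.adjoin (algebraicClosure k Ω) {X0})
        exact div_mem (mul_mem (adj_mem_V X0 Z0) (pow_mem (sub_mem h6 (adj_mem_c X0 Z0 υ)) _))
          (adj_mem_c X0 Z0 μ)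
  have hsumB := sum_mbB (B := B) hυ h12 h1 h2 c
  have hc' : ∀ y ∈ mbB B υ b₁ b₂, ¬ ℓ ∣ c (mobi υ b₁ b₂ y) := by
    intro y hy
    obtain ⟨b, hb, hb1, hb2, rfl⟩ := mem_mbB.1 hy
    rw [mobi_mob hυ h12 hb2]
    exact hc b hb
  have hac' : ¬ ℓ ∣ c b₁ + ∑ y ∈ mbB B υ b₁ b₂, c (mobi υ b₁ b₂ y) := by
    intro h
    apply hc b₂ h2
    have h5 : c b₂ + (c b₁ + ∑ y ∈ mbB B υ b₁ b₂, c (mobi υ b₁ b₂ y)) = n * ℓ := by
      rw [← hn, ← hsumB]
      ring
    exact (Nat.dvd_add_left h).1 (h5 ▸ Dvd.intro_left n rfl)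
  have hne' : (mbB B υ b₁ b₂).Nonempty := by
    rw [← Finset.card_pos]
    have := mbB_card (B := B) hυ h12 h1 h2
    omega
  rw [← gen_maxPro (mbB B υ b₁ b₂) (mbB_zero hυ) hne' X1 T Y Z1 hX1κ hX1.symm hY (c b₁)
    (fun y => c (mobi υ b₁ b₂ y)) hZ1p (hc b₁ h1) hc' hac' z, ← maxPro_set _ _ hset z]
  have h6 := maxPro_geom ℓ k hF δ hδ0 z
  rw [← hX0def, ← hZ0] at h6
  exact h6.symm

end geo

end Pool.Agent.X281.OB
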