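import Pool.Agent.X281.OB.RatN2
import Pool.Agent.X281.SE.Rat3

/-!
# Sections near rational branch points over extensions, all prime numbers
-/

set_option autoImplicit false

namespace Pool.Agent.X281.OB

open Pool.Agent.TH377.LocG
open Polynomial
open Pool.Agent.TH377.Sup (pol pol_natDegree pol_leadingCoeff pol_map irr_of_map Irr irr_card)
open Pool.Agent.X281.SEA (Cond Desc Many)
open Pool.Agent.Y157.PS (non_mul non_mem nonunits_iff)
open Pool.Agent.X281.SE

theorem ratN_ext {k : Type} [Field k] [CharZero k] {r D : ℕ} (hD : 3 ≤ D) (q q' : ℕ) (a : k)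
    (c : Fin (r + (D + 1)) → k) (h : Pool.Agent.X281.SEA.GoodDvr (PC r D) q q' a c) :
    ∃ (p : ℕ) (A : ValuationSubring k), p.Prime ∧ p ∣ q' ∧ ¬ p ∣ q ∧ IsPlace p A ∧
      ∀ ℓ : ℕ, ℓ.Prime → ℓ ≠ p →
      ∀ (L : Type) [Field L] [Algebra k L] [FiniteDimensional k L] (m : ℤ),
        (ℓ ∣ D ∨ Module.finrank k L < D) → ¬ (ℓ : ℤ) ∣ m * Module.finrank k L →
        ∃ B : ValuationSubring L, IsPlace p B ∧ B.comap (algebraMap k L) = A ∧
          AtRatN ℓ (Set.range fun i : Fin r => algebraMap k L (c (Fin.castAdd (D + 1) i))) B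
            (algebraMap k L (a ^ m)) ((fpol c).map (algebraMap k L)) := by
  classical
  obtain ⟨A, _, _, _, _, cA, ϖ, t, s, hfr, hfin, hcA, hPC, hϖ, ht, hs, ha, hqA, hqA'⟩ := h
  obtain ⟨B0, hB1, hB2, hB3, hB4⟩ := place_of A k
  set p := ringChar (IsLocalRing.ResidueField A) with hp
  have hpp : p.Prime := by
    have hcp : CharP (IsLocalRing.ResidueField A) p := ringChar.charP _
    rcases CharP.char_is_prime_or_zero (IsLocalRing.ResidueField A) p with h4 | h4
    · exact h4
    · exfalso
      rw [h4] at hcp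
      have := CharP.charP_to_charZero (IsLocalRing.ResidueField A)
      exact not_finite (IsLocalRing.ResidueField A)
  have hres : ∀ n : ℕ, ((n : ℕ) : A) ∈ IsLocalRing.maximalIdeal A ↔ p ∣ n := by
    intro n
    rw [← IsLocalRing.residue_eq_zero_iff, map_natCast, ringChar.spec]
  have hpA : ((p : ℕ) : A) ∈ IsLocalRing.maximalIdeal A := (hres p).2 dvd_rfl
  refine ⟨p, B0, hpp, ?_, ?_, ⟨hB1, hB2, ?_⟩, ?_⟩
  · rw [← hres, IsLocalRing.mem_maximalIdeal]
    exact hqA'
  · rw [← hres, IsLocalRing.mem_maximalIdeal, mem_nonunits_iff, not_not]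
    exact hqA
  · rw [← map_natCast (algebraMap A k), hB4]
    exact hpA
  intro ℓ hℓ hℓq L _ _ _ m hL hm
  have hℓA : IsUnit (ℓ : A) := by
    by_contra h4
    have h5 := (hres ℓ).1 ((IsLocalRing.mem_maximalIdeal _).2 h4)
    exact hℓq ((Nat.prime_dvd_prime_iff_eq hpp hℓ).1 h5).symm
  obtain ⟨tu, rfl⟩ := ht
  -- the polynomials over `A`
  have unit_of : ∀ z : A, IsLocalRing.residue A z ≠ 0 → IsUnit z := by
    intro z hz
    by_contra h4
    exact hz ((IsLocalRing.residue_eq_zero_iff _).2 ((IsLocalRing.mem_maximalIdeal _).2 h4))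
  set gA : A[X] := pol fun j : Fin (D + 1) => cA (Fin.natAdd r j) with hgA
  have hlast : IsUnit (cA (Fin.natAdd r (Fin.last D))) := unit_of _ hPC.2.2.1
  have hgAd : gA.natDegree = D := pol_natDegree _ hlast.ne_zero
  have hgAlc : gA.leadingCoeff = cA (Fin.natAdd r (Fin.last D)) := pol_leadingCoeff _ hlast.ne_zero
  have hgAr : gA.map (IsLocalRing.residue A) =
      pol fun j : Fin (D + 1) => IsLocalRing.residue A (cA (Fin.natAdd r j)) := by
    rw [hgA, pol_map]
  have hgirr : Irreducible (gA.map (IsLocalRing.residue A)) := by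
    rw [hgAr]
    exact hPC.2.2.2
  have hgrd : (gA.map (IsLocalRing.residue A)).natDegree = D := by
    rw [hgAr]
    exact pol_natDegree _ hPC.2.2.1
  have hfA : fpol cA = (∏ i : Fin r, (X - C (cA (Fin.castAdd (D + 1) i)))) * gA := rfl
  have hfAd : (fpol cA).natDegree = r + D := fpol_natDegree cA hlast.ne_zero
  have hfAs : ((fpol cA).map (IsLocalRing.residue A)).Separable := by
    rw [fpol_map]
    exact fpol_sep (by omega) _ hPC
  have hg0 : IsUnit (gA.coeff 0) := by
    refine unit_of _ ?_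
    rw [← coeff_map, coeff_zero_eq_eval_zero]
    intro h4
    have h6 := degree_eq_one_of_irreducible_of_root hgirr h4
    have h7 : (gA.map (IsLocalRing.residue A)).natDegree = 1 :=
      natDegree_eq_of_degree_eq_some h6
    omega
  have hf0 : IsUnit ((fpol cA).coeff 0) := by
    rw [hfA, mul_coeff_zero]
    refine IsUnit.mul ?_ hg0
    rw [coeff_zero_eq_eval_zero, eval_prod]
    rw [IsUnit.prod_iff]
    intro i _
    rw [eval_sub, eval_X, eval_C, zero_sub, IsUnit.neg_iff]
    exact unit_of _ (hPC.2.1 i)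
  -- the place of `L`
  let _ : Algebra A L := ((algebraMap k L).comp (algebraMap A k)).toAlgebra
  have hstR : IsScalarTower A k L := IsScalarTower.of_algebraMap_eq (fun _ => rfl)
  have hczL : CharZero L := charZero_of_injective_algebraMap (algebraMap k L).injective
  obtain ⟨B, _, _, _, _, hfrB, J, fd, hfdle, hfd0, hfdℓ, hfinB, hℓB, hJL, hJm, hJs, hJf,
    ϖ', t', m', hϖ', ht', hm', hat⟩ :=
    dvr_hom (k := k) (L := L) ℓ hℓ hℓA ϖ ((tu ^ m : Aˣ) : A) hϖ
      (tu ^ m).isUnit (s * m) (by
        intro h4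
        apply hm
        rcases hs with rfl | rfl
        · rwa [one_mul] at h4
        · rw [neg_one_mul, neg_mul, dvd_neg] at h4
          exact h4)
  have hJL' : ∀ z : A, algebraMap B L (J z) = algebraMap k L (algebraMap A k z) := by
    intro z
    rw [← RingHom.comp_apply, hJL]
    rfl
  have hJinj : Function.Injective J := by
    intro z w hzw
    have h4 := congrArg (algebraMap B L) hzw
    rw [hJL', hJL'] at h4
    exact IsFractionRing.injective A k ((algebraMap k L).injective h4)
  obtain ⟨B1, hC1, hC2, hC3, hC4⟩ := place_of B L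
  have hdom : ∀ r : A, r ∈ IsLocalRing.maximalIdeal A →
      algebraMap k L (algebraMap A k r) ∈ B1.nonunits := by
    intro r hr
    rw [← hJL', hC4]
    exact hJm r hr
  have hin : ∀ r : A, algebraMap k L (algebraMap A k r) ∈ B1 := by
    intro r
    rw [← hJL', hC3]
    exact ⟨_, rfl⟩
  refine ⟨B1, ⟨hC1, hC2, ?_⟩, ?_, ?_⟩
  · have h4 := hdom _ hpA
    rwa [map_natCast, map_natCast] at h4
  · ext z
    rw [ValuationSubring.mem_comap]
    constructor
    · intro hz
      by_contra hzB
      rcases B0.mem_or_inv_mem z with h4 | h4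
      · exact hzB h4
      · obtain ⟨r, hr⟩ := (hB3 _).1 h4
        have hz0 : z ≠ 0 := by
          rintro rfl
          exact hzB (zero_mem _)
        have h5 : z⁻¹ ∈ B0.nonunits := by
          rw [nonunits_iff, inv_inv]
          exact ⟨h4, Or.inr hzB⟩
        rw [← hr, hB4] at h5
        have h6 := hdom r h5
        rw [hr, map_inv₀, nonunits_iff, inv_inv] at h6
        rcases h6.2 with h7 | h7
        · rw [inv_eq_zero, _root_.map_eq_zero] at h7
          exact hz0 h7
        · exact h7 hz
    · intro hz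
      obtain ⟨r, hr⟩ := (hB3 _).1 hz
      rw [← hr]
      exact hin r
  have hcoef : algebraMap k L (a ^ m) = algebraMap B L t' * algebraMap B L ϖ' ^ m' := by
    rw [← hat]
    have h5 : a ^ m = algebraMap A k ((tu ^ m : Aˣ) : A) * algebraMap A k ϖ ^ (s * m) := by
      rw [ha, mul_zpow, ← zpow_mul, zpow_unit]
    rw [h5, map_mul, map_zpow₀]
    rfl
  have hfB : (fpol c).map (algebraMap k L) = ((fpol cA).map J).map (algebraMap B L) := by
    rw [Polynomial.map_map, hJL, fpol_map, fpol_map]
    congr 1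
    funext i
    rw [← hcA]
    rfl
  have hfBd : ((fpol cA).map J).natDegree = r + D := by
    rw [natDegree_map_eq_of_injective hJinj, hfAd]
  have hrange : (Set.range fun i : Fin r => algebraMap k L (c (Fin.castAdd (D + 1) i))) =
      Set.range fun i : Fin r => algebraMap B L (J (cA (Fin.castAdd (D + 1) i))) := by
    congr 1
    funext i
    rw [hJL', hcA]
  rw [hrange, hcoef, hfB]
  refine ratN_dvr hℓ hℓB (fun i : Fin r => J (cA (Fin.castAdd (D + 1) i))) (gA.map J)
    ((fpol cA).map J) ?_ ?_ (hJs _ hfAs) ?_ ?_ ϖ' hϖ' _ m' hm' t' ht' rfl B1 hC3 hC4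
  · rw [hfA, Polynomial.map_mul, Polynomial.map_prod]
    congr 1
    refine Finset.prod_congr rfl fun i _ => ?_
    rw [Polynomial.map_sub, map_X, map_C]
  · rw [leadingCoeff_map_of_injective hJinj, hgAlc]
    exact hlast.map J
  · rw [hfBd]
    by_cases h4 : ℓ ∣ r + D
    · exact Or.inl ⟨h4, by omega⟩
    · refine Or.inr ⟨h4, by omega, ?_⟩
      rw [coeff_map]
      exact hf0.map J
  · intro b hb
    have h5 : ((gA.map J).map (IsLocalRing.residue B)).eval (IsLocalRing.residue B b) = 0 := by
      rw [eval_map, eval₂_at_apply]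
      exact (IsLocalRing.residue_eq_zero_iff _).2 hb
    have h6 : X - C (IsLocalRing.residue B b) ∣ (gA.map J).map (IsLocalRing.residue B) :=
      dvd_iff_isRoot.2 h5
    have h7 := hJf D gA (factorDiv_of_irreducible _ _ hgirr (by rw [hgrd])) _
      (irreducible_X_sub_C _) h6
    rw [natDegree_X_sub_C, one_mul] at h7
    rcases hL with hL | hL
    · exact hfdℓ (hL.trans h7)
    · have h8 := Nat.le_of_dvd hfd0 h7
      omega

end Pool.Agent.X281.OB
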