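import Pool.Agent.X281.OB.Rel2
import Pool.Agent.X281.OB.Fine

/-!
# Curves `a y^ℓ = ∏ f_i(x)^(c_i)` with more than `ℓ` branch points without sections
-/

set_option autoImplicit false
set_option linter.all false

open Polynomial FF Pool.Agent.Y157.PS Pool.Agent.X281.FL

namespace Pool.Agent.X281.OB

theorem fineXm (hFUN : S_FUN) {A k : Type} [CommRing A] [IsDomain A] [IsDiscreteValuationRing A]
    [Finite (IsLocalRing.ResidueField A)] [Field k] [CharZero k] [Algebra A k] [IsFractionRing A k]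
    {ℓ : ℕ} [hp : Fact ℓ.Prime] (hℓ : IsUnit (ℓ : A)) {ι : Type} [Fintype ι] (f : ι → A[X])
    (c : ι → ℕ) (hlc : ∀ i, IsUnit (f i).leadingCoeff)
    (hs : ((∏ i, f i).map (IsLocalRing.residue A)).Separable)
    (hbig : ℓ < ∑ i, (f i).natDegree) (h4c : 4 ≤ ∑ i, (f i).natDegree)
    (hc : ∀ i, ¬ ℓ ∣ c i) (hsum : ℓ ∣ ∑ i, c i * (f i).natDegree)
    (hroot : ∀ i (b : A), (f i).eval b ∉ IsLocalRing.maximalIdeal A)
    (ϖ : A) (hϖ : Irreducible ϖ) (d : k) (m : ℤ) (hm : ¬ (ℓ : ℤ) ∣ m)
    (t : A) (ht : IsUnit t) (hd : d = algebraMap A k t * algebraMap A k ϖ ^ m) :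
    FineP ℓ d ((∏ i, f i ^ c i).map (algebraMap A k)) := by
  classical
  have hℓ0 : 0 < ℓ := hp.out.pos
  have hd0 : d ≠ 0 := by
    rw [hd]
    refine mul_ne_zero ?_ (zpow_ne_zero _ ?_)
    · rw [Ne, map_eq_zero_iff _ (IsFractionRing.injective A k)]
      exact ht.ne_zero
    · rw [Ne, map_eq_zero_iff _ (IsFractionRing.injective A k)]
      exact hϖ.ne_zero
  have hdV : Val ϖ d m := ⟨t, ht, hd⟩
  have hlcP : IsUnit (∏ i, f i ^ c i).leadingCoeff := by
    rw [leadingCoeff_prod, IsUnit.prod_iff]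
    intro i _
    rw [leadingCoeff_pow]
    exact (hlc i).pow _
  have hdegP : (∏ i, f i ^ c i).natDegree = ∑ i, c i * (f i).natDegree := by
    rw [natDegree_prod _ _ fun i _ => pow_ne_zero _ (fun h => by
      have h1 := (hlc i).ne_zero
      rw [h, leadingCoeff_zero] at h1
      exact h1 rfl)]
    exact Finset.sum_congr rfl fun i _ => natDegree_pow _ _
  have hdvdP : ℓ ∣ (∏ i, f i ^ c i).natDegree := hdegP ▸ hsum
  have hrootP : ∀ b : A, (∏ i, f i ^ c i).eval b ∉ IsLocalRing.maximalIdeal A := by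
    intro b hb
    rw [eval_prod] at hb
    have h1 : (IsLocalRing.maximalIdeal A).IsPrime := inferInstance
    rw [h1.prod_mem_iff] at hb
    obtain ⟨i, -, hi⟩ := hb
    rw [eval_pow] at hi
    exact hroot i b (h1.mem_of_pow_mem _ hi)
  have hev : ∀ {F : Type} [Field F] [Algebra k F] (x : F),
      aeval x ((∏ i, f i ^ c i).map (algebraMap A k)) =
        ∏ i, (aeval x ((f i).map (algebraMap A k))) ^ c i := by
    intro F _ _ x
    rw [Polynomial.map_prod, map_prod]
    exact Finset.prod_congr rfl fun i _ => by rw [Polynomial.map_pow, map_pow]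
  refine ⟨?_, ?_, no_pt hℓ0 ϖ hϖ _ hlcP hdvdP hrootP d t ht m hm hd, ?_⟩
  · intro F Ω _ _ _ _ _ _ _ _ x y hx hxy hF M hM S hcont hcompat
    rw [hev] at hxy
    exact locXm hℓ f c hlc hs hbig h4c hc hsum hroot ϖ hϖ d m hm hdV x y hx hxy hF M hM S hcont
      hcompat
  · intro F Ω _ _ _ _ _ _ _ _ U hU x y hxy
    refine ⟨fun G => ?_⟩
    by_cases hx : Transcendental k x
    · have hy : IsAlgebraic (IntermediateField.adjoin k {x}) y := by
        refine isAlgebraic_iff_isIntegral.2 (IsIntegral.of_pow hℓ0 ?_)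
        have h1 : y ^ ℓ ∈ IntermediateField.adjoin k {x} := by
          have h2 : y ^ ℓ = (algebraMap k F d)⁻¹ *
              aeval x ((∏ i, f i ^ c i).map (algebraMap A k)) := by
            rw [← hxy, inv_mul_cancel_left₀ ((_root_.map_ne_zero _).2 hd0)]
          rw [h2]
          exact mul_mem (inv_mem (IntermediateField.algebraMap_mem _ d)) (aeval_mem x _)
        exact isIntegral_algebraMap (x := (⟨_, h1⟩ : IntermediateField.adjoin k {x}))
      obtain ⟨F₀, Ω₀, _, _, _, _, _, _, _, _, i, x₀, y₀, hix, hiy, htop, S, hS, hScompat⟩ :=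
        hFUN ℓ k F Ω U hU G x y hx hy
      have hx0 : Transcendental k x₀ := by
        intro halg
        apply hx
        rw [← hix]
        exact (isAlgebraic_algHom_iff i i.toRingHom.injective).2 halg
      have hxy0 : algebraMap k F₀ d * y₀ ^ ℓ =
          aeval x₀ ((∏ i, f i ^ c i).map (algebraMap A k)) := by
        apply i.toRingHom.injective
        have e1 : i (algebraMap k F₀ d * y₀ ^ ℓ) =
            i (aeval x₀ ((∏ i, f i ^ c i).map (algebraMap A k))) := by
          rw [map_mul, map_pow, hiy, AlgHom.commutes, hxy, ← hix, aeval_algHom_apply]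
        exact e1
      rw [hev] at hxy0
      exact locXm hℓ f c hlc hs hbig h4c hc hsum hroot ϖ hϖ d m hm hdV x₀ y₀ hx0 hxy0 htop _ le_rfl
        S hS hScompat
    · rw [Transcendental, not_not] at hx
      obtain ⟨x', rfl⟩ := Pool.Agent.W623.SecE.alg_mem_base G x hx
      have h1 : y ^ ℓ = algebraMap k F
          (((∏ i, f i ^ c i).map (algebraMap A k)).eval x' / d) := by
        rw [aeval_algebraMap_apply, aeval_def, Algebra.algebraMap_self, eval₂_id] at hxy
        rw [map_div₀, eq_div_iff ((_root_.map_ne_zero _).2 hd0)]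
        linear_combination hxy
      have hy : IsAlgebraic k y := by
        apply IsAlgebraic.of_pow hℓ0
        rw [h1]
        exact isAlgebraic_algebraMap _
      obtain ⟨y', rfl⟩ := Pool.Agent.W623.SecE.alg_mem_base G y hy
      refine no_pt hℓ0 ϖ hϖ _ hlcP hdvdP hrootP d t ht m hm hd x' y'
        ((algebraMap k F).injective ?_)
      rw [map_mul, map_pow, hxy, aeval_algebraMap_apply, aeval_def, Algebra.algebraMap_self,
        eval₂_id]
  · intro r
    rw [leadingCoeff_map_of_injective (IsFractionRing.injective A k)]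
    exact no_inf hℓ0 ϖ hϖ _ hlcP d t ht m hm hd r

end Pool.Agent.X281.OB

namespace Pool.Agent.X281.SE

open Pool.Agent.W620.SC Pool.Agent.W623.SecC Pool.Agent.TH120.Sec Pool.Agent.TH377.LocG
  Pool.Agent.TH377.NC
open Polynomial IsDedekindDomain
open Pool.Agent.TH377.Sup (pol pol_natDegree pol_leadingCoeff pol_map)
open Pool.Agent.Y157.PS (S_FUN FineP fineP)

/-- a good discrete valuation ring: the geometrically pro-`ℓ` fundamental groups of the curves
`a^m y^ℓ = ∏ f_i(x)^(e_i)`, `L` of degree prime to `ℓ` -/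
theorem typ_proEm {I : Type} [Fintype I] (d : I → ℕ) (hd4 : 4 ≤ ∑ i, d i)
    {k : Type} [Field k] [CharZero k] (q q' : ℕ) (a : k) (g : (Σ i, Fin (d i + 1)) → k)
    (h : Pool.Agent.X281.SEI.GoodI (fun κ _ c => TypC d κ c) q q' a g)
    (ℓ : ℕ) (hℓ : ℓ.Prime) (hℓq : ℓ ∣ q) (hℓd : ℓ < ∑ i, d i) (e : I → ℕ) (he : ∀ i, ¬ ℓ ∣ e i)
    (hsum : ℓ ∣ ∑ i, e i * d i)
    {L : Type} [Field L] [Algebra k L] [FiniteDimensional k L] (m : ℤ)
    (hm : ¬ (ℓ : ℤ) ∣ m * Module.finrank k L) (hL : ∀ i, ℓ ∣ d i ∨ Module.finrank k L < d i) :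
    FineP ℓ (algebraMap k L (a ^ m))
      ((∏ i, (pol fun j => g ⟨i, j⟩) ^ e i).map (algebraMap k L)) := by
  classical
  have hFUN : S_FUN := Pool.Agent.Y674.PS.funct Pool.Agent.Y157.PS.a_inrt
  have hfact : Fact ℓ.Prime := ⟨hℓ⟩
  obtain ⟨A, _, _, _, _, c, ϖ, t, s, hfr, hfin, hc, hP, hϖ, ht, hs, ha, hqA, -⟩ := h
  have hA := typA_of d c hP
  have hℓA : IsUnit (ℓ : A) := by
    obtain ⟨r, hr⟩ := hℓq
    rw [hr, Nat.cast_mul] at hqA
    exact isUnit_of_mul_isUnit_left hqA
  obtain ⟨tu, rfl⟩ := ht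
  set fA : A[X] := ∏ i, pol fun j => c ⟨i, j⟩ with hfA
  have hfAs : (fA.map (IsLocalRing.residue A)).Separable := hA.sep'
  -- the place of `L`
  let _ : Algebra A L := ((algebraMap k L).comp (algebraMap A k)).toAlgebra
  have hstR : IsScalarTower A k L := IsScalarTower.of_algebraMap_eq (fun _ => rfl)
  have hczL : CharZero L := charZero_of_injective_algebraMap (algebraMap k L).injective
  obtain ⟨B, _, _, _, _, hfrB, J, fd, hfdle, hfd0, hfdℓ, hfinB, hℓB, hJL, hJm, hJs, hJf,
    ϖ', t', m', hϖ', ht', hm', hat⟩ :=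
    dvr_hom (k := k) (L := L) ℓ hℓ hℓA ϖ ((tu ^ m : Aˣ) : A) hϖ
      (tu ^ m).isUnit (s * m) (by
        intro h4
        apply hm
        rcases hs with rfl | rfl
        · rwa [one_mul] at h4
        · rw [neg_one_mul, neg_mul, dvd_neg] at h4
          exact h4)
  have hJL' : ∀ z : A, algebraMap B L (J z) = algebraMap k L (algebraMap A k z) := by
    intro z
    rw [← RingHom.comp_apply, hJL]
    rfl
  have hJinj : Function.Injective J := by
    intro z w hzw
    have h4 := congrArg (algebraMap B L) hzw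
    rw [hJL', hJL'] at h4
    exact IsFractionRing.injective A k ((algebraMap k L).injective h4)
  have hcoef : algebraMap k L (a ^ m) = algebraMap B L t' * algebraMap B L ϖ' ^ m' := by
    rw [← hat]
    have h5 : a ^ m = algebraMap A k ((tu ^ m : Aˣ) : A) * algebraMap A k ϖ ^ (s * m) := by
      rw [ha, mul_zpow, ← zpow_mul, zpow_unit]
    rw [h5, map_mul, map_zpow₀]
    rfl
  have hfB : (∏ i, (pol fun j => g ⟨i, j⟩) ^ e i).map (algebraMap k L) =
      (∏ i, ((pol fun j => c ⟨i, j⟩ : A[X]).map J) ^ e i).map (algebraMap B L) := by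
    rw [Polynomial.map_prod, Polynomial.map_prod]
    refine Finset.prod_congr rfl fun i _ => ?_
    rw [Polynomial.map_pow, Polynomial.map_pow, Polynomial.map_map, hJL, pol_map, pol_map]
    congr 2
    funext j
    rw [← hc]
    rfl
  have hdeg : ∀ i, ((pol fun j => c ⟨i, j⟩ : A[X]).map J).natDegree = d i := fun i => by
    rw [natDegree_map_eq_of_injective hJinj]
    exact hA.deg i
  rw [hcoef, hfB]
  refine Pool.Agent.X281.OB.fineXm hFUN hℓB (fun i => (pol fun j => c ⟨i, j⟩ : A[X]).map J) e ?_ ?_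
    ?_ ?_ he ?_ ?_ ϖ' hϖ' _ m' hm' t' ht' rfl
  · intro i
    rw [leadingCoeff_map_of_injective hJinj]
    exact (hA.lc i).map J
  · have h6 := hJs _ hfAs
    rw [hfA, Polynomial.map_prod] at h6
    exact h6
  · rw [Finset.sum_congr rfl fun i _ => hdeg i]
    exact hℓd
  · rw [Finset.sum_congr rfl fun i _ => hdeg i]
    exact hd4
  · rw [Finset.sum_congr rfl fun i _ => by rw [hdeg i]]
    exact hsum
  · intro i b hb
    have h5 : ((((pol fun j => c ⟨i, j⟩ : A[X]).map J)).map
        (IsLocalRing.residue B)).eval (IsLocalRing.residue B b) = 0 := by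
      rw [eval_map, eval₂_at_apply]
      exact (IsLocalRing.residue_eq_zero_iff _).2 hb
    have hi : X - C (IsLocalRing.residue B b) ∣
        (((pol fun j => c ⟨i, j⟩ : A[X]).map J)).map (IsLocalRing.residue B) :=
      dvd_iff_isRoot.2 h5
    have h7 := hJf (d i) (pol fun j => c ⟨i, j⟩)
      (factorDiv_of_irreducible _ _ (hA.irr i) (by rw [hA.degr])) _
      (irreducible_X_sub_C _) hi
    rw [natDegree_X_sub_C, one_mul] at h7
    rcases hL i with hL | hL
    · exact hfdℓ (hL.trans h7)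
    · have h8 := Nat.le_of_dvd hfd0 h7
      omega

end Pool.Agent.X281.SE
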