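import Pool.Agent.X281.OB.Rel5
import Pool.Agent.X281.SE.Typ5

/-!
# Good discrete valuation rings for all prime numbers
-/

set_option autoImplicit false
set_option linter.all false

namespace Pool.Agent.X281.OB

open Pool.Agent.X281.SEI (GoodI CondI)

/-- two good discrete valuation rings with different residue characteristics are enough for all prime
numbers -/
theorem goodI_prime {ι : Type} (P : CondI ι) {k : Type} [Field k] {q₀ q₀' q₁ q₁' : ℕ} {a : k}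
    {g : ι → k} (h₀ : GoodI P q₀ q₀' a g) (h₁ : GoodI P q₁ q₁' a g) (hdvd : q₀' ∣ q₁) {ℓ : ℕ}
    (hℓ : ℓ.Prime) : ∃ q', GoodI P ℓ q' a g := by
  obtain ⟨A, i1, i2, i3, i4, c, ϖ, t, n, hfr, hfin, hc, hP, hϖ, ht, hn, ha, hq, hq'⟩ := h₀
  by_cases hu : IsUnit ((ℓ : ℕ) : A)
  · exact ⟨q₀', A, i1, i2, i3, i4, c, ϖ, t, n, hfr, hfin, hc, hP, hϖ, ht, hn, ha, hu, hq'⟩
  · have hdvd' : ℓ ∣ q₀' := by
      by_contra hno
      have h2 : IsCoprime ((ℓ : ℕ) : A) ((q₀' : ℕ) : A) := by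
        have h3 : IsCoprime (ℓ : ℤ) (q₀' : ℤ) :=
          Nat.isCoprime_iff_coprime.2 ((Nat.Prime.coprime_iff_not_dvd hℓ).2 hno)
        have h4 := h3.map (Int.castRingHom A)
        simpa using h4
      have h5 : ((ℓ : ℕ) : A) ∈ IsLocalRing.maximalIdeal A := (IsLocalRing.mem_maximalIdeal _).2 hu
      have h6 : ((q₀' : ℕ) : A) ∈ IsLocalRing.maximalIdeal A :=
        (IsLocalRing.mem_maximalIdeal _).2 hq'
      obtain ⟨u, v, huv⟩ := h2
      have h7 : (1 : A) ∈ IsLocalRing.maximalIdeal A := by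
        rw [← huv]
        exact add_mem (Ideal.mul_mem_left _ _ h5) (Ideal.mul_mem_left _ _ h6)
      exact (IsLocalRing.mem_maximalIdeal _).1 h7 isUnit_one
    obtain ⟨A, i1, i2, i3, i4, c, ϖ, t, n, hfr, hfin, hc, hP, hϖ, ht, hn, ha, hq, hq'⟩ := h₁
    refine ⟨q₁', A, i1, i2, i3, i4, c, ϖ, t, n, hfr, hfin, hc, hP, hϖ, ht, hn, ha, ?_, hq'⟩
    obtain ⟨r, hr⟩ := hdvd'.trans hdvd
    rw [hr, Nat.cast_mul] at hq
    exact isUnit_of_mul_isUnit_left hq

end Pool.Agent.X281.OB
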