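import Pool.Agent.X281.OB.MGlue
import Pool.Agent.Y158.FQ.Swp
import Pool.Agent.Y158.FQ.Set

/-!
# Covering fields for smaller sets of branch points
-/

set_option autoImplicit false
set_option linter.all false

namespace Pool.Agent.X281.OB

open Polynomial FF Pool.Agent.Y157.PS Pool.Agent.Y948.PS

section sub

variable {κ R Ω : Type} [Field κ] [IsAlgClosed κ] [CharZero κ] [Field R] [Field Ω] [Algebra κ R]
  [Algebra R Ω] [Algebra κ Ω] [IsScalarTower κ R Ω] [IsAlgClosure R Ω]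

/-- the maximal unramified pro-`ℓ` extension for a subset of the branch points -/
theorem maxPro_sub {ℓ : ℕ} [hp : Fact ℓ.Prime] {x : R} (hx : RatF κ x) (B₁ B : Finset κ)
    (hsub : B₁ ⊆ B) (hB₁ : ℓ ∣ B₁.card) (hB₁ne : B₁.Nonempty) (hB : ℓ ∣ B.card) (hBne : B.Nonempty)
    {Y₁ Y : Ω} (hY₁ : Y₁ ^ ℓ = ∏ e ∈ B₁, (algebraMap R Ω x - algebraMap κ Ω e))
    (hY : Y ^ ℓ = ∏ e ∈ B, (algebraMap R Ω x - algebraMap κ Ω e)) {z : Ω}
    (hz : z ∈ maxPro ℓ κ (IntermediateField.adjoin R {Y₁}) Ω) :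
    z ∈ maxPro ℓ κ (IntermediateField.adjoin R {Y}) Ω := by
  classical
  have hℓ0 : ℓ ≠ 0 := hp.out.ne_zero
  haveI : Algebra.IsAlgebraic R Ω := IsAlgClosure.isAlgebraic
  haveI : Normal R Ω := IsAlgClosure.normal R Ω
  have hU₁ : HU κ (IntermediateField.adjoin R {Y₁}) := fun W h3 h4 => by
    obtain ⟨π, h5, -⟩ := unf_of_k0 hx B₁ hB₁ hB₁ne hY₁ W h3 h4
    exact ⟨π, h5⟩
  have hU : HU κ (IntermediateField.adjoin R {Y}) := fun W h3 h4 => by
    obtain ⟨π, h5, -⟩ := unf_of_k0 hx B hB hBne hY W h3 h4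
    exact ⟨π, h5⟩
  have hxm : ∀ e : κ, algebraMap R Ω x - algebraMap κ Ω e = algebraMap R Ω (x - algebraMap κ R e) :=
    fun e => by rw [map_sub, ← IsScalarTower.algebraMap_apply]
  have hYf₁ : Y₁ ^ ℓ = algebraMap R Ω (∏ e ∈ B₁, (x - algebraMap κ R e)) := by
    rw [hY₁, map_prod]
    exact Finset.prod_congr rfl fun e _ => hxm e
  have hYf : Y ^ ℓ = algebraMap R Ω (∏ e ∈ B, (x - algebraMap κ R e)) := by
    rw [hY, map_prod]
    exact Finset.prod_congr rfl fun e _ => hxm e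
  have h3 := maxPro_le hx hYf₁ hU₁ hz
  refine le_maxPro hYf hU ⟨h3.1, fun W h4 h5 => ?_⟩
  obtain ⟨π, hπ, hcase⟩ := unf_of_k0 hx B hB hBne hY W h4 h5
  have hcase' : (∃ e ∈ B, W.valuation (algebraMap R Ω x - algebraMap κ Ω e) =
      W.valuation π ^ (ℓ : ℤ)) ∨ (∃ a, a ∉ B ∧ π = algebraMap R Ω x - algebraMap κ Ω a) ∨
      π = (algebraMap R Ω x)⁻¹ := by
    rcases hcase with ⟨e, he, h6⟩ | h6 | h6
    · left; exact ⟨e, he, by rw [zpow_natCast]; exact h6⟩
    · right; left; exact h6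
    · right; right; exact h6
  have hY₁' : Y₁ ^ ℓ = ∏ e ∈ B, (algebraMap R Ω x - algebraMap κ Ω e) ^
      (if e ∈ B₁ then 1 else 0) := by
    rw [hY₁]
    simp only [pow_ite, pow_one, pow_zero]
    rw [Finset.prod_ite_mem, Finset.inter_eq_right.2 hsub]
  obtain ⟨j, hj⟩ := hB₁
  obtain ⟨n, hn⟩ : ∃ n : ℤ, W.valuation (Y₁ ^ ℓ) = W.valuation π ^ ((ℓ : ℤ) * n) := by
    rw [hY₁']
    rcases val_prod W h4 B (fun e => if e ∈ B₁ then 1 else 0) hπ.pos hπ.lt hp.out.pos hcase' with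
      ⟨e, he, h5, h6⟩ | ⟨⟨a, ha, h5⟩, h6⟩ | ⟨h5, h6⟩
    · exact ⟨_, h6⟩
    · exact ⟨0, by rw [h6, mul_zero, zpow_zero]⟩
    · refine ⟨-j, ?_⟩
      rw [h6, Finset.sum_ite_mem, Finset.inter_eq_right.2 hsub, Finset.sum_const, smul_eq_mul,
        mul_one, hj]
      congr 1
      push_cast
      ring
  have h6 : Apx (IntermediateField.adjoin R {Y}) W Y₁ := by
    refine Apx.root hπ (hres hx _ W h4 h5) hℓ0 (vl hℓ0 W h4) Y₁ ?_ n hn
    rw [hYf₁]
    exact Apx.of_mem (algebraMap_mem _ _)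
  exact apx_change (apx_adjoin h6) (h3.2 W h4 h5)

end sub

section aut

variable {k F Ω : Type} [Field k] [Field F] [Field Ω] [Algebra k F] [Algebra F Ω]
  [Algebra k Ω] [IsScalarTower k F Ω]

/-- automorphisms map the maximal unramified pro-`ℓ` extension onto itself -/
theorem maxPro_stab {ℓ : ℕ} (U Y : Ω) (ψ : Ω ≃ₐ[F] Ω) (c c' : algebraicClosure k Ω)
    (hc : c ≠ 0) (hc' : c' ≠ 0) (hU : ψ U = (c : Ω) * U) (hY : ψ Y = (c' : Ω) * Y) (z : Ω)
    (hz : z ∈ maxPro ℓ (algebraicClosure k Ω) (IntermediateField.adjoin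
      (IntermediateField.adjoin (algebraicClosure k Ω) {U}) {Y}) Ω) :
    ψ z ∈ maxPro ℓ (algebraicClosure k Ω) (IntermediateField.adjoin
      (IntermediateField.adjoin (algebraicClosure k Ω) {U}) {Y}) Ω := by
  have hκ : ∀ (φ : Ω ≃ₐ[F] Ω) (b : algebraicClosure k Ω), φ (b : Ω) ∈ algebraicClosure k Ω := by
    intro φ b
    have h1 : IsAlgebraic k ((φ : Ω →ₐ[F] Ω).restrictScalars k (b : Ω)) :=
      (mem_algebraicClosure_iff.1 b.2).algHom _
    exact mem_algebraicClosure_iff.2 h1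
  have key : ∀ (φ : Ω ≃ₐ[F] Ω) (d d' : algebraicClosure k Ω), φ U = (d : Ω) * U →
      φ Y = (d' : Ω) * Y → ∀ w ∈ IntermediateField.adjoin
        (IntermediateField.adjoin (algebraicClosure k Ω) {U}) {Y}, φ w ∈ IntermediateField.adjoin
        (IntermediateField.adjoin (algebraicClosure k Ω) {U}) {Y} := by
    intro φ d d' h1 h2 w hw
    refine adj_le2 U Y ((IntermediateField.adjoin (IntermediateField.adjoin
      (algebraicClosure k Ω) {U}) {Y}).toSubfield.comap ((φ : Ω ≃+* Ω) : Ω →+* Ω))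
      (fun b => ?_) ?_ ?_ w hw
    · exact adj_mem_c U Y (⟨_, hκ φ b⟩ : algebraicClosure k Ω)
    · rw [Subfield.mem_comap]
      change φ U ∈ _
      rw [h1]
      exact mul_mem (adj_mem_c U Y d) (adj_mem_U U Y)
    · rw [Subfield.mem_comap]
      change φ Y ∈ _
      rw [h2]
      exact mul_mem (adj_mem_c U Y d') (adj_mem_V U Y)
  have hinv : ∀ (d : algebraicClosure k Ω) (u : Ω), d ≠ 0 → ψ u = (d : Ω) * u →
      ψ.symm u = ((⟨_, hκ ψ.symm d⁻¹⟩ : algebraicClosure k Ω) : Ω) * u := by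
    intro d u hd h
    have hd' : (d : Ω) ≠ 0 := fun h => hd (Subtype.ext h)
    apply ψ.injective
    rw [ψ.apply_symm_apply, map_mul, h]
    change u = ψ (ψ.symm ((d⁻¹ : algebraicClosure k Ω) : Ω)) * _
    rw [ψ.apply_symm_apply]
    push_cast
    rw [inv_mul_cancel_left₀ hd']
  let e : IntermediateField.adjoin
      (IntermediateField.adjoin (algebraicClosure k Ω) {U}) {Y} ≃+* IntermediateField.adjoin
      (IntermediateField.adjoin (algebraicClosure k Ω) {U}) {Y} :=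
    { toFun := fun w => ⟨ψ w, key ψ c c' hU hY w w.2⟩
      invFun := fun w => ⟨ψ.symm w, key ψ.symm _ _ (hinv c U hc hU) (hinv c' Y hc' hY) w w.2⟩
      left_inv := fun w => Subtype.ext (ψ.symm_apply_apply w.1)
      right_inv := fun w => Subtype.ext (ψ.apply_symm_apply w.1)
      map_mul' := fun w w' => Subtype.ext (map_mul ψ w.1 w'.1)
      map_add' := fun w w' => Subtype.ext (map_add ψ w.1 w'.1) }
  exact Pool.Agent.Y158.FQ.maxPro_map (κ₁ := algebraicClosure k Ω) (κ₂ := algebraicClosure k Ω)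
    (ψ : Ω ≃+* Ω) e (fun a => rfl) (fun W hW b => hW (⟨_, hκ ψ b⟩ : algebraicClosure k Ω)) z hz

end aut

end Pool.Agent.X281.OB
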